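import Pool.Agent.AESF.Graph

/-!
# Bounded-degree oriented trees with an arborescence behind an edge, in tournaments

From the statement for coded trees with a free end at the root to the statement for oriented trees.
-/

set_option autoImplicit false

namespace AESF

open Finset Relation AE15 AED AEB AELT AEK AEJ
open scoped Classical

/-- the statement for coded trees: a tree with a pure branch at the root, which hangs by an arc away from the root -/
def SFSt : Prop := ∀ b : ℕ, 1 ≤ b → ∀ θ : ℝ, 0 < θ → ∃ C : ℕ, ∀ {V : Type} {R : V → V → Prop}, AE32.Tour R →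
  ∀ c F : Fd, c.len ≤ b → c.Deg b → (true, F) ∈ c.trees → FOK b 0 0 F → θ * (c.size + 1) ≤ (F.size + 1 : ℝ) →
    ∀ X : Finset V, c.size + 1 + C ≤ X.card → In R c (fun _ => True) X

/-- a pure branch at the root, joined to it by an arc of any direction -/
theorem sf_any (h : SFSt) (b : ℕ) (hb : 1 ≤ b) {θ : ℝ} (hθ : 0 < θ) : ∃ C : ℕ, ∀ {V : Type} {R : V → V → Prop},
    AE32.Tour R → ∀ (c F : Fd) (d : Bool), c.len ≤ b → c.Deg b → (d, F) ∈ c.trees → FOK b 0 0 F →
      θ * (c.size + 1) ≤ (F.size + 1 : ℝ) → ∀ X : Finset V, c.size + 1 + C ≤ X.card → In R c (fun _ => True) X := by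
  obtain ⟨C₁, h1⟩ := h b hb θ hθ
  obtain ⟨ε, μ, hε, hμ, h2⟩ := AEN.scales_pure b hb (θ := min θ 1) (lt_min hθ one_pos) (min_le_right _ _)
  obtain ⟨C₂, h3⟩ := h2 0
  refine ⟨C₁ + C₂, ?_⟩
  intro V R hT c F d hl hD hF hFO hθF X hX
  cases d with
  | true => exact h1 hT c F hl hD hF hFO hθF X (by omega)
  | false =>
    refine h3 hT (ε := ε) (μ := μ) le_rfl le_rfl c hl hD (AEN.BlN.rig c (false, F) F.size hF ?_ ?_) X (by omega)
    · left
      exact ⟨rfl, ⟨hFO.1.trans (by omega), AEK.deg_mono (by omega) hFO.2.1, hFO.2.2⟩, rfl⟩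
    · refine le_trans (mul_le_mul_of_nonneg_right (min_le_left _ _) (by positivity)) hθF

/-- **Trees with an arborescence behind an edge.** -/
def ArbEndSt : Prop := ∀ (Δ : ℕ) (θ : ℝ), 0 < θ → ∃ C : ℕ, ∀ k n : ℕ, k + C ≤ n → ∀ R : Fin n → Fin n → Prop,
    (∀ a, ¬ R a a) → (∀ a b, a ≠ b → R a b ∨ R b a) → (∀ a b, R a b → ¬ R b a) →
    ∀ E : Fin (k + 1) → Fin (k + 1) → Prop,
      (∀ a b, E a b → ¬ E b a) →
      (SimpleGraph.fromRel E).IsTree →
      (∀ v, ((SimpleGraph.fromRel E).neighborSet v).ncard ≤ Δ) →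
      (∃ u v, (SimpleGraph.fromRel E).Adj u v ∧
        θ * k ≤ ({x | (SimpleGraph.fromRel E).dist v x < (SimpleGraph.fromRel E).dist u x}.ncard : ℝ) ∧
        ((∀ x, (SimpleGraph.fromRel E).dist v x < (SimpleGraph.fromRel E).dist u x → ReflTransGen E v x) ∨
          (∀ x, (SimpleGraph.fromRel E).dist v x < (SimpleGraph.fromRel E).dist u x → ReflTransGen E x v))) →
      ∃ f : Fin (k + 1) → Fin n, Function.Injective f ∧ ∀ a b, E a b → R (f a) (f b)

theorem arb_end_out (h : SFSt) (Δ : ℕ) {θ : ℝ} (hθ : 0 < θ) : ∃ C : ℕ, ∀ k n : ℕ, k + C ≤ n →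
    ∀ R : Fin n → Fin n → Prop,
    (∀ a, ¬ R a a) → (∀ a b, a ≠ b → R a b ∨ R b a) → (∀ a b, R a b → ¬ R b a) →
    ∀ E : Fin (k + 1) → Fin (k + 1) → Prop,
      (∀ a b, E a b → ¬ E b a) →
      (SimpleGraph.fromRel E).IsTree →
      (∀ v, ((SimpleGraph.fromRel E).neighborSet v).ncard ≤ Δ) →
      (∃ u v, (SimpleGraph.fromRel E).Adj u v ∧
        θ * k ≤ ({x | (SimpleGraph.fromRel E).dist v x < (SimpleGraph.fromRel E).dist u x}.ncard : ℝ) ∧
        (∀ x, (SimpleGraph.fromRel E).dist v x < (SimpleGraph.fromRel E).dist u x → ReflTransGen E v x)) →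
      ∃ f : Fin (k + 1) → Fin n, Function.Injective f ∧ ∀ a b, E a b → R (f a) (f b) := by
  obtain ⟨C, hC⟩ := sf_any h (max Δ 1) (le_max_right _ _) (θ := θ / 2) (by positivity)
  refine ⟨C + 1, ?_⟩
  rintro k n hn R h1 h2 h3 E h4 h5 h6 ⟨u, v, huv, hθv, hv⟩
  have h6' : ∀ v, {w | E v w ∨ E w v}.ncard ≤ max Δ 1 := by
    intro v
    refine le_trans (le_of_eq ?_) ((h6 v).trans (le_max_left _ _))
    congr 1
    ext w
    rw [SimpleGraph.mem_neighborSet, SimpleGraph.fromRel_adj]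
    constructor
    · intro h
      refine ⟨?_, h⟩
      rintro rfl
      rcases h with h | h
      · exact h4 _ _ h h
      · exact h4 _ _ h h
    · intro h
      exact h.2
  obtain ⟨c, F, g1, g2, g3, g4, g5, g6, -, g8⟩ := graph_arb h4 h5 h6' huv
  have hk : 1 ≤ k := by
    by_contra hk
    obtain rfl : k = 0 := by omega
    have := u.isLt
    have := v.isLt
    exact huv.ne (Fin.ext (by omega))
  have hk1 : (1 : ℝ) ≤ k := by exact_mod_cast hk
  have h7 : In R c (fun _ => True) univ := by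
    refine hC ⟨h1, h2, h3⟩ c F _ g2 g3 g4 (g6 hv) ?_ univ ?_
    · have g5' : (F.size : ℝ) + 1 =
          {x | (SimpleGraph.fromRel E).dist v x < (SimpleGraph.fromRel E).dist u x}.ncard := by exact_mod_cast g5
      rw [g1, g5']
      refine le_trans ?_ hθv
      nlinarith
    · rw [g1, card_univ, Fintype.card_fin]
      omega
  obtain ⟨f, f1, -, -, f4⟩ := g8 h7
  exact ⟨f, f1, f4⟩

/-- **every tree with an arborescence behind an edge** -/
theorem arb_end_of (h : SFSt) : ArbEndSt := by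
  intro Δ θ hθ
  obtain ⟨C, hC⟩ := arb_end_out h Δ hθ
  refine ⟨C, ?_⟩
  rintro k n hn R h1 h2 h3 E h4 h5 h6 ⟨u, v, huv, hθv, hv | hv⟩
  · exact hC k n hn R h1 h2 h3 E h4 h5 h6 ⟨u, v, huv, hθv, hv⟩
  · have he : SimpleGraph.fromRel (fun a b => E b a) = SimpleGraph.fromRel E := by
      ext a b
      rw [SimpleGraph.fromRel_adj, SimpleGraph.fromRel_adj, or_comm]
    obtain ⟨f, hf1, hf2⟩ := hC k n hn (fun a b => R b a) h1 (fun a b hab => (h2 a b hab).symm) (fun a b => h3 b a)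
      (fun a b => E b a) (fun a b => h4 b a) (by rw [he]; exact h5) (by rw [he]; exact h6)
      ⟨u, v, by rw [he]; exact huv, by rw [he]; exact hθv, by
        rw [he]
        intro x hx
        exact reflTransGen_swap.2 (hv x hx)⟩
    exact ⟨f, hf1, fun a b hab => hf2 b a hab⟩

end AESF
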