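import Pool.Agent.AER.RigI
import Pool.Agent.AEY.ClosR

/-!
# A pure out-branch hanging by an arc towards its host, unrooted
-/

set_option autoImplicit false

namespace AESF

open Finset AE15 AED AELT AEB
open scoped Classical

theorem blk_of_true {F : Fd} (h : ∀ p ∈ F.trees, p.1 = true) : AEB.blk F = 0 := by
  induction F with
  | nil => rfl
  | node d c s _ ih =>
    have h1 : d = true := h (d, c) (by simp [Fd.trees])
    subst h1
    simp only [AEB.blk, if_true, Nat.zero_add]
    exact ih fun p hp => h p (by simp [Fd.trees, hp])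

theorem blk_pure {b : ℕ} {F : Fd} (h : FOK b 0 0 F) : AEB.blk F = 0 :=
  blk_of_true fun _ hp => (AER.pure_child h hp).1

/-- **The unrooted theorem for a tree with a large out-arborescence hanging by an arc away from it** -/
theorem arc_in (b : ℕ) (hb : 1 ≤ b) {θ : ℝ} (hθ : 0 < θ) (hθ1 : θ ≤ 1) : ∃ C : ℕ, ∀ {V : Type} {R : V → V → Prop},
    AE32.Tour R → ∀ c F : Fd, c.len ≤ b → c.Deg b → (false, F) ∈ c.trees → FOK b 0 0 F →
      θ * (c.size + 1) ≤ (F.size + 1 : ℝ) → ∀ X : Finset V, c.size + 1 + C ≤ X.card → In R c (fun _ => True) X := by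
  obtain ⟨C₀, h⟩ := AER.rigI b hb hθ (κ := θ / 64) (ε := θ / 8) (β := θ / 4) (by positivity) (by positivity)
    (by positivity)
  obtain ⟨C, hC⟩ := exists_nat_ge (max C₀ (24 / θ))
  refine ⟨C, ?_⟩
  intro V R hT c F hl hD hF hFOK hθF X hX
  have c1 : C₀ ≤ C := (le_max_left _ _).trans hC
  have c2 : 24 / θ ≤ C := (le_max_right _ _).trans hC
  rw [div_le_iff₀ hθ] at c2
  obtain ⟨s, hs⟩ := AER.eqt_first hF
  have hsz : c.size = F.size + s.size + 1 := by
    rw [← hs.size]
    rfl
  have hdcl : dcl c = dcl s := by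
    rw [← hs.dcl]
    simp [dcl]
  have hblk : AEB.blk c = AEB.blk s + 1 := by
    rw [← hs.blk]
    simp only [AEB.blk, Bool.false_eq_true, if_false, blk_pure hFOK]
    omega
  have hds : dcl s + AEB.blk s ≤ s.size := AEJ.dcl_add_blk_le s
  refine AEY.in_of_coarse hθ hθ1 c2 (Nat.cast_nonneg _) ?_ (h C c1 c F hl hD hF hFOK hθF) hT X
    (by exact_mod_cast hX)
  have h1 : (dcl c : ℝ) + AEB.blk c ≤ s.size + 1 := by
    rw [hdcl, hblk]
    exact_mod_cast (by omega : dcl s + (AEB.blk s + 1) ≤ s.size + 1)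
  have h2 : (c.size : ℝ) = F.size + s.size + 1 := by exact_mod_cast hsz
  rw [h2] at hθF ⊢
  linarith

end AESF
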