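import Pool.Agent.AESF.TopX

/-!
# The tops of a branch at a bad host, with all the items
-/

set_option autoImplicit false

namespace AESF

open Finset AE15 AED AEB AER
open scoped Classical

variable {V : Type} {R : V → V → Prop}

/-- the roots of the trees of a forest on a list of out-neighbours, everything else pending -/
theorem rootsX {b : ℕ} {z : V} (ts : List (Bool × Fd)) : ∀ xs : List V,
    (∀ p ∈ ts, p.1 = true ∧ OutD b 1 p.2) → ts.length ≤ xs.length → xs.Nodup → (∀ x ∈ xs, R z x) →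
    ∃ Z L, PEL R z ts Z L ∧ Z ⊆ xs.toFinset ∧ Z.card ≤ ts.length ∧ L.length ≤ ts.length * b ∧
      (∀ q ∈ L, q.1 ∈ Z ∧ ∃ p ∈ ts, ∃ r ∈ p.2.trees, q.2 = r.2) ∧
      ∀ p ∈ ts, ∀ r ∈ p.2.trees, ∃ q ∈ L, q.2 = r.2 := by
  induction ts with
  | nil => intro xs _ _ _ _; exact ⟨∅, [], ⟨rfl, rfl⟩, by simp, by simp, by simp, by simp, by simp⟩
  | cons p ts ih =>
    intro xs hp hl hnd hx
    obtain _ | ⟨x, xs⟩ := xs
    · simp at hl
    obtain ⟨Z, L, h1, h2, h3, h4, h5, h6⟩ := ih xs (fun q hq => hp q (List.mem_cons_of_mem _ hq)) (by simpa using hl)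
      (List.nodup_cons.1 hnd).2 (fun y hy => hx y (List.mem_cons_of_mem _ hy))
    obtain ⟨d, c⟩ := p
    obtain ⟨g1, g2⟩ := hp (d, c) List.mem_cons_self
    simp only at g1 g2
    subst g1
    have hxZ : x ∉ Z := fun h => (List.nodup_cons.1 hnd).1 (List.mem_toFinset.1 (h2 h))
    refine ⟨insert x ∅ ∪ Z, c.trees.map (fun p => (x, p.2)) ++ L, ⟨insert x ∅, Z, _, _, ?_, rfl, rfl,
      Or.inr ⟨x, ∅, by simpa [Adj] using hx x List.mem_cons_self, by simp, rfl, g2.pend x⟩, h1⟩, ?_, ?_, ?_, ?_, ?_⟩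
    · rw [disjoint_left]
      intro a ha
      rw [mem_insert] at ha
      rcases ha with rfl | ha
      · exact hxZ
      · simp at ha
    · intro a ha
      rw [mem_union, mem_insert] at ha
      rw [List.mem_toFinset]
      rcases ha with (rfl | ha) | ha
      · exact List.mem_cons_self
      · simp at ha
      · exact List.mem_cons_of_mem _ (List.mem_toFinset.1 (h2 ha))
    · refine (card_union_le _ _).trans ?_
      simp only [insert_empty_eq, card_singleton, List.length_cons]
      omega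
    · rw [List.length_append, List.length_map, length_trees, List.length_cons, add_mul, one_mul]
      have := g2.1
      omega
    · intro q hq
      rcases List.mem_append.1 hq with hq | hq
      · obtain ⟨r, hr, rfl⟩ := List.mem_map.1 hq
        exact ⟨by simp, (true, c), List.mem_cons_self, r, hr, rfl⟩
      · obtain ⟨p, hp, r, hr, h7⟩ := (h5 q hq).2
        exact ⟨mem_union_right _ (h5 q hq).1, p, List.mem_cons_of_mem _ hp, r, hr, h7⟩
    · intro p hp r hr
      rcases List.mem_cons.1 hp with rfl | hp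
      · exact ⟨(x, r.2), List.mem_append.2 (Or.inl (List.mem_map.2 ⟨r, hr, rfl⟩)), rfl⟩
      · obtain ⟨q, hq, h7⟩ := h6 p hp r hr
        exact ⟨q, List.mem_append.2 (Or.inr hq), h7⟩

theorem twoX {b : ℕ} {y : V} {K : Finset V} (ts : List (Bool × Fd)) : ∀ (fs : List V) (U : Finset V),
    (∀ p ∈ ts, p.1 = true ∧ OutD b 2 p.2) → ts.length ≤ fs.length → fs.Nodup → (∀ z ∈ fs, R y z ∧ z ∉ K) →
    (∀ z ∈ fs, ts.length * b ≤ ((K \ U).filter (R z)).card) →
    ∃ Z L, PEL R y ts Z L ∧ Z ⊆ fs.toFinset ∪ (K \ U) ∧ Z.card ≤ ts.length * (b + 1) ∧ L.length ≤ ts.length * (b * b) ∧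
      (∀ q ∈ L, q.1 ∈ K ∧ ∃ p ∈ ts, ∃ r ∈ p.2.trees, ∃ s ∈ r.2.trees, q.2 = s.2) ∧
      ∀ p ∈ ts, ∀ r ∈ p.2.trees, ∀ s ∈ r.2.trees, ∃ q ∈ L, q.2 = s.2 := by
  induction ts with
  | nil => intro fs U _ _ _ _ _; exact ⟨∅, [], ⟨rfl, rfl⟩, by simp, by simp, by simp, by simp, by simp⟩
  | cons p ts ih =>
    intro fs U hp hl hnd hf hd
    obtain _ | ⟨z, fs⟩ := fs
    · simp at hl
    obtain ⟨d, c⟩ := p
    obtain ⟨g1, g2⟩ := hp (d, c) List.mem_cons_self
    simp only at g1 g2
    subst g1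
    have hz := hd z List.mem_cons_self
    rw [List.length_cons, add_mul, one_mul] at hz
    obtain ⟨T, hT1, hT2⟩ := exists_subset_card_eq (s := (K \ U).filter (R z)) (n := c.len)
      (le_trans g2.1 (by omega))
    obtain ⟨Z₁, L₁, a1, a2, a3, a4, a5, a6⟩ := rootsX (R := R) (b := b) (z := z) c.trees T.toList
      (fun q hq => g2.2 q hq) (by rw [length_trees, length_toList, hT2]) (nodup_toList T)
      (fun x hx => (mem_filter.1 (hT1 (mem_toList.1 hx))).2)
    rw [length_trees] at a3 a4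
    obtain ⟨Z₂, L₂, b1, b2, b3, b4, b5, b6⟩ := ih fs (U ∪ T) (fun q hq => hp q (List.mem_cons_of_mem _ hq))
      (by simpa using hl) (List.nodup_cons.1 hnd).2 (fun x hx => hf x (List.mem_cons_of_mem _ hx)) (by
        intro x hx
        have h1 := hd x (List.mem_cons_of_mem _ hx)
        rw [List.length_cons, add_mul, one_mul] at h1
        have h2 : (K \ U).filter (R x) ⊆ (K \ (U ∪ T)).filter (R x) ∪ T := by
          intro a ha
          rw [mem_filter, mem_sdiff] at ha
          rw [mem_union, mem_filter, mem_sdiff, mem_union]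
          by_cases h3 : a ∈ T
          · exact Or.inr h3
          · exact Or.inl ⟨⟨ha.1.1, fun h => h.elim ha.1.2 h3⟩, ha.2⟩
        have h3 := (card_le_card h2).trans (card_union_le _ _)
        have h4 := g2.1
        omega)
    have hT3 : ∀ a ∈ Z₁, a ∈ K ∧ a ∉ U ∧ a ∈ T := by
      intro a ha
      have h1 := mem_toList.1 (List.mem_toFinset.1 (a2 ha))
      have h2 := (mem_filter.1 (hT1 h1)).1
      rw [mem_sdiff] at h2
      exact ⟨h2.1, h2.2, h1⟩
    have hzK := (hf z List.mem_cons_self).2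
    have hzZ : z ∉ Z₁ := fun h => hzK (hT3 z h).1
    have hdis : Disjoint (insert z Z₁) Z₂ := by
      rw [disjoint_left]
      intro a ha ha2
      have h1 := b2 ha2
      rw [mem_union, mem_sdiff, mem_union, List.mem_toFinset] at h1
      rcases mem_insert.1 ha with rfl | ha
      · rcases h1 with h1 | h1
        · exact (List.nodup_cons.1 hnd).1 h1
        · exact hzK h1.1
      · obtain ⟨h2, h3, h4⟩ := hT3 a ha
        rcases h1 with h1 | h1
        · exact (hf a (List.mem_cons_of_mem _ h1)).2 h2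
        · exact h1.2 (Or.inr h4)
    refine ⟨insert z Z₁ ∪ Z₂, L₁ ++ L₂, ⟨insert z Z₁, Z₂, L₁, L₂, hdis, rfl, rfl, Or.inr ⟨z, Z₁, by
      simpa [Adj] using (hf z List.mem_cons_self).1, hzZ, rfl, (pe_iff c z Z₁ L₁).2 a1⟩, b1⟩, ?_, ?_, ?_, ?_, ?_⟩
    · intro a ha
      rw [mem_union, List.mem_toFinset, mem_sdiff]
      rcases mem_union.1 ha with ha | ha
      · rcases mem_insert.1 ha with rfl | ha
        · exact Or.inl List.mem_cons_self
        · exact Or.inr ⟨(hT3 a ha).1, (hT3 a ha).2.1⟩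
      · have h1 := b2 ha
        rw [mem_union, mem_sdiff, mem_union, List.mem_toFinset] at h1
        rcases h1 with h1 | h1
        · exact Or.inl (List.mem_cons_of_mem _ h1)
        · exact Or.inr ⟨h1.1, fun h => h1.2 (Or.inl h)⟩
    · have h1 := card_insert_le z Z₁
      have h2 := card_union_le (insert z Z₁) Z₂
      have h3 := g2.1
      rw [List.length_cons, add_mul, one_mul]
      omega
    · rw [List.length_append, List.length_cons, add_mul, one_mul]
      have h1 : c.len * b ≤ b * b := Nat.mul_le_mul_right b g2.1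
      omega
    · intro q hq
      rcases List.mem_append.1 hq with hq | hq
      · obtain ⟨r, hr, s, hs, h7⟩ := (a5 q hq).2
        exact ⟨(hT3 _ (a5 q hq).1).1, (true, c), List.mem_cons_self, r, hr, s, hs, h7⟩
      · obtain ⟨h7, p, hp, r, hr, s, hs, h8⟩ := b5 q hq
        exact ⟨h7, p, List.mem_cons_of_mem _ hp, r, hr, s, hs, h8⟩
    · intro p hp r hr s hs
      rcases List.mem_cons.1 hp with rfl | hp
      · obtain ⟨q, hq, h7⟩ := a6 r hr s hs
        exact ⟨q, List.mem_append.2 (Or.inl hq), h7⟩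
      · obtain ⟨q, hq, h7⟩ := b6 p hp r hr s hs
        exact ⟨q, List.mem_append.2 (Or.inr hq), h7⟩

/-- the tops of a forest at a bad host `y`: the children of the common vertex at `f j`, all grandchildren at vertices of
`K`; the pending items are exactly the trees of the third level, and every one hangs on a vertex of `K` -/
theorem bcastO {b : ℕ} {F : Fd} (hF : OutD b 3 F) {y : V} {f : ℕ → V} {K : Finset V} (hf : ∀ j < b, R y (f j))
    (hfi : ∀ i < b, ∀ j < b, f i = f j → i = j) (hfK : ∀ j < b, f j ∉ K)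
    (hfd : ∀ j < b, b * b ≤ (K.filter (fun x => R (f j) x)).card) :
    ∃ (Z : Finset V) (L : List (V × Fd)), PE R F y Z L ∧ Z ⊆ (range b).image f ∪ K ∧ Z.card ≤ b + b * b ∧
      L.length ≤ b * b * b ∧
      (∀ q ∈ L, q.1 ∈ K ∧ ∃ p ∈ F.trees, ∃ r ∈ p.2.trees, ∃ s ∈ r.2.trees, q.2 = s.2) ∧
      ∀ p ∈ F.trees, ∀ r ∈ p.2.trees, ∀ s ∈ r.2.trees, ∃ q ∈ L, q.2 = s.2 := by
  have hlen : F.trees.length ≤ b := by rw [length_trees]; exact hF.1
  have hm : ∀ z, z ∈ (List.range b).map f ↔ ∃ j < b, f j = z := by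
    intro z
    simp only [List.mem_map, List.mem_range]
  obtain ⟨Z, L, h1, h2, h3, h4, h5, h6⟩ := twoX (R := R) (b := b) (y := y) (K := K) F.trees ((List.range b).map f) ∅
    (fun p hp => hF.2 p hp) (by rw [List.length_map, List.length_range]; exact hlen)
    (List.Nodup.map_on (fun i hi j hj h => hfi i (List.mem_range.1 hi) j (List.mem_range.1 hj) h) List.nodup_range)
    (by
      intro z hz
      obtain ⟨j, hj, rfl⟩ := (hm z).1 hz
      exact ⟨hf j hj, hfK j hj⟩)
    (by
      intro z hz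
      obtain ⟨j, hj, rfl⟩ := (hm z).1 hz
      rw [sdiff_empty]
      exact (Nat.mul_le_mul_right b hlen).trans (hfd j hj))
  refine ⟨Z, L, (pe_iff F y Z L).2 h1, ?_, ?_, ?_, h5, h6⟩
  · intro a ha
    have h6 := h2 ha
    rw [sdiff_empty, mem_union, List.mem_toFinset] at h6
    rw [mem_union, mem_image]
    rcases h6 with h6 | h6
    · obtain ⟨j, hj, rfl⟩ := (hm a).1 h6
      exact Or.inl ⟨j, mem_range.2 hj, rfl⟩
    · exact Or.inr h6
  · refine h3.trans ((Nat.mul_le_mul_right _ hlen).trans ?_)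
    rw [mul_add, mul_one]
    omega
  · refine h4.trans ((Nat.mul_le_mul_right _ hlen).trans ?_)
    rw [mul_assoc]

end AESF
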