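import Pool.Agent.AER.RigI
import Pool.Agent.AER.Avoid

/-!
# Free ends: hosts fixed in advance and out-arborescences as items, as a black box
-/

set_option autoImplicit false

namespace AESF

open Finset AE15 AED AELT AEB AER
open scoped Classical

/-- **Hosts fixed in advance, black box.** `x` are the hosts, `E` is a small set containing them, `Q` is the reserve:
whatever set `P ⊇ Q` outside `E` is left over, at most `m + 1` out-arborescences hung at hosts, one of them large, fit into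
`P` up to a bounded number of vertices. -/
theorem box (b N e m : ℕ) (hb : 1 ≤ b) (hN : 1 ≤ N) {τ d : ℝ} (hτ : 0 < τ) (hd : 0 < d) : ∃ n₀ C₁ : ℕ,
    ∀ {V : Type} {R : V → V → Prop}, AE32.Tour R → ∀ Y : Finset V, n₀ ≤ Y.card → ∃ x : ℕ → V, (∀ i < N, x i ∈ Y) ∧
      (∀ i < N, ∀ j < N, x i = x j → i = j) ∧ ∀ E ⊆ Y, E.card ≤ e → (∀ i < N, x i ∈ E) → ∃ Q ⊆ Y \ E,
        (Q.card : ℝ) ≤ d * Y.card ∧ ∀ P ⊆ Y, Disjoint P E → Q ⊆ P → ∀ L : List (V × Fd), L.length ≤ m + 1 →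
          (∀ q ∈ L, (∃ i < N, q.1 = x i) ∧ FOK b 0 0 q.2) → (∃ q ∈ L, τ * Y.card ≤ (q.2.size + 1 : ℝ)) →
            AEB.isz L + C₁ ≤ P.card → ∃ A ⊆ P, AEB.EmbI R L A := by
  obtain ⟨δ₀, hδ₀, hrest⟩ := AER.avoid b m hb (κ := 1) (ε := 1) (θ := 1) one_pos one_pos one_pos
  obtain ⟨τ₀, hτ₀⟩ : ∃ τ₀ : ℝ, τ₀ = min τ 1 := ⟨_, rfl⟩
  have t1 : 0 < τ₀ := by rw [hτ₀]; exact lt_min hτ one_pos
  have t2 : τ₀ ≤ τ := by rw [hτ₀]; exact min_le_left _ _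
  have t3 : τ₀ ≤ 1 := by rw [hτ₀]; exact min_le_right _ _
  have hm0 : (0 : ℝ) ≤ m := Nat.cast_nonneg _
  obtain ⟨ζ, hζ⟩ : ∃ ζ : ℝ, ζ = min (min δ₀ (τ₀ / 4)) (d / 2) := ⟨_, rfl⟩
  have z0 : 0 < ζ := by rw [hζ]; exact lt_min (lt_min hδ₀ (by positivity)) (by positivity)
  have z1 : ζ ≤ δ₀ := by rw [hζ]; exact (min_le_left _ _).trans (min_le_left _ _)
  have z2 : ζ ≤ τ₀ / 4 := by rw [hζ]; exact (min_le_left _ _).trans (min_le_right _ _)
  have z3 : ζ ≤ d / 2 := by rw [hζ]; exact min_le_right _ _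
  have hm1 : (0 : ℝ) < 2 * (m + 1) := by positivity
  obtain ⟨δ, hδ⟩ : ∃ δ : ℝ, δ = ζ / (2 * (m + 1)) := ⟨_, rfl⟩
  have d1 : 0 < δ := by rw [hδ]; exact div_pos z0 hm1
  have d2 : 2 * (m + 1) * δ = ζ := by rw [hδ]; field_simp
  have d3 : 2 * (m + 1) * δ ≤ δ₀ := by rw [d2]; exact z1
  have d4 : 2 * (m + 1) * δ ≤ τ₀ / 4 := by rw [d2]; exact z2
  have d5 : δ ≤ 1 := by nlinarith
  obtain ⟨h, hh⟩ : ∃ h : ℝ, h = ζ / 2 := ⟨_, rfl⟩
  have h1 : 0 < h := by rw [hh]; positivity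
  obtain ⟨p, hp, hpb, hpl, hab, hpu⟩ := exists_npu b 0 hb (fun c0 => 2 * (e + 2 * c0 + 2) + N + 2)
  obtain ⟨D₁, hD₁⟩ := exists_hosts p hp N e hN hpu d1 d5 h1 (ε₀ := τ₀ / 8) (by positivity)
  obtain ⟨D, hD⟩ : ∃ D : ℕ, D = max (max D₁ p.A) 64 := ⟨_, rfl⟩
  obtain ⟨ω, c', η, η₁, κ₀, κ₁, κ', γ₀, τ', s', σ₂, μ, P⟩ := exists_KB (D := D) (by rw [hD]; exact le_max_right _ _)
  obtain ⟨hη, γ, ν, n₀, hγ, hν, hhosts⟩ := hD₁ D (by rw [hD]; exact (le_max_left _ _).trans (le_max_left _ _)) P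
  obtain ⟨Ce, hCe, hEE⟩ := ee_all p hp hab (D₀ := D) (by rw [hD]; exact (le_max_right _ _).trans (le_max_left _ _)) P
  obtain ⟨-, -, -, -, -, -, -, -, -, -, -, hκ'0, -⟩ := P.num
  obtain ⟨n₂, hrest⟩ := hrest δ d1 d3 ν hν (16 * N)
  obtain ⟨n₁, C₁, hitems⟩ := items b 0 m N hb (p := p) (κ := κ') (η := η) (s := s') (γ := γ) (δ := δ) (ν := ν) (C := Ce)
    (τ := τ₀) (h := h) hκ'0 hγ d1 hCe t1 hη (by rw [hh]; linarith) d4
  refine ⟨n₀ + n₁ + n₂ + ⌈2 * e / δ₀⌉₊, C₁, ?_⟩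
  intro V R hT Y hY
  obtain ⟨x, hxX, hxi, hE⟩ := hhosts hT Y (by omega)
  refine ⟨x, hxX, hxi, ?_⟩
  intro E hEX hEc hxE
  obtain ⟨𝓕, H, Nx, h𝓕, hHX, hHE, hHc, hHost⟩ := hE E hEX hEc hxE
  have hY0 : (0 : ℝ) ≤ Y.card := Nat.cast_nonneg _
  have hEH : ((E ∪ H).card : ℝ) ≤ δ₀ * Y.card := by
    have g1 : ((E ∪ H).card : ℝ) ≤ E.card + H.card := by exact_mod_cast card_union_le _ _
    have g2 : (E.card : ℝ) ≤ e := by exact_mod_cast hEc
    have g3 : h * (Y.card : ℝ) ≤ δ₀ / 2 * Y.card := mul_le_mul_of_nonneg_right (by rw [hh]; linarith) hY0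
    have g4 : (e : ℝ) ≤ δ₀ / 2 * Y.card := by
      have g6 : ⌈2 * (e : ℝ) / δ₀⌉₊ ≤ Y.card := by omega
      have g5 : 2 * (e : ℝ) / δ₀ ≤ (Y.card : ℝ) := (Nat.le_ceil _).trans (by exact_mod_cast g6)
      rw [div_le_iff₀ hδ₀] at g5
      linarith
    linarith
  obtain ⟨S, hS, hdis, -⟩ := hrest hT Y (E ∪ H) 𝓕 (by omega) h𝓕 hEH
  have hSU : ∀ j ≤ m, S j ⊆ (range (m + 1)).biUnion S := fun j hj => subset_biUnion_of_mem S (mem_range.2 (by omega))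
  refine ⟨H ∪ (range (m + 1)).biUnion S, ?_, ?_, ?_⟩
  · intro v hv
    rcases mem_union.1 hv with hv | hv
    · exact mem_sdiff.2 ⟨hHX hv, fun hvE => disjoint_left.1 hHE hv hvE⟩
    · obtain ⟨j, hj, hv⟩ := mem_biUnion.1 hv
      have g1 := (hS j (by rw [mem_range] at hj; omega)).1 hv
      rw [mem_sdiff, mem_union, not_or] at g1
      exact mem_sdiff.2 ⟨g1.1, g1.2.1⟩
  · have g1 : ((H ∪ (range (m + 1)).biUnion S).card : ℝ) ≤ H.card + ((range (m + 1)).biUnion S).card := by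
      exact_mod_cast card_union_le _ _
    have g2 : (((range (m + 1)).biUnion S).card : ℝ) ≤ ∑ j ∈ range (m + 1), ((S j).card : ℝ) := by
      exact_mod_cast card_biUnion_le
    have g3 : ∑ j ∈ range (m + 1), ((S j).card : ℝ) ≤ ∑ _j ∈ range (m + 1), 2 * δ * Y.card :=
      sum_le_sum (fun j hj => (hS j (by rw [mem_range] at hj; omega)).2.2.2)
    rw [sum_const, card_range, nsmul_eq_mul] at g3
    push_cast at g3
    have g4 : ((m : ℝ) + 1) * (2 * δ * Y.card) = 2 * (m + 1) * δ * Y.card := by ring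
    have g5 : 2 * (m + 1) * δ * Y.card ≤ d / 2 * Y.card := mul_le_mul_of_nonneg_right (by rw [d2]; exact z3) hY0
    have g6 : h * Y.card ≤ d / 2 * Y.card := mul_le_mul_of_nonneg_right (by rw [hh]; linarith) hY0
    linarith
  · intro P' hP'Y hP'E hQP' L hLm hL hbig hP'
    refine hitems hT (by omega) hHc hHost S hS hdis P' hP'Y hP'E (subset_union_left.trans hQP')
      (fun j hj => (hSU j hj).trans (subset_union_right.trans hQP')) (FOK b 0 0)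
      ((L.map (fun q => q.2.size)).sum) ?_ ?_ L hLm ?_ ?_ hP'
    · intro F' hF'
      refine ⟨hF'.1, hF'.2.1, ?_⟩
      have := hF'.blk_le le_rfl
      simp at this
      omega
    · intro F' hF' _
      exact hEE hT F' (by rw [hpb, hpl]; exact hF')
    · intro q hq
      exact ⟨(hL q hq).1, (hL q hq).2, List.single_le_sum (by simp) _ (List.mem_map.2 ⟨q, hq, rfl⟩)⟩
    · obtain ⟨q, hq, hqb⟩ := hbig
      exact ⟨q, hq, (mul_le_mul_of_nonneg_right t2 hY0).trans hqb⟩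

end AESF
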