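import Pool.Agent.AEB.PE
import Pool.Agent.AE15.Order

/-!
# Free path ends: definitions
-/

set_option autoImplicit false

namespace AESF

open Finset AE15 AED AEB
open scoped Classical

/-- black box for one item of the class `I` at hosts fixed in advance -/
def Bx (N e : ℕ) (τ d : ℝ) (I : Fd → Prop) (n₀ C₁ : ℕ) : Prop :=
  ∀ {V : Type} {R : V → V → Prop}, AE32.Tour R → ∀ Y : Finset V, n₀ ≤ Y.card → ∃ x : ℕ → V, (∀ i < N, x i ∈ Y) ∧
    (∀ i < N, ∀ j < N, x i = x j → i = j) ∧ ∀ E ⊆ Y, E.card ≤ e → (∀ i < N, x i ∈ E) → ∃ Q ⊆ Y \ E,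
      (Q.card : ℝ) ≤ d * Y.card ∧ ∀ P ⊆ Y, Disjoint P E → Q ⊆ P → ∀ i < N, ∀ D : Fd, I D →
        τ * Y.card ≤ (D.size + 1 : ℝ) → D.size + 1 + C₁ ≤ P.card → ∃ A ⊆ P, EmbI R [(x i, D)] A

/-- the tree with children forest `F` starts with a bare directed path of three arcs, and the trees below are in the
class `I` -/
def Top3 (I : Fd → Prop) (F : Fd) : Prop :=
  ∃ c₁ c₂ c₃ : Fd, F = .node true c₁ .nil ∧ c₁ = .node true c₂ .nil ∧ c₂ = .node true c₃ .nil ∧ I c₁ ∧ I c₂ ∧ I c₃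

end AESF
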