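import Pool.Agent.AER.SupG
import Pool.Agent.AER.Avoid
import Pool.Agent.AEN.Alt
import Pool.Agent.AEN.RigE
import Pool.Agent.AESF.DefsP

/-!
# Free ends which are paths: hosts fixed in advance and one item of an exact class, as a black box
-/

set_option autoImplicit false

namespace AESF

open Finset AE15 AED AELT AEB AER
open scoped Classical

/-- **the black box, from the exact statement** -/
theorem bx_of_ee (N e : ℕ) (hN : 1 ≤ N) {d : ℝ} (hd : 0 < d) : ∃ g : ℕ → ℕ, ∀ p : NP, p.OK → g p.c0 ≤ p.u0 →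
    ∃ D₁ : ℕ, ∀ D : ℕ, D₁ ≤ D → ∀ {ω c η η₁ κ₀ κ₁ κ' γ₀ τ' s' σ₂ μ : ℝ}, KB D ω c η η₁ κ₀ κ₁ κ' γ₀ τ' s' σ₂ μ →
      ∃ n₀ : ℕ, ∀ (C : ℕ) (I : Fd → Prop), (∀ D, I D → ∀ {V : Type} {R : V → V → Prop}, AE32.Tour R →
        EE R κ' η s' p 1 C D) → ∀ τ : ℝ, Bx N e τ d I n₀ C := by
  obtain ⟨δ₀, hδ₀, hrest⟩ := AER.avoid 1 0 le_rfl (κ := 1) (ε := 1) (θ := 1) one_pos one_pos one_pos
  obtain ⟨δ, hδ⟩ : ∃ δ : ℝ, δ = min δ₀ (min d 1) / 4 := ⟨_, rfl⟩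
  have hmin : 0 < min δ₀ (min d 1) := lt_min hδ₀ (lt_min hd one_pos)
  have d1 : 0 < δ := by rw [hδ]; positivity
  have m1 : min δ₀ (min d 1) ≤ δ₀ := min_le_left _ _
  have m2 : min δ₀ (min d 1) ≤ d := (min_le_right _ _).trans (min_le_left _ _)
  have m3 : min δ₀ (min d 1) ≤ 1 := (min_le_right _ _).trans (min_le_right _ _)
  have d5 : δ ≤ 1 := by linarith
  obtain ⟨h, hh⟩ : ∃ h : ℝ, h = min δ₀ (min d 1) / 2 := ⟨_, rfl⟩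
  have h1 : 0 < h := by rw [hh]; positivity
  refine ⟨fun c0 => 2 * (e + 2 * c0 + 2) + N + 2, ?_⟩
  intro p hp hpu
  obtain ⟨D₁, hD₁⟩ := exists_hostsG p hp N e 0 hN (by simpa using hpu) d1 d5 h1 (ε₀ := 1) one_pos
  refine ⟨D₁, ?_⟩
  intro D hD ω c η η₁ κ₀ κ₁ κ' γ₀ τ' s' σ₂ μ P
  obtain ⟨-, γ, γ₂, ν, n₁, hγ, hγ₂, -, hν, hhosts⟩ := hD₁ D hD P
  obtain ⟨n₂, hrest⟩ := hrest δ d1 (by simp only [Nat.cast_zero]; linarith) ν hν (16 * N)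
  refine ⟨n₁ + n₂ + ⌈2 * e / δ₀⌉₊, ?_⟩
  intro C I hI τ V R hT Y hY
  obtain ⟨x, G, hGY, -, -, hxG, hxi, hE⟩ := hhosts hT Y (by omega)
  refine ⟨x, fun i hi => hGY (hxG i hi).1, hxi, ?_⟩
  intro E hEY hEc hxE
  obtain ⟨𝓕, H, Nx, h𝓕, hHY, hHE, hHc, hHost, -, -, -⟩ := hE E hEY hEc
  have hY0 : (0 : ℝ) ≤ Y.card := Nat.cast_nonneg _
  have hEH : ((E ∪ H).card : ℝ) ≤ δ₀ * Y.card := by
    have g1 : ((E ∪ H).card : ℝ) ≤ E.card + H.card := by exact_mod_cast card_union_le _ _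
    have g2 : (E.card : ℝ) ≤ e := by exact_mod_cast hEc
    have g3 : h * (Y.card : ℝ) ≤ δ₀ / 2 * Y.card := mul_le_mul_of_nonneg_right (by rw [hh]; linarith) hY0
    have g4 : (e : ℝ) ≤ δ₀ / 2 * Y.card := by
      have g6 : ⌈2 * (e : ℝ) / δ₀⌉₊ ≤ Y.card := by omega
      have g5 : 2 * (e : ℝ) / δ₀ ≤ (Y.card : ℝ) := (Nat.le_ceil _).trans (by exact_mod_cast g6)
      rw [div_le_iff₀ hδ₀] at g5
      linarith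
    linarith
  obtain ⟨S, hS, -, -⟩ := hrest hT Y (E ∪ H) 𝓕 (by omega) h𝓕 hEH
  obtain ⟨hS1, hS2, hS3, hS4⟩ := hS 0 le_rfl
  refine ⟨H ∪ S 0, ?_, ?_, ?_⟩
  · intro v hv
    rcases mem_union.1 hv with hv | hv
    · exact mem_sdiff.2 ⟨hHY hv, fun hvE => disjoint_left.1 hHE hv hvE⟩
    · have g1 := hS1 hv
      rw [mem_sdiff, mem_union, not_or] at g1
      exact mem_sdiff.2 ⟨g1.1, g1.2.1⟩
  · have g1 : ((H ∪ S 0).card : ℝ) ≤ H.card + (S 0).card := by exact_mod_cast card_union_le _ _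
    have g5 : 2 * δ * Y.card ≤ d / 2 * Y.card := mul_le_mul_of_nonneg_right (by rw [hδ]; linarith) hY0
    have g6 : h * Y.card ≤ d / 2 * Y.card := mul_le_mul_of_nonneg_right (by rw [hh]; linarith) hY0
    linarith
  · intro P' hP'Y hP'E hQP' i hi D' hD' _ hP'
    have g1 : (1 : ℝ) * (D'.size + 1) + C ≤ P'.card := by
      have : ((D'.size + 1 + C : ℕ) : ℝ) ≤ P'.card := by exact_mod_cast hP'
      push_cast at this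
      linarith
    obtain ⟨z, hz, A, hA, hzA, hxz, hemb⟩ := hI D' hD' hT P' (R (x i)) g1
      ((hHost i hi (hxE i hi)).cl D' hS1 (subset_union_right.trans hQP') (subset_union_left.trans hQP') hP'Y hP'E hS2 hS3)
    exact ⟨insert z A, insert_subset hz hA, insert z A, ∅, disjoint_empty_right _, (union_empty _).symm,
      ⟨z, A, hxz, hzA, rfl, hemb⟩, rfl⟩

/-- the items: lines with small exits -/
def Ip (b l K A' A2 : ℕ) (θ ε μ : ℝ) (M n : ℕ) (D : Fd) : Prop :=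
  AEY.FX b l K (fun c => AEN.Wc θ ε μ M (AEN.Rgn b l K A' θ ε μ M n) c ∧ A2 * (c.size + 1) < D.size + 1) 0 D

/-- the items of all levels -/
def IpU (b l K A' A2 : ℕ) (θ ε μ : ℝ) (M : ℕ) (D : Fd) : Prop := ∃ n : ℕ, Ip b l K A' A2 θ ε μ M n D

theorem Bx.mono {N e n₀ C₁ : ℕ} {τ d : ℝ} {I I' : Fd → Prop} (hI : ∀ D, I' D → I D) (h : Bx N e τ d I n₀ C₁) :
    Bx N e τ d I' n₀ C₁ := by
  intro V R hT Y hY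
  obtain ⟨x, h1, h2, h3⟩ := h hT Y hY
  refine ⟨x, h1, h2, fun E hE hEc hx => ?_⟩
  obtain ⟨Q, g1, g2, g3⟩ := h3 E hE hEc hx
  exact ⟨Q, g1, g2, fun P hP hPE hQP i hi D hD => g3 P hP hPE hQP i hi D (hI D hD)⟩

open AEN AEY AEJ AEG AET AEF in
/-- **the black box for lines with small exits**, all levels at once -/
theorem bx_lineU (b l : ℕ) (hb : 1 ≤ b) : ∃ A' A2 : ℕ, ∀ θ : ℝ, 0 < θ → θ ≤ 1 / 2 → ∀ (N e : ℕ) (d : ℝ), 1 ≤ N → 0 < d →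
    ∃ (ε₀ μ₀ : ℝ) (K₁ : ℕ), 0 < ε₀ ∧ 0 < μ₀ ∧ ∀ K : ℕ, K₁ ≤ K → ∀ M : ℕ, ∃ n₀ C₁ : ℕ, ∀ {ε μ : ℝ}, ε ≤ ε₀ → μ ≤ μ₀ →
      ∀ τ : ℝ, Bx N e τ d (IpU b l K A' A2 θ ε μ M) n₀ C₁ := by
  obtain ⟨A', hA'⟩ := alt_coarse b l hb (rigSt b _ hb)
  obtain ⟨p₀, hp₀, hpb₀, hpl₀, hab₀, hB₀⟩ := exists_npL b l hb
  refine ⟨A', p₀.A, ?_⟩
  intro θ hθ hθ2 N e d hN hd
  have hθ1 : θ ≤ 1 := by linarith
  obtain ⟨g, hg⟩ := bx_of_ee N e hN hd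
  obtain ⟨p, hp, q1, q2, q3, q4, q5, q6, q7, q8, q9⟩ := exists_np2L p₀ hp₀ (g p₀.c0)
  have hpb : p.b = b := q1.trans hpb₀
  have hpl : p.l = l := q2.trans hpl₀
  have hab : ab p.b p.l ≤ p.a := by rw [hpb, hpl, q3]; exact hab₀
  have hB2 : (2 * p.b) ^ p.A0 ≤ p.B := by rw [q1, q8, q9]; exact hB₀
  have hpg : g p.c0 ≤ p.u0 := by rw [q5]; exact q7
  rw [← q6]
  subst hpb hpl
  have hA1 : 1 ≤ p.A := Nat.one_le_pow _ _ (by omega)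
  have hc1 : 1 ≤ ⌈1 / θ⌉₊ := Nat.one_le_ceil_iff.2 (by positivity)
  obtain ⟨D₀, hD₀⟩ : ∃ D₀ : ℕ, D₀ = p.A * ⌈1 / θ⌉₊ := ⟨_, rfl⟩
  have hDA : p.A ≤ D₀ := by rw [hD₀]; exact Nat.le_mul_of_pos_right _ hc1
  have hD64 : 64 ≤ D₀ := hp.D₀.trans hDA
  obtain ⟨ω, c, η, η₁, κ₀, κ₁, κ, γ₀, τ, s, σ₂, μ, P⟩ := exists_KB hD64
  obtain ⟨hω0, hω1, hc0, hc1', hη0, hη1, hη₁0, hη₁1, hκ₀0, hκ₁0, hκ₁1, hκ0, hκ1, hs0, hγ₀0, hτ0, hσ₂0, -, hκ₁η, hκs⟩ :=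
    P.num
  have hcη : c * η ≤ 1 * η := mul_le_mul_of_nonneg_right (by linarith) hη0.le
  obtain ⟨γ, ε₀, μ₀, m₁, hγ, hε₀, hμ₀, hL⟩ := itX_one p.b hb (κ := κ) (η := η) hκ0 (by linarith) hη0 (by linarith)
  have hηθ : 16 * η * p.A ≤ θ := by
    have hD0 : (0 : ℝ) < D₀ := by exact_mod_cast (by omega : 0 < D₀)
    have h1 : (p.A : ℝ) ≤ θ * D₀ := by
      have h2 : 1 / θ ≤ ⌈1 / θ⌉₊ := Nat.le_ceil _
      rw [div_le_iff₀ hθ] at h2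
      rw [hD₀]
      push_cast
      have h3 : (p.A : ℝ) * 1 ≤ p.A * (⌈1 / θ⌉₊ * θ) := mul_le_mul_of_nonneg_left h2 (Nat.cast_nonneg _)
      linarith
    have h2 : η = 1 / (112 * D₀) := by
      rw [P.hη, P.hω]
      field_simp
      norm_num
    rw [h2]
    have h3 : 16 * (1 / (112 * (D₀ : ℝ))) * p.A = p.A / (7 * D₀) := by
      field_simp
      norm_num
    rw [h3, div_le_iff₀ (by positivity)]
    have h4 : 0 ≤ θ * D₀ := by positivity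
    linarith
  obtain ⟨ke, ee, be, K₁, h1, h2, h3, hu⟩ := ee_allY' p hp hab hB2 hDA P hγ hε₀ hμ₀ hL hθ hθ1 hηθ
  obtain ⟨κa, εa, μa, K₂, -, -, a1, a2, hco⟩ := hA' θ hθ hθ2 (k := ke) (e := ee) (bt := be) (cap := 1) h1 h2 h3 one_pos
  obtain ⟨D₁, hD₁⟩ := hg p hp hpg
  obtain ⟨D', hD'⟩ : ∃ D' : ℕ, D' = max D₀ D₁ := ⟨_, rfl⟩
  have hD'0 : D₀ ≤ D' := by rw [hD']; exact le_max_left _ _
  have hD'1 : D₁ ≤ D' := by rw [hD']; exact le_max_right _ _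
  obtain ⟨ω', c', η', η₁', κ₀', κ₁', κ', γ₀', τ', s', σ₂', μ', P'⟩ := exists_KB (hD64.trans hD'0)
  obtain ⟨nb, hbx⟩ := hD₁ D' hD'1 P'
  obtain ⟨K₃, hpoor⟩ := ee_poor p hp hab hB2 hDA P hD'0 P'
  refine ⟨εa, μa, max K₁ (max K₂ K₃), a1, a2, ?_⟩
  intro K hK M
  obtain ⟨n₁, hu⟩ := hu K ((le_max_left _ _).trans hK)
  obtain ⟨C₂, hco⟩ := hco K ((le_max_left _ _).trans ((le_max_right _ _).trans hK)) M
  obtain ⟨n₃, hpoor⟩ := hpoor K ((le_max_right _ _).trans ((le_max_right _ _).trans hK))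
  obtain ⟨C, hC⟩ : ∃ C : ℕ, C = n₁ + n₃ + ⌈C₂⌉₊ + 2 * M := ⟨_, rfl⟩
  have cn1 : (n₁ : ℝ) ≤ C := by rw [hC]; exact_mod_cast (by omega : n₁ ≤ n₁ + n₃ + ⌈C₂⌉₊ + 2 * M)
  have cn3 : (n₃ : ℝ) ≤ C := by rw [hC]; exact_mod_cast (by omega : n₃ ≤ n₁ + n₃ + ⌈C₂⌉₊ + 2 * M)
  have cc2 : C₂ ≤ C := by
    refine (Nat.le_ceil C₂).trans ?_
    rw [hC]
    exact_mod_cast (by omega : ⌈C₂⌉₊ ≤ n₁ + n₃ + ⌈C₂⌉₊ + 2 * M)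
  have c2M : 2 * (M : ℝ) ≤ C := by
    rw [hC]
    exact_mod_cast (by omega : 2 * M ≤ n₁ + n₃ + ⌈C₂⌉₊ + 2 * M)
  refine ⟨nb, C, ?_⟩
  intro ε με hε hμ τa
  refine hbx C _ ?_ τa
  rintro F ⟨n, hF⟩ V R hT
  obtain ⟨-, hco⟩ := hco C cc2 hε hμ n
  refine hpoor (W₀ := Wc θ ε με M (Rgn p.b p.l K A' θ ε με M n)) hT C cn3 F hF ?_
  intro F' hF' _
  exact hu hT C cn1 (fun c hc => hc.win hθ2 c2M) F'.size (fun c _ hl hDg hc => hco c hl hDg hc.2) F' le_rfl hF'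

/-- **the black box for lines with small exits** -/
theorem bx_line (b l : ℕ) (hb : 1 ≤ b) : ∃ A' A2 : ℕ, ∀ θ : ℝ, 0 < θ → θ ≤ 1 / 2 → ∀ (N e : ℕ) (d : ℝ), 1 ≤ N → 0 < d →
    ∃ (ε₀ μ₀ : ℝ) (K₁ : ℕ), 0 < ε₀ ∧ 0 < μ₀ ∧ ∀ K : ℕ, K₁ ≤ K → ∀ M : ℕ, ∃ n₀ C₁ : ℕ, ∀ {ε μ : ℝ}, ε ≤ ε₀ → μ ≤ μ₀ →
      ∀ (n : ℕ) (τ : ℝ), Bx N e τ d (Ip b l K A' A2 θ ε μ M n) n₀ C₁ := by
  obtain ⟨A', A2, h⟩ := bx_lineU b l hb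
  refine ⟨A', A2, fun θ hθ hθ2 N e d hN hd => ?_⟩
  obtain ⟨ε₀, μ₀, K₁, h1, h2, h3⟩ := h θ hθ hθ2 N e d hN hd
  refine ⟨ε₀, μ₀, K₁, h1, h2, fun K hK M => ?_⟩
  obtain ⟨n₀, C₁, h4⟩ := h3 K hK M
  refine ⟨n₀, C₁, ?_⟩
  intro ε μ hε hμ n τ
  exact Bx.mono (I := IpU b l K A' A2 θ ε μ M) (fun D hD => ⟨n, hD⟩) (h4 hε hμ τ)

end AESF
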