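import Pool.Agent.AESF.DefsX
import Pool.Agent.AEN.RigD
import Pool.Agent.AER.SupV
import Pool.Agent.AER.ItemsG
import Pool.Agent.AER.PrepG
import Pool.Agent.AER.Avoid
import Pool.Agent.AER.RouteA

/-!
# Free ends: prepared hosts for lines with exits
-/

set_option autoImplicit false

namespace AESF

open Finset AE15 AED AELT AEB AEG AEF AET AEY
open scoped Classical

/-- the light items -/
def LtX (b : ℕ) (γB : ℝ) (n : ℕ) (D : Fd) : Prop := D.len ≤ b ∧ D.Deg b ∧ (blk D + 1 : ℝ) ≤ γB * n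

/-- the heavy items: exact in every tournament, for the class of the prepared hosts -/
def EX (p : NP) (κ η s C : ℝ) (D : Fd) : Prop := ∀ {V : Type} {R : V → V → Prop}, AE32.Tour R → EE R κ η s p 1 C D

/-- **prepared hosts** for items with the exact property -/
theorem box_ee (b N e m : ℕ) (hb : 1 ≤ b) (hN : 1 ≤ N) {τ d : ℝ} (hτ : 0 < τ) (hd : 0 < d) : ∃ g : ℕ → ℕ,
    ∀ p : NP, p.OK → g p.c0 ≤ p.u0 → ∃ D₁ : ℕ, ∀ D : ℕ, D₁ ≤ D → ∀ {ω c η η₁ κ₀ κ₁ κ' γ₀ τ' s' σ₂ μ : ℝ},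
      KB D ω c η η₁ κ₀ κ₁ κ' γ₀ τ' s' σ₂ μ → ∃ (γB : ℝ) (n₀ : ℕ), 0 < γB ∧ ∀ C : ℕ,
        BxL N e m τ d (LtX b γB) (EX p κ' η s' C) n₀ C := by
  refine ⟨fun c0 => 2 * (e + 2 * c0 + 2) + N + 2 + 4 * 0, ?_⟩
  intro p hp hpu
  obtain ⟨δ₀, hδ₀, hrest⟩ := AER.avoid b m hb (κ := 1) (ε := 1) (θ := 1) one_pos one_pos one_pos
  obtain ⟨τ₀, hτ₀⟩ : ∃ τ₀ : ℝ, τ₀ = min τ 1 := ⟨_, rfl⟩
  have t1 : 0 < τ₀ := by rw [hτ₀]; exact lt_min hτ one_pos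
  have t2 : τ₀ ≤ τ := by rw [hτ₀]; exact min_le_left _ _
  have t3 : τ₀ ≤ 1 := by rw [hτ₀]; exact min_le_right _ _
  have hm0 : (0 : ℝ) ≤ m := Nat.cast_nonneg _
  obtain ⟨ζ, hζ⟩ : ∃ ζ : ℝ, ζ = min (min δ₀ (τ₀ / 4)) (d / 2) := ⟨_, rfl⟩
  have z0 : 0 < ζ := by rw [hζ]; exact lt_min (lt_min hδ₀ (by positivity)) (by positivity)
  have z1 : ζ ≤ δ₀ := by rw [hζ]; exact (min_le_left _ _).trans (min_le_left _ _)
  have z2 : ζ ≤ τ₀ / 4 := by rw [hζ]; exact (min_le_left _ _).trans (min_le_right _ _)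
  have z3 : ζ ≤ d / 2 := by rw [hζ]; exact min_le_right _ _
  have hm1 : (0 : ℝ) < 2 * (m + 1) := by positivity
  obtain ⟨δ, hδ⟩ : ∃ δ : ℝ, δ = ζ / (2 * (m + 1)) := ⟨_, rfl⟩
  have d1 : 0 < δ := by rw [hδ]; exact div_pos z0 hm1
  have d2 : 2 * (m + 1) * δ = ζ := by rw [hδ]; field_simp
  have d3 : 2 * (m + 1) * δ ≤ δ₀ := by rw [d2]; exact z1
  have d4 : 2 * (m + 1) * δ ≤ τ₀ / 4 := by rw [d2]; exact z2
  have d5 : δ ≤ 1 := by nlinarith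
  obtain ⟨h, hh⟩ : ∃ h : ℝ, h = ζ / 2 := ⟨_, rfl⟩
  have h1 : 0 < h := by rw [hh]; positivity
  obtain ⟨D₁, hD₁⟩ := AER.exists_hostsV p hp N e 0 hN hpu d1 d5 h1 (ε₀ := τ₀ / 64) (by positivity)
  refine ⟨D₁, ?_⟩
  intro D hD ω c η η₁ κ₀ κ₁ κ' γ₀ τ' s' σ₂ μ P
  obtain ⟨hη, γ, γ₂, ν, n₀, hγ, hγ₂, -, hν, hhosts⟩ := hD₁ D hD P
  obtain ⟨-, -, hcpos, hc1, hη0, -, -, hη₁c, -, -, -, hκ'0, hκ'1, -, -, -, -, -, hκ₁η, -⟩ := P.num
  obtain ⟨n₂, hrest⟩ := hrest δ d1 d3 ν hν (16 * (2 ^ e * N))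
  have hκ'1' : κ' ≤ 1 := by
    have h5 : c * η ≤ 1 * η := mul_le_mul_of_nonneg_right (by linarith) hη0.le
    linarith
  obtain ⟨γB, n₁, hγB, hitems⟩ := AER.itemsG b m hb (κ := κ') (η := η) (δ := δ) (τ := τ₀) (h := h) hκ'0 hκ'1' hη0
    (by linarith) (by linarith) d1 t1 (by rw [hh]; linarith) d4
  refine ⟨γB, n₀ + n₁ + n₂ + ⌈2 * e / δ₀⌉₊, hγB, ?_⟩
  intro C V R hT Y hY
  obtain ⟨x, G, hGY, -, -, hxG, hxi, hE⟩ := hhosts hT Y (by omega)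
  refine ⟨x, fun i hi => hGY (hxG i hi).1, hxi, ?_⟩
  intro E hEX hEc hxE
  obtain ⟨𝓕, H, h𝓕, hHX, hHE, hHc, -, hHost, hGood, -, -⟩ := hE E hEX hEc
  obtain ⟨Nx, hHost⟩ := hHost E (Subset.refl _)
  rw [Finset.sdiff_self, union_empty] at hHost
  have hY0 : (0 : ℝ) ≤ Y.card := Nat.cast_nonneg _
  have he0 : (0 : ℝ) ≤ e := Nat.cast_nonneg _
  have hHc' : (H.card : ℝ) ≤ h * Y.card := by linarith
  have hEH : ((E ∪ H).card : ℝ) ≤ δ₀ * Y.card := by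
    have g1 : ((E ∪ H).card : ℝ) ≤ E.card + H.card := by exact_mod_cast card_union_le _ _
    have g2 : (E.card : ℝ) ≤ e := by exact_mod_cast hEc
    have g3 : h * (Y.card : ℝ) ≤ δ₀ / 2 * Y.card := mul_le_mul_of_nonneg_right (by rw [hh]; linarith) hY0
    have g4 : (e : ℝ) ≤ δ₀ / 2 * Y.card := by
      have g6 : ⌈2 * (e : ℝ) / δ₀⌉₊ ≤ Y.card := by omega
      have g5 : 2 * (e : ℝ) / δ₀ ≤ (Y.card : ℝ) := (Nat.le_ceil _).trans (by exact_mod_cast g6)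
      rw [div_le_iff₀ hδ₀] at g5
      linarith
    linarith
  obtain ⟨S, hS, hdis, -⟩ := hrest hT Y (E ∪ H) 𝓕 (by omega) h𝓕 hEH
  have hSU : ∀ j ≤ m, S j ⊆ (range (m + 1)).biUnion S := fun j hj => subset_biUnion_of_mem S (mem_range.2 (by omega))
  refine ⟨H ∪ (range (m + 1)).biUnion S, ?_, ?_, ?_⟩
  · intro v hv
    rcases mem_union.1 hv with hv | hv
    · exact mem_sdiff.2 ⟨hHX hv, fun hvE => disjoint_left.1 hHE hv hvE⟩
    · obtain ⟨j, hj, hv⟩ := mem_biUnion.1 hv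
      have g1 := (hS j (by rw [mem_range] at hj; omega)).1 hv
      rw [mem_sdiff, mem_union, not_or] at g1
      exact mem_sdiff.2 ⟨g1.1, g1.2.1⟩
  · have g1 : ((H ∪ (range (m + 1)).biUnion S).card : ℝ) ≤ H.card + ((range (m + 1)).biUnion S).card := by
      exact_mod_cast card_union_le _ _
    have g2 : (((range (m + 1)).biUnion S).card : ℝ) ≤ ∑ j ∈ range (m + 1), ((S j).card : ℝ) := by
      exact_mod_cast card_biUnion_le
    have g3 : ∑ j ∈ range (m + 1), ((S j).card : ℝ) ≤ ∑ _j ∈ range (m + 1), 2 * δ * Y.card :=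
      sum_le_sum (fun j hj => (hS j (by rw [mem_range] at hj; omega)).2.2.2)
    rw [sum_const, card_range, nsmul_eq_mul] at g3
    push_cast at g3
    have g4 : ((m : ℝ) + 1) * (2 * δ * Y.card) = 2 * (m + 1) * δ * Y.card := by ring
    have g5 : 2 * (m + 1) * δ * Y.card ≤ d / 2 * Y.card := mul_le_mul_of_nonneg_right (by rw [d2]; exact z3) hY0
    have g6 : h * Y.card ≤ d / 2 * Y.card := mul_le_mul_of_nonneg_right (by rw [hh]; linarith) hY0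
    linarith
  · intro P' hP'Y hP'E hQP' L hLm hL ⟨q₀, hq₀, hq₁, hq₂⟩ hP'
    have hHP' : H ⊆ P' := subset_union_left.trans hQP'
    have hSP' : ∀ j ≤ m, S j ⊆ P' := fun j hj => (hSU j hj).trans (subset_union_right.trans hQP')
    have hperm : L.Perm (q₀ :: L.erase q₀) := List.perm_cons_erase hq₀
    have hlen : (L.erase q₀).length ≤ m := by
      have g1 := hperm.length_eq
      rw [List.length_cons] at g1
      omega
    obtain ⟨⟨i₀, hi₀, hqi⟩, -⟩ := hL q₀ hq₀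
    have hisz : AEB.isz L = AEB.isz (L.erase q₀) + (q₀.2.size + 1) := by
      rw [AER.isz_perm hperm, AEB.isz_cons]
      ring
    obtain ⟨A, hAP, hA⟩ := hitems hT (by omega) hHc' S hS hdis P' hP'Y hP'E hHP' hSP' (L.erase q₀) hlen (by
      intro q hq
      obtain ⟨⟨i, hi, hqx⟩, g1, g2, g3⟩ := hL q (List.mem_of_mem_erase hq)
      refine ⟨g1, g2, g3, ?_⟩
      intro S' P'' k1 k2 k3 k4
      rw [hqx]
      exact hGood (x i) (hxG i hi).1 S' P'' k1 k2 k3 k4) q₀.1 q₀.2 C (Nat.cast_nonneg _)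
      ((mul_le_mul_of_nonneg_right t2 hY0).trans hq₂) (by
      intro P'' hP''P hHP'' hSP'' hP''c
      obtain ⟨hS1, hS2, hS3, -⟩ := hS m le_rfl
      have hP''Y := hP''P.trans hP'Y
      have hcl : AEB.Cl R (Good R κ' η P'') s' p q₀.2 P'' (R q₀.1) := by
        rw [hqi]
        exact (hHost i₀ hi₀ (hxE i₀ hi₀)).cl q₀.2 hS1 hSP'' hHP'' hP''Y (disjoint_of_subset_left hP''P hP'E) hS2 hS3
      exact hq₁ hT P'' (R q₀.1) (by linarith) hcl) (by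
      have g1 : AEB.isz (L.erase q₀) + (q₀.2.size + 1) + C ≤ P'.card := by rw [← hisz]; exact hP'
      exact_mod_cast g1)
    exact ⟨A, hAP, hA.perm hperm.symm⟩

end AESF
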