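import Pool.Agent.AER.DefsR
import Pool.Agent.AECut.Cut
import Pool.Agent.AELT.Core

/-!
# Free ends at the root: definitions

`PG`, `EmbG`: partial embeddings with pending trees of both directions. `CutD`, `ThickD`: the place `p` of a tournament `X`:
`U` is the set of the vertices which dominate almost all of every part `L ∈ 𝓛` below the place.
-/

set_option autoImplicit false

namespace AESF

open Finset AE15 AED AELT AEB
open scoped Classical

/-- partial embeddings; the pending trees (host, direction, children forest) may have any direction -/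
inductive PG {V : Type} (R : V → V → Prop) : Fd → V → Finset V → List (V × Bool × Fd) → Prop
  | nil (v : V) : PG R .nil v ∅ []
  | pend (d : Bool) (c s : Fd) (v : V) (A : Finset V) (L : List (V × Bool × Fd)) : PG R s v A L →
      PG R (.node d c s) v A ((v, d, c) :: L)
  | place (d : Bool) (c s : Fd) (v x : V) (A B : Finset V) (L₁ L₂ : List (V × Bool × Fd)) : Adj R d v x → x ∉ A →
      x ∉ B → Disjoint A B → PG R c x A L₁ → PG R s v B L₂ → PG R (.node d c s) v (insert x (A ∪ B)) (L₁ ++ L₂)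

/-- disjoint copies of all the pending trees -/
def EmbG {V : Type} (R : V → V → Prop) : List (V × Bool × Fd) → Finset V → Prop
  | [], A => A = ∅
  | p :: L, A => ∃ A₁ A₂, Disjoint A₁ A₂ ∧ A = A₁ ∪ A₂ ∧
      (∃ x S, Adj R p.2.1 p.1 x ∧ x ∉ S ∧ A₁ = insert x S ∧ Emb R p.2.2 x S) ∧ EmbG R L A₂

/-- total size of the pending trees -/
def gsz {V : Type} (L : List (V × Bool × Fd)) : ℕ := (L.map (fun p => p.2.2.size + 1)).sum

/-- the in-closure: the forest without the trees hanging by arcs away from the root -/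
def prIn : Fd → Fd
  | .nil => .nil
  | .node d c s => if d then prIn s else .node false (prIn c) (prIn s)

/-- **the place `p` is in a cut** -/
structure CutD {V : Type} (R : V → V → Prop) (X U : Finset V) (𝓛 : Finset (Finset V)) (p : ℕ)
    (ω ζ lam τ ν : ℝ) : Prop where
  subU : U ⊆ X
  subL : ∀ L ∈ 𝓛, L ⊆ X
  big : ∀ L ∈ 𝓛, lam * X.card ≤ (L.card : ℝ)
  rest : ((X \ (U ∪ 𝓛.biUnion id)).card : ℝ) ≤ ζ * X.card
  lo : p + ω / 4 * X.card ≤ (U.card : ℝ)
  hi : (U.card : ℝ) ≤ p + 2 * ω * X.card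
  dis : ∀ L ∈ 𝓛, ((L ∩ U).card : ℝ) ≤ ν * X.card
  few : ∀ u ∈ U, ∀ L ∈ 𝓛, ((nI R L u).card : ℝ) ≤ τ * L.card
  out : ∀ x ∈ X \ U, ((nO R U x).card : ℝ) ≤ ν * X.card ∨ ∃ L ∈ 𝓛, τ * L.card ≤ ((nI R L x).card : ℝ)
  gen : ((U.filter (fun w => ∃ L ∈ 𝓛, τ / 2 * L.card < ((nI R L w).card : ℝ))).card : ℝ) ≤ ν * X.card

/-- **the place `p` is in a thick part `K`** -/
structure ThickD {V : Type} (R : V → V → Prop) (X U K : Finset V) (𝓛 : Finset (Finset V)) (p : ℕ)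
    (ω ζ k lam τ ν : ℝ) : Prop where
  subU : U ⊆ X
  subK : K ⊆ X
  subL : ∀ L ∈ 𝓛, L ⊆ X
  big : ∀ L ∈ 𝓛, lam * X.card ≤ (L.card : ℝ)
  ex : Ex R (k * X.card) K
  exK : ω / 4 * X.card ≤ (K.card : ℝ)
  rest : ((X \ (U ∪ K ∪ 𝓛.biUnion id)).card : ℝ) ≤ ζ * X.card
  lo : p + ω / 4 * X.card ≤ (U.card : ℝ) + K.card
  hi : (U.card : ℝ) ≤ p + 2 * ω * X.card
  few : ∀ u ∈ U, ∀ L ∈ 𝓛, ((nI R L u).card : ℝ) ≤ τ * L.card
  fewK : ∀ u ∈ U, ((nI R K u).card : ℝ) ≤ τ * K.card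
  out : ∀ x ∈ X \ U, τ * K.card ≤ ((nI R K x).card : ℝ) ∨ ∃ L ∈ 𝓛, τ * L.card ≤ ((nI R L x).card : ℝ)
  genK : ((K.filter (fun w => ∃ L ∈ 𝓛, τ / 2 * L.card < ((nI R L w).card : ℝ))).card : ℝ) ≤ ν * X.card
  genL : ∀ L ∈ 𝓛, ((L.filter (fun f => ν * X.card < ((nO R K f).card : ℝ))).card : ℝ) ≤ ν * X.card

end AESF
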