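import Pool.Agent.AER.DefsR

/-!
# Free ends: prepared hosts for items of a class
-/

set_option autoImplicit false

namespace AESF

open Finset AE15 AED AELT AEB
open scoped Classical

/-- **Hosts fixed in advance** `x`; `E` is a small set containing them, `Q` is the reserve: whatever set `P ⊇ Q` outside `E`
is left over, at most `m + 1` items in the class `I` hung at hosts, one of them large and in the class `H`, fit into `P` up
to `C₁` vertices. -/
def BxL (N e m : ℕ) (τ d : ℝ) (I : ℕ → Fd → Prop) (H : Fd → Prop) (n₀ C₁ : ℕ) : Prop :=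
  ∀ {V : Type} {R : V → V → Prop}, AE32.Tour R → ∀ Y : Finset V, n₀ ≤ Y.card → ∃ x : ℕ → V, (∀ i < N, x i ∈ Y) ∧
    (∀ i < N, ∀ j < N, x i = x j → i = j) ∧ ∀ E ⊆ Y, E.card ≤ e → (∀ i < N, x i ∈ E) → ∃ Q ⊆ Y \ E,
      (Q.card : ℝ) ≤ d * Y.card ∧ ∀ P ⊆ Y, Disjoint P E → Q ⊆ P → ∀ L : List (V × Fd), L.length ≤ m + 1 →
        (∀ q ∈ L, (∃ i < N, q.1 = x i) ∧ I Y.card q.2) → (∃ q ∈ L, H q.2 ∧ τ * Y.card ≤ (q.2.size + 1 : ℝ)) →
          AEB.isz L + C₁ ≤ P.card → ∃ A ⊆ P, AEB.EmbI R L A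

end AESF
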