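import Pool.Agent.AEK.LT1
import Pool.Agent.AEM.Order
import Pool.Agent.AEJ.Closure
import Pool.Agent.AEB.PELem

/-!
# START-FREE: a tree at a root condition which holds almost everywhere (LEMMA G)
-/

set_option autoImplicit false

namespace AESF

open Finset AE15 AED AELT AEM
open scoped Classical

/-- the vertices of a median order which are not too close to the end are wide -/
theorem wide_of_pos {V : Type*} {R : V → V → Prop} (hT : AE32.Tour R) {X : Finset V} {p : V → ℕ} (h : MedO R X p)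
    {κ a : ℝ} (hκ : 0 ≤ κ) {x : V} (hx : x ∈ X) (ha : a + 4 * (κ * X.card) + p x + 1 ≤ X.card) : Wide R κ a X x := by
  intro Q hQ hO hC
  obtain ⟨k, hk⟩ : ∃ k : ℕ, k = ⌊κ * X.card⌋₊ := ⟨_, rfl⟩
  have hk1 : (k : ℝ) ≤ κ * X.card := by
    rw [hk]
    exact Nat.floor_le (by positivity)
  have h1 : X.filter (fun u => p x < p u) ⊆
      Q ∪ X.filter (fun u => p x < p u ∧ R u x ∧ (btw R X p x u).card ≤ k) := by
    intro u hu
    rw [mem_filter] at hu
    rw [mem_union]
    by_cases huQ : u ∈ Q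
    · exact Or.inl huQ
    · right
      rw [mem_filter]
      have hne : u ≠ x := by
        rintro rfl
        exact lt_irrefl _ hu.2
      have hRu : R u x := by
        rcases hT.tot u x hne with h2 | h2
        · exact h2
        · exact absurd (hO (mem_nO.2 ⟨hu.1, h2⟩)) huQ
      refine ⟨hu.1, hu.2, hRu, ?_⟩
      have h3 : btw R X p x u ⊆ nI R Q u := by
        intro w hw
        rw [mem_btw] at hw
        exact mem_nI.2 ⟨hO (mem_nO.2 ⟨hw.1, hw.2.2.2.1⟩), hw.2.2.2.2⟩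
      have h4 := hC u hu.1 huQ
      have h5 : ((btw R X p x u).card : ℝ) ≤ ((nI R Q u).card : ℝ) := by exact_mod_cast card_le_card h3
      rw [hk]
      exact Nat.le_floor (by linarith)
  have h2 := h.few hT hx k
  have h3 : (X.filter (fun u => p x < p u)).card = X.card - (p x + 1) := by
    have h4 := h.card_seg (a := p x + 1) (b := X.card) le_rfl
    rw [← h4]
    congr 1
    ext u
    simp only [mem_filter]
    constructor
    · rintro ⟨h5, h6⟩
      exact ⟨h5, h6, h.lt u h5⟩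
    · rintro ⟨h5, h6, _⟩
      exact ⟨h5, h6⟩
  have h4 := (card_le_card h1).trans (card_union_le _ _)
  have h5 := h.lt x hx
  have h6 : X.card ≤ Q.card + 4 * k + (p x + 1) := by omega
  have h7 : (X.card : ℝ) ≤ Q.card + 4 * k + (p x + 1) := by exact_mod_cast h6
  linarith

/-- the same for the reversed tournament -/
theorem wide_rev_of_pos {V : Type*} {R : V → V → Prop} (hT : AE32.Tour R) {X : Finset V} {p : V → ℕ} (h : MedO R X p)
    {κ a : ℝ} (hκ : 0 ≤ κ) {x : V} (hx : x ∈ X) (ha : a + 4 * (κ * X.card) ≤ p x) :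
    Wide (fun a b => R b a) κ a X x := by
  have hT' : AE32.Tour (fun a b => R b a) :=
    ⟨hT.irr, fun a b hab => (hT.tot a b hab).symm, fun a b hab => hT.asym _ _ hab⟩
  refine wide_of_pos hT' h.rev hκ hx ?_
  have h1 := h.lt x hx
  have h2 : ((X.card - 1 - p x : ℕ) : ℝ) = X.card - 1 - p x := by
    rw [Nat.cast_sub (by omega), Nat.cast_sub (by omega)]
    norm_num
  rw [h2]
  linarith

/-- **LEMMA G**: a tree with at most `(1 - θ) |W|` vertices has a copy in `W` whose root satisfies `N` if at most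
`θ / 4 |W|` vertices of `W` violate `N` -/
theorem lemG (b : ℕ) (hb : 1 ≤ b) {θ : ℝ} (hθ : 0 < θ) : ∃ n₀ : ℕ, ∀ {V : Type} {R : V → V → Prop}, AE32.Tour R →
    ∀ (W : Finset V) (N : V → Prop), n₀ ≤ W.card → ∀ c : Fd, c.len ≤ b → c.Deg b →
      (c.size + 1 : ℝ) ≤ (1 - θ) * W.card → ((W.filter (fun v => ¬ N v)).card : ℝ) ≤ θ / 4 * W.card → In R c N W := by
  obtain ⟨n₁, hlt⟩ := AEK.lt1 b hb (κ := θ / 64) (ε := θ / 8) (by positivity) (by positivity)
  refine ⟨max n₁ (⌈52 / θ⌉₊), ?_⟩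
  intro V R hT W N hn c hl hd hc hN
  have hn1 : n₁ ≤ W.card := (le_max_left _ _).trans hn
  have hn2 : 52 ≤ θ * W.card := by
    have h1 : ((⌈52 / θ⌉₊ : ℕ) : ℝ) ≤ W.card := by exact_mod_cast (le_max_right _ _).trans hn
    have h2 : 52 / θ ≤ W.card := (Nat.le_ceil _).trans h1
    rwa [div_le_iff₀' hθ] at h2
  refine hlt hT W N hn1 c hl hd (hc.trans ?_) ?_
  · have : θ / 8 * (W.card : ℝ) ≤ θ * W.card := mul_le_mul_of_nonneg_right (by linarith) (Nat.cast_nonneg _)
    linarith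
  obtain ⟨p, hp⟩ := exists_medO R W
  obtain ⟨lo, hlo⟩ : ∃ lo : ℕ, lo = ⌈((AEB.blk c : ℝ) + 1) + θ / 8 * W.card + 4 * (θ / 64 * W.card)⌉₊ := ⟨_, rfl⟩
  obtain ⟨up, hup⟩ : ∃ up : ℕ, up = ⌈((dcl c : ℝ) + 1) + θ / 8 * W.card + 4 * (θ / 64 * W.card) + 1⌉₊ := ⟨_, rfl⟩
  have hs := AEJ.dcl_add_blk_le c
  have hs' : (dcl c : ℝ) + AEB.blk c ≤ c.size := by exact_mod_cast hs
  have hlo1 : ((AEB.blk c : ℝ) + 1) + θ / 8 * W.card + 4 * (θ / 64 * W.card) ≤ lo := by rw [hlo]; exact Nat.le_ceil _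
  have hup1 : ((dcl c : ℝ) + 1) + θ / 8 * W.card + 4 * (θ / 64 * W.card) + 1 ≤ up := by rw [hup]; exact Nat.le_ceil _
  have hlo2 : (lo : ℝ) ≤ ((AEB.blk c : ℝ) + 1) + θ / 8 * W.card + 4 * (θ / 64 * W.card) + 1 := by
    rw [hlo]
    exact (Nat.ceil_lt_add_one (by positivity)).le
  have hup2 : (up : ℝ) ≤ ((dcl c : ℝ) + 1) + θ / 8 * W.card + 4 * (θ / 64 * W.card) + 1 + 1 := by
    rw [hup]
    exact (Nat.ceil_lt_add_one (by positivity)).le
  have hsum : (lo : ℝ) + up ≤ W.card := by nlinarith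
  have hsumN : lo + up ≤ W.card := by exact_mod_cast hsum
  have h1 : W.filter (fun z => lo ≤ p z ∧ p z < W.card - up) ⊆ W.filter (fun z => ¬ N z) ∪
      W.filter (fun z => N z ∧ Wide R (θ / 64) ((dcl c + 1) + θ / 8 * W.card) W z ∧
        Wide (fun a b => R b a) (θ / 64) ((AEB.blk c + 1) + θ / 8 * W.card) W z) := by
    intro z hz
    rw [mem_filter] at hz
    obtain ⟨hzW, hz1, hz2⟩ := hz
    rw [mem_union, mem_filter, mem_filter]
    by_cases hNz : N z
    · right
      refine ⟨hzW, hNz, ?_, ?_⟩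
      · refine wide_of_pos hT hp (by positivity) hzW ?_
        have h3 : p z + up + 1 ≤ W.card := by omega
        have h4 : (p z : ℝ) + up + 1 ≤ W.card := by exact_mod_cast h3
        linarith
      · refine wide_rev_of_pos hT hp (by positivity) hzW ?_
        have h4 : (lo : ℝ) ≤ p z := by exact_mod_cast hz1
        linarith
    · exact Or.inl ⟨hzW, hNz⟩
  have h2 := (card_le_card h1).trans (card_union_le _ _)
  rw [hp.card_seg (Nat.sub_le _ _)] at h2
  have h3 : W.card ≤ (W.filter (fun z => ¬ N z)).card + (W.filter (fun z => N z ∧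
      Wide R (θ / 64) ((dcl c + 1) + θ / 8 * W.card) W z ∧
        Wide (fun a b => R b a) (θ / 64) ((AEB.blk c + 1) + θ / 8 * W.card) W z)).card + up + lo := by omega
  have h4 : (W.card : ℝ) ≤ ((W.filter (fun z => ¬ N z)).card : ℝ) + ((W.filter (fun z => N z ∧
      Wide R (θ / 64) ((dcl c + 1) + θ / 8 * W.card) W z ∧
        Wide (fun a b => R b a) (θ / 64) ((AEB.blk c + 1) + θ / 8 * W.card) W z)).card : ℝ) + up + lo := by exact_mod_cast h3
  linarith

/-- **LEMMA G for a list of items**: the items `(a, c)` (hung by arcs from `a`) are placed one after another in `W`, if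
every host `a` sees all but few vertices of `W` and `σ` vertices stay free -/
theorem garb (b : ℕ) (hb : 1 ≤ b) {θ : ℝ} (hθ : 0 < θ) : ∃ n₀ : ℕ, ∀ {V : Type} {R : V → V → Prop}, AE32.Tour R →
    ∀ (L : List (V × Fd)) (W : Finset V) (σ : ℝ), (n₀ : ℝ) ≤ σ → θ * W.card ≤ σ → (AEB.isz L : ℝ) + σ ≤ W.card →
      (∀ q ∈ L, q.2.len ≤ b ∧ q.2.Deg b ∧ ((W.filter (fun v => ¬ R q.1 v)).card : ℝ) ≤ θ / 4 * σ) →
        ∃ A ⊆ W, AEB.EmbI R L A := by
  obtain ⟨n₀, h₀⟩ := lemG b hb hθ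
  refine ⟨n₀, ?_⟩
  intro V R hT L
  induction L with
  | nil =>
    intro W σ _ _ _ _
    exact ⟨∅, empty_subset _, rfl⟩
  | cons q L ih =>
    intro W σ h1 h2 h3 h4
    have hi : (AEB.isz (q :: L) : ℝ) = (q.2.size + 1) + AEB.isz L := by
      simp only [AEB.isz, List.map_cons, List.sum_cons]
      push_cast
      ring
    rw [hi] at h3
    have h0 : (0 : ℝ) ≤ AEB.isz L := Nat.cast_nonneg _
    have hs0 : (0 : ℝ) ≤ (q.2.size : ℝ) := Nat.cast_nonneg _
    have hσ0 : (0 : ℝ) ≤ n₀ := Nat.cast_nonneg _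
    obtain ⟨hl, hd, hm⟩ := h4 q (List.mem_cons_self ..)
    have hW : σ ≤ W.card := by linarith
    obtain ⟨x, hx, A, hA, hxA, hN, hE⟩ := h₀ hT W (R q.1) (by exact_mod_cast h1.trans hW) q.2 hl hd (by linarith)
      (hm.trans (mul_le_mul_of_nonneg_left hW (by positivity)))
    have hc := hE.card
    have hsub : insert x A ⊆ W := insert_subset hx hA
    have hcard : (insert x A).card = q.2.size + 1 := by rw [card_insert_of_notMem hxA, hc]
    have hW' : ((W \ insert x A).card : ℝ) + (q.2.size + 1) = W.card := by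
      have h5 := card_sdiff_add_card_eq_card hsub
      rw [hcard] at h5
      exact_mod_cast h5
    obtain ⟨B, hB, hBe⟩ := ih (W \ insert x A) σ h1 (le_trans (mul_le_mul_of_nonneg_left (by linarith) hθ.le) h2)
      (by linarith) (fun q' hq' => by
        obtain ⟨a1, a2, a3⟩ := h4 q' (List.mem_cons_of_mem _ hq')
        refine ⟨a1, a2, le_trans ?_ a3⟩
        exact_mod_cast card_le_card (filter_subset_filter _ sdiff_subset))
    refine ⟨insert x A ∪ B, union_subset hsub (hB.trans sdiff_subset), insert x A, B, ?_, rfl, ⟨x, A, hN, hxA, rfl, hE⟩, hBe⟩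
    exact disjoint_of_subset_right hB disjoint_sdiff

/-- the dual of LEMMA G for a single in-item: same statement, `N` is arbitrary in `lemG`; this is the list version for
arbitrary root conditions -/
def EmbP {V : Type*} (R : V → V → Prop) : List ((V → Prop) × Fd) → Finset V → Prop
  | [], A => A = ∅
  | p :: L, A => ∃ A₁ A₂, Disjoint A₁ A₂ ∧ A = A₁ ∪ A₂ ∧
      (∃ x S, p.1 x ∧ x ∉ S ∧ A₁ = insert x S ∧ Emb R p.2 x S) ∧ EmbP R L A₂

/-- total size -/
def psz {V : Type*} (L : List ((V → Prop) × Fd)) : ℕ := (L.map (fun p => p.2.size + 1)).sum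

theorem embP_embI {V : Type*} {R : V → V → Prop} (L : List (V × Fd)) (A : Finset V) :
    EmbP R (L.map (fun q => (R q.1, q.2))) A ↔ AEB.EmbI R L A := by
  induction L generalizing A with
  | nil => exact Iff.rfl
  | cons q L ih =>
    simp only [List.map_cons, EmbP, AEB.EmbI]
    constructor
    · rintro ⟨A₁, A₂, h1, h2, h3, h4⟩
      exact ⟨A₁, A₂, h1, h2, h3, (ih A₂).1 h4⟩
    · rintro ⟨A₁, A₂, h1, h2, h3, h4⟩
      exact ⟨A₁, A₂, h1, h2, h3, (ih A₂).2 h4⟩

theorem garbP (b : ℕ) (hb : 1 ≤ b) {θ : ℝ} (hθ : 0 < θ) : ∃ n₀ : ℕ, ∀ {V : Type} {R : V → V → Prop}, AE32.Tour R →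
    ∀ (L : List ((V → Prop) × Fd)) (W : Finset V) (σ : ℝ), (n₀ : ℝ) ≤ σ → θ * W.card ≤ σ →
      (psz L : ℝ) + σ ≤ W.card →
      (∀ q ∈ L, q.2.len ≤ b ∧ q.2.Deg b ∧ ((W.filter (fun v => ¬ q.1 v)).card : ℝ) ≤ θ / 4 * σ) →
        ∃ A ⊆ W, EmbP R L A := by
  obtain ⟨n₀, h₀⟩ := lemG b hb hθ
  refine ⟨n₀, ?_⟩
  intro V R hT L
  induction L with
  | nil =>
    intro W σ _ _ _ _
    exact ⟨∅, empty_subset _, rfl⟩
  | cons q L ih =>
    intro W σ h1 h2 h3 h4
    have hi : (psz (q :: L) : ℝ) = (q.2.size + 1) + psz L := by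
      simp only [psz, List.map_cons, List.sum_cons]
      push_cast
      ring
    rw [hi] at h3
    have h0 : (0 : ℝ) ≤ psz L := Nat.cast_nonneg _
    have hs0 : (0 : ℝ) ≤ (q.2.size : ℝ) := Nat.cast_nonneg _
    have hσ0 : (0 : ℝ) ≤ n₀ := Nat.cast_nonneg _
    obtain ⟨hl, hd, hm⟩ := h4 q (List.mem_cons_self ..)
    have hW : σ ≤ W.card := by linarith
    obtain ⟨x, hx, A, hA, hxA, hN, hE⟩ := h₀ hT W q.1 (by exact_mod_cast h1.trans hW) q.2 hl hd (by linarith)
      (hm.trans (mul_le_mul_of_nonneg_left hW (by positivity)))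
    have hc := hE.card
    have hsub : insert x A ⊆ W := insert_subset hx hA
    have hcard : (insert x A).card = q.2.size + 1 := by rw [card_insert_of_notMem hxA, hc]
    have hW' : ((W \ insert x A).card : ℝ) + (q.2.size + 1) = W.card := by
      have h5 := card_sdiff_add_card_eq_card hsub
      rw [hcard] at h5
      exact_mod_cast h5
    obtain ⟨B, hB, hBe⟩ := ih (W \ insert x A) σ h1 (le_trans (mul_le_mul_of_nonneg_left (by linarith) hθ.le) h2)
      (by linarith) (fun q' hq' => by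
        obtain ⟨a1, a2, a3⟩ := h4 q' (List.mem_cons_of_mem _ hq')
        refine ⟨a1, a2, le_trans ?_ a3⟩
        exact_mod_cast card_le_card (filter_subset_filter _ sdiff_subset))
    refine ⟨insert x A ∪ B, union_subset hsub (hB.trans sdiff_subset), insert x A, B, ?_, rfl, ⟨x, A, hN, hxA, rfl, hE⟩, hBe⟩
    exact disjoint_of_subset_right hB disjoint_sdiff

end AESF
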