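import Pool.Agent.AESF.DefsF
import Pool.Agent.AEB.PELem
import Pool.Agent.AEB.Lists
import Pool.Agent.AEJ.Tree

/-!
# Free ends at the root: partial embeddings with pending trees of both directions, the in-closure, SELECT
-/

set_option autoImplicit false

namespace AESF

open Finset AE15 AED AELT AEB
open scoped Classical

variable {V : Type} {R : V → V → Prop}

/-! ### sizes -/

theorem gsz_nil : gsz ([] : List (V × Bool × Fd)) = 0 := rfl

theorem gsz_cons (q : V × Bool × Fd) (L : List (V × Bool × Fd)) : gsz (q :: L) = q.2.2.size + 1 + gsz L := by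
  simp [gsz]

theorem gsz_append (L₁ L₂ : List (V × Bool × Fd)) : gsz (L₁ ++ L₂) = gsz L₁ + gsz L₂ := by
  simp [gsz]

theorem gsz_perm {L₁ L₂ : List (V × Bool × Fd)} (h : L₁.Perm L₂) : gsz L₁ = gsz L₂ :=
  (h.map _).sum_eq

/-! ### embeddings of lists of pending trees -/

theorem embG_append (L₁ L₂ : List (V × Bool × Fd)) (S : Finset V) : EmbG R (L₁ ++ L₂) S ↔
    ∃ S₁ S₂, Disjoint S₁ S₂ ∧ S = S₁ ∪ S₂ ∧ EmbG R L₁ S₁ ∧ EmbG R L₂ S₂ := by
  induction L₁ generalizing S with
  | nil =>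
    constructor
    · intro h
      exact ⟨∅, S, disjoint_empty_left _, (empty_union _).symm, rfl, h⟩
    · rintro ⟨S₁, S₂, _, rfl, h1, h2⟩
      rw [show S₁ = ∅ from h1, empty_union]
      exact h2
  | cons p L ih =>
    constructor
    · rintro ⟨A₁, A₂, h1, rfl, h2, h3⟩
      obtain ⟨S₁, S₂, h4, rfl, h5, h6⟩ := (ih A₂).1 h3
      rw [disjoint_union_right] at h1
      exact ⟨A₁ ∪ S₁, S₂, disjoint_union_left.2 ⟨h1.2, h4⟩, (union_assoc _ _ _).symm, ⟨A₁, S₁, h1.1, rfl, h2, h5⟩, h6⟩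
    · rintro ⟨S₁, S₂, h1, rfl, ⟨A₁, A₂, h2, rfl, h3, h4⟩, h5⟩
      rw [disjoint_union_left] at h1
      exact ⟨A₁, A₂ ∪ S₂, disjoint_union_right.2 ⟨h2, h1.1⟩, union_assoc _ _ _, h3,
        (ih _).2 ⟨A₂, S₂, h1.2, rfl, h4, h5⟩⟩

theorem EmbG.append {L₁ L₂ : List (V × Bool × Fd)} {A₁ A₂ : Finset V} (h₁ : EmbG R L₁ A₁) (h₂ : EmbG R L₂ A₂)
    (hd : Disjoint A₁ A₂) : EmbG R (L₁ ++ L₂) (A₁ ∪ A₂) :=
  (embG_append _ _ _).2 ⟨A₁, A₂, hd, rfl, h₁, h₂⟩

theorem EmbG.perm {L₁ L₂ : List (V × Bool × Fd)} (hL : L₁.Perm L₂) {A : Finset V} (h : EmbG R L₁ A) :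
    EmbG R L₂ A := by
  induction hL generalizing A with
  | nil => exact h
  | cons p _ ih =>
    obtain ⟨B₁, B₂, h1, rfl, h2, h3⟩ := h
    exact ⟨B₁, B₂, h1, rfl, h2, ih h3⟩
  | swap p q L =>
    obtain ⟨B₁, B₂, h1, rfl, h2, B₃, B₄, h3, rfl, h4, h5⟩ := h
    rw [disjoint_union_right] at h1
    refine ⟨B₃, B₁ ∪ B₄, disjoint_union_right.2 ⟨h1.1.symm, h3⟩, ?_, h4, B₁, B₄, h1.2, rfl, h2, h5⟩
    rw [← union_assoc, ← union_assoc, union_comm B₁ B₃]
  | trans _ _ ih1 ih2 => exact ih2 (ih1 h)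

theorem EmbG.card {L : List (V × Bool × Fd)} {A : Finset V} (h : EmbG R L A) : A.card = gsz L := by
  induction L generalizing A with
  | nil =>
    rw [show A = ∅ from h]
    rfl
  | cons p L ih =>
    obtain ⟨A₁, A₂, h1, rfl, ⟨x, B, h4, h5, rfl, h6⟩, h3⟩ := h
    rw [card_union_of_disjoint h1, card_insert_of_notMem h5, h6.card, ih h3, gsz_cons]

/-- the items of `AEB` as pending trees -/
theorem EmbG.of_embI {L : List (V × Fd)} {A : Finset V} (h : EmbI R L A) :
    EmbG R (L.map (fun p => (p.1, true, p.2))) A := by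
  induction L generalizing A with
  | nil => exact h
  | cons p L ih =>
    obtain ⟨A₁, A₂, h1, rfl, ⟨x, B, h4, h5, rfl, h6⟩, h3⟩ := h
    exact ⟨insert x B, A₂, h1, rfl, ⟨x, B, by simpa [Adj] using h4, h5, rfl, h6⟩, ih h3⟩

/-- the items of `AEB` in the reversed tournament as pending trees -/
theorem EmbG.of_embI_rv {L : List (V × Fd)} {A : Finset V} (h : EmbI (fun a b => R b a) L A) :
    EmbG R (L.map (fun p => (p.1, false, AEK.mrr p.2))) A := by
  induction L generalizing A with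
  | nil => exact h
  | cons p L ih =>
    obtain ⟨A₁, A₂, h1, rfl, ⟨x, B, h4, h5, rfl, h6⟩, h3⟩ := h
    exact ⟨insert x B, A₂, h1, rfl, ⟨x, B, by simpa [Adj] using h4, h5, rfl, AEK.emb_mrr h6⟩, ih h3⟩

/-! ### partial embeddings -/

/-- partial embeddings of lists of trees hanging on `v` -/
def PGL (R : V → V → Prop) (v : V) : List (Bool × Fd) → Finset V → List (V × Bool × Fd) → Prop
  | [], Z, L => Z = ∅ ∧ L = []
  | p :: ts, Z, L => ∃ Z₁ Z₂ L₁ L₂, Disjoint Z₁ Z₂ ∧ Z = Z₁ ∪ Z₂ ∧ L = L₁ ++ L₂ ∧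
      ((Z₁ = ∅ ∧ L₁ = [(v, p.1, p.2)]) ∨ ∃ x A, Adj R p.1 v x ∧ x ∉ A ∧ Z₁ = insert x A ∧ PG R p.2 x A L₁) ∧
      PGL R v ts Z₂ L₂

theorem pg_iff (c : Fd) (v : V) (Z : Finset V) (L : List (V × Bool × Fd)) : PG R c v Z L ↔ PGL R v c.trees Z L := by
  induction c generalizing Z L with
  | nil =>
    constructor
    · intro h
      cases h
      exact ⟨rfl, rfl⟩
    · rintro ⟨rfl, rfl⟩
      exact PG.nil v
  | node d c s _ ihs =>
    constructor
    · intro h
      cases h with
      | pend _ _ _ _ _ L' hs =>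
        exact ⟨∅, Z, [(v, d, c)], L', disjoint_empty_left _, (empty_union _).symm, rfl, Or.inl ⟨rfl, rfl⟩,
          (ihs _ _).1 hs⟩
      | place _ _ _ _ x A B L₁ L₂ h1 h2 h3 h4 h5 h6 =>
        exact ⟨insert x A, B, L₁, L₂, disjoint_insert_left.2 ⟨h3, h4⟩, (insert_union _ _ _).symm, rfl,
          Or.inr ⟨x, A, h1, h2, rfl, h5⟩, (ihs _ _).1 h6⟩
    · rintro ⟨Z₁, Z₂, L₁, L₂, h1, rfl, rfl, h | ⟨x, A, h4, h5, rfl, h6⟩, h3⟩
      · obtain ⟨rfl, rfl⟩ := h
        rw [empty_union]
        exact PG.pend d c s v Z₂ L₂ ((ihs _ _).2 h3)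
      · rw [disjoint_insert_left] at h1
        rw [insert_union]
        exact PG.place d c s v x A Z₂ L₁ L₂ h4 h5 h1.1 h1.2 h6 ((ihs _ _).2 h3)

theorem PGL.perm {v : V} {ts ts' : List (Bool × Fd)} (h : ts.Perm ts') {Z : Finset V} {L : List (V × Bool × Fd)}
    (hP : PGL R v ts Z L) : ∃ L', L'.Perm L ∧ PGL R v ts' Z L' := by
  induction h generalizing Z L with
  | nil => exact ⟨L, List.Perm.refl _, hP⟩
  | cons p _ ih =>
    obtain ⟨Z₁, Z₂, L₁, L₂, h1, rfl, rfl, h2, h3⟩ := hP
    obtain ⟨L', hL', h4⟩ := ih h3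
    exact ⟨L₁ ++ L', hL'.append_left L₁, Z₁, Z₂, L₁, L', h1, rfl, rfl, h2, h4⟩
  | swap p q l =>
    obtain ⟨Z₁, Z₂, L₁, L₂, h1, rfl, rfl, h2, Z₃, Z₄, L₃, L₄, h3, rfl, rfl, h4, h5⟩ := hP
    rw [disjoint_union_right] at h1
    refine ⟨L₃ ++ (L₁ ++ L₄), ?_, Z₃, Z₁ ∪ Z₄, L₃, L₁ ++ L₄, disjoint_union_right.2 ⟨h1.1.symm, h3⟩, ?_, rfl, h4,
      Z₁, Z₄, L₁, L₄, h1.2, rfl, rfl, h2, h5⟩
    · rw [← List.append_assoc, ← List.append_assoc]
      exact List.perm_append_comm.append_right L₄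
    · rw [← union_assoc, ← union_assoc, union_comm Z₁ Z₃]
  | trans _ _ ih1 ih2 =>
    obtain ⟨L', hL', h4⟩ := ih1 hP
    obtain ⟨L'', hL'', h5⟩ := ih2 h4
    exact ⟨L'', hL''.trans hL', h5⟩

theorem PG.size {c : Fd} {v : V} {Z : Finset V} {L : List (V × Bool × Fd)} (h : PG R c v Z L) :
    Z.card + gsz L = c.size := by
  induction h with
  | nil v => rfl
  | pend d c s v A L _ ih =>
    rw [gsz_cons]
    simp only [Fd.size]
    omega
  | place d c s v x A B L₁ L₂ _ h2 h3 h4 _ _ ih1 ih2 =>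
    rw [gsz_append, card_insert_of_notMem (by simp [h2, h3]), card_union_of_disjoint h4]
    simp only [Fd.size]
    omega

/-- every pending tree hangs on the common vertex or on a used vertex, and it is one of the trees below -/
theorem PG.mem {c : Fd} {v : V} {Z : Finset V} {L : List (V × Bool × Fd)} (h : PG R c v Z L) :
    ∀ q ∈ L, (q.1 = v ∨ q.1 ∈ Z) ∧ q.2.2.size < c.size ∧ ∀ b : ℕ, c.Deg b → q.2.2.len ≤ b ∧ q.2.2.Deg b := by
  induction h with
  | nil v => simp
  | pend d c s v A L _ ih =>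
    intro q hq
    rcases List.mem_cons.1 hq with rfl | hq
    · exact ⟨Or.inl rfl, by simp only [Fd.size]; omega, fun b hb => ⟨hb.1, hb.2.1⟩⟩
    · obtain ⟨h1, h2, h3⟩ := ih q hq
      exact ⟨h1, by simp only [Fd.size]; omega, fun b hb => h3 b hb.2.2⟩
  | place d c s v x A B L₁ L₂ _ _ _ _ _ _ ih1 ih2 =>
    intro q hq
    rcases List.mem_append.1 hq with hq | hq
    · obtain ⟨h1, h2, h3⟩ := ih1 q hq
      refine ⟨Or.inr ?_, by simp only [Fd.size]; omega, fun b hb => h3 b hb.2.1⟩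
      rcases h1 with h1 | h1
      · rw [h1]
        exact mem_insert_self _ _
      · exact mem_insert_of_mem (mem_union_left _ h1)
    · obtain ⟨h1, h2, h3⟩ := ih2 q hq
      refine ⟨?_, by simp only [Fd.size]; omega, fun b hb => h3 b hb.2.2⟩
      rcases h1 with h1 | h1
      · exact Or.inl h1
      · exact Or.inr (mem_insert_of_mem (mem_union_right _ h1))

theorem PG.complete {c : Fd} {v : V} {Z A : Finset V} {L : List (V × Bool × Fd)} (h : PG R c v Z L)
    (hA : EmbG R L A) (hd : Disjoint Z A) : Emb R c v (Z ∪ A) := by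
  induction h generalizing A with
  | nil v =>
    rw [show A = ∅ from hA]
    rfl
  | pend d c s v A₀ L _ ih =>
    obtain ⟨A₁, A₂, h1, rfl, ⟨x, B, h2, h3, rfl, h4⟩, h5⟩ := hA
    rw [disjoint_insert_left] at h1
    rw [disjoint_union_right, disjoint_insert_right] at hd
    refine ⟨x, B, A₀ ∪ A₂, h2, h3, by simp [h1.1, hd.1.1], disjoint_union_right.2 ⟨hd.1.2.symm, h1.2⟩, ?_, h4,
      ih h5 hd.2⟩
    ext t
    simp only [mem_union, mem_insert]
    tauto
  | place d c s v x A₀ B L₁ L₂ h1 h2 h3 h4 _ _ ih1 ih2 =>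
    obtain ⟨S₁, S₂, h5, rfl, h6, h7⟩ := (embG_append _ _ _).1 hA
    rw [disjoint_insert_left, disjoint_union_left, disjoint_union_right, disjoint_union_right, mem_union, not_or] at hd
    obtain ⟨⟨hx1, hx2⟩, ⟨hA1, hA2⟩, hB1, hB2⟩ := hd
    refine ⟨x, A₀ ∪ S₁, B ∪ S₂, h1, by simp [h2, hx1], by simp [h3, hx2], ?_, ?_, ih1 h6 hA1, ih2 h7 hB2⟩
    · rw [disjoint_union_left, disjoint_union_right, disjoint_union_right]
      exact ⟨⟨h4, hA2⟩, hB1.symm, h5⟩
    · ext t
      simp only [mem_union, mem_insert]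
      tauto

theorem PG.of_emb {c : Fd} {v : V} {S : Finset V} (h : Emb R c v S) : PG R c v S [] := by
  induction c generalizing v S with
  | nil =>
    rw [show S = ∅ from h]
    exact PG.nil v
  | node d c s ihc ihs =>
    obtain ⟨x, A, B, h1, h2, h3, h4, rfl, h6, h7⟩ := h
    exact PG.place d c s v x A B [] [] h1 h2 h3 h4 (ihc h6) (ihs h7)

theorem PG.of_pe {c : Fd} {v : V} {Z : Finset V} {L : List (V × Fd)} (h : PE R c v Z L) :
    PG R c v Z (L.map (fun p => (p.1, true, p.2))) := by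
  induction h with
  | nil v => exact PG.nil v
  | pend c s v A L _ ih => exact PG.pend true c s v A _ ih
  | place d c s v x A B L₁ L₂ h1 h2 h3 h4 _ _ ih1 ih2 =>
    rw [List.map_append]
    exact PG.place d c s v x A B _ _ h1 h2 h3 h4 ih1 ih2

/-- nothing is placed -/
theorem PG.start (c : Fd) (v : V) : PG R c v ∅ (c.trees.map (fun p => (v, p.1, p.2))) := by
  induction c with
  | nil => exact PG.nil v
  | node d c s _ ihs => exact PG.pend d c s v ∅ _ ihs

/-- a pending tree is replaced by a partial embedding of it -/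
theorem PG.bind {c c' : Fd} {v u x : V} {d : Bool} {Z Z' : Finset V} {L₁ L₂ L' : List (V × Bool × Fd)}
    (h : PG R c v Z (L₁ ++ (u, d, c') :: L₂)) (hux : Adj R d u x) (hx : x ∉ Z') (h' : PG R c' x Z' L')
    (hd : Disjoint Z (insert x Z')) : PG R c v (Z ∪ insert x Z') (L₁ ++ L' ++ L₂) := by
  obtain ⟨M, hM⟩ : ∃ M, M = L₁ ++ (u, d, c') :: L₂ := ⟨_, rfl⟩
  rw [disjoint_insert_right] at hd
  obtain ⟨hxZ, hd⟩ := hd
  rw [← hM] at h
  rw [List.append_assoc]
  induction h generalizing L₁ L₂ with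
  | nil v =>
    cases L₁ <;> simp at hM
  | pend d₀ c₀ s v A₀ L₀ hs ih =>
    cases L₁ with
    | nil =>
      simp only [List.nil_append, List.cons.injEq, Prod.mk.injEq] at hM
      obtain ⟨⟨rfl, rfl, rfl⟩, rfl⟩ := hM
      have := PG.place d₀ c₀ s v x Z' A₀ L' L₀ hux hx hxZ hd.symm h' hs
      rw [List.nil_append]
      convert this using 1
      ext t
      simp only [mem_union, mem_insert]
      tauto
    | cons p L₁ =>
      simp only [List.cons_append, List.cons.injEq] at hM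
      obtain ⟨rfl, hM⟩ := hM
      exact PG.pend d₀ c₀ s v _ _ (ih hM hxZ hd)
  | place d₀ c₀ s v y A₀ B₀ La Lb h1 h2 h3 h4 hc hs ihc ihs =>
    rw [mem_insert, mem_union, not_or, not_or] at hxZ
    rw [disjoint_insert_left, disjoint_union_left] at hd
    rcases List.append_eq_append_iff.1 hM with ⟨a', rfl, hb⟩ | ⟨c₁, ha, hb⟩
    · have h5 := ihs hb hxZ.2.2 hd.2.2
      have h6 := PG.place d₀ c₀ s v y A₀ (B₀ ∪ insert x Z') La _ h1 h2
        (by simp only [mem_union, mem_insert, not_or]; exact ⟨h3, fun h => hxZ.1 h.symm, hd.1⟩)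
        (by rw [disjoint_union_right, disjoint_insert_right]; exact ⟨h4, hxZ.2.1, hd.2.1⟩) hc h5
      rw [List.append_assoc]
      convert h6 using 1
      ext t
      simp only [mem_union, mem_insert]
      tauto
    · cases c₁ with
      | nil =>
        rw [List.append_nil] at ha
        rw [List.nil_append] at hb
        subst ha
        have h5 := ihs (L₁ := []) (L₂ := L₂) hb.symm hxZ.2.2 hd.2.2
        rw [List.nil_append] at h5
        have h6 := PG.place d₀ c₀ s v y A₀ (B₀ ∪ insert x Z') La _ h1 h2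
          (by simp only [mem_union, mem_insert, not_or]; exact ⟨h3, fun h => hxZ.1 h.symm, hd.1⟩)
          (by rw [disjoint_union_right, disjoint_insert_right]; exact ⟨h4, hxZ.2.1, hd.2.1⟩) hc h5
        convert h6 using 1
        ext t
        simp only [mem_union, mem_insert]
        tauto
      | cons p c₁ =>
        simp only [List.cons_append, List.cons.injEq] at hb
        obtain ⟨rfl, rfl⟩ := hb
        have h5 := ihc ha hxZ.2.1 hd.2.1
        have h6 := PG.place d₀ c₀ s v y (A₀ ∪ insert x Z') B₀ _ Lb h1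
          (by simp only [mem_union, mem_insert, not_or]; exact ⟨h2, fun h => hxZ.1 h.symm, hd.1⟩) h3
          (by rw [disjoint_union_left, disjoint_insert_left]; exact ⟨h4, hxZ.2.2, hd.2.2.symm⟩) h5 hs
        have h7 : L₁ ++ (L' ++ (c₁ ++ Lb)) = (L₁ ++ (L' ++ c₁)) ++ Lb := by simp [List.append_assoc]
        rw [h7]
        convert h6 using 1
        ext t
        simp only [mem_union, mem_insert]
        tauto

/-! ### partial embeddings up to the order of the pending trees -/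

/-- `PG` up to the order of the pending trees -/
def PGq (R : V → V → Prop) (c : Fd) (v : V) (Z : Finset V) (L : List (V × Bool × Fd)) : Prop :=
  ∃ L', L'.Perm L ∧ PG R c v Z L'

theorem PG.q {c : Fd} {v : V} {Z : Finset V} {L : List (V × Bool × Fd)} (h : PG R c v Z L) : PGq R c v Z L :=
  ⟨L, List.Perm.refl _, h⟩

theorem PGq.perm {c : Fd} {v : V} {Z : Finset V} {L L' : List (V × Bool × Fd)} (h : PGq R c v Z L) (hL : L.Perm L') :
    PGq R c v Z L' := by
  obtain ⟨L₀, h1, h2⟩ := h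
  exact ⟨L₀, h1.trans hL, h2⟩

theorem PGq.perm_trees {c c' : Fd} {v : V} {Z : Finset V} {L : List (V × Bool × Fd)} (h : PGq R c v Z L)
    (hc : c.trees.Perm c'.trees) : PGq R c' v Z L := by
  obtain ⟨L₀, h1, h2⟩ := h
  obtain ⟨L', h3, h4⟩ := PGL.perm hc ((pg_iff _ _ _ _).1 h2)
  exact ⟨L', h3.trans h1, (pg_iff _ _ _ _).2 h4⟩

theorem PGq.size {c : Fd} {v : V} {Z : Finset V} {L : List (V × Bool × Fd)} (h : PGq R c v Z L) :
    Z.card + gsz L = c.size := by
  obtain ⟨L₀, h1, h2⟩ := h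
  rw [← gsz_perm h1, h2.size]

theorem PGq.complete {c : Fd} {v : V} {Z S : Finset V} {L : List (V × Bool × Fd)} (h : PGq R c v Z L)
    (hS : EmbG R L S) (hd : Disjoint Z S) : Emb R c v (Z ∪ S) := by
  obtain ⟨L₀, h1, h2⟩ := h
  exact h2.complete (hS.perm h1.symm) hd

/-- every pending tree hangs on `v` or on a used vertex, and it is one of the trees below -/
theorem PGq.mem {c : Fd} {v : V} {Z : Finset V} {L : List (V × Bool × Fd)} (h : PGq R c v Z L) :
    ∀ q ∈ L, (q.1 = v ∨ q.1 ∈ Z) ∧ q.2.2.size < c.size ∧ ∀ b : ℕ, c.Deg b → q.2.2.len ≤ b ∧ q.2.2.Deg b := by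
  obtain ⟨L₀, h1, h2⟩ := h
  exact fun q hq => h2.mem q (h1.mem_iff.2 hq)

theorem PGq.ofEmb {c : Fd} {v : V} {S : Finset V} (h : Emb R c v S) : PGq R c v S [] :=
  (PG.of_emb h).q

theorem PGq.ofPE {c : Fd} {v : V} {Z : Finset V} {L : List (V × Fd)} (h : PE R c v Z L) :
    PGq R c v Z (L.map (fun q => (q.1, true, q.2))) :=
  (PG.of_pe h).q

/-- nothing is placed -/
theorem PGq.start (c : Fd) (v : V) : PGq R c v ∅ (c.trees.map (fun p => (v, p.1, p.2))) :=
  (PG.start c v).q

/-- one more tree, which is pending -/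
theorem PGq.pend {c c' : Fd} {v : V} {Z : Finset V} {L : List (V × Bool × Fd)} {p : Bool × Fd}
    (hc : c'.trees.Perm (p :: c.trees)) (h : PGq R c v Z L) : PGq R c' v Z ((v, p.1, p.2) :: L) := by
  obtain ⟨L₀, h1, h2⟩ := h
  have h3 : PGq R (.node p.1 p.2 c) v Z ((v, p.1, p.2) :: L) := ⟨(v, p.1, p.2) :: L₀, h1.cons _, PG.pend _ _ _ _ _ _ h2⟩
  exact h3.perm_trees hc.symm

/-- one more tree, which is placed -/
theorem PGq.place {d : Bool} {c s : Fd} {v x : V} {A B : Finset V} {L₁ L₂ : List (V × Bool × Fd)}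
    (hx : Adj R d v x) (hxA : x ∉ A) (hxB : x ∉ B) (hd : Disjoint A B) (h₁ : PGq R c x A L₁) (h₂ : PGq R s v B L₂) :
    PGq R (.node d c s) v (insert x (A ∪ B)) (L₁ ++ L₂) := by
  obtain ⟨M₁, h1, h2⟩ := h₁
  obtain ⟨M₂, h3, h4⟩ := h₂
  exact ⟨M₁ ++ M₂, h1.append h3, PG.place d c s v x A B M₁ M₂ hx hxA hxB hd h2 h4⟩

/-- **a pending tree is replaced by a partial embedding of it** -/
theorem PGq.bind {c d' : Fd} {v z x : V} {d : Bool} {Z A : Finset V} {L L' : List (V × Bool × Fd)}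
    (h : PGq R c v Z ((z, d, d') :: L)) (hx : Adj R d z x) (hxA : x ∉ A) (hxZ : x ∉ Z) (hd : Disjoint Z A)
    (hP : PGq R d' x A L') : PGq R c v (Z ∪ insert x A) (L' ++ L) := by
  obtain ⟨M, h1, h2⟩ := h
  obtain ⟨M', h3, h4⟩ := hP
  obtain ⟨L₁, L₂, rfl⟩ := List.append_of_mem (h1.mem_iff.2 List.mem_cons_self)
  have h5 : (L₁ ++ L₂).Perm L := (List.perm_middle.symm.trans h1).cons_inv
  refine ⟨L₁ ++ M' ++ L₂, ?_, h2.bind hx hxA h4 (disjoint_insert_right.2 ⟨hxZ, hd⟩)⟩
  have h6 : (L₁ ++ M' ++ L₂).Perm (M' ++ (L₁ ++ L₂)) := by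
    rw [← List.append_assoc]
    exact List.perm_append_comm.append_right L₂
  exact h6.trans (h3.append h5)

/-- pending trees are replaced by embeddings -/
theorem PGq.fill {c : Fd} {v : V} {Z S : Finset V} {L₁ L₂ : List (V × Bool × Fd)} (h : PGq R c v Z (L₁ ++ L₂))
    (hS : EmbG R L₁ S) (hd : Disjoint Z S) : PGq R c v (Z ∪ S) L₂ := by
  induction L₁ generalizing Z S with
  | nil =>
    rw [show S = ∅ from hS, union_empty]
    exact h
  | cons q L₁ ih =>
    obtain ⟨A₁, A₂, h1, rfl, ⟨x, B, h2, h3, rfl, h4⟩, h5⟩ := hS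
    rw [disjoint_union_right, disjoint_insert_right] at hd
    have h6 : PGq R c v (Z ∪ insert x B) ([] ++ (L₁ ++ L₂)) :=
      PGq.bind (z := q.1) (d := q.2.1) (d' := q.2.2) h h2 h3 hd.1.1 hd.1.2 (PGq.ofEmb h4)
    rw [List.nil_append] at h6
    rw [← union_assoc]
    exact ih h6 h5 (disjoint_union_left.2 ⟨hd.2, h1⟩)

/-! ### the in-closure -/

theorem blk_prIn (c : Fd) : (prIn c).size = blk c := by
  induction c with
  | nil => rfl
  | node d c s ihc ihs =>
    cases d with
    | true => simp only [prIn, if_true, ihs, blk, Nat.zero_add]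
    | false =>
      simp only [prIn, Bool.false_eq_true, if_false, Fd.size, ihc, ihs, blk]
      omega

theorem prIn_len (c : Fd) : (prIn c).len ≤ c.len := by
  induction c with
  | nil => exact le_rfl
  | node d c s ihc ihs =>
    cases d with
    | true =>
      simp only [prIn, if_true, Fd.len]
      omega
    | false =>
      simp only [prIn, Bool.false_eq_true, if_false, Fd.len]
      omega

theorem prIn_deg {b : ℕ} {c : Fd} (h : c.Deg b) : (prIn c).Deg b := by
  induction c with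
  | nil => trivial
  | node d c s ihc ihs =>
    cases d with
    | true =>
      simp only [prIn, if_true]
      exact ihs h.2.2
    | false =>
      simp only [prIn, Bool.false_eq_true, if_false]
      exact ⟨(prIn_len c).trans h.1, ihc h.2.1, ihs h.2.2⟩

theorem prIn_in (c : Fd) : ∀ p ∈ (prIn c).trees, p.1 = false := by
  induction c with
  | nil => simp [prIn, Fd.trees]
  | node d c s ihc ihs =>
    cases d with
    | true =>
      simp only [prIn, if_true]
      exact ihs
    | false =>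
      simp only [prIn, Bool.false_eq_true, if_false, Fd.trees, List.mem_cons, forall_eq_or_imp]
      exact ⟨trivial, ihs⟩

/-- the mirrored in-closure is a pure out-forest -/
theorem prIn_fok {b : ℕ} {c : Fd} (hl : c.len ≤ b) (hc : c.Deg b) : FOK b 0 0 (AEK.mrr (prIn c)) := by
  refine ⟨by rw [AEK.mrr_len]; exact (prIn_len c).trans hl, AEK.mrr_deg (prIn_deg hc), ?_⟩
  clear hl hc
  induction c with
  | nil => trivial
  | node d c s ihc ihs =>
    cases d with
    | true =>
      simp only [prIn, if_true]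
      exact ihs
    | false =>
      simp only [prIn, Bool.false_eq_true, if_false, AEK.mrr, Bool.not_false]
      exact ⟨by simpa using ihc, ihs⟩

/-- **the in-closure is embedded**: all other branches are pending, by arcs away from their hosts -/
theorem prIn_pg {c : Fd} {v : V} {S : Finset V} (h : Emb R (prIn c) v S) : ∃ L : List (V × Bool × Fd),
    PG R c v S L ∧ gsz L + blk c = c.size ∧ (∀ q ∈ L, q.2.1 = true ∧ (q.1 = v ∨ q.1 ∈ S)) ∧
    (∀ F : Fd, (true, F) ∈ c.trees → (v, true, F) ∈ L) ∧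
    ∀ b : ℕ, c.len ≤ b → c.Deg b → ∀ q ∈ L, q.2.2.len ≤ b ∧ q.2.2.Deg b := by
  have key : ∃ L : List (V × Bool × Fd), PG R c v S L ∧ (∀ q ∈ L, q.2.1 = true) ∧
      ∀ F : Fd, (true, F) ∈ c.trees → (v, true, F) ∈ L := by
    induction c generalizing v S with
    | nil =>
      rw [show S = ∅ from h]
      exact ⟨[], PG.nil v, by simp, by simp [Fd.trees]⟩
    | node d c s ihc ihs =>
      cases d with
      | true =>
        simp only [prIn, if_true] at h
        obtain ⟨L, h1, h2, h3⟩ := ihs h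
        refine ⟨(v, true, c) :: L, PG.pend true c s v S L h1, ?_, ?_⟩
        · simp only [List.mem_cons, forall_eq_or_imp]
          exact ⟨trivial, h2⟩
        · intro F hF
          simp only [Fd.trees, List.mem_cons, Prod.mk.injEq, true_and] at hF
          rcases hF with rfl | hF
          · exact List.mem_cons_self
          · exact List.mem_cons_of_mem _ (h3 F hF)
      | false =>
        simp only [prIn, Bool.false_eq_true, if_false] at h
        obtain ⟨x, A, B, h1, h2, h3, h4, rfl, h6, h7⟩ := h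
        obtain ⟨L₁, a1, a2, -⟩ := ihc h6
        obtain ⟨L₂, b1, b2, b3⟩ := ihs h7
        refine ⟨L₁ ++ L₂, PG.place false c s v x A B L₁ L₂ h1 h2 h3 h4 a1 b1, ?_, ?_⟩
        · intro q hq
          rcases List.mem_append.1 hq with hq | hq
          · exact a2 q hq
          · exact b2 q hq
        · intro F hF
          simp only [Fd.trees, List.mem_cons, Prod.mk.injEq, Bool.true_eq_false, false_and, false_or] at hF
          exact List.mem_append_right _ (b3 F hF)
  obtain ⟨L, h1, h2, h3⟩ := key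
  refine ⟨L, h1, ?_, fun q hq => ⟨h2 q hq, (h1.mem q hq).1⟩, h3, fun b _ hD q hq => (h1.mem q hq).2.2 b hD⟩
  have h4 := h1.size
  rw [h.card, blk_prIn] at h4
  omega

/-- pending trees are replaced by embeddings of their in-closures -/
theorem PGq.fillIn {c : Fd} {v : V} {Z A : Finset V} {G L : List (V × Bool × Fd)} (h : PGq R c v Z (G ++ L))
    (hA : EmbG R (G.map (fun q => (q.1, q.2.1, prIn q.2.2))) A) (hd : Disjoint Z A) :
    ∃ L' : List (V × Bool × Fd), PGq R c v (Z ∪ A) (L' ++ L) ∧ (∀ q ∈ L', q.2.1 = true ∧ q.1 ∈ A) ∧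
      (∀ b : ℕ, (∀ q ∈ G, q.2.2.len ≤ b ∧ q.2.2.Deg b) → ∀ q ∈ L', q.2.2.len ≤ b ∧ q.2.2.Deg b) := by
  induction G generalizing Z A L with
  | nil =>
    rw [show A = ∅ from hA, union_empty]
    exact ⟨[], h, by simp, by simp⟩
  | cons q G ih =>
    obtain ⟨A₁, A₂, h1, rfl, ⟨x, B, h2, h3, rfl, h4⟩, h5⟩ := hA
    rw [disjoint_union_right, disjoint_insert_right] at hd
    obtain ⟨L₁, a1, -, a3, -, a5⟩ := prIn_pg h4
    have h6 : PGq R c v (Z ∪ insert x B) (L₁ ++ (G ++ L)) :=
      PGq.bind (z := q.1) (d := q.2.1) (d' := q.2.2) h h2 h3 hd.1.1 hd.1.2 a1.q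
    have h7 : PGq R c v (Z ∪ insert x B) (G ++ (L₁ ++ L)) := by
      refine h6.perm ?_
      rw [← List.append_assoc, ← List.append_assoc]
      exact List.perm_append_comm.append_right L
    obtain ⟨L₂, b1, b2, b3⟩ := ih h7 h5 (disjoint_union_left.2 ⟨hd.2, h1⟩)
    refine ⟨L₂ ++ L₁, ?_, ?_, ?_⟩
    · rw [← union_assoc, List.append_assoc]
      exact b1
    · intro r hr
      rcases List.mem_append.1 hr with hr | hr
      · exact ⟨(b2 r hr).1, mem_union_right _ (b2 r hr).2⟩
      · refine ⟨(a3 r hr).1, mem_union_left _ ?_⟩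
        rcases (a3 r hr).2 with h8 | h8
        · rw [h8]
          exact mem_insert_self _ _
        · exact mem_insert_of_mem h8
    · intro b hb r hr
      rcases List.mem_append.1 hr with hr | hr
      · exact b3 b (fun q' hq' => hb q' (List.mem_cons_of_mem _ hq')) r hr
      · obtain ⟨h8, h9⟩ := hb q List.mem_cons_self
        exact a5 b h8 h9 r hr

/-! ### SELECT -/

/-- `c'` arises from `c` by cutting off subtrees with the children forests `I`, which hang by arcs towards vertices of the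
in-closure -/
structure Sel (c c' : Fd) (I : List Fd) : Prop where
  blk : AEB.blk c' + (I.map (fun t => AEB.blk t + 1)).sum = AEB.blk c
  dcl : AELT.dcl c' = AELT.dcl c
  size : c'.size + (I.map (fun t => t.size + 1)).sum = c.size
  len : c'.len ≤ c.len
  deg : ∀ b, c.Deg b → c'.Deg b ∧ ∀ t ∈ I, t.len ≤ b ∧ t.Deg b
  out : ∀ F : Fd, (true, F) ∈ c.trees → (true, F) ∈ c'.trees
  lift : ∀ {V : Type} {R : V → V → Prop} {v : V} {S : Finset V} {L : List (V × Bool × Fd)}, PGq R c' v S L →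
    (∀ q ∈ L, q.2.1 = true) → ∃ G : List (V × Bool × Fd), G.map (fun q => q.2.2) = I ∧
      (∀ q ∈ G, q.2.1 = false ∧ (q.1 = v ∨ q.1 ∈ S)) ∧ PGq R c v S (G ++ L)

theorem Sel.refl (c : Fd) : Sel c c [] :=
  ⟨rfl, rfl, rfl, le_rfl, fun _ h => ⟨h, by simp⟩, fun _ h => h, fun h _ => ⟨[], rfl, by simp, h⟩⟩

theorem Sel.whole {s s' : Fd} {I : List Fd} (c : Fd) (h : Sel s s' I) : Sel (.node false c s) s' (c :: I) := by
  refine ⟨?_, ?_, ?_, ?_, ?_, ?_, ?_⟩
  · have := h.blk
    simp only [AEB.blk, Bool.false_eq_true, if_false, List.map_cons, List.sum_cons]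
    omega
  · simp only [AELT.dcl, Bool.false_eq_true, if_false, Nat.zero_add]
    exact h.dcl
  · have := h.size
    simp only [Fd.size, List.map_cons, List.sum_cons]
    omega
  · have := h.len
    simp only [Fd.len]
    omega
  · intro b hb
    obtain ⟨h1, h2⟩ := h.deg b hb.2.2
    refine ⟨h1, ?_⟩
    simp only [List.mem_cons, forall_eq_or_imp]
    exact ⟨⟨hb.1, hb.2.1⟩, h2⟩
  · intro F hF
    simp only [Fd.trees, List.mem_cons, Prod.mk.injEq, Bool.true_eq_false, false_and, false_or] at hF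
    exact h.out F hF
  · intro V R v S L hP hL
    obtain ⟨G, h1, h2, h3⟩ := h.lift hP hL
    refine ⟨(v, false, c) :: G, by rw [List.map_cons, h1], ?_, ?_⟩
    · simp only [List.mem_cons, forall_eq_or_imp]
      exact ⟨⟨trivial, Or.inl trivial⟩, h2⟩
    · exact h3.pend (p := (false, c)) (List.Perm.refl _)

theorem Sel.out' {s s' : Fd} {I : List Fd} (c : Fd) (h : Sel s s' I) : Sel (.node true c s) (.node true c s') I := by
  refine ⟨?_, ?_, ?_, ?_, ?_, ?_, ?_⟩
  · have := h.blk
    simp only [AEB.blk, if_true]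
    omega
  · simp only [AELT.dcl, if_true, h.dcl]
  · have := h.size
    simp only [Fd.size]
    omega
  · have := h.len
    simp only [Fd.len]
    omega
  · intro b hb
    obtain ⟨h1, h2⟩ := h.deg b hb.2.2
    exact ⟨⟨hb.1, hb.2.1, h1⟩, h2⟩
  · intro F hF
    simp only [Fd.trees, List.mem_cons] at hF ⊢
    rcases hF with hF | hF
    · exact Or.inl hF
    · exact Or.inr (h.out F hF)
  · intro V R v S L hP hL
    obtain ⟨L₀, hp, hP⟩ := hP
    cases hP with
    | pend _ _ _ _ _ L' hs =>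
      have h1 : ∀ q ∈ L', q.2.1 = true := fun q hq => hL q (hp.mem_iff.1 (List.mem_cons_of_mem _ hq))
      obtain ⟨G, h2, h3, h4⟩ := h.lift hs.q h1
      refine ⟨G, h2, h3, ?_⟩
      have h5 : PGq R (.node true c s) v S ((v, true, c) :: (G ++ L')) := h4.pend (p := (true, c)) (List.Perm.refl _)
      refine h5.perm ?_
      exact List.perm_middle.symm.trans (hp.append_left G)
    | place _ _ _ _ x A B L₁ L₂ h1 h2 h3 h4 h5 h6 =>
      have h7 : ∀ q ∈ L₂, q.2.1 = true := fun q hq => hL q (hp.mem_iff.1 (List.mem_append_right _ hq))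
      obtain ⟨G, g1, g2, g3⟩ := h.lift h6.q h7
      refine ⟨G, g1, ?_, ?_⟩
      · intro q hq
        obtain ⟨k1, k2⟩ := g2 q hq
        refine ⟨k1, ?_⟩
        rcases k2 with k2 | k2
        · exact Or.inl k2
        · exact Or.inr (mem_insert_of_mem (mem_union_right _ k2))
      · refine (PGq.place h1 h2 h3 h4 h5.q g3).perm ?_
        rw [← List.append_assoc]
        refine (List.perm_append_comm.append_right L₂).trans ?_
        rw [List.append_assoc]
        exact hp.append_left G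

theorem Sel.inside {c c' s s' : Fd} {I₁ I₂ : List Fd} (hc : Sel c c' I₁) (h : Sel s s' I₂) :
    Sel (.node false c s) (.node false c' s') (I₁ ++ I₂) := by
  refine ⟨?_, ?_, ?_, ?_, ?_, ?_, ?_⟩
  · have h1 := h.blk
    have h2 := hc.blk
    simp only [AEB.blk, Bool.false_eq_true, if_false, List.map_append, List.sum_append]
    omega
  · simp only [AELT.dcl, Bool.false_eq_true, if_false, Nat.zero_add]
    exact h.dcl
  · have h1 := h.size
    have h2 := hc.size
    simp only [Fd.size, List.map_append, List.sum_append]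
    omega
  · have := h.len
    simp only [Fd.len]
    omega
  · intro b hb
    obtain ⟨h1, h2⟩ := h.deg b hb.2.2
    obtain ⟨h3, h4⟩ := hc.deg b hb.2.1
    refine ⟨⟨hc.len.trans hb.1, h3, h1⟩, ?_⟩
    intro t ht
    rcases List.mem_append.1 ht with ht | ht
    · exact h4 t ht
    · exact h2 t ht
  · intro F hF
    simp only [Fd.trees, List.mem_cons, Prod.mk.injEq, Bool.true_eq_false, false_and, false_or] at hF ⊢
    exact h.out F hF
  · intro V R v S L hP hL
    obtain ⟨L₀, hp, hP⟩ := hP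
    cases hP with
    | pend _ _ _ _ _ L' hs =>
      have h1 := hL _ (hp.mem_iff.1 List.mem_cons_self)
      exact absurd h1 (by simp)
    | place _ _ _ _ x A B L₁ L₂ h1 h2 h3 h4 h5 h6 =>
      have h7 : ∀ q ∈ L₂, q.2.1 = true := fun q hq => hL q (hp.mem_iff.1 (List.mem_append_right _ hq))
      have h8 : ∀ q ∈ L₁, q.2.1 = true := fun q hq => hL q (hp.mem_iff.1 (List.mem_append_left _ hq))
      obtain ⟨G₂, g1, g2, g3⟩ := h.lift h6.q h7
      obtain ⟨G₁, e1, e2, e3⟩ := hc.lift h5.q h8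
      refine ⟨G₁ ++ G₂, by rw [List.map_append, e1, g1], ?_, ?_⟩
      · intro q hq
        rcases List.mem_append.1 hq with hq | hq
        · obtain ⟨k1, k2⟩ := e2 q hq
          refine ⟨k1, Or.inr ?_⟩
          rcases k2 with k2 | k2
          · rw [k2]
            exact mem_insert_self _ _
          · exact mem_insert_of_mem (mem_union_left _ k2)
        · obtain ⟨k1, k2⟩ := g2 q hq
          refine ⟨k1, ?_⟩
          rcases k2 with k2 | k2
          · exact Or.inl k2
          · exact Or.inr (mem_insert_of_mem (mem_union_right _ k2))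
      · refine (PGq.place h1 h2 h3 h4 e3 g3).perm ?_
        have h9 : (G₁ ++ L₁ ++ (G₂ ++ L₂)).Perm (G₁ ++ G₂ ++ (L₁ ++ L₂)) := by
          rw [List.append_assoc, List.append_assoc]
          refine List.Perm.append_left G₁ ?_
          rw [← List.append_assoc, ← List.append_assoc]
          exact List.perm_append_comm.append_right L₂
        exact h9.trans (hp.append_left _)

theorem Sel.perm {c c₂ c' : Fd} {I : List Fd} (h : Sel c c' I) (hc : c.trees.Perm c₂.trees) : Sel c₂ c' I := by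
  have hE := AEJ.Eqt.of_perm hc
  have hE' := AEJ.Eqt.of_perm hc.symm
  refine ⟨by rw [hE.blk]; exact h.blk, by rw [hE.dcl]; exact h.dcl, by rw [hE.size]; exact h.size,
    by rw [hE.len]; exact h.len, fun b hb => h.deg b (hE'.deg b hb), fun F hF => h.out F (hc.mem_iff.2 hF), ?_⟩
  intro V R v S L hP hL
  obtain ⟨G, h1, h2, h3⟩ := h.lift hP hL
  exact ⟨G, h1, h2, h3.perm_trees hc⟩

theorem sel_any (c : Fd) : ∀ m, m ≤ blk c → ∃ c' I, Sel c c' I ∧ (I.map (fun t => blk t + 1)).sum = m := by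
  induction c with
  | nil =>
    intro m hm
    have h1 : m = 0 := by simpa [blk] using hm
    exact ⟨.nil, [], Sel.refl _, by simp [h1]⟩
  | node d c s ihc ihs =>
    intro m hm
    cases d with
    | true =>
      simp only [blk, if_true, Nat.zero_add] at hm
      obtain ⟨s', I, h1, h2⟩ := ihs m hm
      exact ⟨.node true c s', I, h1.out' c, h2⟩
    | false =>
      simp only [blk, Bool.false_eq_true, if_false] at hm
      by_cases h0 : m ≤ blk c
      · obtain ⟨c', I, h1, h2⟩ := ihc m h0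
        refine ⟨.node false c' s, I ++ [], h1.inside (Sel.refl s), ?_⟩
        rw [List.append_nil]
        exact h2
      · obtain ⟨s', I, h1, h2⟩ := ihs (m - (blk c + 1)) (by omega)
        refine ⟨s', c :: I, h1.whole c, ?_⟩
        rw [List.map_cons, List.sum_cons, h2]
        omega

theorem exists_max_in (c : Fd) (h : 1 ≤ blk c) : ∃ t, (false, t) ∈ c.trees ∧ blk c ≤ c.len * (blk t + 1) := by
  induction c with
  | nil => simp [blk] at h
  | node d c s _ ihs =>
    cases d with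
    | true =>
      simp only [blk, if_true, Nat.zero_add] at h ⊢
      obtain ⟨t, h1, h2⟩ := ihs h
      refine ⟨t, List.mem_cons_of_mem _ h1, h2.trans ?_⟩
      simp only [Fd.len]
      exact Nat.mul_le_mul_right _ (by omega)
    | false =>
      simp only [blk, Bool.false_eq_true, if_false, Fd.len]
      by_cases h0 : 1 ≤ blk s
      · obtain ⟨t, h1, h2⟩ := ihs h0
        by_cases h3 : blk t ≤ blk c
        · refine ⟨c, List.mem_cons_self, ?_⟩
          have h4 : s.len * (blk t + 1) ≤ s.len * (blk c + 1) := Nat.mul_le_mul_left _ (by omega)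
          rw [add_mul, one_mul]
          omega
        · refine ⟨t, List.mem_cons_of_mem _ h1, ?_⟩
          rw [add_mul, one_mul]
          omega
      · refine ⟨c, List.mem_cons_self, ?_⟩
        rw [add_mul, one_mul]
        omega

theorem sel_big (b : ℕ) : ∀ n : ℕ, ∀ c : Fd, c.size ≤ n → c.len ≤ b → c.Deg b → ∀ m, 1 ≤ m → m ≤ blk c →
    ∃ c' t I, Sel c c' (t :: I) ∧ ((t :: I).map (fun t => blk t + 1)).sum = m ∧ m ≤ b * (blk t + 1) := by
  intro n
  induction n with
  | zero =>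
    intro c hc _ _ m hm1 hm
    cases c with
    | nil =>
      simp only [blk] at hm
      omega
    | node d c s =>
      simp only [Fd.size] at hc
      omega
  | succ n ih =>
    intro c hc hl hD m hm1 hm
    obtain ⟨t, ht, hmax⟩ := exists_max_in c (by omega)
    obtain ⟨ts, hts⟩ : ∃ ts, c.trees.Perm ((false, t) :: ts) := ⟨_, List.perm_cons_erase ht⟩
    have hc₁ : (Fd.node false t (ofT ts)).trees.Perm c.trees := by
      simp only [Fd.trees, trees_ofT]
      exact hts.symm
    have hE := AEJ.Eqt.of_perm hc₁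
    have hb1 : blk t + 1 + blk (ofT ts) = blk c := by
      have := hE.blk
      simp only [blk, Bool.false_eq_true, if_false] at this
      omega
    have hDt : t.len ≤ b ∧ t.Deg b := (Fd.deg_iff b c).1 hD _ ht
    have hsz : t.size < c.size := size_lt_of_mem ht
    by_cases h0 : m ≤ blk t
    · obtain ⟨t', u, I, h1, h2, h3⟩ := ih t (by omega) hDt.1 hDt.2 m hm1 h0
      refine ⟨.node false t' (ofT ts), u, I, ?_, h2, h3⟩
      have h4 := (h1.inside (Sel.refl (ofT ts))).perm hc₁
      rwa [List.append_nil] at h4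
    · obtain ⟨s', I, h1, h2⟩ := sel_any (ofT ts) (m - (blk t + 1)) (by omega)
      refine ⟨s', t, I, (h1.whole t).perm hc₁, ?_, ?_⟩
      · rw [List.map_cons, List.sum_cons, h2]
        omega
      · exact hm.trans (hmax.trans (Nat.mul_le_mul_right _ hl))

/-- **SELECT**: `m` vertices of the in-closure are cut off as a union of in-closures of subtrees, the first of which
has at least `m / b` vertices -/
theorem select {b m : ℕ} {c : Fd} (hb : c.len ≤ b) (hD : c.Deg b) (hm : m ≤ blk c) :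
    ∃ (c' : Fd) (I : List Fd), Sel c c' I ∧ blk c' + m = blk c ∧ (I.map (fun t => blk t + 1)).sum = m ∧
      c'.size + (I.map (fun t => t.size + 1)).sum = c.size ∧ c'.len ≤ b ∧ c'.Deg b ∧ (∀ t ∈ I, t.len ≤ b ∧ t.Deg b) ∧
      (1 ≤ m → ∃ t I', I = t :: I' ∧ m ≤ b * (blk t + 1)) := by
  by_cases h0 : 1 ≤ m
  · obtain ⟨c', t, I, h1, h2, h3⟩ := sel_big b c.size c le_rfl hb hD m h0 hm
    have h4 := h1.blk
    rw [h2] at h4
    obtain ⟨h5, h6⟩ := h1.deg b hD
    exact ⟨c', t :: I, h1, h4, h2, h1.size, h1.len.trans hb, h5, h6, fun _ => ⟨t, I, rfl, h3⟩⟩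
  · obtain rfl : m = 0 := by omega
    exact ⟨c, [], Sel.refl c, rfl, rfl, rfl, hb, hD, by simp, fun h => absurd h (by omega)⟩

/-- SELECT, with the branch `F` at the root left out -/
theorem select_out {b m : ℕ} {c F : Fd} (hb : c.len ≤ b) (hD : c.Deg b) (hm : m ≤ blk c) (hF : (true, F) ∈ c.trees) :
    ∃ (c' : Fd) (I : List Fd), blk c' + m = blk c ∧ dcl c' + (dcl F + 1) = dcl c ∧
      (I.map (fun t => blk t + 1)).sum = m ∧
      c'.size + (F.size + 1) + (I.map (fun t => t.size + 1)).sum = c.size ∧ c'.len + 1 ≤ b ∧ c'.Deg b ∧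
      (∀ t ∈ I, t.len ≤ b ∧ t.Deg b) ∧ (1 ≤ m → ∃ t I', I = t :: I' ∧ m ≤ b * (blk t + 1)) ∧
      ∀ {V : Type} {R : V → V → Prop} {v : V} {S : Finset V}, Emb R c' v S → ∃ G : List (V × Bool × Fd),
        G.map (fun q => q.2.2) = I ∧ (∀ q ∈ G, q.2.1 = false ∧ (q.1 = v ∨ q.1 ∈ S)) ∧
          PGq R c v S (G ++ [(v, true, F)]) := by
  obtain ⟨c₁, I, hS, h2, h3, h4, h5, h6, h7, h8⟩ := select hb hD hm
  have hF1 := hS.out F hF
  obtain ⟨ts, hts⟩ : ∃ ts, c₁.trees.Perm ((true, F) :: ts) := ⟨_, List.perm_cons_erase hF1⟩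
  have hc₁ : c₁.trees.Perm (Fd.node true F (ofT ts)).trees := by
    simp only [Fd.trees, trees_ofT]
    exact hts
  have hE := AEJ.Eqt.of_perm hc₁
  have e1 := hE.blk
  have e2 := hE.dcl
  have e3 := hE.size
  have e4 := hE.len
  have e5 := hE.deg b h6
  simp only [blk, if_true, Nat.zero_add] at e1
  simp only [AELT.dcl, if_true] at e2
  simp only [Fd.size] at e3
  simp only [Fd.len] at e4
  have e6 := hS.dcl
  refine ⟨ofT ts, I, by omega, by omega, h3, by omega, by omega, e5.2.2, h7, h8, ?_⟩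
  intro V R v S hE'
  have h9 : PGq R c₁ v S [(v, true, F)] := (PGq.ofEmb hE').pend (p := (true, F)) (by rw [trees_ofT]; exact hts)
  exact hS.lift h9 (by simp)

/-- the in-closure is embedded, with the conditions on the pending trees in one line -/
theorem prIn_pg' {b : ℕ} {c : Fd} {v : V} {S : Finset V} (hl : c.len ≤ b) (hD : c.Deg b) (h : Emb R (prIn c) v S) :
    ∃ L : List (V × Bool × Fd), PG R c v S L ∧
      (∀ q ∈ L, q.1 ∈ insert v S ∧ q.2.1 = true ∧ q.2.2.len ≤ b ∧ q.2.2.Deg b) ∧ gsz L + blk c = c.size := by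
  obtain ⟨L, h1, h2, h3, -, h5⟩ := prIn_pg h
  exact ⟨L, h1, fun q hq => ⟨mem_insert.2 (h3 q hq).2, (h3 q hq).1, h5 b hl hD q hq⟩, h2⟩

/-- SELECT for embeddings -/
theorem select_emb {b m : ℕ} {c : Fd} (hb : c.len ≤ b) (hD : c.Deg b) (hm1 : 1 ≤ m) (hm : m ≤ blk c) :
    ∃ (c' : Fd) (I : List Fd), c'.len ≤ b ∧ c'.Deg b ∧ blk c' + m = blk c ∧ dcl c' = dcl c ∧
      c'.size + (I.map (fun t => t.size + 1)).sum = c.size ∧ (I.map (fun t => blk t + 1)).sum = m ∧
      (∃ t I', I = t :: I' ∧ m ≤ b * (blk t + 1)) ∧ (∀ t ∈ I, t.len ≤ b ∧ t.Deg b) ∧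
      ∀ {V : Type} {R : V → V → Prop} {v : V} {S : Finset V}, Emb R c' v S → ∃ L : List (V × Bool × Fd),
        PGq R c v S L ∧ (∀ q ∈ L, q.1 ∈ insert v S ∧ q.2.1 = false) ∧ L.map (fun q => q.2.2) = I := by
  obtain ⟨c', I, hS, h2, h3, h4, h5, h6, h7, h8⟩ := select hb hD hm
  refine ⟨c', I, h5, h6, h2, hS.dcl, h4, h3, h8 hm1, h7, ?_⟩
  intro V R v S hE
  obtain ⟨G, g1, g2, g3⟩ := hS.lift (PGq.ofEmb hE) (by simp)
  rw [List.append_nil] at g3
  exact ⟨G, g3, fun q hq => ⟨mem_insert.2 (g2 q hq).2, (g2 q hq).1⟩, g1⟩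

end AESF
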