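import Pool.Agent.AESF.Box
import Pool.Agent.AESF.Gar
import Pool.Agent.AESF.Tree

/-!
# Free ends: in-arborescences hung by in-arcs at outer hosts fill a set up to a bounded number of vertices
-/

set_option autoImplicit false

namespace AESF

open Finset AE15 AED AELT AEB AER
open scoped Classical

theorem tour_rv {V : Type} {R : V → V → Prop} (hT : AE32.Tour R) : AE32.Tour (fun a b => R b a) :=
  ⟨hT.irr, fun _ _ hab => (hT.tot _ _ hab).symm, fun _ _ hab => hT.asym _ _ hab⟩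

/-- **Dual items.** `x'` is a vertex of `U`. In-closures hung by in-arcs at hosts `h` which are dominated by `x'` and by
almost all of `U` fit into `U` up to a bounded number of vertices. -/
theorem dual (b : ℕ) (hb : 1 ≤ b) : ∃ (ρ : ℝ) (C₂ m₁ : ℕ), 0 < ρ ∧ ∀ {V : Type} {R : V → V → Prop}, AE32.Tour R →
    ∀ U : Finset V, m₁ ≤ U.card → ∃ x' ∈ U, ∀ I : List (V × Fd),
      (∀ q ∈ I, q.1 ∉ U ∧ q.2.len ≤ b ∧ q.2.Deg b ∧ R x' q.1 ∧
        ((U.filter (fun u => ¬ R u q.1)).card : ℝ) ≤ ρ * U.card) →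
      (I.map (fun q => blk q.2 + 1)).sum + C₂ ≤ U.card → U.card ≤ 4 * (I.map (fun q => blk q.2 + 1)).sum →
      (∃ q ∈ I, (I.map (fun q => blk q.2 + 1)).sum ≤ 2 * b * (blk q.2 + 1)) →
      ∃ D ⊆ U, EmbG R (I.map (fun q => (q.1, false, prIn q.2))) D := by
  have hb1 : (1 : ℝ) ≤ b := by exact_mod_cast hb
  have hb0 : (0 : ℝ) < b := by linarith
  obtain ⟨n₀, C₁, hbox⟩ := box b 1 1 b hb le_rfl (τ := 1 / (16 * b ^ 2)) (d := 1 / (32 * b)) (by positivity)
    (by positivity)
  obtain ⟨ng, hg⟩ := garb b hb (θ := 1 / (16 * b)) (by positivity)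
  refine ⟨1 / (1024 * b ^ 2), C₁, n₀ + 16 * b * ng + 32 * b, by positivity, ?_⟩
  intro V R hT U hU
  obtain ⟨x, hxU, -, hx⟩ := hbox (tour_rv hT) U (by omega)
  have hx0 := hxU 0 one_pos
  obtain ⟨Q, hQ, hQc, hfin⟩ := hx {x 0} (singleton_subset_iff.2 hx0) (by simp)
    (fun i hi => by rw [show i = 0 by omega]; simp)
  refine ⟨x 0, hx0, ?_⟩
  intro I hI hS1 hS2 hbig
  obtain ⟨S, hS⟩ : ∃ S, S = (I.map (fun q => blk q.2 + 1)).sum := ⟨_, rfl⟩
  rw [← hS] at hS1 hS2 hbig
  obtain ⟨⟨h₀, g₀⟩, hq₀, hbq⟩ := hbig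
  simp only at hbq
  obtain ⟨I₁, I₂, hI12⟩ := List.append_of_mem hq₀
  obtain ⟨-, hg1, hg2, hg3, -⟩ := hI _ hq₀
  simp only at hg1 hg2 hg3
  obtain ⟨F₀, hF₀⟩ : ∃ F₀, F₀ = AEK.mrr (prIn g₀) := ⟨_, rfl⟩
  have hFOK : FOK b 0 0 F₀ := by rw [hF₀]; exact prIn_fok hg1 hg2
  have hFs : F₀.size = blk g₀ := by rw [hF₀, AEK.mrr_size, blk_prIn]
  obtain ⟨L, hL⟩ : ∃ L : List (V × Fd), L = (I₁ ++ I₂).map (fun q => (q.1, AEK.mrr (prIn q.2))) := ⟨_, rfl⟩
  have hsz : ∀ J : List (V × Fd), AEB.isz (J.map (fun q => (q.1, AEK.mrr (prIn q.2)))) =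
      (J.map (fun q => blk q.2 + 1)).sum := by
    intro J
    induction J with
    | nil => rfl
    | cons q J ih =>
      rw [List.map_cons, AEB.isz_cons, ih, List.map_cons, List.sum_cons, AEK.mrr_size, blk_prIn]
  have hLS : AEB.isz L + (blk g₀ + 1) = S := by
    rw [hL, hsz, hS, hI12, List.map_append, List.sum_append, List.map_append, List.sum_append, List.map_cons,
      List.sum_cons]
    simp only
    omega
  have hmem : ∀ q ∈ I₁ ++ I₂, q ∈ I := by
    intro q hq
    rw [hI12]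
    rcases List.mem_append.1 hq with h | h
    · exact List.mem_append.2 (Or.inl h)
    · exact List.mem_append.2 (Or.inr (List.mem_cons_of_mem _ h))
  obtain ⟨u, hu⟩ : ∃ u : ℝ, u = U.card := ⟨_, rfl⟩
  have hu0 : (n₀ : ℝ) + 16 * b * ng + 32 * b ≤ u := by rw [hu]; exact_mod_cast hU
  have z1 : (0 : ℝ) ≤ n₀ := Nat.cast_nonneg _
  have z2 : (0 : ℝ) ≤ 16 * b * ng := by positivity
  have hub : u ≤ 8 * b * (blk g₀ + 1) := by
    have h1 : U.card ≤ 4 * (2 * b * (blk g₀ + 1)) := hS2.trans (Nat.mul_le_mul_left _ hbq)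
    have h2 : (U.card : ℝ) ≤ 4 * (2 * b * (blk g₀ + 1)) := by exact_mod_cast h1
    rw [hu]
    linarith
  have hu8 : u / (8 * b) ≤ blk g₀ + 1 := by
    rw [div_le_iff₀ (by positivity)]
    linarith
  have hu16 : u / (8 * b) = 4 * (u / (32 * b)) := by
    rw [← mul_div_assoc, div_eq_div_iff (by positivity) (by positivity)]
    ring
  have hu17 : u / (16 * b) = 2 * (u / (32 * b)) := by
    rw [← mul_div_assoc, div_eq_div_iff (by positivity) (by positivity)]
    ring
  have hu32 : 1 ≤ u / (32 * b) := by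
    rw [le_div_iff₀ (by positivity)]
    linarith
  rw [← hu] at hQc
  have hQc' : (Q.card : ℝ) ≤ u / (32 * b) := by
    refine hQc.trans (le_of_eq ?_)
    ring
  obtain ⟨W, hW⟩ : ∃ W, W = U \ ({x 0} ∪ Q) := ⟨_, rfl⟩
  have hWU : W ⊆ U := by rw [hW]; exact sdiff_subset
  have hWc : u ≤ W.card + 1 + u / (32 * b) := by
    have h1 := le_card_sdiff ({x 0} ∪ Q) U
    have h2 := card_union_le {x 0} Q
    rw [card_singleton] at h2
    rw [← hW] at h1
    have h3 : U.card ≤ W.card + 1 + Q.card := by omega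
    have h4 : (U.card : ℝ) ≤ W.card + 1 + Q.card := by exact_mod_cast h3
    rw [hu] at hQc' ⊢
    linarith
  have hWu : (W.card : ℝ) ≤ u := by rw [hu]; exact_mod_cast card_le_card hWU
  obtain ⟨A', hA'W, hA'⟩ := hg (tour_rv hT) L W (u / (16 * b)) (by
      rw [le_div_iff₀ (by positivity)]
      have : (ng : ℝ) * (16 * b) = 16 * b * ng := by ring
      linarith) (by
      have : 1 / (16 * b) * (W.card : ℝ) ≤ 1 / (16 * b) * u := mul_le_mul_of_nonneg_left hWu (by positivity)
      refine this.trans (le_of_eq ?_)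
      ring) (by
      have h1 : (AEB.isz L : ℝ) + (blk g₀ + 1) + C₁ ≤ u := by
        rw [hu]
        exact_mod_cast (by omega : AEB.isz L + (blk g₀ + 1) + C₁ ≤ U.card)
      have h2 : (0 : ℝ) ≤ C₁ := Nat.cast_nonneg _
      linarith) (by
      intro q hq
      rw [hL, List.mem_map] at hq
      obtain ⟨r, hr, rfl⟩ := hq
      obtain ⟨-, h1, h2, -, h4⟩ := hI r (hmem r hr)
      refine ⟨?_, AEK.mrr_deg (prIn_deg h2), ?_⟩
      · rw [AEK.mrr_len]
        exact (prIn_len _).trans h1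
      · have h5 : ((W.filter (fun v => ¬ R v r.1)).card : ℝ) ≤ (U.filter (fun v => ¬ R v r.1)).card := by
          exact_mod_cast card_le_card (filter_subset_filter _ hWU)
        refine (h5.trans h4).trans (le_of_eq ?_)
        rw [← hu]
        ring)
  have hA'c := hA'.card
  have hx0A' : x 0 ∉ A' := by
    intro h
    have := hA'W h
    rw [hW, mem_sdiff, mem_union, not_or] at this
    exact this.2.1 (mem_singleton_self _)
  obtain ⟨P, hP⟩ : ∃ P, P = U \ insert (x 0) A' := ⟨_, rfl⟩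
  have hPU : P ⊆ U := by rw [hP]; exact sdiff_subset
  have hPc : P.card + (AEB.isz L + 1) = U.card := by
    have h1 : insert (x 0) A' ⊆ U := insert_subset hx0 (hA'W.trans hWU)
    rw [hP, card_sdiff_of_subset h1, card_insert_of_notMem hx0A', hA'c]
    have := card_le_card h1
    rw [card_insert_of_notMem hx0A', hA'c] at this
    omega
  have hpend : PE (fun a b => R b a) F₀ (x 0) ∅ (F₀.trees.map (fun p => (x 0, p.2))) := pure_pend hFOK (x 0)
  have hisz : F₀.size = AEB.isz (F₀.trees.map (fun p => (x 0, p.2))) := by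
    have := hpend.size
    simpa using this
  obtain ⟨A₀, hA₀P, hA₀⟩ := hfin P hPU (by
      rw [disjoint_singleton_right, hP, mem_sdiff, not_and_not_right]
      exact fun _ => mem_insert_self _ _) (by
      intro v hv
      have h1 := mem_sdiff.1 (hQ hv)
      rw [hP, mem_sdiff, mem_insert, not_or]
      refine ⟨h1.1, fun h => h1.2 (mem_singleton.2 h), fun h => ?_⟩
      have h2 := hA'W h
      rw [hW, mem_sdiff, mem_union, not_or] at h2
      exact h2.2.2 hv) (F₀.trees.map (fun p => (x 0, p.2))) (by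
      rw [List.length_map, length_trees]
      have := hFOK.1
      omega) (by
      intro q hq
      obtain ⟨r, hr, rfl⟩ := List.mem_map.1 hq
      exact ⟨⟨0, one_pos, rfl⟩, (pure_child hFOK hr).2⟩) (by
      have h1 : (blk g₀ : ℝ) = AEB.isz (F₀.trees.map (fun p => (x 0, p.2))) := by
        rw [← hisz, hFs]
      have h2 : F₀.trees.map (fun p => (x 0, p.2)) ≠ [] := by
        intro h
        rw [h] at h1
        simp only [AEB.isz_nil, Nat.cast_zero] at h1
        linarith
      obtain ⟨q, hq, h3⟩ := exists_big h2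
      refine ⟨q, hq, ?_⟩
      rw [List.length_map, length_trees] at h3
      have h4 : (AEB.isz (F₀.trees.map (fun p => (x 0, p.2))) : ℝ) ≤ F₀.len * (q.2.size + 1) := by exact_mod_cast h3
      have h5 : (F₀.len : ℝ) ≤ b := by exact_mod_cast hFOK.1
      have h6 : (F₀.len : ℝ) * (q.2.size + 1) ≤ b * (q.2.size + 1) := mul_le_mul_of_nonneg_right h5 (by positivity)
      have h7 : (blk g₀ : ℝ) ≤ b * (q.2.size + 1) := by linarith
      rw [← hu]
      have h8 : 1 / (16 * (b : ℝ) ^ 2) * u = 2 * (u / (32 * b)) / b := by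
        rw [← mul_div_assoc, div_div, div_mul_eq_mul_div, one_mul, div_eq_div_iff (by positivity) (by positivity)]
        ring
      rw [h8, div_le_iff₀ hb0]
      linarith) (by
      rw [← hisz, hFs]
      omega)
  have hEmb : Emb (fun a b => R b a) F₀ (x 0) A₀ := by
    have := hpend.complete hA₀ (disjoint_empty_left _)
    rwa [empty_union] at this
  have hx0A₀ : x 0 ∉ A₀ := by
    intro h
    have := hA₀P h
    rw [hP, mem_sdiff, mem_insert, not_or] at this
    exact this.2.1 rfl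
  have hdis : Disjoint (insert (x 0) A₀) A' := by
    rw [disjoint_insert_left]
    refine ⟨hx0A', ?_⟩
    rw [disjoint_left]
    intro v hv hvA
    have := hA₀P hv
    rw [hP, mem_sdiff, mem_insert, not_or] at this
    exact this.2.2 hvA
  have hall : AEB.EmbI (fun a b => R b a) ((h₀, F₀) :: L) (insert (x 0) A₀ ∪ A') :=
    ⟨insert (x 0) A₀, A', hdis, rfl, ⟨x 0, A₀, hg3, hx0A₀, rfl, hEmb⟩, hA'⟩
  have hperm : ((h₀, F₀) :: L).Perm (I.map (fun q => (q.1, AEK.mrr (prIn q.2)))) := by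
    rw [hL, hI12, hF₀]
    have h1 : ((h₀, g₀) :: (I₁ ++ I₂)).Perm (I₁ ++ (h₀, g₀) :: I₂) := List.perm_middle.symm
    exact h1.map (fun q : V × Fd => (q.1, AEK.mrr (prIn q.2)))
  refine ⟨insert (x 0) A₀ ∪ A', union_subset (insert_subset hx0 (hA₀P.trans hPU)) (hA'W.trans hWU), ?_⟩
  have h1 := EmbG.of_embI_rv (hall.perm hperm)
  rw [List.map_map] at h1
  have h2 : (fun p : V × Fd => (p.1, false, AEK.mrr p.2)) ∘ (fun q : V × Fd => (q.1, AEK.mrr (prIn q.2))) =
      fun q : V × Fd => (q.1, false, prIn q.2) := by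
    funext q
    simp only [Function.comp_apply, AEK.mrr_mrr]
  rwa [h2] at h1

end AESF
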