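import Pool.Agent.AEN.AltDefs
import Pool.Agent.AEN.RigPure

/-!
# Codes of paths: chains of branches, and lines with small exits
-/

set_option autoImplicit false

namespace AESF

open Finset AE15 AED AELT AEK AEJ AEW AEY AEN
open scoped Classical

/-- the code of a path, from one of its ends -/
def Pth : Fd → Prop
  | .nil => True
  | .node _ c s => s = .nil ∧ Pth c

/-- the length of the first run, if it has the direction `d` -/
def rn (d : Bool) : Fd → ℕ
  | .nil => 0
  | .node e c _ => if e = d then rn d c + 1 else 0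

theorem pth_of (F : Fd) : F.len ≤ 1 → F.Deg 1 → Pth F := by
  induction F with
  | nil => intro _ _; trivial
  | node d c s ihc _ =>
    intro h1 h2
    refine ⟨?_, ihc h2.1 h2.2.1⟩
    cases s with
    | nil => rfl
    | node d' c' s' =>
      simp only [Fd.len] at h1
      omega

theorem Pth.len {F : Fd} (h : Pth F) : F.len ≤ 1 := by
  cases F with
  | nil => simp [Fd.len]
  | node d c s =>
    rw [h.1]
    simp [Fd.len]

theorem Pth.deg {b : ℕ} (hb : 1 ≤ b) {F : Fd} (h : Pth F) : F.Deg b := by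
  induction F with
  | nil => trivial
  | node d c s ihc _ =>
    refine ⟨h.2.len.trans hb, ihc h.2, ?_⟩
    rw [h.1]
    trivial

theorem Pth.mrr {F : Fd} (h : Pth F) : Pth (mrr F) := by
  induction F with
  | nil => trivial
  | node d c s ihc _ =>
    refine ⟨?_, ihc h.2⟩
    rw [h.1]
    rfl

theorem rn_mrr (d : Bool) (F : Fd) : rn d (mrr F) = rn (!d) F := by
  induction F with
  | nil => rfl
  | node e c s ihc _ =>
    simp only [rn, AEK.mrr, ihc]
    cases d <;> cases e <;> simp

theorem Pth.dcl {F : Fd} (h : Pth F) : dcl F = rn true F := by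
  induction F with
  | nil => rfl
  | node e c s ihc _ =>
    obtain ⟨rfl, h2⟩ := h
    cases e <;> simp [AELT.dcl, rn, ihc h2]

theorem Pth.blk {F : Fd} (h : Pth F) : AEB.blk F = rn false F := by
  induction F with
  | nil => rfl
  | node e c s ihc _ =>
    obtain ⟨rfl, h2⟩ := h
    cases e <;> simp [AEB.blk, rn, ihc h2]

theorem rn_le (d : Bool) (F : Fd) : rn d F ≤ F.size := by
  induction F with
  | nil => simp [rn]
  | node e c s ihc _ =>
    simp only [rn, Fd.size]
    split_ifs <;> omega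

/-- only one of the two numbers is positive -/
theorem rn_zero {d : Bool} {F : Fd} (h : 1 ≤ rn d F) : rn (!d) F = 0 := by
  cases F with
  | nil => rfl
  | node e c s =>
    simp only [rn] at h ⊢
    cases d <;> cases e <;> simp_all

theorem rn_pos {F : Fd} (h : F ≠ .nil) : ∃ d, 1 ≤ rn d F := by
  cases F with
  | nil => exact absurd rfl h
  | node e c s => exact ⟨e, by simp [rn]⟩

theorem pth_node {d : Bool} {F : Fd} (h : Pth F) (h1 : 1 ≤ rn d F) : ∃ G, F = .node d G .nil ∧ Pth G ∧
    G.size + 1 = F.size ∧ rn d G + 1 = rn d F := by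
  cases F with
  | nil => simp [rn] at h1
  | node e c s =>
    obtain ⟨rfl, h2⟩ := h
    have he : e = d := by
      by_contra he
      simp [rn, he] at h1
    subst he
    exact ⟨c, rfl, h2, by simp [Fd.size], by simp [rn]⟩

/-- down the first run -/
theorem pth_down {d : Bool} (r : ℕ) : ∀ F : Fd, Pth F → r ≤ rn d F → ∃ G, Pth G ∧ G.size + r = F.size ∧
    rn d G + r = rn d F ∧ (r = 0 → G = F) ∧ (1 ≤ r → ∀ d0, ∃ m, AESK.PtT 0 (d0, F) (d, G) m) := by
  induction r with
  | zero =>
    intro F hF _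
    exact ⟨F, hF, rfl, rfl, fun _ => rfl, fun h => by omega⟩
  | succ r ih =>
    intro F hF hr
    obtain ⟨G, rfl, h2, h3, h4⟩ := pth_node (d := d) hF (by omega)
    obtain ⟨G', g1, g2, g3, g4, g5⟩ := ih G h2 (by omega)
    refine ⟨G', g1, by omega, by omega, fun h => by omega, fun _ d0 => ?_⟩
    have h5 : AESK.PtT 0 (d0, Fd.node d G .nil) (d, G) (0 + if d = d0 then 0 else 1) :=
      AESK.PtT.step _ _ _ AESK.PtT.refl (by simp [Fd.trees]) (Nat.zero_le _)
    by_cases hr0 : r = 0
    · rw [g4 hr0]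
      exact ⟨_, h5⟩
    · obtain ⟨m, hm⟩ := g5 (by omega) d
      exact ⟨_, h5.trans hm⟩

/-- a line which exits inside of its first run -/
theorem inX_run {l K : ℕ} {Q : Fd → Prop} (r : ℕ) : ∀ F : Fd, Pth F → 1 ≤ r → r ≤ rn true F →
    (∀ G, Pth G → G.size + r = F.size → rn true G + r = rn true F → Q G ∧ K * (AEB.blk G + 1) ≤ G.size + 2) →
      InX l K Q (F.size + 1) 0 F := by
  induction r with
  | zero => intro F _ h; omega
  | succ r ih =>
    intro F hF _ hr hQ
    obtain ⟨G, rfl, h2, h3, h4⟩ := pth_node (d := true) hF (by omega)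
    refine ⟨?_, trivial, fun q hq => by simp [Fd.trees] at hq⟩
    simp only [if_true]
    by_cases hr0 : r = 0
    · left
      subst hr0
      obtain ⟨g1, g2⟩ := hQ G h2 (by omega) (by omega)
      refine ⟨g1, ?_⟩
      simp only [Fd.size]
      simpa using g2
    · right
      exact ih G h2 (by omega) (by omega) fun G' g1 g2 g3 => hQ G' g1 (by omega) (by omega)

/-- **a path whose first run is long, with the exit in the middle of the first run** -/
theorem fx_path {b l K M A' : ℕ} (hb : 1 ≤ b) {θ : ℝ} (hθ : 0 < θ) (hθA : 8 * (A' + 1) * θ ≤ 1) (hM : 2 * K + 2 ≤ M)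
    {W : Fd → Prop} {G : Fd} (hG : Pth G) (h1 : 2 * (A' + 1) * (K + 1) ≤ G.size + 1)
    (h2 : (G.size : ℝ) + 1 ≤ 2 * θ * (G.size + 1) + rn true G)
    (hW : ∀ c, Pth c → c.size < G.size → (c.size + 1 ≤ M ∨ θ * (c.size + 1) + dcl c + AEB.blk c ≤ c.size + 1) → W c) :
    FX b l K (fun c => W c ∧ A' * (c.size + 1) < G.size + 1) 0 G := by
  obtain ⟨ρ, hρ⟩ := Nat.exists_eq_add_of_le (rn_le true G)
  have hA0 : (0 : ℝ) ≤ A' := Nat.cast_nonneg _
  have h3 : (ρ : ℝ) + 1 ≤ 2 * θ * (G.size + 1) := by
    have : (G.size : ℝ) = rn true G + ρ := by exact_mod_cast hρ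
    rw [this] at h2 ⊢
    linarith
  have h4 : ((A' : ℝ) + 1) * (2 * ρ + 2) ≤ (G.size + 1) / 2 := by
    have h5 : (0 : ℝ) ≤ (G.size : ℝ) + 1 := by positivity
    have h6 : ((A' : ℝ) + 1) * (ρ + 1) ≤ (A' + 1) * (2 * θ * (G.size + 1)) := mul_le_mul_of_nonneg_left h3 (by positivity)
    have h7 : 8 * ((A' : ℝ) + 1) * θ * (G.size + 1) ≤ 1 * (G.size + 1) := mul_le_mul_of_nonneg_right hθA h5
    linarith
  have h5 : (A' + 1) * (2 * ρ + K + 3) ≤ G.size + 1 := by
    have h6 : (2 * (A' + 1) * (K + 1) : ℝ) ≤ G.size + 1 := by exact_mod_cast h1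
    have h7 : ((A' : ℝ) + 1) * (2 * ρ + K + 3) ≤ G.size + 1 := by linarith
    exact_mod_cast h7
  have h6 : 2 * ρ + K + 3 ≤ (A' + 1) * (2 * ρ + K + 3) := Nat.le_mul_of_pos_left _ (by omega)
  have h7 : A' * (2 * ρ + K + 2) < G.size + 1 := by
    have e1 : A' * (2 * ρ + K + 2) ≤ A' * (2 * ρ + K + 3) := Nat.mul_le_mul_left _ (by omega)
    have e2 : (A' + 1) * (2 * ρ + K + 3) = A' * (2 * ρ + K + 3) + (2 * ρ + K + 3) := by ring
    omega
  refine ⟨hG.len.trans hb, hG.deg hb, ?_⟩
  refine inX_run (G.size - (2 * ρ + K + 1)) G hG (by omega) (by omega) ?_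
  intro c hc hc1 hc2
  have hs : c.size = 2 * ρ + K + 1 := by omega
  have hr : rn true c = ρ + K + 1 := by omega
  have hz : AEB.blk c = 0 := by
    rw [hc.blk]
    exact rn_zero (d := true) (by omega)
  refine ⟨⟨hW c hc (by omega) ?_, by rw [hs]; exact h7⟩, by rw [hz, hs]; omega⟩
  by_cases hcM : c.size + 1 ≤ M
  · exact Or.inl hcM
  · right
    rw [hc.dcl, hz, hr, hs]
    have e1 : K + 1 ≤ 2 * ρ := by omega
    have e2 : (K : ℝ) + 1 ≤ 2 * ρ := by exact_mod_cast e1
    have e3 : θ ≤ 1 / 4 := by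
      have : 8 * (0 + 1) * θ ≤ 8 * (A' + 1) * θ := by
        refine mul_le_mul_of_nonneg_right ?_ hθ.le
        linarith
      linarith
    have e4 : θ * (2 * ρ + K + 1 + 1) ≤ 1 / 4 * (2 * ρ + K + 1 + 1) := mul_le_mul_of_nonneg_right e3 (by positivity)
    push_cast
    linarith

theorem tameR_pth {b l K : ℕ} {F : Fd} (h : Pth F) : TameR b l K F := by
  intro c c' h1 h2 D hD
  left
  cases F with
  | nil => simp [Fd.hv] at h1
  | node e f s =>
    obtain ⟨rfl, hf⟩ := h
    simp only [Fd.hv, Option.some.injEq, Prod.mk.injEq] at h1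
    obtain ⟨-, rfl⟩ := h1
    cases f with
    | nil => simp [Fd.hv] at h2
    | node e f s =>
      obtain ⟨rfl, hf⟩ := hf
      simp only [Fd.hv, Option.some.injEq, Prod.mk.injEq] at h2
      simp only [Fd.trees, List.mem_cons, Prod.mk.injEq, List.not_mem_nil, or_false] at hD
      exact hD.2.trans h2.2

/-- **the codes of paths are chains of branches** -/
theorem wc_path {b l K M A' : ℕ} (hb : 1 ≤ b) {θ ε μ : ℝ} (hθ : 0 < θ) (hθA : 8 * (A' + 1) * θ ≤ 1) (hM : 2 * K + 2 ≤ M)
    (hM2 : (2 * (A' + 1) * (K + 1) : ℝ) ≤ θ * M) (m : ℕ) :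
    ∀ F : Fd, F.size = m → Pth F → ∀ n, F.size ≤ n → (F.size + 1 ≤ M ∨ θ * (F.size + 1) + dcl F + AEB.blk F ≤ F.size + 1) →
      Wc θ ε μ M (Rgn b l K A' θ ε μ M n) F := by
  have hA0 : (0 : ℝ) ≤ A' := Nat.cast_nonneg _
  have hθ8 : θ ≤ 1 / 8 := by
    have : 8 * (0 + 1) * θ ≤ 8 * (A' + 1) * θ := by
      refine mul_le_mul_of_nonneg_right ?_ hθ.le
      linarith
    linarith
  induction m using Nat.strong_induction_on with
  | _ m ih =>
    intro F hm hF n hn hw
    refine ⟨hw, ?_⟩
    by_cases hs : F.size + 1 ≤ M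
    · exact BlN.small F hs
    have hw' : θ * (F.size + 1) + dcl F + AEB.blk F ≤ F.size + 1 := hw.resolve_left hs
    have hne : F ≠ .nil := by
      rintro rfl
      simp only [Fd.size] at hs
      omega
    obtain ⟨d, hd⟩ := rn_pos hne
    have hsum : dcl F + AEB.blk F = rn d F := by
      rw [hF.dcl, hF.blk]
      have h1 := rn_zero hd
      cases d
      · simp only [Bool.not_false] at h1
        rw [h1, zero_add]
      · simp only [Bool.not_true] at h1
        rw [h1, add_zero]
    have hsum' : (dcl F : ℝ) + AEB.blk F = rn d F := by exact_mod_cast hsum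
    -- the vertex before the turn, and the turn
    obtain ⟨c, hc, hc1, hc2, hc3, hc4⟩ := pth_down (d := d) (rn d F - 1) F hF (by omega)
    obtain ⟨G, rfl, hG, hG1, hG2⟩ := pth_node (d := d) hc (by omega)
    have hGr : rn d G = 0 := by omega
    have hGs : θ * (F.size + 1) ≤ (G.size : ℝ) + 1 := by
      have e1 : F.size = G.size + rn d F := by omega
      have e2 : (F.size : ℝ) = G.size + rn d F := by exact_mod_cast e1
      have e3 : θ * (F.size + 1) + rn d F ≤ F.size + 1 := by linarith
      linarith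
    have hcs : (Fd.node d G .nil).size = G.size + 1 := hG1.symm
    have hFM : (M : ℝ) ≤ F.size + 1 := by
      have : M ≤ F.size + 1 := by omega
      exact_mod_cast this
    have hGbig : 2 * (A' + 1) * (K + 1) ≤ G.size + 1 := by
      have e1 : θ * M ≤ θ * (F.size + 1) := mul_le_mul_of_nonneg_left hFM hθ.le
      have e2 : (2 * (A' + 1) * (K + 1) : ℝ) ≤ G.size + 1 := by linarith
      exact_mod_cast e2
    have hGc : θ * ((Fd.node d G .nil).size + 1) ≤ (G.size : ℝ) + 1 := by
      refine le_trans (mul_le_mul_of_nonneg_left ?_ hθ.le) hGs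
      have : (Fd.node d G .nil).size ≤ F.size := by omega
      have e1 : ((Fd.node d G .nil).size : ℝ) ≤ F.size := by exact_mod_cast this
      linarith
    have hsumG : ∀ H, Pth H → rn d H = 0 → dcl H + AEB.blk H = rn (!d) H := by
      intro H hH h1
      rw [hH.dcl, hH.blk]
      cases d
      · simp only [Bool.not_false]
        omega
      · simp only [Bool.not_true]
        omega
    -- the branch before the turn
    have hB : BlN θ ε μ M (Rgn b l K A' θ ε μ M n) (EndP θ ε M) (.node d G .nil) := by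
      by_cases hGw : θ * (G.size + 1) + dcl G + AEB.blk G ≤ G.size + 1
      · -- a balanced branch at the turn
        refine BlN.step _ true (d, G) _ (AESK.PtT.step (true, Fd.node d G .nil) (d, G) 0 AESK.PtT.refl (by simp [Fd.trees])
          (Nat.zero_le _)) (by simp only; omega) hGc hGw ?_
        exact (ih G.size (by omega) G rfl hG n (by omega) (Or.inr hGw)).2
      · -- a line which starts with a turn
        push Not at hGw
        obtain ⟨n', rfl⟩ : ∃ n', n = n' + 1 := ⟨n - 1, by omega⟩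
        have hrG := hsumG G hG hGr
        have hrG' : (dcl G : ℝ) + AEB.blk G = rn (!d) G := by exact_mod_cast hrG
        have h2 : (G.size : ℝ) + 1 ≤ 2 * θ * (G.size + 1) + rn (!d) G := by
          have : 0 ≤ θ * ((G.size : ℝ) + 1) := by positivity
          linarith
        have hW : ∀ c, Pth c → c.size < G.size → (c.size + 1 ≤ M ∨ θ * (c.size + 1) + dcl c + AEB.blk c ≤ c.size + 1) →
            Wc θ ε μ M (Rgn b l K A' θ ε μ M n') c := fun c g1 g2 g3 => ih c.size (by omega) c rfl g1 n' (by omega) g3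
        refine BlN.rig _ (d, G) G.size (by simp [Fd.trees]) ?_ hGc
        cases d with
        | false =>
          refine Or.inl ⟨rfl, ?_, tameR_pth hG, ?_⟩
          · exact fx_path hb hθ hθA hM hG hGbig (by simpa using h2) hW
          · simp only
            rw [hG.blk, hGr, add_zero]
        | true =>
          refine Or.inr ⟨rfl, ?_, tameR_pth hG.mrr, ?_⟩
          · have h3 := fx_path (b := b) (l := l) hb hθ hθA hM (G := mrr G) (W := fun c => Wc θ ε μ M (Rgn b l K A' θ ε μ M n') (mrr c))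
              hG.mrr (by rw [mrr_size]; exact hGbig) (by rw [mrr_size, rn_mrr]; exact h2) (fun c g1 g2 g3 => ?_)
            · rw [mrr_size] at h3
              exact h3
            · refine hW (mrr c) g1.mrr (by rw [mrr_size] at g2 ⊢; exact g2) ?_
              rw [mrr_size]
              refine g3.imp_right fun g3 => ?_
              rw [AEJ.dcl_mrr, AEJ.blk_mrr]
              linarith
          · simp only
            rw [hG.dcl, hGr, add_zero]
    by_cases hr : rn d F = 1
    · rw [hc3 (by omega)] at hB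
      exact hB
    · obtain ⟨m', hm'⟩ := hc4 (by omega) true
      refine BlN.step F true (d, Fd.node d G .nil) m' hm' (by simp only; omega) ?_ ?_ hB
      · simp only
        rw [hcs]
        push_cast
        linarith
      · simp only
        have e1 : dcl (Fd.node d G .nil) + AEB.blk (Fd.node d G .nil) = 1 := by
          rw [hc.dcl, hc.blk]
          cases d
          · simp [rn, hGr]
          · simp [rn, hGr]
        have e2 : (dcl (Fd.node d G .nil) : ℝ) + AEB.blk (Fd.node d G .nil) = 1 := by exact_mod_cast e1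
        have e3 : θ * ((Fd.node d G .nil).size + 1) ≤ 1 / 8 * ((Fd.node d G .nil).size + 1) :=
          mul_le_mul_of_nonneg_right hθ8 (by positivity)
        have e4 : (1 : ℝ) ≤ (Fd.node d G .nil).size := by
          have : 1 ≤ (Fd.node d G .nil).size := by omega
          exact_mod_cast this
        linarith

/-- **a path at a vertex: a chain of branches, or a path whose first run is long** -/
theorem path_cases {b l K M A' : ℕ} (hb : 1 ≤ b) {θ ε μ : ℝ} (hθ : 0 < θ) (hθA : 8 * (A' + 1) * θ ≤ 1) (hM : 2 * K + 2 ≤ M)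
    (hM2 : (2 * (A' + 1) * (K + 1) : ℝ) ≤ θ * M) {c F : Fd} (hFc : (true, F) ∈ c.trees) (hF : Pth F)
    (hs : θ * (c.size + 1) ≤ (F.size : ℝ) + 1) {n : ℕ} (hn : F.size + 1 ≤ n) :
    BlN θ ε μ M (Rgn b l K A' θ ε μ M n) (EndP θ ε M) c ∨
      (M < c.size + 1 ∧ (F.size : ℝ) + 1 < θ * (F.size + 1) + rn true F) := by
  by_cases hcM : c.size + 1 ≤ M
  · exact Or.inl (BlN.small c hcM)
  have hcM' : (M : ℝ) ≤ c.size + 1 := by
    have : M ≤ c.size + 1 := by omega
    exact_mod_cast this
  have hbig : 2 * (A' + 1) * (K + 1) ≤ F.size + 1 := by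
    have e1 : θ * M ≤ θ * (c.size + 1) := mul_le_mul_of_nonneg_left hcM' hθ.le
    have e2 : (2 * (A' + 1) * (K + 1) : ℝ) ≤ F.size + 1 := by linarith
    exact_mod_cast e2
  have hlt : F.size < c.size := by
    exact AEB.size_lt_of_mem hFc
  by_cases hw : θ * (F.size + 1) + dcl F + AEB.blk F ≤ F.size + 1
  · left
    refine BlN.step c true (true, F) _ (AESK.PtT.step (true, c) (true, F) 0 AESK.PtT.refl hFc (Nat.zero_le _)) hlt hs hw ?_
    exact (wc_path hb hθ hθA hM hM2 F.size F rfl hF n (by omega) (Or.inr hw)).2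
  · push Not at hw
    rcases Nat.eq_zero_or_pos (rn true F) with h0 | h0
    · left
      obtain ⟨n', rfl⟩ : ∃ n', n = n' + 1 := ⟨n - 1, by omega⟩
      refine BlN.rig c (true, F) F.size hFc (Or.inr ⟨rfl, ?_, tameR_pth hF.mrr, ?_⟩) hs
      · rw [hF.dcl, hF.blk, h0] at hw
        have h3 := fx_path (b := b) (l := l) hb hθ hθA hM (G := mrr F) (W := fun c => Wc θ ε μ M (Rgn b l K A' θ ε μ M n') (mrr c))
          hF.mrr (by rw [mrr_size]; exact hbig) (by
            rw [mrr_size, rn_mrr]
            have : 0 ≤ θ * ((F.size : ℝ) + 1) := by positivity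
            push_cast at hw
            simp only [Bool.not_true]
            linarith) (fun e g1 g2 g3 => ?_)
        · rw [mrr_size] at h3
          exact h3
        · refine wc_path hb hθ hθA hM hM2 _ (mrr e) rfl g1.mrr n' (by rw [mrr_size] at g2 ⊢; omega) ?_
          rw [mrr_size]
          refine g3.imp_right fun g3 => ?_
          rw [AEJ.dcl_mrr, AEJ.blk_mrr]
          linarith
      · simp only
        rw [hF.dcl, h0, add_zero]
    · right
      refine ⟨by omega, ?_⟩
      have h1 : AEB.blk F = 0 := by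
        rw [hF.blk]
        exact rn_zero (d := true) h0
      rw [hF.dcl, h1] at hw
      push_cast at hw
      linarith

/-- **a path whose first run is long: the first three branches are lines with small exits** -/
theorem top_path {b l K M A' A2 : ℕ} (hb : 1 ≤ b) {θ ε μ : ℝ} (hθ : 0 < θ) (hθA : 8 * (A' + 1) * θ ≤ 1)
    (hθA2 : 8 * (A2 + 1) * θ ≤ 1) (hM : 2 * K + 2 ≤ M) (hM2 : (2 * (A' + 1) * (K + 1) : ℝ) ≤ θ * M) {F : Fd} (hF : Pth F)
    (hbig : 2 * (A2 + 1) * (K + 1) + 6 ≤ F.size + 1) (hr : (F.size : ℝ) + 1 < θ * (F.size + 1) + rn true F) {n : ℕ}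
    (hn : F.size ≤ n) :
    ∃ c1 c2 c3 : Fd, F = .node true c1 .nil ∧ c1 = .node true c2 .nil ∧ c2 = .node true c3 .nil ∧
      ∀ c, c = c1 ∨ c = c2 ∨ c = c3 → Pth c ∧ AEB.blk c = 0 ∧
        FX b l K (fun e => Wc θ ε μ M (Rgn b l K A' θ ε μ M n) e ∧ A2 * (e.size + 1) < c.size + 1) 0 c := by
  have hA0 : (0 : ℝ) ≤ A' := Nat.cast_nonneg _
  have hθ8 : θ ≤ 1 / 8 := by
    have : 8 * (0 + 1) * θ ≤ 8 * (A' + 1) * θ := by
      refine mul_le_mul_of_nonneg_right ?_ hθ.le
      linarith
    linarith
  have h6 : 6 ≤ F.size + 1 := by omega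
  have h6' : (6 : ℝ) ≤ F.size + 1 := by exact_mod_cast h6
  have h5 : 5 ≤ rn true F := by
    have e1 : θ * (F.size + 1) ≤ 1 / 8 * (F.size + 1) := mul_le_mul_of_nonneg_right hθ8 (by positivity)
    have e2 : (4 : ℝ) < rn true F := by linarith
    have e3 : 4 < rn true F := by exact_mod_cast e2
    omega
  obtain ⟨c1, hc1, p1, s1, r1⟩ := pth_node hF (d := true) (by omega)
  obtain ⟨c2, hc2, p2, s2, r2⟩ := pth_node p1 (d := true) (by omega)
  obtain ⟨c3, hc3, p3, s3, r3⟩ := pth_node p2 (d := true) (by omega)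
  have key : ∀ c : Fd, Pth c → ∀ i, i ≤ 3 → c.size + i = F.size → rn true c + i = rn true F →
      Pth c ∧ AEB.blk c = 0 ∧
        FX b l K (fun e => Wc θ ε μ M (Rgn b l K A' θ ε μ M n) e ∧ A2 * (e.size + 1) < c.size + 1) 0 c := by
    intro c hc i hi g1 g2
    refine ⟨hc, ?_, ?_⟩
    · rw [hc.blk]
      exact rn_zero (d := true) (by omega)
    · refine fx_path hb hθ hθA2 hM hc (by omega) ?_ ?_
      · have e1 : (c.size : ℝ) + i = F.size := by exact_mod_cast g1
        have e2 : (rn true c : ℝ) + i = rn true F := by exact_mod_cast g2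
        have e3 : (i : ℝ) ≤ 3 := by exact_mod_cast hi
        rw [← e1] at h6'
        rw [← e1, ← e2] at hr
        have e4 : θ * (c.size + i + 1) ≤ 2 * θ * (c.size + 1) := by
          have : θ * (c.size + i + 1) ≤ θ * (2 * (c.size + 1)) := mul_le_mul_of_nonneg_left (by linarith) hθ.le
          linarith
        linarith
      · intro e q1 q2 q3
        exact wc_path hb hθ hθA hM hM2 _ e rfl q1 n (by omega) q3
  refine ⟨c1, c2, c3, hc1, hc2, hc3, ?_⟩
  rintro c (rfl | rfl | rfl)
  · exact key _ p1 1 (by omega) (by omega) (by omega)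
  · exact key _ p2 2 (by omega) (by omega) (by omega)
  · exact key _ p3 3 (by omega) (by omega) (by omega)

end AESF
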