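import Pool.Agent.AESF.ArbEnd
import Pool.Agent.AESF.PathC

/-!
# Bounded-degree oriented trees with a long path behind an edge, in tournaments

From the statement for coded trees to the statement for oriented trees.
-/

set_option autoImplicit false
set_option linter.unusedSectionVars false

namespace AESF

open Finset Relation AE15 AED AEB AELT AEK AEJ
open scoped Classical

section glue

variable {τ : Type*} [Fintype τ] {E P : τ → τ → Prop}

/-- a branch in which every vertex has at most one child is coded as a path -/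
theorem pth_codL : ∀ (F : Fd) (a : τ) (l : List τ), CodL E P a l F → l.Nodup → (∀ w ∈ l, P a w) →
    (∀ x ∈ AE32.desc P a, ∀ w w', P x w → P x w' → w = w') → Pth F
  | .nil, _, _, _, _, _, _ => trivial
  | .node d c s, a, [], h, _, _, _ => by simp [CodL] at h
  | .node d c s, a, w :: l, h, hn, hl, hu => by
    obtain ⟨-, ⟨l', h2, h3, h4⟩, h5⟩ := h
    have hw := hl w List.mem_cons_self
    refine ⟨?_, pth_codL c w l' h4 h2 (fun u hu => (h3 u).1 hu) fun x hx => hu x (AE32.desc_subset hw hx)⟩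
    cases l with
    | nil =>
      cases s with
      | nil => rfl
      | node d c s => simp [CodL] at h5
    | cons w' l =>
      exfalso
      have h6 := hu a (AE32.self_mem_desc a) w w' hw (hl w' (by simp))
      rw [h6] at hn
      simp at hn

end glue

/-- **Every oriented tree with an edge `u v` is coded, from `u`, by a forest in which the branch at `v` is one of the trees;
this tree is a path if all the vertices of the branch have degree at most two.** -/
theorem graph_path {k b : ℕ} {E : Fin (k + 1) → Fin (k + 1) → Prop} (h4 : ∀ a c, E a c → ¬ E c a)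
    (h5 : (SimpleGraph.fromRel E).IsTree) (h6 : ∀ v, {w | E v w ∨ E w v}.ncard ≤ b) {u v : Fin (k + 1)}
    (huv : (SimpleGraph.fromRel E).Adj u v) :
    ∃ c F : Fd, c.size = k ∧ c.len ≤ b ∧ c.Deg b ∧ (decide (E u v), F) ∈ c.trees ∧
      F.size + 1 = {x | (SimpleGraph.fromRel E).dist v x < (SimpleGraph.fromRel E).dist u x}.ncard ∧
      ((∀ x, (SimpleGraph.fromRel E).dist v x < (SimpleGraph.fromRel E).dist u x →
        ((SimpleGraph.fromRel E).neighborSet x).ncard ≤ 2) → Pth F) ∧
      ∀ {V : Type} {R : V → V → Prop} {N : V → Prop} {X : Finset V}, In R c N X →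
        ∃ f : Fin (k + 1) → V, Function.Injective f ∧ (∀ a, f a ∈ X) ∧ N (f u) ∧ ∀ a c, E a c → R (f a) (f c) := by
  obtain ⟨G, hG⟩ : ∃ G, G = SimpleGraph.fromRel E := ⟨_, rfl⟩
  rw [← hG] at h5 huv ⊢
  obtain ⟨P, hPdef⟩ : ∃ P : Fin (k + 1) → Fin (k + 1) → Prop, P = fun a c => G.Adj a c ∧ G.dist u c = G.dist u a + 1 :=
    ⟨_, rfl⟩
  have hPi : ∀ a c, P a c ↔ G.Adj a c ∧ G.dist u c = G.dist u a + 1 := fun a c => by rw [hPdef]
  have hE : ∀ a c, P a c → G.dist u a < G.dist u c := by
    intro a c h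
    rw [hPi] at h
    have := h.2
    omega
  have hin : ∀ a b c, P a c → P b c → a = b := by
    intro a b c h1 h2
    rw [hPi] at h1 h2
    exact parent_unique' h5 u h1.1 h2.1 h1.2 h2.2
  have hP : ∀ a c, P a c → E a c ∨ E c a := by
    intro a c h
    rw [hPi] at h
    have h1 := h.1
    rw [hG, SimpleGraph.fromRel_adj] at h1
    exact h1.2
  have hadj : ∀ a c, E a c → G.Adj a c := by
    intro a c hac
    rw [hG, SimpleGraph.fromRel_adj]
    refine ⟨?_, Or.inl hac⟩
    rintro rfl
    exact h4 _ _ hac hac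
  have huv1 : G.dist u v = 1 := SimpleGraph.dist_eq_one_iff_adj.2 huv
  have huvP : P u v := (hPi _ _).2 ⟨huv, by rw [huv1, SimpleGraph.dist_self]⟩
  have hreach : ∀ x, x ∈ AE32.desc P v ↔ G.dist v x < G.dist u x := by
    intro x
    rw [AE32.mem_desc, hPdef]
    have h1 : G.dist u x ≤ G.dist u v + G.dist v x := h5.connected.dist_triangle
    constructor
    · intro h
      have h2 := dist_of_desc h5 u v h
      omega
    · intro h
      exact desc_of_dist h5 u v _ x rfl (by omega)
  obtain ⟨c, hc⟩ := exists_cod (E := E) (h := fun v => G.dist u v) hE _ u rfl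
  obtain ⟨F, hF, hFc⟩ := cod_mem hc huvP
  have hvc := vc_of_cod (h := fun v => G.dist u v) hE hin hP h6 hc
  have hvF := vc_of_cod (h := fun v => G.dist u v) hE hin hP h6 hFc
  have hroot : AE32.desc P u = univ := by
    rw [eq_univ_iff_forall]
    intro x
    rw [AE32.mem_desc, hPdef]
    exact desc_of_dist h5 u u _ x rfl (by rw [SimpleGraph.dist_self, zero_add])
  have hsz := hvc.size
  rw [hroot, card_univ, Fintype.card_fin] at hsz
  refine ⟨c, F, by omega, hvc.len, hvc.deg, hF, ?_, ?_, ?_⟩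
  · rw [hvF.size, ← Set.ncard_coe_finset]
    congr 1
    ext x
    rw [mem_coe]
    exact hreach x
  · intro h
    obtain ⟨l, h1, h2, h3⟩ := hFc
    refine pth_codL F v l h3 h1 (fun w hw => (h2 w).1 hw) ?_
    intro x hx w w' hw hw'
    by_contra hne
    have hdeg := h x ((hreach x).1 hx)
    -- the parent of `x`
    obtain ⟨y, hy⟩ : ∃ y, P y x := by
      rcases (AE32.mem_desc.1 hx).cases_tail with h8 | ⟨e, -, h9⟩
      · rw [h8]
        exact ⟨u, huvP⟩
      · exact ⟨e, h9⟩
    have hsub : ({y, w, w'} : Set (Fin (k + 1))) ⊆ G.neighborSet x := by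
      rintro z (rfl | rfl | rfl)
      · exact ((hPi _ _).1 hy).1.symm
      · exact ((hPi _ _).1 hw).1
      · exact ((hPi _ _).1 hw').1
    have hyw : ∀ z, P x z → y ≠ z := by
      rintro z hz rfl
      have e1 := hE _ _ hy
      have e2 := hE _ _ hz
      omega
    have h3' : ({y, w, w'} : Set (Fin (k + 1))).ncard = 3 := by
      rw [Set.ncard_eq_three]
      exact ⟨y, w, w', hyw w hw, hyw w' hw', hne, rfl⟩
    have h4' := Set.ncard_le_ncard hsub (Set.toFinite _)
    omega
  · rintro V R N X ⟨x, hx, A, hA, hxA, hN', hS⟩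
    obtain ⟨f, p1, p2, p3, p4⟩ := hvc.emb hxA hS
    rw [hroot] at p2 p3 p4
    refine ⟨f, fun a b hab => p3 a (mem_univ _) b (mem_univ _) hab, fun a => ?_, by rw [p1]; exact hN', fun a c hac => ?_⟩
    · have := p2 a (mem_univ _)
      rw [mem_insert] at this
      rcases this with h | h
      · rw [h]
        exact hx
      · exact hA h
    · rcases h5.dist_eq_dist_add_one_of_adj u (hadj _ _ hac) with h | h
      · have h1 := p4 c (mem_univ _) a ((hPi _ _).2 ⟨(hadj _ _ hac).symm, h⟩)
        have h2 : ¬ E c a := h4 _ _ hac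
        simpa [Adj, h2] using h1
      · have h1 := p4 a (mem_univ _) c ((hPi _ _).2 ⟨hadj _ _ hac, h⟩)
        simpa [Adj, hac] using h1

/-- the statement for coded trees: a path at the root, which hangs by an arc away from the root -/
def PESt : Prop := ∀ b : ℕ, 1 ≤ b → ∀ θ : ℝ, 0 < θ → ∃ C : ℕ, ∀ {V : Type} {R : V → V → Prop}, AE32.Tour R →
  ∀ c F : Fd, c.len ≤ b → c.Deg b → (true, F) ∈ c.trees → Pth F → θ * (c.size + 1) ≤ (F.size + 1 : ℝ) →
    ∀ X : Finset V, c.size + 1 + C ≤ X.card → In R c (fun _ => True) X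

/-- **Trees with a long path behind an edge.** -/
def PathEndSt : Prop := ∀ (Δ : ℕ) (θ : ℝ), 0 < θ → ∃ C : ℕ, ∀ k n : ℕ, k + C ≤ n → ∀ R : Fin n → Fin n → Prop,
    (∀ a, ¬ R a a) → (∀ a b, a ≠ b → R a b ∨ R b a) → (∀ a b, R a b → ¬ R b a) →
    ∀ E : Fin (k + 1) → Fin (k + 1) → Prop,
      (∀ a b, E a b → ¬ E b a) →
      (SimpleGraph.fromRel E).IsTree →
      (∀ v, ((SimpleGraph.fromRel E).neighborSet v).ncard ≤ Δ) →
      (∃ u v, (SimpleGraph.fromRel E).Adj u v ∧
        θ * k ≤ ({x | (SimpleGraph.fromRel E).dist v x < (SimpleGraph.fromRel E).dist u x}.ncard : ℝ) ∧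
        ∀ x, (SimpleGraph.fromRel E).dist v x < (SimpleGraph.fromRel E).dist u x →
          ((SimpleGraph.fromRel E).neighborSet x).ncard ≤ 2) →
      ∃ f : Fin (k + 1) → Fin n, Function.Injective f ∧ ∀ a b, E a b → R (f a) (f b)

theorem path_end_out (h : PESt) (Δ : ℕ) {θ : ℝ} (hθ : 0 < θ) : ∃ C : ℕ, ∀ k n : ℕ, k + C ≤ n →
    ∀ R : Fin n → Fin n → Prop,
    (∀ a, ¬ R a a) → (∀ a b, a ≠ b → R a b ∨ R b a) → (∀ a b, R a b → ¬ R b a) →
    ∀ E : Fin (k + 1) → Fin (k + 1) → Prop,
      (∀ a b, E a b → ¬ E b a) →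
      (SimpleGraph.fromRel E).IsTree →
      (∀ v, ((SimpleGraph.fromRel E).neighborSet v).ncard ≤ Δ) →
      (∃ u v, (SimpleGraph.fromRel E).Adj u v ∧ E u v ∧
        θ * k ≤ ({x | (SimpleGraph.fromRel E).dist v x < (SimpleGraph.fromRel E).dist u x}.ncard : ℝ) ∧
        ∀ x, (SimpleGraph.fromRel E).dist v x < (SimpleGraph.fromRel E).dist u x →
          ((SimpleGraph.fromRel E).neighborSet x).ncard ≤ 2) →
      ∃ f : Fin (k + 1) → Fin n, Function.Injective f ∧ ∀ a b, E a b → R (f a) (f b) := by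
  obtain ⟨C, hC⟩ := h (max Δ 1) (le_max_right _ _) (θ / 2) (by positivity)
  refine ⟨C + 1, ?_⟩
  rintro k n hn R h1 h2 h3 E h4 h5 h6 ⟨u, v, huv, hEuv, hθv, hv⟩
  have h6' : ∀ v, {w | E v w ∨ E w v}.ncard ≤ max Δ 1 := by
    intro v
    refine le_trans (le_of_eq ?_) ((h6 v).trans (le_max_left _ _))
    congr 1
    ext w
    rw [SimpleGraph.mem_neighborSet, SimpleGraph.fromRel_adj]
    constructor
    · intro h
      refine ⟨?_, h⟩
      rintro rfl
      rcases h with h | h
      · exact h4 _ _ h h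
      · exact h4 _ _ h h
    · intro h
      exact h.2
  obtain ⟨c, F, g1, g2, g3, g4, g5, g6, g8⟩ := graph_path h4 h5 h6' huv
  have hk : 1 ≤ k := by
    by_contra hk
    obtain rfl : k = 0 := by omega
    have := u.isLt
    have := v.isLt
    exact huv.ne (Fin.ext (by omega))
  have hk1 : (1 : ℝ) ≤ k := by exact_mod_cast hk
  have h7 : In R c (fun _ => True) univ := by
    rw [decide_eq_true hEuv] at g4
    refine hC ⟨h1, h2, h3⟩ c F g2 g3 g4 (g6 hv) ?_ univ ?_
    · have g5' : (F.size : ℝ) + 1 =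
          {x | (SimpleGraph.fromRel E).dist v x < (SimpleGraph.fromRel E).dist u x}.ncard := by exact_mod_cast g5
      rw [g1, g5']
      refine le_trans ?_ hθv
      nlinarith
    · rw [g1, card_univ, Fintype.card_fin]
      omega
  obtain ⟨f, f1, -, -, f4⟩ := g8 h7
  exact ⟨f, f1, f4⟩

/-- **every tree with a long path behind an edge** -/
theorem path_end_of (h : PESt) : PathEndSt := by
  intro Δ θ hθ
  obtain ⟨C, hC⟩ := path_end_out h Δ hθ
  refine ⟨C, ?_⟩
  rintro k n hn R h1 h2 h3 E h4 h5 h6 ⟨u, v, huv, hθv, hv⟩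
  have huv' := huv
  rw [SimpleGraph.fromRel_adj] at huv'
  rcases huv'.2 with hE | hE
  · exact hC k n hn R h1 h2 h3 E h4 h5 h6 ⟨u, v, huv, hE, hθv, hv⟩
  · have he : SimpleGraph.fromRel (fun a b => E b a) = SimpleGraph.fromRel E := by
      ext a b
      rw [SimpleGraph.fromRel_adj, SimpleGraph.fromRel_adj, or_comm]
    obtain ⟨f, hf1, hf2⟩ := hC k n hn (fun a b => R b a) h1 (fun a b hab => (h2 a b hab).symm) (fun a b => h3 b a)
      (fun a b => E b a) (fun a b => h4 b a) (by rw [he]; exact h5) (by rw [he]; exact h6)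
      ⟨u, v, by rw [he]; exact huv, hE, by rw [he]; exact hθv, by
        rw [he]
        exact hv⟩
    exact ⟨f, hf1, fun a b hab => hf2 b a hab⟩

end AESF
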