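import Pool.Agent.AESF.GraphB
import Pool.Agent.AESF.PathEnd

/-!
# Bounded-degree oriented trees with a long path, or a large branch without long runs towards its root, behind an edge

The final sentence, from the statements for coded trees.
-/

set_option autoImplicit false

namespace AESF

open Finset Relation AE15 AED AEB AELT AEK AEJ
open scoped Classical

/-- the statement for coded trees: a branch at the root, of linear size, without long runs towards its root, whose first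
three levels point away from its root -/
def FE3St : Prop := ∀ b l : ℕ, 1 ≤ b → ∀ θ : ℝ, 0 < θ → ∃ C : ℕ, ∀ {V : Type} {R : V → V → Prop}, AE32.Tour R →
  ∀ (c F : Fd) (d : Bool), c.len ≤ b → c.Deg b → (d, F) ∈ c.trees → FOK b l 0 F → Out3 F →
    θ * (c.size + 1) ≤ (F.size + 1 : ℝ) → ∀ X : Finset V, c.size + 1 + C ≤ X.card → In R c (fun _ => True) X

/-- **Trees with a path, or with a branch of linear size without long runs towards its root, behind an edge.**
`{x | dist v x < dist u x}` is the component of `T - uv` which contains `v`. -/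
def FreeEnd3St : Prop := ∀ (Δ l : ℕ) (θ : ℝ), 0 < θ → ∃ C : ℕ, ∀ k n : ℕ, k + C ≤ n → ∀ R : Fin n → Fin n → Prop,
    (∀ a, ¬ R a a) → (∀ a b, a ≠ b → R a b ∨ R b a) → (∀ a b, R a b → ¬ R b a) →
    ∀ (E : Fin (k + 1) → Fin (k + 1) → Prop) (G : SimpleGraph (Fin (k + 1))),
      (∀ a b, E a b → ¬ E b a) → G = SimpleGraph.fromRel E →
      G.IsTree → (∀ v, (G.neighborSet v).ncard ≤ Δ) →
      (∃ u v, G.Adj u v ∧ θ * k ≤ ({x | G.dist v x < G.dist u x}.ncard : ℝ) ∧
        ((∀ x, G.dist v x < G.dist u x → (G.neighborSet x).ncard ≤ 2) ∨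
          ∃ F : Fin (k + 1) → Fin (k + 1) → Prop, (F = E ∨ F = fun x y => E y x) ∧
            (∀ q : ℕ → Fin (k + 1), (∀ i ≤ l, F (q i) (q (i + 1)) ∧ G.dist v (q (i + 1)) < G.dist v (q i)) →
              ¬ G.dist v (q 0) < G.dist u (q 0)) ∧
            ∀ x y, F x y → G.dist v x < G.dist u x → G.dist v y ≤ 2 → G.dist v x < G.dist v y)) →
      ∃ f : Fin (k + 1) → Fin n, Function.Injective f ∧ ∀ a b, E a b → R (f a) (f b)

theorem end_b (h : FE3St) (Δ l : ℕ) {θ : ℝ} (hθ : 0 < θ) : ∃ C : ℕ, ∀ k n : ℕ, k + C ≤ n →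
    ∀ R : Fin n → Fin n → Prop,
    (∀ a, ¬ R a a) → (∀ a b, a ≠ b → R a b ∨ R b a) → (∀ a b, R a b → ¬ R b a) →
    ∀ E : Fin (k + 1) → Fin (k + 1) → Prop,
      (∀ a b, E a b → ¬ E b a) →
      (SimpleGraph.fromRel E).IsTree →
      (∀ v, ((SimpleGraph.fromRel E).neighborSet v).ncard ≤ Δ) →
      (∃ u v, (SimpleGraph.fromRel E).Adj u v ∧
        θ * k ≤ ({x | (SimpleGraph.fromRel E).dist v x < (SimpleGraph.fromRel E).dist u x}.ncard : ℝ) ∧
        (∀ q : ℕ → Fin (k + 1), (∀ i ≤ l, E (q i) (q (i + 1)) ∧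
          (SimpleGraph.fromRel E).dist v (q (i + 1)) < (SimpleGraph.fromRel E).dist v (q i)) →
          ¬ (SimpleGraph.fromRel E).dist v (q 0) < (SimpleGraph.fromRel E).dist u (q 0)) ∧
        (∀ x y, E x y → (SimpleGraph.fromRel E).dist v x < (SimpleGraph.fromRel E).dist u x →
          (SimpleGraph.fromRel E).dist v y ≤ 2 →
          (SimpleGraph.fromRel E).dist v x < (SimpleGraph.fromRel E).dist v y)) →
      ∃ f : Fin (k + 1) → Fin n, Function.Injective f ∧ ∀ a b, E a b → R (f a) (f b) := by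
  obtain ⟨C, hC⟩ := h (max Δ 1) l (le_max_right _ _) (θ / 2) (by positivity)
  refine ⟨C + 1, ?_⟩
  rintro k n hn R h1 h2 h3 E h4 h5 h6 ⟨u, v, huv, hθv, hv, hw⟩
  have h6' : ∀ v, {w | E v w ∨ E w v}.ncard ≤ max Δ 1 := by
    intro v
    refine le_trans (le_of_eq ?_) ((h6 v).trans (le_max_left _ _))
    congr 1
    ext w
    rw [SimpleGraph.mem_neighborSet, SimpleGraph.fromRel_adj]
    constructor
    · intro h
      refine ⟨?_, h⟩
      rintro rfl
      rcases h with h | h
      · exact h4 _ _ h h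
      · exact h4 _ _ h h
    · intro h
      exact h.2
  obtain ⟨c, F, g1, g2, g3, g4, g5, g6, g7, g8⟩ := graph_b h4 h5 h6' huv
  have hk : 1 ≤ k := by
    by_contra hk
    obtain rfl : k = 0 := by omega
    have := u.isLt
    have := v.isLt
    exact huv.ne (Fin.ext (by omega))
  have hk1 : (1 : ℝ) ≤ k := by exact_mod_cast hk
  have h7 : In R c (fun _ => True) univ := by
    refine hC ⟨h1, h2, h3⟩ c F _ g2 g3 g4 (g6 l hv) (g7 hw) ?_ univ ?_
    · have g5' : (F.size : ℝ) + 1 =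
          {x | (SimpleGraph.fromRel E).dist v x < (SimpleGraph.fromRel E).dist u x}.ncard := by exact_mod_cast g5
      rw [g1, g5']
      refine le_trans ?_ hθv
      nlinarith
    · rw [g1, card_univ, Fintype.card_fin]
      omega
  obtain ⟨f, f1, -, -, f4⟩ := g8 h7
  exact ⟨f, f1, f4⟩

/-- **the final sentence** -/
theorem free_end3_of (h1 : PathEndSt) (h2 : FE3St) : FreeEnd3St := by
  intro Δ l θ hθ
  obtain ⟨C₁, g1⟩ := h1 Δ θ hθ
  obtain ⟨C₂, g2⟩ := end_b h2 Δ l hθ
  refine ⟨C₁ + C₂, ?_⟩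
  rintro k n hn R a1 a2 a3 E G b1 rfl b2 b3 ⟨u, v, huv, hk, h | ⟨F, hF | hF, hv, hw⟩⟩
  · exact g1 k n (by omega) R a1 a2 a3 E b1 b2 b3 ⟨u, v, huv, hk, h⟩
  · subst hF
    exact g2 k n (by omega) R a1 a2 a3 F b1 b2 b3 ⟨u, v, huv, hk, hv, hw⟩
  · subst hF
    have he : SimpleGraph.fromRel (fun a b => E b a) = SimpleGraph.fromRel E := by
      ext a b
      rw [SimpleGraph.fromRel_adj, SimpleGraph.fromRel_adj, or_comm]
    obtain ⟨f, hf1, hf2⟩ := g2 k n (by omega) (fun a b => R b a) a1 (fun a b hab => (a2 a b hab).symm) (fun a b => a3 b a)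
      (fun a b => E b a) (fun a b => b1 b a) (by rw [he]; exact b2) (by rw [he]; exact b3)
      ⟨u, v, by rw [he]; exact huv, by rw [he]; exact hk, by rw [he]; exact hv, by rw [he]; exact hw⟩
    exact ⟨f, hf1, fun a b hab => hf2 b a hab⟩

end AESF
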