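import Pool.Agent.AESF.MainX
import Pool.Agent.AESF.EndB
import Pool.Agent.AEN.MainB
import Pool.Agent.AEX.Four
import Pool.Agent.AER.Glue

/-!
# Free ends: branches without long runs towards the root, on codes
-/

set_option autoImplicit false

namespace AESF

open Finset AE15 AED AEB AELT AEK AEJ AEY AEN AET
open scoped Classical

/-! ### the heavy child first -/

/-- the code with the heavy child first everywhere -/
def srt : Fd → Fd
  | .nil => .nil
  | .node d c s => match srt s with
    | .nil => .node d (srt c) .nil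
    | .node e f t => if f.size ≤ (srt c).size then .node d (srt c) (.node e f t) else .node e f (.node d (srt c) t)

/-- heavy child first everywhere; at the root only if the flag is `true` -/
def Sd : Bool → Fd → Prop
  | _, .nil => True
  | e, .node _ c s => Sd true c ∧ Sd false s ∧ (e = true → ∀ q ∈ s.trees, q.2.size ≤ c.size)

theorem Sd.weak {e : Bool} {F : Fd} (h : Sd e F) : Sd false F := by
  cases F with
  | nil => trivial
  | node d c s => exact ⟨h.1, h.2.1, fun h => by simp at h⟩

theorem Sd.mem {e : Bool} {F : Fd} (h : Sd e F) {p : Bool × Fd} (hp : p ∈ F.trees) : Sd true p.2 := by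
  induction F generalizing e with
  | nil => simp [Fd.trees] at hp
  | node d c s _ ih =>
    simp only [Fd.trees, List.mem_cons] at hp
    rcases hp with rfl | hp
    · exact h.1
    · exact ih h.2.1 hp

theorem eqt_tail {s s' : Fd} (h : Eqt s s') (d : Bool) (c : Fd) : Eqt (.node d c s) (.node d c s') := by
  refine ⟨?_, ?_, ?_, ?_, ?_, ?_⟩
  · simp only [Fd.size, h.size]
  · simp only [AELT.dcl, h.dcl]
  · simp only [AEB.blk, h.blk]
  · rintro b ⟨h1, h2, h3⟩
    exact ⟨h1, h2, h.deg b h3⟩
  · simp only [Fd.len, h.len]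
  · rintro V R x S ⟨x1, A, B, h1, h2, h3, h4, h5, h6, h7⟩
    exact ⟨x1, A, B, h1, h2, h3, h4, h5, h6, h.emb h7⟩

theorem srt_perm (F : Fd) : (srt F).trees.Perm (F.trees.map (fun p => (p.1, srt p.2))) := by
  induction F with
  | nil => simp [srt, Fd.trees]
  | node d c s _ ihs =>
    simp only [srt, Fd.trees, List.map_cons]
    cases hs : srt s with
    | nil =>
      rw [hs] at ihs
      simp only [Fd.trees] at ihs ⊢
      exact ihs.cons _
    | node e f t =>
      rw [hs] at ihs
      simp only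
      split_ifs
      · simp only [Fd.trees] at ihs ⊢
        exact ihs.cons _
      · simp only [Fd.trees] at ihs ⊢
        exact (List.Perm.swap _ _ _).trans (ihs.cons _)

theorem srt_eqt (F : Fd) : Eqt F (srt F) := by
  induction F with
  | nil => exact Eqt.refl _
  | node d c s ihc ihs =>
    have h1 : Eqt (.node d c s) (.node d (srt c) (srt s)) := (ihc.node d s).trans (eqt_tail ihs d (srt c))
    simp only [srt]
    cases hs : srt s with
    | nil =>
      rw [hs] at h1
      exact h1
    | node e f t =>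
      rw [hs] at h1
      simp only
      split_ifs
      · exact h1
      · refine h1.trans (Eqt.of_perm ?_)
        simp only [Fd.trees]
        exact List.Perm.swap _ _ _

theorem srt_sd (F : Fd) : Sd true (srt F) := by
  induction F with
  | nil => trivial
  | node d c s ihc ihs =>
    simp only [srt]
    cases hs : srt s with
    | nil => exact ⟨ihc, trivial, fun _ q hq => by simp [Fd.trees] at hq⟩
    | node e f t =>
      rw [hs] at ihs
      obtain ⟨h1, h2, h3⟩ := ihs
      simp only
      split_ifs with h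
      · refine ⟨ihc, ⟨h1, h2, fun h => by simp at h⟩, fun _ q hq => ?_⟩
        simp only [Fd.trees, List.mem_cons] at hq
        rcases hq with rfl | hq
        · exact h
        · exact (h3 rfl q hq).trans h
      · push Not at h
        refine ⟨h1, ⟨ihc, h2, fun h => by simp at h⟩, fun _ q hq => ?_⟩
        simp only [Fd.trees, List.mem_cons] at hq
        rcases hq with rfl | hq
        · exact h.le
        · exact h3 rfl q hq

theorem srt_inR {l : ℕ} (F : Fd) : ∀ {j : ℕ}, InR l j F → InR l j (srt F) := by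
  induction F with
  | nil => intro j _; trivial
  | node d c s ihc ihs =>
    intro j h
    have h1 : if d then InR l 0 (srt c) else j + 1 ≤ l ∧ InR l (j + 1) (srt c) := by
      have h2 := h.1
      cases d with
      | true =>
        simp only [if_true] at h2 ⊢
        exact ihc h2
      | false =>
        simp only [Bool.false_eq_true, if_false] at h2 ⊢
        exact ⟨h2.1, ihc h2.2⟩
    have h2 := ihs h.2
    simp only [srt]
    cases hs : srt s with
    | nil => exact ⟨h1, trivial⟩
    | node e f t =>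
      rw [hs] at h2
      simp only
      split_ifs
      · exact ⟨h1, h2⟩
      · exact ⟨h2.1, h1, h2.2⟩

theorem mem_srt {F : Fd} {p : Bool × Fd} (hp : p ∈ (srt F).trees) : ∃ q ∈ F.trees, p.1 = q.1 ∧ p.2 = srt q.2 := by
  have h1 := (srt_perm F).mem_iff.1 hp
  obtain ⟨q, hq, rfl⟩ := List.mem_map.1 h1
  exact ⟨q, hq, rfl, rfl⟩

theorem srt_out3 {F : Fd} (h : Out3 F) : Out3 (srt F) := by
  intro p hp
  obtain ⟨p', hp', h1, h2⟩ := mem_srt hp
  refine ⟨h1.trans (h p' hp').1, fun q hq => ?_⟩
  rw [h2] at hq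
  obtain ⟨q', hq', h3, h4⟩ := mem_srt hq
  refine ⟨h3.trans ((h p' hp').2 q' hq').1, fun r hr => ?_⟩
  rw [h4] at hr
  obtain ⟨r', hr', h5, -⟩ := mem_srt hr
  exact h5.trans (((h p' hp').2 q' hq').2 r' hr')

/-- without light arcs -/
theorem inL_of_inR {l K : ℕ} (F : Fd) : ∀ {e : Bool} {S j : ℕ}, InR l j F → Sd e F → InL l K e S j F := by
  induction F with
  | nil => intro e S j _ _; trivial
  | node d c s ihc ihs =>
    intro e S j h hs
    refine ⟨?_, ihs h.2 hs.2.1, hs.2.2⟩
    have h2 := h.1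
    cases d with
    | true =>
      simp only [if_true] at h2 ⊢
      exact Or.inr (ihc h2 hs.1)
    | false =>
      simp only [Bool.false_eq_true, if_false] at h2 ⊢
      exact ⟨h2.1, ihc h2.2 hs.1⟩

theorem fol_of_fok {b l K j : ℕ} {F : Fd} (h : FOK b l j F) (hs : Sd true F) : FOL b l K j F :=
  ⟨h.1, h.2.1, inL_of_inR F h.2.2 hs⟩

theorem fok_mem {b l : ℕ} {F : Fd} (h : FOK b l 0 F) {p : Bool × Fd} (hp : p ∈ F.trees) (h1 : p.1 = true) :
    FOK b l 0 p.2 := by
  have h2 := (Fd.deg_iff b F).1 h.2.1 p hp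
  have h3 := (h.2.2.child hp).1
  rw [if_pos h1] at h3
  exact ⟨h2.1, h2.2, h3⟩

/-- **branches without long runs towards their roots, with three levels of arcs away from them** -/
theorem fe3_of (hX : SFXSt) : FE3St := by
  intro b l hb θ hθ
  obtain ⟨A₀, hA⟩ := hX b l hb
  obtain ⟨ε₀, μ₀, K₀, -, -, h1⟩ := hA A₀ le_rfl (1 / 2) (by norm_num) le_rfl θ hθ
  obtain ⟨C₁, h1⟩ := h1 ε₀ μ₀ le_rfl le_rfl K₀ le_rfl 0
  obtain ⟨A', hM⟩ := AEN.mainSt b l hb
  obtain ⟨θ', hθ'⟩ : ∃ t : ℝ, t = min θ (1 / 2) := ⟨_, rfl⟩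
  have ht0 : 0 < θ' := by rw [hθ']; exact lt_min hθ (by norm_num)
  have ht1 : θ' ≤ θ := by rw [hθ']; exact min_le_left _ _
  have ht2 : θ' ≤ 1 / 2 := by rw [hθ']; exact min_le_right _ _
  obtain ⟨ε₂, μ₂, K₂, -, -, hM⟩ := hM θ' ht0 ht2
  obtain ⟨C₂, hM⟩ := hM 0
  -- the size from which on the in-closures are small
  obtain ⟨m, hm⟩ : ∃ m : ℕ, m = ∑ i ∈ range (l + 1), b ^ i := ⟨_, rfl⟩
  obtain ⟨B, hB⟩ := exists_nat_ge (((K₀ * m : ℕ) : ℝ) / θ)
  have hB' : ((K₀ * m : ℕ) : ℝ) ≤ θ * B := by
    rw [div_le_iff₀ hθ] at hB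
    linarith
  refine ⟨C₁ + C₂ + 4 * B, ?_⟩
  intro V R hT c F d hl hD hF hFO hO hθF X hX
  have hFs : (srt F).size = F.size := (srt_eqt F).size
  have hFO' : FOK b l 0 (srt F) := ⟨by rw [(srt_eqt F).len]; exact hFO.1, (srt_eqt F).deg b hFO.2.1, srt_inR F hFO.2.2⟩
  have hO' := srt_out3 hO
  have hsd := srt_sd F
  -- the sorted branch
  obtain ⟨s, hs⟩ := AER.eqt_first hF
  have he : Eqt c (.node d (srt F) s) := hs.trans ((srt_eqt F).node d s)
  have hmem : (d, srt F) ∈ (Fd.node d (srt F) s).trees := by simp [Fd.trees]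
  have hsz := he.size
  have hlen : (Fd.node d (srt F) s).len ≤ b := by rw [he.len]; exact hl
  have hdeg : (Fd.node d (srt F) s).Deg b := he.deg b hD
  suffices h : In R (.node d (srt F) s) (fun _ => True) X by
    obtain ⟨x, hx, A, hA, hxA, hN, hE⟩ := h
    exact ⟨x, hx, A, hA, hxA, trivial, he.emb hE⟩
  cases d with
  | true =>
    by_cases hsm : c.size + 1 ≤ B
    · refine AEX.un_four hT b _ hlen hdeg X ?_
      have e1 : ((c.size + 1 + (C₁ + C₂ + 4 * B) : ℕ) : ℝ) ≤ X.card := by exact_mod_cast hX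
      have e2 : ((c.size + 1 : ℕ) : ℝ) ≤ B := by exact_mod_cast hsm
      rw [hsz]
      push_cast at e1 e2
      have e3 : (0 : ℝ) ≤ c.size := Nat.cast_nonneg _
      have e4 : (0 : ℝ) ≤ C₁ := Nat.cast_nonneg _
      have e5 : (0 : ℝ) ≤ C₂ := Nat.cast_nonneg _
      linarith
    · push Not at hsm
      have hbig : K₀ * m ≤ F.size + 1 := by
        have e1 : (B : ℝ) ≤ c.size + 1 := by exact_mod_cast hsm.le
        have e2 : θ * B ≤ θ * (c.size + 1) := mul_le_mul_of_nonneg_left e1 hθ.le
        have e3 : ((K₀ * m : ℕ) : ℝ) ≤ ((F.size + 1 : ℕ) : ℝ) := by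
          push_cast at hB' ⊢
          linarith
        exact_mod_cast e3
      refine h1 hT _ (srt F) hlen hdeg hmem ?_ ⟨fun p hp => (hO' p hp).1, fun p hp q hq => ((hO' p hp).2 q hq).1,
        fun p hp q hq r hr => ⟨((hO' p hp).2 q hq).2 r hr, ?_⟩⟩ (FX.of_fol (fol_of_fok hFO' hsd)) X (by rw [hsz]; omega)
      · rw [hsz, hFs]
        exact hθF
      · have g1 := fok_mem hFO' hp (hO' p hp).1
        have g2 := fok_mem g1 hq ((hO' p hp).2 q hq).1
        have g3 := fok_mem g2 hr (((hO' p hp).2 q hq).2 r hr)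
        have g4 := g3.blk_le (Nat.zero_le _)
        rw [Nat.sub_zero, ← hm] at g4
        rw [hFs]
        exact (Nat.mul_le_mul_left _ g4).trans hbig
  | false =>
    refine (hM hT le_rfl le_rfl 1).1 _ hlen hdeg (BlN.rig _ (false, srt F) F.size hmem ?_ ?_) X (by rw [hsz]; omega)
    · refine Or.inl ⟨rfl, FX.of_fol (fol_of_fok hFO' hsd), ?_, ?_⟩
      · intro f f' hf hf' D hDm
        right
        have h2 : (true, f) ∈ (srt F).trees := hv_mem hf
        exact fol_of_fok (fok_mem (fok_mem hFO' h2 rfl) hDm rfl) ((hsd.mem h2).mem hDm)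
      · simp only
        have h2 : AEB.blk (srt F) = 0 := blk_zero fun p hp => (hO' p hp).1
        rw [h2, hFs, add_zero]
    · rw [hsz]
      refine le_trans (mul_le_mul_of_nonneg_right ht1 (by positivity)) hθF

end AESF
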