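import Pool.Agent.AESF.DefsF
import Pool.Agent.LTT.Part

/-!
# The parts of a tournament at a place `p` (S1)

From the ordered partition `LTT.partition` and the clean core `AELT.exists_core`: the place `p` is in a cut (`CutD`) or in
a thick part (`ThickD`).
-/

set_option autoImplicit false

namespace AESF

open Finset AE15 AED AELT AEB LTT
open scoped Classical

variable {V : Type} {R : V → V → Prop}

/-- the blocks with index in `I` -/
noncomputable def blks (X : Finset V) (β : V → ℕ) (q : ℕ → Prop) : Finset (Finset V) :=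
  ((X.filter (fun v => q (β v))).image β).image (fun i => blkI X β i)

theorem mem_blks {X : Finset V} {β : V → ℕ} {q : ℕ → Prop} {L : Finset V} (h : L ∈ blks X β q) :
    ∃ v ∈ X, q (β v) ∧ L = blkI X β (β v) := by
  unfold blks at h
  rw [mem_image] at h
  obtain ⟨i, hi, rfl⟩ := h
  rw [mem_image] at hi
  obtain ⟨v, hv, rfl⟩ := hi
  rw [mem_filter] at hv
  exact ⟨v, hv.1, hv.2, rfl⟩

theorem blkI_mem_blks {X : Finset V} {β : V → ℕ} {q : ℕ → Prop} {v : V} (hv : v ∈ X) (hq : q (β v)) :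
    blkI X β (β v) ∈ blks X β q :=
  mem_image.2 ⟨β v, mem_image.2 ⟨v, mem_filter.2 ⟨hv, hq⟩, rfl⟩, rfl⟩

theorem blkI_sub {X : Finset V} {β : V → ℕ} {i : ℕ} : blkI X β i ⊆ X := filter_subset _ _

theorem card_blks {X : Finset V} {β : V → ℕ} {q : ℕ → Prop} {lam : ℝ} {J : ℕ} (hlam : 0 < lam) (hJ : 1 / lam ≤ J)
    (hX : 0 < X.card) (hb : ∀ v ∈ X, lam * X.card ≤ (blkI X β (β v)).card) : (blks X β q).card ≤ J := by
  obtain ⟨I, hI⟩ : ∃ I, I = (X.filter (fun v => q (β v))).image β := ⟨_, rfl⟩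
  have h1 : (blks X β q).card ≤ I.card := by
    unfold blks
    rw [← hI]
    exact card_image_le
  have h2 : ∑ i ∈ I, (blkI X β i).card ≤ X.card := by
    have h3 : ∀ i ∈ I, ∀ j ∈ I, i ≠ j → Disjoint (blkI X β i) (blkI X β j) := by
      intro i _ j _ hij
      rw [disjoint_left]
      intro v hv hv'
      exact hij ((mem_blkI.1 hv).2.symm.trans (mem_blkI.1 hv').2)
    rw [← card_biUnion h3]
    exact card_le_card (biUnion_subset.2 fun i _ => blkI_sub)
  have hX0 : (0 : ℝ) < X.card := by exact_mod_cast hX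
  have h4 : (I.card : ℝ) * (lam * X.card) ≤ X.card := by
    calc (I.card : ℝ) * (lam * X.card) = ∑ _i ∈ I, lam * X.card := by rw [sum_const, nsmul_eq_mul]
      _ ≤ ∑ i ∈ I, ((blkI X β i).card : ℝ) := by
          refine sum_le_sum fun i hi => ?_
          rw [hI, mem_image] at hi
          obtain ⟨v, hv, rfl⟩ := hi
          exact hb v (mem_filter.1 hv).1
      _ ≤ X.card := by exact_mod_cast h2
  have h5 : (I.card : ℝ) * lam ≤ 1 := by
    have h6 : (I.card : ℝ) * lam * X.card ≤ 1 * X.card := by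
      calc (I.card : ℝ) * lam * X.card = I.card * (lam * X.card) := by ring
        _ ≤ 1 * X.card := by rw [one_mul]; exact h4
    exact le_of_mul_le_mul_right h6 hX0
  have h7 : (I.card : ℝ) ≤ 1 / lam := by
    rw [le_div_iff₀ hlam]
    exact h5
  have h8 : (I.card : ℝ) ≤ J := h7.trans hJ
  exact h1.trans (by exact_mod_cast h8)

/-- the vertices which are not generic -/
noncomputable def ngen (R : V → V → Prop) (X : Finset V) (β : V → ℕ) (t : ℝ) : Finset V :=
  X.filter (fun v => ¬ Gen R X β t v)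

/-- many in-neighbours below: not generic -/
theorem ngen_of_in {X L : Finset V} {β : V → ℕ} {t : ℝ} {v : V} (hv : v ∈ X) (hL : ∀ u ∈ L, u ∈ X ∧ β v < β u)
    (h : t < ((nI R L v).card : ℝ)) : v ∈ ngen R X β t := by
  unfold ngen
  rw [mem_filter]
  refine ⟨hv, fun hg => ?_⟩
  have h1 : ((nI R L v).card : ℝ) ≤ (nI R (dwnI X β (β v)) v).card := by
    exact_mod_cast card_le_card (nI_mono fun u hu => mem_dwnI.2 (hL u hu))
  linarith [hg.2]

/-- many out-neighbours above: not generic -/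
theorem ngen_of_out {X L : Finset V} {β : V → ℕ} {t : ℝ} {v : V} (hv : v ∈ X) (hL : ∀ u ∈ L, u ∈ X ∧ β u < β v)
    (h : t < ((nO R L v).card : ℝ)) : v ∈ ngen R X β t := by
  unfold ngen
  rw [mem_filter]
  refine ⟨hv, fun hg => ?_⟩
  have h1 : ((nO R L v).card : ℝ) ≤ (nO R (uppI X β (β v)) v).card := by
    exact_mod_cast card_le_card (nO_mono fun u hu => mem_uppI.2 (hL u hu))
  linarith [hg.1]

/-- the index of the critical block -/
theorem exists_index (X : Finset V) (β : V → ℕ) {a : ℝ} (ha : 0 ≤ a) (haX : a < X.card) : ∃ i : ℕ,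
    ((uppI X β i).card : ℝ) ≤ a ∧ a < ((uppI X β (i + 1)).card : ℝ) := by
  have hex : ∃ i : ℕ, a < ((uppI X β (i + 1)).card : ℝ) := by
    refine ⟨X.sup β, ?_⟩
    have : uppI X β (X.sup β + 1) = X := by
      ext v
      rw [mem_uppI]
      exact ⟨fun h => h.1, fun h => ⟨h, Nat.lt_succ_of_le (le_sup (f := β) h)⟩⟩
    rw [this]
    exact haX
  refine ⟨Nat.find hex, ?_, Nat.find_spec hex⟩
  rcases Nat.eq_zero_or_pos (Nat.find hex) with h | h
  · rw [h]
    have : uppI X β 0 = ∅ := by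
      ext v
      simp [mem_uppI]
    rw [this]
    simpa using ha
  · have h1 := Nat.find_min hex (Nat.sub_lt h one_pos)
    rw [show Nat.find hex - 1 + 1 = Nat.find hex by omega] at h1
    exact not_lt.1 h1

/-- **S1: the parts at the place `p`** -/
theorem parts {ω ζ : ℝ} (hω : 0 < ω) (hω1 : ω ≤ 1 / 8) (hζ : 0 < ζ) : ∃ (lam : ℝ) (J : ℕ), 0 < lam ∧
    ∀ a₁ a₂ : ℝ, 0 < a₁ → a₁ ≤ 1 → 0 < a₂ → a₂ ≤ 1 → ∃ (k₀ : ℝ) (n₁ : ℕ), 0 < k₀ ∧
      ∀ {V : Type} {R : V → V → Prop}, AE32.Tour R → ∀ (X : Finset V) (p : ℕ), n₁ ≤ X.card →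
        (p + 4 * ω * X.card : ℝ) ≤ X.card → ∃ (k : ℝ) (U K : Finset V) (𝓛 : Finset (Finset V)), k₀ ≤ k ∧ k ≤ 1 ∧
          𝓛.card ≤ J ∧ (CutD R X U 𝓛 p ω ζ lam (a₁ * k ^ 2) (a₂ * k ^ 2) ∨
            ThickD R X U K 𝓛 p ω ζ k lam (a₁ * k ^ 2) (a₂ * k ^ 2)) := by
  obtain ⟨ζ', hζ'⟩ : ∃ ζ' : ℝ, ζ' = min ζ 1 := ⟨_, rfl⟩
  have hζ0 : 0 < ζ' := by rw [hζ']; exact lt_min hζ one_pos
  have hζ1 : ζ' ≤ 1 := by rw [hζ']; exact min_le_right _ _
  have hζ2 : ζ' ≤ ζ := by rw [hζ']; exact min_le_left _ _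
  obtain ⟨η₁, hη₁⟩ : ∃ η₁ : ℝ, η₁ = ζ' * ω / 16 := ⟨_, rfl⟩
  have hη0 : 0 < η₁ := by rw [hη₁]; positivity
  have hη1 : η₁ ≤ ω / 16 := by
    have : ζ' * ω ≤ 1 * ω := mul_le_mul_of_nonneg_right hζ1 hω.le
    rw [hη₁]
    linarith
  have hη2 : η₁ ≤ ζ' / 16 := by
    have : ζ' * ω ≤ ζ' * 1 := mul_le_mul_of_nonneg_left (by linarith) hζ0.le
    rw [hη₁]
    linarith
  obtain ⟨lam, hlam⟩ : ∃ lam : ℝ, lam = ω / 4 * η₁ := ⟨_, rfl⟩
  have hlam0 : 0 < lam := by rw [hlam]; positivity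
  have hlam1 : lam ≤ 1 := by
    rw [hlam]
    have : ω / 4 * η₁ ≤ 1 * 1 := mul_le_mul (by linarith) (by linarith) hη0.le zero_le_one
    linarith only [this]
  refine ⟨lam, ⌈1 / lam⌉₊, hlam0, ?_⟩
  intro a₁ a₂ ha₁ ha₁' ha₂ ha₂'
  obtain ⟨g, hg⟩ : ∃ g : ℝ, g = min a₁ a₂ * lam * ω * ζ' / 16 := ⟨_, rfl⟩
  have ham0 : 0 < min a₁ a₂ := lt_min ha₁ ha₂
  have hg0 : 0 < g := by rw [hg]; positivity
  have hgle : g ≤ min a₁ a₂ * lam * ω / 16 := by
    rw [hg]
    have : min a₁ a₂ * lam * ω * ζ' ≤ min a₁ a₂ * lam * ω * 1 := mul_le_mul_of_nonneg_left hζ1 (by positivity)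
    linarith only [this]
  have hml : min a₁ a₂ * lam ≤ min a₁ a₂ := by
    calc min a₁ a₂ * lam ≤ min a₁ a₂ * 1 := mul_le_mul_of_nonneg_left hlam1 ham0.le
      _ = _ := mul_one _
  have hg1 : g ≤ a₁ * lam / 16 := by
    have h1 : min a₁ a₂ * lam * ω ≤ min a₁ a₂ * lam * 1 := mul_le_mul_of_nonneg_left (by linarith only [hω1, hη0, hη1]) (by positivity)
    have h2 : min a₁ a₂ * lam ≤ a₁ * lam := mul_le_mul_of_nonneg_right (min_le_left _ _) hlam0.le
    linarith
  have hg2 : g ≤ a₁ * ω / 16 := by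
    have h1 : min a₁ a₂ * lam * ω ≤ a₁ * ω := mul_le_mul_of_nonneg_right (hml.trans (min_le_left _ _)) hω.le
    linarith only [hgle, h1]
  have hg3 : g ≤ a₂ / 16 := by
    have h1 : min a₁ a₂ * lam * ω ≤ a₂ * ω := mul_le_mul_of_nonneg_right (hml.trans (min_le_right _ _)) hω.le
    have h2 : a₂ * ω ≤ a₂ * 1 := mul_le_mul_of_nonneg_left (by linarith only [hω1, hη0, hη1]) ha₂.le
    linarith only [hgle, h1, h2]
  have hg4 : g ≤ ω / 16 := by
    have h1 : a₁ * ω ≤ 1 * ω := mul_le_mul_of_nonneg_right ha₁' hω.le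
    linarith only [hg2, h1]
  have hg5 : g ≤ ζ' / 16 := by
    rw [hg]
    have h1 : min a₁ a₂ * lam * ω ≤ 1 * 1 := mul_le_mul ((hml.trans (min_le_left _ _)).trans ha₁') (by linarith only [hω1, hη0, hη1]) hω.le
      zero_le_one
    have h2 : min a₁ a₂ * lam * ω * ζ' ≤ 1 * 1 * ζ' := mul_le_mul_of_nonneg_right h1 hζ0.le
    linarith only [h2]
  obtain ⟨k₀, hk₀, hpart⟩ := LTT.partition (η₀ := ω / 4) (η₁ := η₁) (by positivity) (by linarith only [hω1, hη0, hη1]) hη0 (by linarith only [hω1, hη0, hη1])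
    (fun κ => (κ / 4) ^ 2 * g) (fun κ hκ => by positivity) one_pos
  refine ⟨k₀ / 4, ⌈16 / ω⌉₊, by positivity, ?_⟩
  intro V R hT X p hX hp
  obtain ⟨κ, β, hκ₀, hκ₁, hblk, huns, hgen⟩ := hpart (R := R) X
  obtain ⟨k, hk⟩ : ∃ k : ℝ, k = κ / 4 := ⟨_, rfl⟩
  have hk0 : 0 < k := by rw [hk]; linarith only [hk₀, hκ₀]
  have hk4 : k ≤ 1 / 4 := by rw [hk]; linarith only [hκ₁]
  have hk2 : k ^ 2 ≤ 1 / 16 := by
    have : k ^ 2 ≤ (1 / 4) ^ 2 := pow_le_pow_left₀ hk0.le hk4 2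
    linarith only [this]
  have hk20 : 0 < k ^ 2 := by positivity
  obtain ⟨n, hn⟩ : ∃ n : ℝ, n = (X.card : ℝ) := ⟨_, rfl⟩
  have hn16 : 16 ≤ ω * n := by
    have h1 : ((⌈16 / ω⌉₊ : ℕ) : ℝ) ≤ X.card := by exact_mod_cast hX
    have h2 := (Nat.le_ceil (16 / ω)).trans h1
    rw [div_le_iff₀ hω, ← hn] at h2
    linarith only [h2]
  have hn0 : 0 < n := by
    by_contra h
    push Not at h
    have : ω * n ≤ 0 := mul_nonpos_of_nonneg_of_nonpos hω.le h
    linarith only [hω1, hη0, hη1, hn16, this]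
  have hXpos : 0 < X.card := by
    have : (0 : ℝ) < X.card := by rw [← hn]; exact hn0
    exact_mod_cast this
  obtain ⟨t, ht⟩ : ∃ t : ℝ, t = k ^ 2 * g * n := ⟨_, rfl⟩
  have ht0 : 0 < t := by rw [ht]; positivity
  have hgen' : ((ngen R X β t).card : ℝ) ≤ t := by
    rw [← hk, ← hn, ← ht] at hgen
    exact hgen
  -- the numbers
  have hkgn : t ≤ 1 / 16 * (g * n) := by
    rw [ht]
    have : k ^ 2 * (g * n) ≤ 1 / 16 * (g * n) := mul_le_mul_of_nonneg_right hk2 (by positivity)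
    linarith only [this]
  have ht4 : t ≤ ω / 16 * n := by
    have : g * n ≤ ω / 16 * n := mul_le_mul_of_nonneg_right hg4 hn0.le
    have : 0 ≤ ω / 16 * n := by positivity
    linarith
  have ht5 : t ≤ ζ' / 16 * n := by
    have : g * n ≤ ζ' / 16 * n := mul_le_mul_of_nonneg_right hg5 hn0.le
    have : 0 ≤ ζ' / 16 * n := by positivity
    linarith
  have ht1 : t ≤ a₁ * k ^ 2 * (lam * n) / 16 := by
    have h1 : k ^ 2 * n * g ≤ k ^ 2 * n * (a₁ * lam / 16) := mul_le_mul_of_nonneg_left hg1 (by positivity)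
    rw [ht]
    linarith only [h1]
  have ht2 : t ≤ a₁ * k ^ 2 * (ω * n) / 16 := by
    have h1 : k ^ 2 * n * g ≤ k ^ 2 * n * (a₁ * ω / 16) := mul_le_mul_of_nonneg_left hg2 (by positivity)
    rw [ht]
    linarith only [h1]
  have ht3 : t ≤ a₂ * k ^ 2 * n / 16 := by
    have h1 : k ^ 2 * n * g ≤ k ^ 2 * n * (a₂ / 16) := mul_le_mul_of_nonneg_left hg3 (by positivity)
    rw [ht]
    linarith only [h1]
  have hζn : ζ' * n ≤ ζ * n := mul_le_mul_of_nonneg_right hζ2 hn0.le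
  have hτ0 : 0 < a₁ * k ^ 2 := by positivity
  have hτ1 : a₁ * k ^ 2 ≤ k ^ 2 := by
    calc a₁ * k ^ 2 ≤ 1 * k ^ 2 := mul_le_mul_of_nonneg_right ha₁' hk20.le
      _ = k ^ 2 := one_mul _
  have hblk' : ∀ v ∈ X, lam * X.card ≤ (blkI X β (β v)).card := by
    intro v hv
    rw [hlam]
    exact hblk v hv
  have hJ : 1 / lam ≤ (⌈1 / lam⌉₊ : ℕ) := Nat.le_ceil _
  -- the critical block
  obtain ⟨i, hi1, hi2⟩ := exists_index X β (a := p + ω * n) (by positivity) (by
    have h1 : 4 * ω * n = 4 * (ω * n) := by ring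
    rw [← hn, h1] at hp
    rw [← hn]
    linarith only [hω1, hη0, hη1, hp, hn16])
  obtain ⟨C, hC⟩ : ∃ C, C = uppI X β i := ⟨_, rfl⟩
  rw [← hC] at hi1
  have hCX : C ⊆ X := by rw [hC]; exact filter_subset _ _
  have hCm : ∀ u, u ∈ C ↔ u ∈ X ∧ β u < i := by
    intro u
    rw [hC]
    exact mem_uppI
  have hsucc : uppI X β (i + 1) = C ∪ blkI X β i := by
    ext v
    rw [mem_union, hCm, mem_uppI, mem_blkI]
    constructor
    · rintro ⟨h1, h2⟩
      rcases Nat.lt_succ_iff_lt_or_eq.1 h2 with h | h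
      · exact Or.inl ⟨h1, h⟩
      · exact Or.inr ⟨h1, h⟩
    · rintro (⟨h1, h2⟩ | ⟨h1, h2⟩)
      · exact ⟨h1, by omega⟩
      · exact ⟨h1, by omega⟩
  have hsucc2 : ((uppI X β (i + 1)).card : ℝ) ≤ C.card + (blkI X β i).card := by
    rw [hsucc]
    exact_mod_cast card_union_le _ _
  by_cases hcut : p + ω / 2 * n ≤ (C.card : ℝ)
  · -- the cut
    obtain ⟨𝓛, h𝓛⟩ : ∃ 𝓛, 𝓛 = blks X β (fun j => i ≤ j) := ⟨_, rfl⟩
    obtain ⟨U, hU⟩ : ∃ U, U = X.filter (fun v => (v ∈ C ∨ a₂ * k ^ 2 / 2 * n < ((nO R C v).card : ℝ)) ∧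
        ∀ L ∈ 𝓛, ((nI R L v).card : ℝ) < a₁ * k ^ 2 * L.card) := ⟨_, rfl⟩
    have hUm : ∀ v, v ∈ U ↔ v ∈ X ∧ (v ∈ C ∨ a₂ * k ^ 2 / 2 * n < ((nO R C v).card : ℝ)) ∧
        ∀ L ∈ 𝓛, ((nI R L v).card : ℝ) < a₁ * k ^ 2 * L.card := by
      intro v
      rw [hU, mem_filter]
    have hLm : ∀ L ∈ 𝓛, L ⊆ X ∧ lam * n ≤ (L.card : ℝ) ∧ ∀ u ∈ L, u ∈ X ∧ i ≤ β u := by
      intro L hL
      rw [h𝓛] at hL
      obtain ⟨v, hv, hvi, rfl⟩ := mem_blks hL
      refine ⟨blkI_sub, by rw [hn]; exact hblk' v hv, fun u hu => ?_⟩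
      rw [mem_blkI] at hu
      exact ⟨hu.1, by rw [hu.2]; exact hvi⟩
    have hLc : ∀ v ∈ C, ∀ L ∈ 𝓛, a₁ * k ^ 2 / 2 * L.card < ((nI R L v).card : ℝ) → v ∈ ngen R X β t := by
      intro v hv L hL h
      obtain ⟨h1, h2, h3⟩ := hLm L hL
      refine ngen_of_in (hCX hv) (fun u hu => ⟨(h3 u hu).1, lt_of_lt_of_le ((hCm v).1 hv).2 (h3 u hu).2⟩) ?_
      have h4 : a₁ * k ^ 2 / 2 * (lam * n) ≤ a₁ * k ^ 2 / 2 * L.card := mul_le_mul_of_nonneg_left h2 (by positivity)
      have h5 : 0 ≤ a₁ * k ^ 2 * (lam * n) := by positivity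
      linarith only [ht0, ht1, h, h4]
    have hUC : U \ C ⊆ ngen R X β t := by
      intro v hv
      rw [mem_sdiff, hUm] at hv
      obtain ⟨⟨h1, h2, -⟩, h3⟩ := hv
      have h4 := h2.resolve_left h3
      have h5 : i ≤ β v := by
        by_contra h
        exact h3 ((hCm v).2 ⟨h1, not_le.1 h⟩)
      refine ngen_of_out h1 (fun u hu => ⟨((hCm u).1 hu).1, lt_of_lt_of_le ((hCm u).1 hu).2 h5⟩) ?_
      have h6 : 0 < a₂ * k ^ 2 * n := by positivity
      linarith only [ht0, ht3, h4]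
    have hCU : C \ U ⊆ ngen R X β t := by
      intro v hv
      rw [mem_sdiff, hUm] at hv
      obtain ⟨h1, h2⟩ := hv
      have h3 : ∃ L ∈ 𝓛, a₁ * k ^ 2 * L.card ≤ ((nI R L v).card : ℝ) := by
        by_contra hcon
        push Not at hcon
        exact h2 ⟨hCX h1, Or.inl h1, hcon⟩
      obtain ⟨L, hL, h4⟩ := h3
      refine hLc v h1 L hL (lt_of_lt_of_le ?_ h4)
      have h5 : 0 < (L.card : ℝ) := lt_of_lt_of_le (by positivity) (hLm L hL).2.1
      have h6 : 0 < a₁ * k ^ 2 * L.card := by (clear * - ha₁ hk0 h5; positivity)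
      linarith only [h6]
    have hUCc : ((U \ C).card : ℝ) ≤ t := le_trans (by exact_mod_cast card_le_card hUC) hgen'
    have hCUc : ((C \ U).card : ℝ) ≤ t := le_trans (by exact_mod_cast card_le_card hCU) hgen'
    have hUc1 : (U.card : ℝ) ≤ C.card + (U \ C).card := by
      have : U.card ≤ C.card + (U \ C).card := by
        have := le_card_sdiff C U
        omega
      exact_mod_cast this
    have hUc2 : (C.card : ℝ) ≤ U.card + (C \ U).card := by
      have : C.card ≤ U.card + (C \ U).card := by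
        have := le_card_sdiff U C
        omega
      exact_mod_cast this
    refine ⟨k, U, ∅, 𝓛, by rw [hk]; linarith only [hκ₀], by linarith only [hω1, hη0, hη1, hκ₁, hk], by rw [h𝓛]; exact card_blks hlam0 hJ hXpos hblk', Or.inl ?_⟩
    refine ⟨fun v hv => ((hUm v).1 hv).1, fun L hL => (hLm L hL).1, fun L hL => by rw [← hn]; exact (hLm L hL).2.1, ?_, ?_,
      ?_, ?_, fun u hu L hL => (((hUm u).1 hu).2.2 L hL).le, ?_, ?_⟩
    · rw [← hn]
      have h1 : X \ (U ∪ 𝓛.biUnion id) ⊆ C \ U := by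
        intro v hv
        rw [mem_sdiff, mem_union, not_or, mem_biUnion] at hv
        obtain ⟨h1, h2, h3⟩ := hv
        rw [mem_sdiff, hCm]
        refine ⟨⟨h1, ?_⟩, h2⟩
        by_contra h4
        push Not at h4
        exact h3 ⟨blkI X β (β v), by rw [h𝓛]; exact blkI_mem_blks h1 h4, mem_blkI.2 ⟨h1, rfl⟩⟩
      have h2 : ((X \ (U ∪ 𝓛.biUnion id)).card : ℝ) ≤ (C \ U).card := by exact_mod_cast card_le_card h1
      have h3 : 0 ≤ ζ' * n := by positivity
      linarith only [ht0, ht5, hζn, hCUc, h2]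
    · rw [← hn]
      have h1 : 0 ≤ ω * n := by positivity
      linarith only [hω1, hη0, hη1, hn16, ht4, hcut, hCUc, hUc2]
    · rw [← hn]
      have h1 : 0 ≤ ω * n := by positivity
      linarith only [hω1, hη0, hη1, hn16, ht4, hi1, hUCc, hUc1]
    · intro L hL
      rw [← hn]
      have h1 : L ∩ U ⊆ U \ C := by
        intro v hv
        rw [mem_inter] at hv
        rw [mem_sdiff]
        refine ⟨hv.2, fun h => ?_⟩
        have h2 := ((hLm L hL).2.2 v hv.1).2
        have h3 := ((hCm v).1 h).2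
        omega
      have h2 : ((L ∩ U).card : ℝ) ≤ (U \ C).card := by exact_mod_cast card_le_card h1
      have h4 : 0 ≤ a₂ * k ^ 2 * n := by positivity
      linarith only [ht0, ht3, hUCc, h2]
    · intro x hx
      rw [mem_sdiff] at hx
      by_cases hL : ∃ L ∈ 𝓛, a₁ * k ^ 2 * L.card ≤ ((nI R L x).card : ℝ)
      · exact Or.inr hL
      · left
        push Not at hL
        have h1 : ¬ (x ∈ C ∨ a₂ * k ^ 2 / 2 * n < ((nO R C x).card : ℝ)) := fun h => hx.2 ((hUm x).2 ⟨hx.1, h, hL⟩)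
        rw [not_or, not_lt] at h1
        have h2 : nO R U x ⊆ nO R C x ∪ (U \ C) := by
          intro v hv
          rw [mem_nO] at hv
          rw [mem_union, mem_nO, mem_sdiff]
          by_cases h : v ∈ C
          · exact Or.inl ⟨h, hv.2⟩
          · exact Or.inr ⟨hv.1, h⟩
        have h3 : ((nO R U x).card : ℝ) ≤ (nO R C x).card + (U \ C).card := by
          exact_mod_cast (card_le_card h2).trans (card_union_le _ _)
        rw [← hn]
        have h4 : 0 ≤ a₂ * k ^ 2 * n := by positivity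
        linarith only [ht0, ht3, hUCc, h1, h3, h1.2]
    · rw [← hn]
      have h1 : U.filter (fun w => ∃ L ∈ 𝓛, a₁ * k ^ 2 / 2 * L.card < ((nI R L w).card : ℝ)) ⊆ ngen R X β t := by
        intro w hw
        rw [mem_filter] at hw
        obtain ⟨h1, L, hL, h2⟩ := hw
        by_cases h3 : w ∈ C
        · exact hLc w h3 L hL h2
        · exact hUC (mem_sdiff.2 ⟨h1, h3⟩)
      have h2 : ((U.filter (fun w => ∃ L ∈ 𝓛, a₁ * k ^ 2 / 2 * L.card < ((nI R L w).card : ℝ))).card : ℝ) ≤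
          (ngen R X β t).card := by exact_mod_cast card_le_card h1
      have h4 : 0 ≤ a₂ * k ^ 2 * n := by positivity
      linarith only [ht0, hgen', ht3, h2]
  · -- the thick part
    push Not at hcut
    obtain ⟨B, hB⟩ : ∃ B, B = blkI X β i := ⟨_, rfl⟩
    rw [← hB] at hsucc hsucc2
    have hBm : ∀ u, u ∈ B ↔ u ∈ X ∧ β u = i := by
      intro u
      rw [hB]
      exact mem_blkI
    have hBX : B ⊆ X := by rw [hB]; exact blkI_sub
    have hBc : ω / 2 * n < (B.card : ℝ) := by linarith only [hi2, hcut, hsucc2]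
    have hBn : (B.card : ℝ) ≤ n := by rw [hn]; exact_mod_cast card_le_card hBX
    have hBne : B.Nonempty := by
      rw [← card_pos]
      have : (0 : ℝ) < B.card := lt_trans (by positivity) hBc
      exact_mod_cast this
    obtain ⟨b0, hb0⟩ := hBne
    have hU1 := huns b0 ((hBm b0).1 hb0).1
    rw [((hBm b0).1 hb0).2] at hU1
    unfold Uns at hU1
    rw [← hB, ← hn] at hU1
    have hU2 := hU1 (by
      have : 0 ≤ ω * n := by positivity
      linarith only [hω1, hη0, hη1, hn16, hi2, hcut, hsucc2])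
    obtain ⟨K, hKB, hBK, hexK⟩ := AELT.exists_core (R := R) (η := η₁) (k := κ) (θ := k) (n := n) (B := B) hη0 (by linarith only [hω1, hη0, hη1])
      hk0 (by rw [hk]; linarith only []) hBn (by
      intro A hA h1 h2
      have h3 : (A.card : ℝ) ≤ (1 - η₁) * B.card := by
        have h4 : (B.card : ℝ) = (B \ A).card + A.card := by exact_mod_cast (card_sdiff_add_card_eq_card hA).symm
        have h5 : (1 - η₁) * (B.card : ℝ) = B.card - η₁ * B.card := by ring
        rw [h5]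
        linarith only [h2, h4]
      have h4 := hU2 A hA h1 h3
      have h5 : arcs R A (B \ A) = (ar R A (B \ A) : ℝ) := by
        unfold arcs ar
        push_cast
        rfl
      rw [h5] at h4
      exact h4)
    have hKX : K ⊆ X := hKB.trans hBX
    have hBKc : (B.card : ℝ) = (B \ K).card + K.card := by exact_mod_cast (card_sdiff_add_card_eq_card hKB).symm
    have hηB : 2 * η₁ * B.card ≤ 2 * η₁ * n := mul_le_mul_of_nonneg_left hBn (by positivity)
    have hηn1 : η₁ * n ≤ ω / 16 * n := mul_le_mul_of_nonneg_right hη1 hn0.le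
    have hηn2 : η₁ * n ≤ ζ' / 16 * n := mul_le_mul_of_nonneg_right hη2 hn0.le
    have hωn : 0 < ω * n := by positivity
    have hζn0 : 0 < ζ' * n := by positivity
    have hBK2 : ((B \ K).card : ℝ) ≤ 2 * (η₁ * n) := by
      have : 2 * η₁ * n = 2 * (η₁ * n) := by ring
      linarith only [hBK, hηB]
    have hKc : ω / 4 * n ≤ (K.card : ℝ) := by linarith only [hω1, hη0, hη1, hn16, hi2, hcut, hsucc2, hBK, hBKc, hηB, hηn1]
    have hKn : (K.card : ℝ) ≤ n := by rw [hn]; exact_mod_cast card_le_card hKX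
    have hK0 : (0 : ℝ) < K.card := by linarith only [hω1, hη0, hη1, hn16, hi2, hcut, hsucc2, hBK, hBKc, hηB, hηn1]
    have hK2 : 2 ≤ K.card := by
      have : (2 : ℝ) ≤ K.card := by linarith only [hω1, hη0, hη1, hn16, hi2, hcut, hsucc2, hBK, hBKc, hηB, hηn1]
      exact_mod_cast this
    obtain ⟨𝓛, h𝓛⟩ : ∃ 𝓛, 𝓛 = blks X β (fun j => i < j) := ⟨_, rfl⟩
    obtain ⟨U, hU⟩ : ∃ U, U = X.filter (fun v => ((nI R K v).card : ℝ) < a₁ * k ^ 2 * K.card ∧
        ∀ L ∈ 𝓛, ((nI R L v).card : ℝ) < a₁ * k ^ 2 * L.card) := ⟨_, rfl⟩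
    have hUm : ∀ v, v ∈ U ↔ v ∈ X ∧ ((nI R K v).card : ℝ) < a₁ * k ^ 2 * K.card ∧
        ∀ L ∈ 𝓛, ((nI R L v).card : ℝ) < a₁ * k ^ 2 * L.card := by
      intro v
      rw [hU, mem_filter]
    have hLm : ∀ L ∈ 𝓛, L ⊆ X ∧ lam * n ≤ (L.card : ℝ) ∧ ∀ u ∈ L, u ∈ X ∧ i < β u := by
      intro L hL
      rw [h𝓛] at hL
      obtain ⟨v, hv, hvi, rfl⟩ := mem_blks hL
      refine ⟨blkI_sub, by rw [hn]; exact hblk' v hv, fun u hu => ?_⟩
      rw [mem_blkI] at hu
      exact ⟨hu.1, by rw [hu.2]; exact hvi⟩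
    have hLc : ∀ v ∈ X, β v ≤ i → ∀ L ∈ 𝓛, a₁ * k ^ 2 / 2 * L.card < ((nI R L v).card : ℝ) → v ∈ ngen R X β t := by
      intro v hv hvi L hL h
      obtain ⟨h1, h2, h3⟩ := hLm L hL
      refine ngen_of_in hv (fun u hu => ⟨(h3 u hu).1, lt_of_le_of_lt hvi (h3 u hu).2⟩) ?_
      have h4 : a₁ * k ^ 2 / 2 * (lam * n) ≤ a₁ * k ^ 2 / 2 * L.card := mul_le_mul_of_nonneg_left h2 (by positivity)
      have h5 : 0 ≤ a₁ * k ^ 2 * (lam * n) := by positivity
      linarith only [ht1, h, h4]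
    have hCU : C \ U ⊆ ngen R X β t := by
      intro v hv
      rw [mem_sdiff, hUm] at hv
      obtain ⟨h1, h2⟩ := hv
      have hvC := (hCm v).1 h1
      by_cases h3 : ∃ L ∈ 𝓛, a₁ * k ^ 2 * L.card ≤ ((nI R L v).card : ℝ)
      · obtain ⟨L, hL, h4⟩ := h3
        refine hLc v hvC.1 hvC.2.le L hL (lt_of_lt_of_le ?_ h4)
        have h5 : 0 < (L.card : ℝ) := lt_of_lt_of_le (by positivity) (hLm L hL).2.1
        have h6 : 0 < a₁ * k ^ 2 * L.card := by (clear * - ha₁ hk0 h5; positivity)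
        linarith only [h6]
      · push Not at h3
        have h4 : a₁ * k ^ 2 * K.card ≤ ((nI R K v).card : ℝ) := by
          by_contra h
          exact h2 ⟨hvC.1, not_le.1 h, h3⟩
        refine ngen_of_in hvC.1 (L := K) (fun u hu => ⟨hKX hu, ?_⟩) ?_
        · rw [((hBm u).1 (hKB hu)).2]
          exact hvC.2
        · have h5 : a₁ * k ^ 2 * (ω / 4 * n) ≤ a₁ * k ^ 2 * K.card := mul_le_mul_of_nonneg_left hKc hτ0.le
          have h6 : 0 < a₁ * k ^ 2 * (ω * n) := by positivity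
          linarith only [ht0, ht2, h4, h5]
    have hUC : U \ C ⊆ (B \ K) ∪ ngen R X β t := by
      intro v hv
      rw [mem_sdiff, hUm] at hv
      obtain ⟨⟨h1, h2, -⟩, h3⟩ := hv
      rw [mem_union, mem_sdiff]
      have h5 : i ≤ β v := by
        by_contra h
        exact h3 ((hCm v).2 ⟨h1, not_le.1 h⟩)
      have hτK : a₁ * k ^ 2 * K.card ≤ k ^ 2 * n := by
        calc a₁ * k ^ 2 * (K.card : ℝ) ≤ k ^ 2 * K.card := mul_le_mul_of_nonneg_right hτ1 hK0.le
          _ ≤ k ^ 2 * n := mul_le_mul_of_nonneg_left hKn hk20.le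
      rcases h5.eq_or_lt with h6 | h6
      · left
        have hvB : v ∈ B := (hBm v).2 ⟨h1, h6.symm⟩
        refine ⟨hvB, fun hvK => ?_⟩
        have h7 := (hexK.toEX.sg false).deg (by positivity) hK2 hvK
        have h8 : nO (sg R false) K v = nI R K v := rfl
        rw [h8] at h7
        have h9 : k ^ 2 * n ≤ k * n := by
          have : k * (k * n) ≤ 1 * (k * n) := mul_le_mul_of_nonneg_right (by linarith only [hω1, hη0, hη1, hκ₁, hk]) (by positivity)
          calc k ^ 2 * n = k * (k * n) := by ring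
            _ ≤ k * n := by linarith only [h2, hτK, h7, this]
        linarith only [h2, hτK, h7, h9]
      · right
        refine ngen_of_out h1 (L := K) (fun u hu => ⟨hKX hu, by rw [((hBm u).1 (hKB hu)).2]; exact h6⟩) ?_
        have hvK : v ∉ K := by
          intro h
          rw [((hBm v).1 (hKB h)).2] at h6
          exact lt_irrefl _ h6
        have h7 := card_nO_add_nI hT hvK
        have h8 : ((nO R K v).card : ℝ) + (nI R K v).card = K.card := by exact_mod_cast h7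
        have h9 : a₁ * k ^ 2 * K.card ≤ 1 / 16 * K.card := mul_le_mul_of_nonneg_right (hτ1.trans hk2) hK0.le
        linarith only [hω1, hη0, hη1, hn16, ht4, hi2, hcut, hsucc2, hBK, hBKc, hηB, hηn1, h2, h8, h9]
    have hUCc : ((U \ C).card : ℝ) ≤ 2 * (η₁ * n) + t := by
      have h1 : (U \ C).card ≤ (B \ K).card + (ngen R X β t).card := (card_le_card hUC).trans (card_union_le _ _)
      have h2 : ((U \ C).card : ℝ) ≤ (B \ K).card + (ngen R X β t).card := by exact_mod_cast h1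
      linarith only [hgen', hBK, hηB, h2]
    have hCUc : ((C \ U).card : ℝ) ≤ t := le_trans (by exact_mod_cast card_le_card hCU) hgen'
    have hUc1 : (U.card : ℝ) ≤ C.card + (U \ C).card := by
      have : U.card ≤ C.card + (U \ C).card := by
        have := le_card_sdiff C U
        (clear * - this; omega)
      exact_mod_cast this
    have hUc2 : (C.card : ℝ) ≤ U.card + (C \ U).card := by
      have : C.card ≤ U.card + (C \ U).card := by
        have := le_card_sdiff U C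
        omega
      exact_mod_cast this
    refine ⟨k, U, K, 𝓛, by rw [hk]; linarith only [hκ₀], by linarith only [hω1, hη0, hη1, hκ₁, hk], by rw [h𝓛]; exact card_blks hlam0 hJ hXpos hblk', Or.inr ?_⟩
    refine ⟨fun v hv => ((hUm v).1 hv).1, hKX, fun L hL => (hLm L hL).1,
      fun L hL => by rw [← hn]; exact (hLm L hL).2.1, by rw [← hn]; exact hexK, by rw [← hn]; exact hKc, ?_, ?_,
      ?_, fun u hu L hL => (((hUm u).1 hu).2.2 L hL).le, fun u hu => ((hUm u).1 hu).2.1.le, ?_, ?_, ?_⟩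
    · rw [← hn]
      have h1 : X \ (U ∪ K ∪ 𝓛.biUnion id) ⊆ (C \ U) ∪ (B \ K) := by
        intro v hv
        rw [mem_sdiff, mem_union, mem_union, not_or, not_or, mem_biUnion] at hv
        obtain ⟨h1, ⟨h2, h2'⟩, h3⟩ := hv
        rw [mem_union, mem_sdiff, mem_sdiff, hCm, hBm]
        rcases lt_trichotomy (β v) i with h4 | h4 | h4
        · exact Or.inl ⟨⟨h1, h4⟩, h2⟩
        · exact Or.inr ⟨⟨h1, h4⟩, h2'⟩
        · exact absurd ⟨blkI X β (β v), by rw [h𝓛]; exact blkI_mem_blks h1 h4, mem_blkI.2 ⟨h1, rfl⟩⟩ h3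
      have h2 : ((X \ (U ∪ K ∪ 𝓛.biUnion id)).card : ℝ) ≤ (C \ U).card + (B \ K).card := by
        exact_mod_cast (card_le_card h1).trans (card_union_le _ _)
      linarith only [ht5, hζn, hBK, hηB, hηn2, hCUc, h2]
    · rw [← hn]
      linarith only [hω1, hη0, hη1, hn16, ht4, hi2, hsucc2, hBK, hBKc, hηB, hηn1, hCUc, hUc2]
    · rw [← hn]
      linarith only [hω1, hη0, hη1, hn16, ht4, hcut, hηn1, hUCc, hUc1]
    · intro x hx
      rw [mem_sdiff] at hx
      by_cases hL : ∃ L ∈ 𝓛, a₁ * k ^ 2 * L.card ≤ ((nI R L x).card : ℝ)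
      · exact Or.inr hL
      · left
        push Not at hL
        by_contra h
        exact hx.2 ((hUm x).2 ⟨hx.1, not_le.1 h, hL⟩)
    · rw [← hn]
      have h1 : K.filter (fun w => ∃ L ∈ 𝓛, a₁ * k ^ 2 / 2 * L.card < ((nI R L w).card : ℝ)) ⊆ ngen R X β t := by
        intro w hw
        rw [mem_filter] at hw
        obtain ⟨h1, L, hL, h2⟩ := hw
        exact hLc w (hKX h1) ((hBm w).1 (hKB h1)).2.le L hL h2
      have h2 : ((K.filter (fun w => ∃ L ∈ 𝓛, a₁ * k ^ 2 / 2 * L.card < ((nI R L w).card : ℝ))).card : ℝ) ≤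
          (ngen R X β t).card := by exact_mod_cast card_le_card h1
      have h4 : 0 ≤ a₂ * k ^ 2 * n := by positivity
      linarith only [hgen', ht3, h2]
    · intro L hL
      rw [← hn]
      have h1 : L.filter (fun f => a₂ * k ^ 2 * n < ((nO R K f).card : ℝ)) ⊆ ngen R X β t := by
        intro f hf
        rw [mem_filter] at hf
        obtain ⟨h1, h2⟩ := hf
        obtain ⟨h3, h4⟩ := (hLm L hL).2.2 f h1
        refine ngen_of_out h3 (L := K) (fun u hu => ⟨hKX hu, by rw [((hBm u).1 (hKB hu)).2]; exact h4⟩) ?_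
        have h5 : 0 ≤ a₂ * k ^ 2 * n := by positivity
        linarith only [ht3, hCUc, h2]
      have h2 : ((L.filter (fun f => a₂ * k ^ 2 * n < ((nO R K f).card : ℝ))).card : ℝ) ≤ (ngen R X β t).card := by
        exact_mod_cast card_le_card h1
      have h4 : 0 ≤ a₂ * k ^ 2 * n := by positivity
      linarith only [hgen', ht3, h2]

end AESF
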