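import Pool.Agent.AESF.T1B
import Pool.Agent.AESF.Dual
import Pool.Agent.AESF.Main

/-!
# Free ends at the root: the case of a small set before the place
-/

set_option autoImplicit false

namespace AESF

open Finset AE15 AED AELT AEB
open scoped Classical

variable {V : Type} {R : V → V → Prop}

/-- the branch `F` is hung on the root of the rest -/
theorem glue_root {v f : V} {S B X : Finset V} {F s : Fd} (hv : v ∈ X) (hS : S ⊆ X) (hvS : v ∉ S) (hEs : Emb R s v S)
    (hf : f ∈ X) (hB : B ⊆ X) (hvf : R v f) (hfB : f ∉ B) (hEF : Emb R F f B)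
    (hd : Disjoint (insert v S) (insert f B)) : In R (.node true F s) (fun _ => True) X := by
  rw [disjoint_insert_left, disjoint_insert_right, mem_insert, not_or] at hd
  obtain ⟨⟨h1, h2⟩, h3, h4⟩ := hd
  refine ⟨v, hv, insert f (B ∪ S), insert_subset hf (union_subset hB hS), ?_, trivial, f, B, S, by simpa [Adj] using hvf,
    hfB, h3, h4.symm, rfl, hEF, hEs⟩
  rw [mem_insert, mem_union, not_or, not_or]
  exact ⟨h1, h2, hvS⟩

theorem map_true {L : List (V × Bool × Fd)} (h : ∀ q ∈ L, q.2.1 = true) :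
    (L.map (fun q => ((q.1, q.2.2) : V × Fd))).map (fun p => (p.1, true, p.2)) = L := by
  induction L with
  | nil => rfl
  | cons q L ih =>
    rw [List.map_cons, List.map_cons, ih (fun r hr => h r (List.mem_cons_of_mem _ hr))]
    obtain ⟨a, d, c⟩ := q
    have h1 : d = true := h (a, d, c) List.mem_cons_self
    rw [h1]

theorem map_false {L : List (V × Bool × Fd)} (h : ∀ q ∈ L, q.2.1 = false) :
    (L.map (fun q => ((q.1, q.2.2) : V × Fd))).map (fun q => (q.1, false, prIn q.2)) =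
      L.map (fun q => (q.1, q.2.1, prIn q.2.2)) := by
  rw [List.map_map]
  refine List.map_congr_left ?_
  intro q hq
  simp only [Function.comp, h q hq]

theorem isz_map (L : List (V × Bool × Fd)) : AEB.isz (L.map (fun q => ((q.1, q.2.2) : V × Fd))) = gsz L := by
  simp only [AEB.isz, gsz, List.map_map]
  rfl

/-- **the case of a small set before the place** -/
theorem t1 : T1St := by
  intro b hb θ' hθ'
  obtain ⟨θ, hθd⟩ : ∃ θ : ℝ, θ = min θ' 1 := ⟨_, rfl⟩
  have hθ : 0 < θ := by rw [hθd]; exact lt_min hθ' one_pos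
  have hθ1 : θ ≤ 1 := by rw [hθd]; exact min_le_right _ _
  have hθθ' : θ ≤ θ' := by rw [hθd]; exact min_le_left _ _
  clear hθd
  refine ⟨1, one_pos, ?_⟩
  intro ω hω hω1
  obtain ⟨ρ, C₂, m₁, hρ, hdual⟩ := dual b hb
  obtain ⟨ρ₁, hρd⟩ : ∃ ρ₁ : ℝ, ρ₁ = min ρ 1 := ⟨_, rfl⟩
  have hρ0 : 0 < ρ₁ := by rw [hρd]; exact lt_min hρ one_pos
  have hρ1 : ρ₁ ≤ 1 := by rw [hρd]; exact min_le_right _ _
  have hρρ : ρ₁ ≤ ρ := by rw [hρd]; exact min_le_left _ _
  clear hρd
  refine ⟨θ ^ 2 * ρ₁ / 256, by positivity, ?_⟩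
  intro ζ hζ0 hζ lam hlam J
  refine ⟨min (θ ^ 2 * ρ₁ / (256 * (J + 1))) (min (ρ₁ / 64) (ω * ρ₁ / 256)),
    lt_min (by positivity) (lt_min (by positivity) (by positivity)), ?_⟩
  intro a1 ha1 ha1'
  have u1 : a1 ≤ θ ^ 2 * ρ₁ / (256 * (J + 1)) := ha1'.trans (min_le_left _ _)
  have u2 : a1 ≤ ρ₁ / 64 := ha1'.trans ((min_le_right _ _).trans (min_le_left _ _))
  have u3 : a1 ≤ ω * ρ₁ / 256 := ha1'.trans ((min_le_right _ _).trans (min_le_right _ _))
  clear ha1'
  refine ⟨min (ω / 32) (min (a1 * lam / 8) (θ / (64 * (J + 1)))),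
    lt_min (by positivity) (lt_min (by positivity) (by positivity)), ?_⟩
  intro a2 ha2 ha2'
  have v1 : a2 ≤ ω / 32 := ha2'.trans (min_le_left _ _)
  have v2 : a2 ≤ a1 * lam / 8 := ha2'.trans ((min_le_right _ _).trans (min_le_left _ _))
  have v3 : a2 ≤ θ / (64 * (J + 1)) := ha2'.trans ((min_le_right _ _).trans (min_le_right _ _))
  clear ha2'
  intro k0 hk0 c1 m0
  obtain ⟨n₀, C', hcore⟩ := t1_core b J hb hθ hθ1 hω hω1 hlam (τ₀ := a1 * k0 ^ 2) (k₀ := k0) (by positivity) hk0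
  obtain ⟨c2, hc2⟩ : ∃ c2 : ℕ, c2 = C₂ + c1 + m0 := ⟨_, rfl⟩
  obtain ⟨M, hM⟩ : ∃ M : ℕ, M = m₁ + 2 * c2 + 1 := ⟨_, rfl⟩
  obtain ⟨D₀, hD₀⟩ := exists_nat_ge (8 * ((M : ℝ) + c2 + 1) / ω)
  refine ⟨((n₀ + C' + c2 + M + D₀ : ℕ) : ℝ), ?_⟩
  intro V R hT X U K 𝓛 k hkk hk1 hJ F s hl hDg hF hθF hX hD hU
  have hk : 0 < k := lt_of_lt_of_le hk0 hkk
  have hsz : (Fd.node true F s).size = F.size + s.size + 1 := rfl
  have hlen : (Fd.node true F s).len = s.len + 1 := rfl
  rw [hsz] at hX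
  rw [hlen] at hl
  have hXN : F.size + s.size + 2 + (n₀ + C' + c2 + M + D₀) ≤ X.card := by
    have h1 : ((F.size + s.size + 2 + (n₀ + C' + c2 + M + D₀) : ℕ) : ℝ) ≤ X.card := by
      push_cast at hX ⊢
      linarith only [hX]
    exact_mod_cast h1
  have hDs := hDg.2.2
  obtain ⟨n, hn⟩ : ∃ n : ℝ, n = X.card := ⟨_, rfl⟩
  have hn0 : 0 ≤ n := by rw [hn]; exact Nat.cast_nonneg _
  rw [← hn] at hθF
  have hθF' : θ * n ≤ (F.size + 1 : ℝ) := (mul_le_mul_of_nonneg_right hθθ' hn0).trans hθF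
  have hωn : 8 * ((M : ℝ) + c2 + 1) ≤ ω * n := by
    have h1 : (D₀ : ℝ) ≤ n := by
      rw [hn]
      exact_mod_cast (by omega : D₀ ≤ X.card)
    have h2 : 8 * ((M : ℝ) + c2 + 1) / ω ≤ n := hD₀.trans h1
    rw [div_le_iff₀ hω] at h2
    linarith only [h2]
  -- the constants
  obtain ⟨τ, hτd⟩ : ∃ τ : ℝ, τ = a1 * k ^ 2 := ⟨_, rfl⟩
  obtain ⟨ν, hνd⟩ : ∃ ν : ℝ, ν = a2 * k ^ 2 := ⟨_, rfl⟩
  rw [← hτd, ← hνd] at hD
  have hk2 : k ^ 2 ≤ k := by nlinarith only [hk, hk1]
  have hk2' : k ^ 2 ≤ 1 := hk2.trans hk1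
  have hk20 : 0 < k ^ 2 := by positivity
  have hτ0 : 0 < τ := by rw [hτd]; positivity
  have hν0 : 0 ≤ ν := by rw [hνd]; positivity
  have hτa : τ ≤ a1 := by
    rw [hτd]
    calc a1 * k ^ 2 ≤ a1 * 1 := mul_le_mul_of_nonneg_left hk2' ha1.le
      _ = a1 := mul_one _
  have hτk : τ ≤ a1 * k := by rw [hτd]; exact mul_le_mul_of_nonneg_left hk2 ha1.le
  have hνa : ν ≤ a2 := by
    rw [hνd]
    calc a2 * k ^ 2 ≤ a2 * 1 := mul_le_mul_of_nonneg_left hk2' ha2.le
      _ = a2 := mul_one _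
  have hττ : a1 * k0 ^ 2 ≤ τ := by
    rw [hτd]
    refine mul_le_mul_of_nonneg_left ?_ ha1.le
    nlinarith only [hk0, hkk]
  have hτ2k : 2 * τ ≤ k := by
    have h1 : a1 * k ≤ 1 / 2 * k := mul_le_mul_of_nonneg_right (by linarith only [u2, hρ1]) hk.le
    linarith only [h1, hτk]
  have hντ : 8 * ν ≤ τ * lam := by
    rw [hνd, hτd]
    have h1 : a2 * k ^ 2 ≤ a1 * lam / 8 * k ^ 2 := mul_le_mul_of_nonneg_right v2 hk20.le
    have h2 : a1 * lam / 8 * k ^ 2 = a1 * k ^ 2 * lam / 8 := by ring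
    linarith only [h1, h2]
  have hJ0 : (0 : ℝ) ≤ J := Nat.cast_nonneg _
  have hJν : J * ν ≤ θ / 64 := by
    rw [le_div_iff₀ (by positivity)] at v3
    nlinarith only [v3, hνa, hJ0, ha2]
  have hθ2ρ : θ ^ 2 * ρ₁ ≤ θ ^ 2 := by nlinarith only [hρ1, sq_nonneg θ]
  have hθ2 : θ ^ 2 ≤ θ := by nlinarith only [hθ, hθ1]
  have hJτ0 : (J + 1) * τ + ζ ≤ θ ^ 2 * ρ₁ / 128 := by
    rw [le_div_iff₀ (by positivity)] at u1
    have h1 : ((J : ℝ) + 1) * τ ≤ (J + 1) * a1 := mul_le_mul_of_nonneg_left hτa (by linarith only [hJ0])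
    linarith only [h1, u1, hζ]
  have hJτ : (J + 1) * τ + ζ ≤ θ ^ 2 / 64 := by
    have h1 : 0 ≤ θ ^ 2 := by positivity
    linarith only [hJτ0, hθ2ρ, h1]
  have hK16 : ω / 4 * n ≤ (K.card : ℝ) := by rw [hn]; exact hD.exK
  have hM0 : (0 : ℝ) ≤ M := Nat.cast_nonneg _
  have hc20 : (0 : ℝ) ≤ c2 := Nat.cast_nonneg _
  have hK2 : 2 ≤ K.card := by
    have h1 : (2 : ℝ) ≤ K.card := by linarith only [hK16, hωn, hM0, hc20]
    exact_mod_cast h1
  have hKn : (K.card : ℝ) ≤ n := by rw [hn]; exact_mod_cast card_le_card hD.subK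
  have hlo := hD.lo
  rw [← hn] at hlo
  push_cast at hlo
  have hYc : (X \ U).card = X.card - U.card := card_sdiff_of_subset hD.subU
  have hc10 : (0 : ℝ) ≤ c1 := Nat.cast_nonneg _
  have hωn0 : 0 ≤ ω * n := by positivity
  by_cases hUM : U.card < M
  · -- the set `U` is wasted
    obtain ⟨v, hv, S, hS, hvS, -, hEs, hcont⟩ := hcore hT hD hn hJ (by omega) hkk hk1 hττ (by linarith only [hτa, u2, hρ1])
      hτ2k hν0 (by linarith only [hνa, v1]) hντ hJν hJτ (fun _ => True) (by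
        simp only [not_true_eq_false, filter_false, card_empty, Nat.cast_zero]
        positivity) (by
        simp only [not_true_eq_false, filter_false, card_empty, Nat.cast_zero]
        positivity) (by
        simp only [not_true_eq_false, filter_false, card_empty, Nat.cast_zero]
        positivity) F s hF (by omega) hDs hθF' (by omega) (by
        have h1 : (U.card : ℝ) ≤ M := by exact_mod_cast hUM.le
        linarith only [h1, hlo, hωn, hc10, hc20])
    obtain ⟨A, -, f, hf, B, hB, -, r1, r2, r3, -, r5, -⟩ := hcont [] (by simp) (by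
      have : isz ([] : List (V × Fd)) = 0 := AEB.isz_nil
      omega)
    exact glue_root (mem_sdiff.1 hv).1 (hS.trans sdiff_subset) hvS hEs (mem_sdiff.1 hf).1 (hB.trans sdiff_subset) r1 r2 r3
      r5
  · -- `U` is filled
    push Not at hUM
    obtain ⟨x', hx'U, hI⟩ := hdual hT U (by omega)
    obtain ⟨m, hm⟩ : ∃ m : ℕ, m = U.card - c2 := ⟨_, rfl⟩
    obtain ⟨s2, I, i1, i2, i3, -, i5, i6, ⟨t, I', i7, i8⟩, i9, hlift⟩ := select_emb (b := b) (m := m) (c := s) (by omega) hDs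
      (by omega) (by omega)
    obtain ⟨GH, hGH⟩ : ∃ GH : V → Prop, GH = fun h => R x' h ∧ ((U.filter (fun u => ¬ R u h)).card : ℝ) ≤ ρ₁ * U.card :=
      ⟨_, rfl⟩
    have hGHf : ∀ T : Finset V, T.filter (fun h => ¬ GH h) =
        T.filter (fun h => ¬ (R x' h ∧ ((U.filter (fun u => ¬ R u h)).card : ℝ) ≤ ρ₁ * U.card)) := by
      intro T
      rw [hGH]
      congr
    have hρt : ∀ t : ℝ, 0 ≤ t → t + t / ρ₁ ≤ 2 * (t / ρ₁) := by
      intro t ht
      have h1 : t ≤ t / ρ₁ := by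
        rw [le_div_iff₀ hρ0]
        nlinarith only [ht, hρ1]
      linarith only [h1]
    have hgK : ((K.filter (fun h => ¬ GH h)).card : ℝ) ≤ 2 * (a1 * k * n / ρ₁) := by
      have h1 := good_hosts (T := K) (ρ := ρ₁) hx'U hρ0 (fun u hu => hD.missK hT hτ0 hτ2k hK2 hu)
      rw [← hGHf] at h1
      refine h1.trans ((hρt _ (by positivity)).trans ?_)
      have h2 : τ * K.card ≤ a1 * k * n := mul_le_mul hτk hKn (Nat.cast_nonneg _) (by positivity)
      have h3 : τ * K.card / ρ₁ ≤ a1 * k * n / ρ₁ := div_le_div_of_nonneg_right h2 hρ0.le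
      linarith only [h3]
    have hgY : (((X \ U).filter (fun h => ¬ GH h)).card : ℝ) ≤ θ / 64 * n := by
      have h1 := good_hosts (T := X \ U) (ρ := ρ₁) hx'U hρ0 (fun u hu => hD.missY hT hτ0.le hJ hu)
      rw [← hGHf, ← hn] at h1
      have h0 : 0 ≤ ((J + 1) * τ + ζ) * n := by positivity
      refine h1.trans ((hρt _ h0).trans ?_)
      have h2 : ((J + 1) * τ + ζ) * n / ρ₁ ≤ θ / 128 * n := by
        rw [div_le_iff₀ hρ0]
        have h3 : ((J + 1) * τ + ζ) * n ≤ θ ^ 2 * ρ₁ / 128 * n := mul_le_mul_of_nonneg_right hJτ0 hn0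
        have h4 : θ ^ 2 * ρ₁ / 128 * n ≤ θ * ρ₁ / 128 * n := by
          refine mul_le_mul_of_nonneg_right ?_ hn0
          have : θ ^ 2 * ρ₁ ≤ θ * ρ₁ := mul_le_mul_of_nonneg_right hθ2 hρ0.le
          linarith only [this]
        have h5 : θ * ρ₁ / 128 * n = θ / 128 * n * ρ₁ := by ring
        linarith only [h3, h4, h5]
      linarith only [h2]
    obtain ⟨v, hv, S, hS, hvS, hgood, hEs, hcont⟩ := hcore hT hD hn hJ (by omega) hkk hk1 hττ
      (by linarith only [hτa, u2, hρ1]) hτ2k hν0 (by linarith only [hνa, v1]) hντ hJν hJτ GH hgY (by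
        refine hgK.trans ?_
        have h1 : a1 * k * n / ρ₁ ≤ k / 64 * n := by
          rw [div_le_iff₀ hρ0]
          have h2 : a1 * (k * n) ≤ ρ₁ / 64 * (k * n) := mul_le_mul_of_nonneg_right u2 (by positivity)
          linarith only [h2]
        have h2 : 0 ≤ k * n := by positivity
        linarith only [h1, h2]) (by
        refine hgK.trans ?_
        have h1 : a1 * k * n / ρ₁ ≤ ω / 256 * n := by
          rw [div_le_iff₀ hρ0]
          have h2 : a1 * (k * n) ≤ ω * ρ₁ / 256 * (k * n) := mul_le_mul_of_nonneg_right u3 (by positivity)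
          have h3 : ω * ρ₁ / 256 * (k * n) ≤ ω * ρ₁ / 256 * (1 * n) :=
            mul_le_mul_of_nonneg_left (mul_le_mul_of_nonneg_right hk1 hn0) (by positivity)
          linarith only [h2, h3]
        linarith only [h1, hωn0]) F s2 hF i1 i2 hθF' (by
        have h1 : (I.map (fun i => blk i + 1)).sum ≤ (I.map (fun i => i.size + 1)).sum :=
          List.sum_le_sum fun i _ => Nat.add_le_add_right (blk_le i) 1
        omega) (by
        have h1 : (blk s2 : ℝ) + m = blk s := by exact_mod_cast i3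
        have h2 : (m : ℝ) + c2 = U.card := by exact_mod_cast (by omega : m + c2 = U.card)
        linarith only [h1, h2, hlo, hωn, hc10, hM0])
    obtain ⟨L, l1, l2, l3⟩ := hlift hEs
    have hYU : ∀ a ∈ insert v S, a ∉ U := by
      intro a ha
      rcases mem_insert.1 ha with rfl | ha
      · exact (mem_sdiff.1 hv).2
      · exact (mem_sdiff.1 (hS ha)).2
    have hL2 : ∀ q ∈ L, q.2.2 ∈ I := fun q hq => by
      rw [← l3]
      exact List.mem_map_of_mem (f := fun q : V × Bool × Fd => q.2.2) hq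
    have hsum : ((L.map (fun q => ((q.1, q.2.2) : V × Fd))).map (fun q => blk q.2 + 1)).sum = m := by
      rw [← i6, ← l3, List.map_map, List.map_map]
      rfl
    obtain ⟨D, hDU, hED⟩ := hI (L.map (fun q => (q.1, q.2.2))) (by
      intro q hq
      obtain ⟨r, hr, rfl⟩ := List.mem_map.1 hq
      have h1 := hgood r.1 (l2 r hr).1
      rw [hGH] at h1
      exact ⟨hYU _ (l2 r hr).1, (i9 _ (hL2 r hr)).1, (i9 _ (hL2 r hr)).2, h1.1,
        h1.2.trans (mul_le_mul_of_nonneg_right hρρ (Nat.cast_nonneg _))⟩) (by rw [hsum]; omega) (by rw [hsum]; omega) (by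
      have h1 : t ∈ L.map (fun q => q.2.2) := by rw [l3, i7]; exact List.mem_cons_self
      obtain ⟨r, hr, hrt⟩ := List.mem_map.1 h1
      refine ⟨(r.1, r.2.2), List.mem_map.2 ⟨r, hr, rfl⟩, ?_⟩
      rw [hsum]
      simp only [hrt]
      refine i8.trans ?_
      exact Nat.mul_le_mul_right _ (by omega))
    have hDc : D.card = m := by
      rw [hED.card, ← hsum, gsz, List.map_map]
      congr 1
      refine List.map_congr_left ?_
      intro q _
      simp only [Function.comp, blk_prIn]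
    have hSD : Disjoint S D := by
      rw [disjoint_left]
      exact fun a ha h => (mem_sdiff.1 (hS ha)).2 (hDU h)
    rw [map_false (fun q hq => (l2 q hq).2)] at hED
    obtain ⟨L', g1, g2, g3⟩ := PGq.fillIn (L := []) (by rw [List.append_nil]; exact l1) hED hSD
    rw [List.append_nil] at g1
    have hLb : ∀ q ∈ L', q.2.2.len ≤ b ∧ q.2.2.Deg b := g3 b (fun q hq => i9 _ (hL2 q hq))
    have hsz2 := g1.size
    rw [card_union_of_disjoint hSD, hDc, hEs.card] at hsz2
    obtain ⟨A, hA, f, hf, B, hB, r0, r1, r2, r3, r4, r5, r6⟩ := hcont (L'.map (fun q => (q.1, q.2.2))) (by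
      intro q hq
      obtain ⟨r, hr, rfl⟩ := List.mem_map.1 hq
      exact ⟨hDU (g2 r hr).2, hLb r hr⟩) (by
      rw [isz_map]
      omega)
    have hEG := EmbG.of_embI r0
    rw [map_true (fun q hq => (g2 q hq).1)] at hEG
    have hDX : ∀ a ∈ D, a ∉ X \ U := fun a ha h => (mem_sdiff.1 h).2 (hDU ha)
    have hEfull := g1.complete hEG (by
      rw [disjoint_left]
      intro a ha h
      rcases mem_union.1 ha with ha | ha
      · exact disjoint_left.1 r4 (mem_insert_of_mem ha) h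
      · exact hDX a ha (hA h))
    refine glue_root (mem_sdiff.1 hv).1 ?_ ?_ hEfull (mem_sdiff.1 hf).1 (hB.trans sdiff_subset) r1 r2 r3 ?_
    · intro a ha
      rw [mem_union, mem_union] at ha
      rcases ha with (ha | ha) | ha
      · exact (mem_sdiff.1 (hS ha)).1
      · exact hD.subU (hDU ha)
      · exact (mem_sdiff.1 (hA ha)).1
    · rw [mem_union, mem_union, not_or, not_or]
      exact ⟨⟨hvS, fun h => hDX v h hv⟩, fun h => disjoint_left.1 r4 (mem_insert_self _ _) h⟩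
    · have hfY : ∀ a ∈ insert f B, a ∈ X \ U := by
        intro a ha
        rcases mem_insert.1 ha with rfl | ha
        · exact hf
        · exact hB ha
      rw [disjoint_left]
      intro a ha h
      rw [mem_insert, mem_union, mem_union] at ha
      rcases ha with rfl | (ha | ha) | ha
      · exact disjoint_left.1 r5 (mem_insert_self _ _) h
      · exact disjoint_left.1 r5 (mem_insert_of_mem ha) h
      · exact hDX a ha (hfY a h)
      · exact disjoint_left.1 r6 ha h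

end AESF
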