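import Pool.Agent.AESF.DefsF

/-!
# Free ends at the root: the routes to the super vertices
-/

set_option autoImplicit false

namespace AESF

open Finset AE15 AED AELT
open scoped Classical

variable {V : Type} {R : V → V → Prop}

theorem choose_inj {F : Finset V} (w : V) (b : ℕ) (h : b ≤ F.card) :
    ∃ f : ℕ → V, (∀ j < b, f j ∈ F) ∧ ∀ i < b, ∀ j < b, f i = f j → i = j := by
  induction b with
  | zero => exact ⟨fun _ => w, fun j hj => absurd hj (Nat.not_lt_zero _), fun i hi => absurd hi (Nat.not_lt_zero _)⟩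
  | succ b ih =>
    obtain ⟨f, hf, hfi⟩ := ih (by omega)
    obtain ⟨y, hy⟩ : (F \ (range b).image f).Nonempty := by
      rw [← card_pos]
      have h1 := le_card_sdiff ((range b).image f) F
      have h2 : ((range b).image f).card ≤ b := card_image_le.trans (by simp)
      omega
    rw [mem_sdiff] at hy
    have hyf : ∀ j < b, f j ≠ y := fun j hj h => hy.2 (mem_image.2 ⟨j, mem_range.2 hj, h⟩)
    refine ⟨Function.update f b y, ?_, ?_⟩
    · intro j hj
      rcases Nat.lt_succ_iff_lt_or_eq.1 hj with h1 | rfl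
      · rw [Function.update_of_ne (by omega)]
        exact hf j h1
      · rw [Function.update_self]
        exact hy.1
    · intro i hi j hj hij
      rcases Nat.lt_succ_iff_lt_or_eq.1 hi with h1 | rfl <;> rcases Nat.lt_succ_iff_lt_or_eq.1 hj with h2 | rfl
      · rw [Function.update_of_ne (by omega), Function.update_of_ne (by omega)] at hij
        exact hfi i h1 j h2 hij
      · rw [Function.update_of_ne (by omega), Function.update_self] at hij
        exact absurd hij (hyf i h1)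
      · rw [Function.update_self, Function.update_of_ne (by omega)] at hij
        exact absurd hij.symm (hyf j h2)
      · rfl

/-- if every vertex of `Q` has density `2 a` of in-neighbours in `L`, many vertices of `L` dominate many of `Q` -/
theorem many {L Q : Finset V} {a : ℝ} (ha : 0 ≤ a) (hQ : 0 < Q.card)
    (h : ∀ x ∈ Q, 2 * a * L.card ≤ ((nI R L x).card : ℝ)) :
    a * L.card ≤ ((L.filter (fun f => a * Q.card ≤ ((nO R Q f).card : ℝ))).card : ℝ) := by
  obtain ⟨F, hF⟩ : ∃ F, F = L.filter (fun f => a * Q.card ≤ ((nO R Q f).card : ℝ)) := ⟨_, rfl⟩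
  rw [← hF]
  have hQ0 : (0 : ℝ) < Q.card := by exact_mod_cast hQ
  have h1 : (∑ f ∈ L, ((nO R Q f).card : ℝ)) = ∑ x ∈ Q, ((nI R L x).card : ℝ) := by
    exact_mod_cast sum_nO_eq_sum_nI (R := R) L Q
  have h2 : 2 * a * L.card * Q.card ≤ ∑ x ∈ Q, ((nI R L x).card : ℝ) := by
    calc 2 * a * (L.card : ℝ) * Q.card = ∑ _x ∈ Q, 2 * a * (L.card : ℝ) := by
          rw [sum_const, nsmul_eq_mul]; ring
      _ ≤ _ := sum_le_sum h
  have h3 : (∑ f ∈ L, ((nO R Q f).card : ℝ)) ≤ F.card * Q.card + L.card * (a * Q.card) := by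
    rw [← sum_filter_add_sum_filter_not L (fun f => a * Q.card ≤ ((nO R Q f).card : ℝ)), ← hF]
    have e1 : ∑ f ∈ F, ((nO R Q f).card : ℝ) ≤ F.card * Q.card := by
      calc ∑ f ∈ F, ((nO R Q f).card : ℝ) ≤ ∑ _f ∈ F, (Q.card : ℝ) :=
            sum_le_sum fun f _ => by exact_mod_cast card_le_card nO_sub
        _ = _ := by rw [sum_const, nsmul_eq_mul]
    have e2 : ∑ f ∈ L.filter (fun f => ¬ a * Q.card ≤ ((nO R Q f).card : ℝ)), ((nO R Q f).card : ℝ) ≤
        L.card * (a * Q.card) := by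
      calc ∑ f ∈ L.filter (fun f => ¬ a * Q.card ≤ ((nO R Q f).card : ℝ)), ((nO R Q f).card : ℝ) ≤
            ∑ _f ∈ L.filter (fun f => ¬ a * Q.card ≤ ((nO R Q f).card : ℝ)), a * (Q.card : ℝ) :=
            sum_le_sum fun f hf => by
              rw [mem_filter] at hf
              exact (not_le.1 hf.2).le
        _ = ((L.filter (fun f => ¬ a * Q.card ≤ ((nO R Q f).card : ℝ))).card : ℝ) * (a * Q.card) := by
            rw [sum_const, nsmul_eq_mul]
        _ ≤ _ := by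
            apply mul_le_mul_of_nonneg_right _ (by positivity)
            exact_mod_cast card_filter_le _ _
    linarith
  have h4 : a * L.card * Q.card ≤ F.card * (Q.card : ℝ) := by nlinarith
  exact le_of_mul_le_mul_right h4 hQ0

/-- pigeonhole for the parts -/
theorem pigeon {𝓛 : Finset (Finset V)} {Q : Finset V} {J N : ℕ} {P : Finset V → V → Prop} (hJ : 𝓛.card ≤ J)
    (h : ∀ x ∈ Q, ∃ L ∈ 𝓛, P L x) (hQ : J * N < Q.card) : ∃ L ∈ 𝓛, N < (Q.filter (fun x => P L x)).card := by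
  by_contra hc
  push Not at hc
  have h1 : Q ⊆ 𝓛.biUnion (fun L => Q.filter (fun x => P L x)) := by
    intro x hx
    obtain ⟨L, hL, hP⟩ := h x hx
    exact mem_biUnion.2 ⟨L, hL, mem_filter.2 ⟨hx, hP⟩⟩
  have h2 := (card_le_card h1).trans card_biUnion_le
  have h3 : ∑ L ∈ 𝓛, (Q.filter (fun x => P L x)).card ≤ ∑ _L ∈ 𝓛, N := sum_le_sum hc
  rw [sum_const, smul_eq_mul] at h3
  have h4 : 𝓛.card * N ≤ J * N := Nat.mul_le_mul_right _ hJ
  omega

/-- the middle vertices of the broadcast in a part `L` below `w` -/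
theorem pick_f (hT : AE32.Tour R) (b : ℕ) {L Q E : Finset V} {w : V} {τ : ℝ} (hτ : 0 < τ) (hwE : w ∈ E)
    (hx : ∀ x ∈ Q, τ * L.card ≤ ((nI R L x).card : ℝ)) (hw : ((nI R L w).card : ℝ) ≤ τ / 2 * L.card)
    (hE : ((L ∩ E).card : ℝ) ≤ τ / 4 * L.card) (hQ0 : 0 < Q.card) (hQ : ((b * b : ℕ) : ℝ) ≤ τ / 8 * Q.card)
    (hL : (b : ℝ) ≤ τ ^ 2 / 32 * L.card) :
    ∃ f : ℕ → V, (∀ j < b, f j ∈ L ∧ f j ∉ E ∧ R w (f j) ∧ b * b ≤ (Q.filter (fun x => R (f j) x)).card) ∧
      ∀ i < b, ∀ j < b, f i = f j → i = j := by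
  obtain ⟨L', hL'⟩ : ∃ L', L' = (L \ E) \ nI R L w := ⟨_, rfl⟩
  have hx' : ∀ x ∈ Q, τ / 4 * L.card ≤ ((nI R L' x).card : ℝ) := by
    intro x hxQ
    have h1 : nI R L x ⊆ nI R L' x ∪ ((L ∩ E) ∪ nI R L w) := by
      intro u hu
      rw [mem_nI] at hu
      rw [mem_union, mem_union, mem_inter, mem_nI, hL', mem_sdiff, mem_sdiff]
      tauto
    have h2 : ((nI R L x).card : ℝ) ≤ (nI R L' x).card + ((L ∩ E).card + (nI R L w).card) := by
      exact_mod_cast (card_le_card h1).trans ((card_union_le _ _).trans (Nat.add_le_add_left (card_union_le _ _) _))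
    have := hx x hxQ
    linarith
  have hL'L : (L'.card : ℝ) ≤ L.card := by
    rw [hL']
    exact_mod_cast card_le_card (sdiff_subset.trans sdiff_subset)
  have h1 := many (R := R) (L := L') (Q := Q) (a := τ / 8) (by positivity) hQ0 (fun x hxQ => by
    refine le_trans ?_ (hx' x hxQ)
    have : τ / 4 * (L'.card : ℝ) ≤ τ / 4 * L.card := mul_le_mul_of_nonneg_left hL'L (by positivity)
    linarith)
  obtain ⟨x₀, hx₀⟩ := card_pos.1 hQ0
  have h2 : τ / 4 * (L.card : ℝ) ≤ L'.card :=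
    (hx' x₀ hx₀).trans (by exact_mod_cast card_le_card nI_sub)
  have h3 : (b : ℝ) ≤ ((L'.filter (fun f => τ / 8 * Q.card ≤ ((nO R Q f).card : ℝ))).card : ℝ) := by
    refine le_trans ?_ h1
    have : τ / 8 * (τ / 4 * (L.card : ℝ)) ≤ τ / 8 * L'.card := mul_le_mul_of_nonneg_left h2 (by positivity)
    nlinarith
  obtain ⟨f, hf, hfi⟩ := choose_inj (F := L'.filter (fun f => τ / 8 * Q.card ≤ ((nO R Q f).card : ℝ))) w b
    (by exact_mod_cast h3)
  refine ⟨f, fun j hj => ?_, hfi⟩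
  have h4 := hf j hj
  rw [mem_filter, hL', mem_sdiff, mem_sdiff, mem_nI] at h4
  obtain ⟨⟨⟨h5, h6⟩, h7⟩, h8⟩ := h4
  have hne : f j ≠ w := fun h => h6 (h ▸ hwE)
  refine ⟨h5, h6, ?_, ?_⟩
  · rcases hT.tot (f j) w hne with h9 | h9
    · exact absurd ⟨h5, h9⟩ h7
    · exact h9
  · have : ((b * b : ℕ) : ℝ) ≤ ((nO R Q (f j)).card : ℝ) := hQ.trans h8
    exact_mod_cast this

/-- **Routes in the case of a cut** -/
theorem route_cut (b J : ℕ) {s ω τ₀ lam : ℝ} (hs : 0 < s) (hω : 0 < ω) (hτ₀ : 0 < τ₀) (hlam : 0 < lam) :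
    ∃ N₁ : ℕ, ∀ e : ℕ, ∃ n₀ : ℕ, ∀ {V : Type} {R : V → V → Prop}, AE32.Tour R → ∀ {X U : Finset V}
      {𝓛 : Finset (Finset V)} {p : ℕ} {ζ τ ν : ℝ}, CutD R X U 𝓛 p ω ζ lam τ ν → 𝓛.card ≤ J → τ₀ ≤ τ →
      16 * ν ≤ s * ω → 8 * ν ≤ τ * lam → n₀ ≤ X.card → ∀ {P Fb Q : Finset V} {y : V}, P ⊆ U →
      ω / 8 * X.card ≤ (P.card : ℝ) → s * P.card ≤ ((nO R P y).card : ℝ) → Fb.card ≤ e → Q ⊆ X \ U → N₁ ≤ Q.card →
      (∃ x ∈ Q, ∃ v ∈ P, v ∉ Fb ∧ R y v ∧ R v x) ∨
      ∃ w ∈ P, w ∉ Fb ∧ R y w ∧ ∃ f : ℕ → V, (∀ j < b, f j ∈ X ∧ f j ∉ U ∧ f j ∉ Fb ∧ f j ≠ w ∧ R w (f j) ∧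
        b * b ≤ (Q.filter (fun x => R (f j) x)).card) ∧ ∀ i < b, ∀ j < b, f i = f j → i = j := by
  obtain ⟨N', hN'⟩ := exists_nat_ge (8 * ((b * b : ℕ) : ℝ) / τ₀)
  refine ⟨J * N' + 1, fun e => ?_⟩
  obtain ⟨n₀, hn₀⟩ := exists_nat_ge (32 * ((e : ℝ) + 1) / (s * ω) + 8 * ((e : ℝ) + 1) / (τ₀ * lam) +
    32 * b / (τ₀ ^ 2 * lam))
  refine ⟨n₀, ?_⟩
  intro V R hT X U 𝓛 p ζ τ ν hC hJ hτ hν1 hν2 hn P Fb Q y hPU hP hy hFb hQ hN
  have hτ0 : 0 < τ := lt_of_lt_of_le hτ₀ hτ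
  have hX : (n₀ : ℝ) ≤ X.card := by exact_mod_cast hn
  have hX0 : (0 : ℝ) ≤ X.card := Nat.cast_nonneg _
  have t1 : 0 ≤ 32 * ((e : ℝ) + 1) / (s * ω) := by positivity
  have t2 : 0 ≤ 8 * ((e : ℝ) + 1) / (τ₀ * lam) := by positivity
  have t3 : 0 ≤ 32 * (b : ℝ) / (τ₀ ^ 2 * lam) := by positivity
  have n1 : 32 * ((e : ℝ) + 1) ≤ s * ω * X.card := by
    have : 32 * ((e : ℝ) + 1) / (s * ω) ≤ X.card := by linarith
    rw [div_le_iff₀ (by positivity)] at this
    linarith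
  have n2 : 8 * ((e : ℝ) + 1) ≤ τ₀ * lam * X.card := by
    have : 8 * ((e : ℝ) + 1) / (τ₀ * lam) ≤ X.card := by linarith
    rw [div_le_iff₀ (by positivity)] at this
    linarith
  have n3 : 32 * (b : ℝ) ≤ τ₀ ^ 2 * lam * X.card := by
    have : 32 * (b : ℝ) / (τ₀ ^ 2 * lam) ≤ X.card := by linarith
    rw [div_le_iff₀ (by positivity)] at this
    linarith
  have hFb' : (Fb.card : ℝ) ≤ e := by exact_mod_cast hFb
  -- the out-neighbours of `y` in `P`
  have hout : s * ω / 8 * X.card ≤ ((nO R P y).card : ℝ) := by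
    have : s * (ω / 8 * X.card) ≤ s * P.card := mul_le_mul_of_nonneg_left hP hs.le
    linarith
  have hνX : 16 * ν * X.card ≤ s * ω * X.card := mul_le_mul_of_nonneg_right hν1 hX0
  by_cases hA : ∃ x ∈ Q, ((nO R U x).card : ℝ) ≤ ν * X.card
  · left
    obtain ⟨x, hxQ, hx⟩ := hA
    have hxU : x ∉ U := (mem_sdiff.1 (hQ hxQ)).2
    by_contra hc
    push Not at hc
    have h1 : nO R P y ⊆ Fb ∪ nO R U x := by
      intro v hv
      rw [mem_nO] at hv
      by_cases hvF : v ∈ Fb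
      · exact mem_union_left _ hvF
      · have h2 := hc x hxQ v hv.1 hvF hv.2
        have hvU := hPU hv.1
        have hne : v ≠ x := fun h => hxU (h ▸ hvU)
        rcases hT.tot v x hne with h3 | h3
        · exact absurd h3 h2
        · exact mem_union_right _ (mem_nO.2 ⟨hvU, h3⟩)
    have h2 : ((nO R P y).card : ℝ) ≤ Fb.card + (nO R U x).card := by
      exact_mod_cast (card_le_card h1).trans (card_union_le _ _)
    have : 0 < s * ω * X.card := by linarith [Nat.cast_nonneg (α := ℝ) e]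
    linarith
  · right
    push Not at hA
    have hL : ∀ x ∈ Q, ∃ L ∈ 𝓛, τ * L.card ≤ ((nI R L x).card : ℝ) := by
      intro x hxQ
      rcases hC.out x (hQ hxQ) with h1 | h1
      · exact absurd h1 (not_le.2 (hA x hxQ))
      · exact h1
    obtain ⟨L, hL𝓛, hLN⟩ := pigeon (N := N') hJ hL (by omega)
    obtain ⟨Q', hQ'⟩ : ∃ Q', Q' = Q.filter (fun x => τ * L.card ≤ ((nI R L x).card : ℝ)) := ⟨_, rfl⟩
    rw [← hQ'] at hLN
    have hbig : lam * X.card ≤ (L.card : ℝ) := hC.big L hL𝓛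
    have hτL : τ * lam * X.card ≤ τ * L.card := by
      have := mul_le_mul_of_nonneg_left hbig hτ0.le
      linarith
    have hτ₀τ : τ₀ * lam * X.card ≤ τ * lam * X.card :=
      mul_le_mul_of_nonneg_right (mul_le_mul_of_nonneg_right hτ hlam.le) hX0
    have hν2X : 8 * ν * X.card ≤ τ * lam * X.card := mul_le_mul_of_nonneg_right hν2 hX0
    -- the vertex `w`
    obtain ⟨w, hw⟩ : ((nO R P y) \ (Fb ∪ U.filter (fun w => ∃ L ∈ 𝓛, τ / 2 * L.card < ((nI R L w).card : ℝ)))).Nonempty := by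
      rw [← card_pos]
      have h1 := le_card_sdiff (Fb ∪ U.filter (fun w => ∃ L ∈ 𝓛, τ / 2 * L.card < ((nI R L w).card : ℝ))) (nO R P y)
      have h2 := card_union_le Fb (U.filter (fun w => ∃ L ∈ 𝓛, τ / 2 * L.card < ((nI R L w).card : ℝ)))
      have h3 := hC.gen
      have h4 : ((Fb ∪ U.filter (fun w => ∃ L ∈ 𝓛, τ / 2 * L.card < ((nI R L w).card : ℝ))).card : ℝ) ≤
          e + ν * X.card := by
        have h5 : ((Fb ∪ U.filter (fun w => ∃ L ∈ 𝓛, τ / 2 * L.card < ((nI R L w).card : ℝ))).card : ℝ) ≤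
          Fb.card + ((U.filter (fun w => ∃ L ∈ 𝓛, τ / 2 * L.card < ((nI R L w).card : ℝ))).card : ℝ) := by
          exact_mod_cast h2
        linarith
      have h6 : ((Fb ∪ U.filter (fun w => ∃ L ∈ 𝓛, τ / 2 * L.card < ((nI R L w).card : ℝ))).card : ℝ) <
          ((nO R P y).card : ℝ) := by
        have : 0 < s * ω * X.card := by linarith [Nat.cast_nonneg (α := ℝ) e]
        linarith
      have h7 : (Fb ∪ U.filter (fun w => ∃ L ∈ 𝓛, τ / 2 * L.card < ((nI R L w).card : ℝ))).card < (nO R P y).card := by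
        exact_mod_cast h6
      omega
    rw [mem_sdiff, mem_union, not_or, mem_nO, mem_filter, not_and] at hw
    obtain ⟨⟨hwP, hyw⟩, hwF, hwg⟩ := hw
    have hwU := hPU hwP
    have hwL : ((nI R L w).card : ℝ) ≤ τ / 2 * L.card := by
      have h1 := hwg hwU
      push Not at h1
      exact h1 L hL𝓛
    obtain ⟨f, hf, hfi⟩ := pick_f hT b (L := L) (Q := Q') (E := insert w (U ∪ Fb)) (w := w) hτ0 (mem_insert_self _ _)
      (fun x hx => by rw [hQ', mem_filter] at hx; exact hx.2) hwL (by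
        have h1 : L ∩ insert w (U ∪ Fb) ⊆ insert w ((L ∩ U) ∪ Fb) := by
          intro u hu
          rw [mem_inter, mem_insert, mem_union] at hu
          rw [mem_insert, mem_union, mem_inter]
          tauto
        have h2 : ((L ∩ insert w (U ∪ Fb)).card : ℝ) ≤ (L ∩ U).card + Fb.card + 1 := by
          exact_mod_cast (card_le_card h1).trans ((card_insert_le _ _).trans (Nat.add_le_add_right (card_union_le _ _) _))
        have h3 := hC.dis L hL𝓛
        linarith) (by omega) (by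
        have h1 : (N' : ℝ) ≤ Q'.card := by exact_mod_cast hLN.le
        have h2 : 8 * ((b * b : ℕ) : ℝ) ≤ τ₀ * N' := by
          rw [div_le_iff₀ hτ₀] at hN'
          linarith
        have h3 : τ₀ * (N' : ℝ) ≤ τ * Q'.card := mul_le_mul hτ h1 (Nat.cast_nonneg _) hτ0.le
        linarith) (by
        have h1 : τ₀ ^ 2 ≤ τ ^ 2 := by gcongr
        have h2 : τ₀ ^ 2 * (lam * X.card) ≤ τ ^ 2 * L.card := mul_le_mul h1 hbig (by positivity) (by positivity)
        linarith)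
    refine ⟨w, hwP, hwF, hyw, f, fun j hj => ?_, hfi⟩
    obtain ⟨h1, h2, h3, h4⟩ := hf j hj
    rw [mem_insert, mem_union, not_or, not_or] at h2
    refine ⟨hC.subL L hL𝓛 h1, h2.2.1, h2.2.2, h2.1, h3, h4.trans (card_le_card ?_)⟩
    rw [hQ']
    exact filter_subset_filter _ (filter_subset _ _)

/-- in-degrees in a clean core -/
theorem ex_in {a : ℝ} {K : Finset V} (h : Ex R a K) (hK : 2 ≤ K.card) {v : V} (hv : v ∈ K) :
    a ≤ ((nI R K v).card : ℝ) := by
  have h1 := h (K \ {v}) sdiff_subset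
  have h2 : K \ (K \ {v}) = {v} := by
    exact Finset.sdiff_sdiff_eq_self (singleton_subset_iff.2 hv)
  have h3 : (K \ {v}).card = K.card - 1 := by
    rw [card_sdiff_of_subset (singleton_subset_iff.2 hv), card_singleton]
  rw [h2, h3, card_singleton] at h1
  have h4 : min (K.card - 1) 1 = 1 := by omega
  rw [h4] at h1
  have h5 : ar R (K \ {v}) {v} ≤ (nI R K v).card := by
    unfold ar
    rw [sum_nO_eq_sum_nI, sum_singleton]
    exact card_le_card (nI_mono sdiff_subset)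
  have h6 : (ar R (K \ {v}) {v} : ℝ) ≤ (nI R K v).card := by exact_mod_cast h5
  push_cast at h1
  linarith

/-- the parts of a thick place meet `U` in few vertices -/
theorem ThickD.dis (hT : AE32.Tour R) {X U K : Finset V} {𝓛 : Finset (Finset V)} {p : ℕ} {ω ζ k lam τ ν : ℝ}
    (hD : ThickD R X U K 𝓛 p ω ζ k lam τ ν) (hτ : τ ≤ 1 / 2) (hν : 16 * ν ≤ ω) (hn : 16 < ω * X.card)
    {L : Finset V} (hL : L ∈ 𝓛) : ((L ∩ U).card : ℝ) ≤ ν * X.card := by
  refine le_trans (Nat.cast_le.2 (card_le_card ?_)) (hD.genL L hL)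
  intro f hf
  rw [mem_inter] at hf
  rw [mem_filter]
  refine ⟨hf.1, ?_⟩
  by_contra hc
  push Not at hc
  have h1 := hD.fewK f hf.2
  have h2 := hD.exK
  have h3 : (K.card : ℝ) ≤ (nO R K f).card + (nI R K f).card + 1 := by
    by_cases hfK : f ∈ K
    · exact_mod_cast (card_nO_add_nI' hT hfK).symm.le
    · have := card_nO_add_nI hT hfK
      have : K.card ≤ (nO R K f).card + (nI R K f).card + 1 := by omega
      exact_mod_cast this
  have h4 : τ * (K.card : ℝ) ≤ 1 / 2 * K.card := mul_le_mul_of_nonneg_right hτ (Nat.cast_nonneg _)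
  have h5 : 16 * ν * X.card ≤ ω * X.card := mul_le_mul_of_nonneg_right hν (Nat.cast_nonneg _)
  linarith

/-- `U` and the thick part are disjoint -/
theorem ThickD.disK {X U K : Finset V} {𝓛 : Finset (Finset V)} {p : ℕ} {ω ζ k lam τ ν : ℝ}
    (hD : ThickD R X U K 𝓛 p ω ζ k lam τ ν) (hτ0 : 0 < τ) (hτ : 2 * τ ≤ k) (hn : 2 ≤ K.card) {u : V}
    (hu : u ∈ U) : u ∉ K := by
  intro hK
  have hX : 0 < X.card := by
    have := card_le_card hD.subK
    omega
  have hX0 : (0 : ℝ) < X.card := by exact_mod_cast hX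
  have h1 := ex_in hD.ex hn hK
  have h2 := hD.fewK u hu
  have h3 : (K.card : ℝ) ≤ X.card := by exact_mod_cast card_le_card hD.subK
  have h4 : τ * (K.card : ℝ) ≤ τ * X.card := mul_le_mul_of_nonneg_left h3 hτ0.le
  have h5 : 2 * τ * X.card ≤ k * X.card := mul_le_mul_of_nonneg_right hτ hX0.le
  have h6 : 0 < τ * X.card := by positivity
  linarith

/-- **Routes in the case of a thick place** -/
theorem route_thick (b J : ℕ) {ω τ₀ lam : ℝ} (hω : 0 < ω) (hτ₀ : 0 < τ₀) (hlam : 0 < lam) :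
    ∃ N₁ : ℕ, ∀ e : ℕ, ∃ n₀ : ℕ, ∀ {V : Type} {R : V → V → Prop}, AE32.Tour R → ∀ {X U K : Finset V}
      {𝓛 : Finset (Finset V)} {p : ℕ} {ζ k τ ν : ℝ}, ThickD R X U K 𝓛 p ω ζ k lam τ ν → 𝓛.card ≤ J → τ₀ ≤ τ →
      τ ≤ 1 / 8 → 2 * τ ≤ k → 16 * ν ≤ ω → 8 * ν ≤ τ * lam → n₀ ≤ X.card → ∀ {Fb Q : Finset V} {y : V}, y ∈ U →
      Fb.card ≤ e → Q ⊆ X \ U → N₁ ≤ Q.card →
      ∃ w ∈ K, w ∉ U ∧ w ∉ Fb ∧ R y w ∧ ∃ f : ℕ → V, (∀ j < b, f j ∈ X ∧ f j ∉ U ∧ f j ∉ Fb ∧ f j ≠ w ∧ R w (f j) ∧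
        b * b ≤ (Q.filter (fun x => R (f j) x)).card) ∧ ∀ i < b, ∀ j < b, f i = f j → i = j := by
  obtain ⟨N', hN'⟩ := exists_nat_ge (8 * ((b * b : ℕ) : ℝ) / τ₀)
  refine ⟨(J + 1) * N' + 1, fun e => ?_⟩
  obtain ⟨n₀, hn₀⟩ := exists_nat_ge (32 * ((e : ℝ) + 1) / ω + 8 * ((e : ℝ) + 1) / (τ₀ * lam) +
    32 * b / (τ₀ ^ 2 * lam) + 64 * ((e : ℝ) + 1) / (τ₀ * ω) + 64 * b / (τ₀ ^ 2 * ω))
  refine ⟨n₀, ?_⟩
  intro V R hT X U K 𝓛 p ζ k τ ν hD hJ hτ hτ1 hτk hν1 hν2 hn Fb Q y hy hFb hQ hN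
  have hτ0 : 0 < τ := lt_of_lt_of_le hτ₀ hτ
  have hX : (n₀ : ℝ) ≤ X.card := by exact_mod_cast hn
  have hX0 : (0 : ℝ) ≤ X.card := Nat.cast_nonneg _
  have he0 : (0 : ℝ) ≤ e := Nat.cast_nonneg _
  have t1 : 0 ≤ 32 * ((e : ℝ) + 1) / ω := by positivity
  have t2 : 0 ≤ 8 * ((e : ℝ) + 1) / (τ₀ * lam) := by positivity
  have t3 : 0 ≤ 32 * (b : ℝ) / (τ₀ ^ 2 * lam) := by positivity
  have t4 : 0 ≤ 64 * ((e : ℝ) + 1) / (τ₀ * ω) := by positivity
  have t5 : 0 ≤ 64 * (b : ℝ) / (τ₀ ^ 2 * ω) := by positivity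
  have n1 : 32 * ((e : ℝ) + 1) ≤ ω * X.card := by
    have : 32 * ((e : ℝ) + 1) / ω ≤ X.card := by linarith
    rw [div_le_iff₀ (by positivity)] at this
    linarith
  have n2 : 8 * ((e : ℝ) + 1) ≤ τ₀ * lam * X.card := by
    have : 8 * ((e : ℝ) + 1) / (τ₀ * lam) ≤ X.card := by linarith
    rw [div_le_iff₀ (by positivity)] at this
    linarith
  have n3 : 32 * (b : ℝ) ≤ τ₀ ^ 2 * lam * X.card := by
    have : 32 * (b : ℝ) / (τ₀ ^ 2 * lam) ≤ X.card := by linarith
    rw [div_le_iff₀ (by positivity)] at this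
    linarith
  have n4 : 64 * ((e : ℝ) + 1) ≤ τ₀ * ω * X.card := by
    have : 64 * ((e : ℝ) + 1) / (τ₀ * ω) ≤ X.card := by linarith
    rw [div_le_iff₀ (by positivity)] at this
    linarith
  have n5 : 64 * (b : ℝ) ≤ τ₀ ^ 2 * ω * X.card := by
    have : 64 * (b : ℝ) / (τ₀ ^ 2 * ω) ≤ X.card := by linarith
    rw [div_le_iff₀ (by positivity)] at this
    linarith
  have hFb' : (Fb.card : ℝ) ≤ e := by exact_mod_cast hFb
  have hKX : (K.card : ℝ) ≤ X.card := by exact_mod_cast card_le_card hD.subK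
  have hK1 : ω / 4 * X.card ≤ (K.card : ℝ) := hD.exK
  have hK8 : 8 * ((e : ℝ) + 1) ≤ K.card := by linarith
  have hK2 : 2 ≤ K.card := by
    have : (2 : ℝ) ≤ K.card := by linarith
    exact_mod_cast this
  have hXpos : (0 : ℝ) < X.card := by linarith
  have hdisK : ∀ u ∈ U, u ∉ K := fun u hu => hD.disK hτ0 hτk hK2 hu
  have hyK : y ∉ K := hdisK y hy
  -- the out-neighbours of `y` in `K`
  have hyin := hD.fewK y hy
  have hyc : ((nO R K y).card : ℝ) + (nI R K y).card = K.card := by exact_mod_cast card_nO_add_nI hT hyK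
  have hτK : τ * (K.card : ℝ) ≤ 1 / 8 * K.card := mul_le_mul_of_nonneg_right hτ1 (Nat.cast_nonneg _)
  have hνω : 16 * ν * X.card ≤ ω * X.card := mul_le_mul_of_nonneg_right hν1 hX0
  -- the two kinds
  have hL : ∀ x ∈ Q, ∃ L ∈ insert K 𝓛, τ * L.card ≤ ((nI R L x).card : ℝ) := by
    intro x hxQ
    rcases hD.out x (hQ hxQ) with h1 | ⟨L, h1, h2⟩
    · exact ⟨K, mem_insert_self _ _, h1⟩
    · exact ⟨L, mem_insert_of_mem h1, h2⟩
  obtain ⟨L, hL𝓛, hLN⟩ := pigeon (J := J + 1) (N := N') ((card_insert_le _ _).trans (Nat.add_le_add_right hJ 1)) hL (by omega)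
  obtain ⟨Q', hQ'⟩ : ∃ Q', Q' = Q.filter (fun x => τ * L.card ≤ ((nI R L x).card : ℝ)) := ⟨_, rfl⟩
  rw [← hQ'] at hLN
  have hQx : ∀ x ∈ Q', τ * L.card ≤ ((nI R L x).card : ℝ) := fun x hx => by
    rw [hQ', mem_filter] at hx
    exact hx.2
  have hbb : ((b * b : ℕ) : ℝ) ≤ τ / 8 * Q'.card := by
    have h1 : (N' : ℝ) ≤ Q'.card := by exact_mod_cast hLN.le
    have h2 : 8 * ((b * b : ℕ) : ℝ) ≤ τ₀ * N' := by
      rw [div_le_iff₀ hτ₀] at hN'
      linarith
    have h3 : τ₀ * (N' : ℝ) ≤ τ * Q'.card := mul_le_mul hτ h1 (Nat.cast_nonneg _) hτ0.le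
    linarith
  have hsub : ∀ f : V, (Q'.filter (fun x => R f x)).card ≤ (Q.filter (fun x => R f x)).card := fun f => by
    rw [hQ']
    exact card_le_card (filter_subset_filter _ (filter_subset _ _))
  rcases mem_insert.1 hL𝓛 with hLK | hL𝓛
  · -- inside the thick part
    rw [hLK] at hQx
    obtain ⟨K₀, hK₀⟩ : ∃ K₀, K₀ = K \ Fb := ⟨_, rfl⟩
    have hK₀c : (K.card : ℝ) ≤ K₀.card + e := by
      have h1 := le_card_sdiff Fb K
      have h2 : K.card ≤ (K \ Fb).card + Fb.card := by omega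
      rw [hK₀]
      have h3 : (K.card : ℝ) ≤ ((K \ Fb).card : ℝ) + Fb.card := by exact_mod_cast h2
      linarith
    have hK₀K : K₀ ⊆ K := by rw [hK₀]; exact sdiff_subset
    have hK₀K' : (K₀.card : ℝ) ≤ K.card := by exact_mod_cast card_le_card hK₀K
    have hin : ∀ u : V, ((nI R K u).card : ℝ) ≤ (nI R K₀ u).card + e := by
      intro u
      have h1 : nI R K u ⊆ nI R K₀ u ∪ Fb := by
        intro v hv
        rw [mem_nI] at hv
        rw [mem_union, mem_nI, hK₀, mem_sdiff]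
        tauto
      have h2 : ((nI R K u).card : ℝ) ≤ (nI R K₀ u).card + Fb.card := by
        exact_mod_cast (card_le_card h1).trans (card_union_le _ _)
      linarith
    have hτKe : 2 * (e : ℝ) ≤ τ * K.card := by
      have h1 : τ₀ * (ω / 4 * X.card) ≤ τ * K.card := mul_le_mul hτ hK1 (by positivity) hτ0.le
      linarith
    have h1 := many (R := R) (L := K₀) (Q := Q') (a := τ / 4) (by positivity) (by omega) (fun x hx => by
      have h2 := hQx x hx
      have h3 := hin x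
      have h4 : τ * (K₀.card : ℝ) ≤ τ * K.card := mul_le_mul_of_nonneg_left hK₀K' hτ0.le
      linarith)
    obtain ⟨F₁, hF₁⟩ : ∃ F₁, F₁ = K₀.filter (fun f => τ / 4 * Q'.card ≤ ((nO R Q' f).card : ℝ)) := ⟨_, rfl⟩
    rw [← hF₁] at h1
    obtain ⟨K₁, hK₁⟩ : ∃ K₁, K₁ = nO R K₀ y := ⟨_, rfl⟩
    have hK₁in : ∀ f ∈ F₁, k / 4 * X.card ≤ ((nI R K₁ f).card : ℝ) := by
      intro f hf
      rw [hF₁, mem_filter] at hf
      have h2 := ex_in hD.ex hK2 (hK₀K hf.1)
      have h3 : nI R K f ⊆ nI R K₁ f ∪ (nI R K y ∪ Fb) := by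
        intro v hv
        rw [mem_nI] at hv
        rw [mem_union, mem_union, mem_nI, mem_nI, hK₁, mem_nO, hK₀, mem_sdiff]
        have hne : v ≠ y := fun h => hyK (h ▸ hv.1)
        rcases hT.tot v y hne with h4 | h4 <;> tauto
      have h4 : ((nI R K f).card : ℝ) ≤ (nI R K₁ f).card + ((nI R K y).card + Fb.card) := by
        exact_mod_cast (card_le_card h3).trans ((card_union_le _ _).trans (Nat.add_le_add_left (card_union_le _ _) _))
      have h5 : τ * (K.card : ℝ) ≤ τ * X.card := mul_le_mul_of_nonneg_left hKX hτ0.le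
      have h6 : 2 * τ * X.card ≤ k * X.card := mul_le_mul_of_nonneg_right hτk hX0
      have h7 : (e : ℝ) ≤ k / 4 * X.card := by
        have h8 : τ₀ * (ω * X.card) ≤ τ * (4 * X.card) := by
          refine mul_le_mul hτ ?_ (by positivity) hτ0.le
          linarith
        linarith
      linarith
    have hbF : (b : ℝ) ≤ k / 4 * F₁.card := by
      have h2 : (K₀.card : ℝ) ≥ K.card / 2 := by linarith
      have h3 : τ / 4 * (K.card / 2) ≤ F₁.card := by
        have := mul_le_mul_of_nonneg_left h2 (show 0 ≤ τ / 4 by positivity)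
        linarith
      have h4 : τ / 4 * (ω / 4 * X.card / 2) ≤ F₁.card := by
        have := mul_le_mul_of_nonneg_left hK1 (show 0 ≤ τ / 8 by positivity)
        linarith
      have h5 : τ / 2 * (τ / 4 * (ω / 4 * X.card / 2)) ≤ k / 4 * F₁.card :=
        mul_le_mul (by linarith) h4 (by positivity) (by linarith)
      have h6 : τ₀ ^ 2 ≤ τ ^ 2 := by gcongr
      have h7 : τ₀ ^ 2 * (ω * X.card) ≤ τ ^ 2 * (ω * X.card) := mul_le_mul_of_nonneg_right h6 (by positivity)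
      nlinarith
    have hF₁pos : 0 < F₁.card := by
      rcases Nat.eq_zero_or_pos F₁.card with h | h
      · exfalso
        rw [h] at h1
        have : 0 < τ / 4 * (K₀.card : ℝ) := by
          have : (0 : ℝ) < K₀.card := by linarith
          positivity
        simp only [Nat.cast_zero] at h1
        linarith
      · exact h
    -- the vertex `w`
    obtain ⟨w, hw, hwF⟩ : ∃ w ∈ K₁, k / 4 * F₁.card ≤ ((nO R F₁ w).card : ℝ) := by
      by_contra hc
      push Not at hc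
      have h2 : (∑ w ∈ K₁, ((nO R F₁ w).card : ℝ)) = ∑ f ∈ F₁, ((nI R K₁ f).card : ℝ) := by
        exact_mod_cast sum_nO_eq_sum_nI (R := R) K₁ F₁
      have h3 : F₁.card * (k / 4 * X.card) ≤ ∑ f ∈ F₁, ((nI R K₁ f).card : ℝ) := by
        calc (F₁.card : ℝ) * (k / 4 * X.card) = ∑ _f ∈ F₁, k / 4 * (X.card : ℝ) := by rw [sum_const, nsmul_eq_mul]
          _ ≤ _ := sum_le_sum hK₁in
      have hK₁ne : K₁.Nonempty := by
        rw [← card_pos]
        obtain ⟨f, hf⟩ := card_pos.1 hF₁pos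
        have h4 := hK₁in f hf
        have h5 : ((nI R K₁ f).card : ℝ) ≤ K₁.card := by exact_mod_cast card_le_card nI_sub
        have h6 : 0 < k / 4 * X.card := by
          have : 0 < k := by linarith
          positivity
        have : (0 : ℝ) < K₁.card := by linarith
        exact_mod_cast this
      have h4 : (∑ w ∈ K₁, ((nO R F₁ w).card : ℝ)) < K₁.card * (k / 4 * F₁.card) := by
        calc (∑ w ∈ K₁, ((nO R F₁ w).card : ℝ)) < ∑ _w ∈ K₁, k / 4 * (F₁.card : ℝ) :=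
              sum_lt_sum_of_nonempty hK₁ne hc
          _ = _ := by rw [sum_const, nsmul_eq_mul]
      have h5 : (K₁.card : ℝ) ≤ X.card := by
        refine le_trans ?_ hKX
        rw [hK₁]
        exact_mod_cast card_le_card (nO_sub.trans hK₀K)
      have h6 : (K₁.card : ℝ) * (k / 4 * F₁.card) ≤ X.card * (k / 4 * F₁.card) := by
        apply mul_le_mul_of_nonneg_right h5
        have : 0 < k := by linarith
        positivity
      nlinarith
    rw [hK₁, mem_nO, hK₀, mem_sdiff] at hw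
    obtain ⟨f, hf, hfi⟩ := choose_inj (F := nO R F₁ w) w b (by
      have : (b : ℝ) ≤ ((nO R F₁ w).card : ℝ) := hbF.trans hwF
      exact_mod_cast this)
    refine ⟨w, hw.1.1, fun h => hdisK w h hw.1.1, hw.1.2, hw.2, f, fun j hj => ?_, hfi⟩
    have h2 := hf j hj
    rw [mem_nO, hF₁, mem_filter, hK₀, mem_sdiff] at h2
    obtain ⟨⟨⟨h3, h4⟩, h5⟩, h6⟩ := h2
    refine ⟨hD.subK h3, fun h => hdisK _ h h3, h4, ?_, h6, ?_⟩
    · intro h
      rw [h] at h6
      exact hT.irr _ h6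
    · refine le_trans ?_ (hsub (f j))
      have h7 : ((b * b : ℕ) : ℝ) ≤ ((nO R Q' (f j)).card : ℝ) := by
        have : τ / 8 * (Q'.card : ℝ) ≤ τ / 4 * Q'.card := mul_le_mul_of_nonneg_right (by linarith) (Nat.cast_nonneg _)
        linarith
      exact_mod_cast h7
  · -- in a part below
    have hbig : lam * X.card ≤ (L.card : ℝ) := hD.big L hL𝓛
    have hτL : τ * lam * X.card ≤ τ * L.card := by
      have := mul_le_mul_of_nonneg_left hbig hτ0.le
      linarith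
    have hτ₀τ : τ₀ * lam * X.card ≤ τ * lam * X.card :=
      mul_le_mul_of_nonneg_right (mul_le_mul_of_nonneg_right hτ hlam.le) hX0
    have hν2X : 8 * ν * X.card ≤ τ * lam * X.card := mul_le_mul_of_nonneg_right hν2 hX0
    have hdis := hD.dis hT (by linarith) hν1 (by linarith) hL𝓛
    obtain ⟨w, hw⟩ : ((nO R K y) \ (Fb ∪ K.filter (fun w => ∃ L ∈ 𝓛, τ / 2 * L.card < ((nI R L w).card : ℝ)))).Nonempty := by
      rw [← card_pos]
      have h1 := le_card_sdiff (Fb ∪ K.filter (fun w => ∃ L ∈ 𝓛, τ / 2 * L.card < ((nI R L w).card : ℝ))) (nO R K y)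
      have h2 := card_union_le Fb (K.filter (fun w => ∃ L ∈ 𝓛, τ / 2 * L.card < ((nI R L w).card : ℝ)))
      have h3 := hD.genK
      have h5 : ((Fb ∪ K.filter (fun w => ∃ L ∈ 𝓛, τ / 2 * L.card < ((nI R L w).card : ℝ))).card : ℝ) ≤
          Fb.card + ((K.filter (fun w => ∃ L ∈ 𝓛, τ / 2 * L.card < ((nI R L w).card : ℝ))).card : ℝ) := by
        exact_mod_cast h2
      have h6 : ((Fb ∪ K.filter (fun w => ∃ L ∈ 𝓛, τ / 2 * L.card < ((nI R L w).card : ℝ))).card : ℝ) <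
          ((nO R K y).card : ℝ) := by
        linarith
      have h7 : (Fb ∪ K.filter (fun w => ∃ L ∈ 𝓛, τ / 2 * L.card < ((nI R L w).card : ℝ))).card < (nO R K y).card := by
        exact_mod_cast h6
      omega
    rw [mem_sdiff, mem_union, not_or, mem_nO, mem_filter, not_and] at hw
    obtain ⟨⟨hwK, hyw⟩, hwF, hwg⟩ := hw
    have hwL : ((nI R L w).card : ℝ) ≤ τ / 2 * L.card := by
      have h1 := hwg hwK
      push Not at h1
      exact h1 L hL𝓛
    obtain ⟨f, hf, hfi⟩ := pick_f hT b (L := L) (Q := Q') (E := insert w (U ∪ Fb)) (w := w) hτ0 (mem_insert_self _ _)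
      hQx hwL (by
        have h1 : L ∩ insert w (U ∪ Fb) ⊆ insert w ((L ∩ U) ∪ Fb) := by
          intro u hu
          rw [mem_inter, mem_insert, mem_union] at hu
          rw [mem_insert, mem_union, mem_inter]
          tauto
        have h2 : ((L ∩ insert w (U ∪ Fb)).card : ℝ) ≤ (L ∩ U).card + Fb.card + 1 := by
          exact_mod_cast (card_le_card h1).trans ((card_insert_le _ _).trans (Nat.add_le_add_right (card_union_le _ _) _))
        linarith) (by omega) hbb (by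
        have h1 : τ₀ ^ 2 ≤ τ ^ 2 := by gcongr
        have h2 : τ₀ ^ 2 * (lam * X.card) ≤ τ ^ 2 * L.card := mul_le_mul h1 hbig (by positivity) (by positivity)
        linarith)
    refine ⟨w, hwK, fun h => hdisK w h hwK, hwF, hyw, f, fun j hj => ?_, hfi⟩
    obtain ⟨h1, h2, h3, h4⟩ := hf j hj
    rw [mem_insert, mem_union, not_or, not_or] at h2
    exact ⟨hD.subL L hL𝓛 h1, h2.2.1, h2.2.2, h2.1, h3, h4.trans (hsub _)⟩

end AESF
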