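import Pool.Agent.AESF.Main
import Pool.Agent.AESF.Parts
import Pool.Agent.AESF.T1
import Pool.Agent.AESF.T2Core

/-!
# Bounded-degree oriented trees with an arborescence behind an edge, in tournaments: the theorem
-/

set_option autoImplicit false

namespace AESF

/-- **the statement for coded trees** -/
theorem sfSt : SFSt := sf_main (fun _ _ h1 h2 h3 => parts h1 h2 h3) t1 t2St

/-- **every tree with an arborescence behind an edge** -/
theorem arb_end : ArbEndSt := arb_end_of sfSt

end AESF
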