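import Pool.Agent.AESF.MainG
import Pool.Agent.AESF.BoxP
import Pool.Agent.AESF.PathEnd
import Pool.Agent.AESF.T2P
import Pool.Agent.AEN.MainB
import Pool.Agent.AESF.Parts

/-!
# Free path ends: the final composition
-/

set_option autoImplicit false

namespace AESF

open Finset AE15 AED AEB AELT AEK AEJ AEN
open scoped Classical

/-- the place of a tournament -/
theorem partsSt : PartsSt := fun _ _ h1 h2 h3 => parts h1 h2 h3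

/-- the parameters of the black box `Bx` -/
def okP (w : ℕ × ℕ × ℝ × ℝ) : Prop := 1 ≤ w.1 ∧ 0 < w.2.2.1 ∧ 0 < w.2.2.2

/-- the black box `Bx` -/
def BXP (w : ℕ × ℕ × ℝ × ℝ) (I : Fd → Prop) (n C : ℕ) : Prop := Bx w.1 w.2.1 w.2.2.1 w.2.2.2 I n C

/-- the class of branches -/
def TOPP (_ : ℕ) (I : Fd → Prop) (F : Fd) : Prop := Top3 I F

theorem t2G_P : T2G okP BXP TOPP := by
  intro b hb θ hθ
  obtain ⟨ω₀, h0, h⟩ := t2P b hb hθ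
  refine ⟨ω₀, h0, fun ω hω hω' => ?_⟩
  obtain ⟨ζ₀, hζ₀, h⟩ := h ω hω hω'
  refine ⟨ζ₀, hζ₀, fun ζ _ hζ lam hlam J => ?_⟩
  obtain ⟨a, ha, h⟩ := h ζ hζ lam J hlam
  refine ⟨a, ha, fun a1 h1 h1' => ?_⟩
  obtain ⟨a', ha', h⟩ := h a1 h1 h1'
  refine ⟨a', ha', fun a2 h2 h2' k0 hk0 => ?_⟩
  obtain ⟨N, e, c1, m0, τ, d, hN, hτ, hd, h⟩ := h a2 h2 h2' k0 hk0
  refine ⟨(N, e, τ, d), c1, m0, ⟨hN, hτ, hd⟩, fun I nb Cb hB => ?_⟩
  obtain ⟨C, h⟩ := h I nb Cb hB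
  refine ⟨C, ?_⟩
  intro V R hT X U 𝓛 k hk0 hk1 hJ F s hl hD hF hθF hX hCT hU
  exact h hT X U 𝓛 k hk0 hk1 hJ F s hl hD hF hθF (by linarith) hCT hU

theorem exists_big {θ B : ℝ} (hθ : 0 < θ) (m : ℕ) : ∃ M : ℕ, m ≤ M ∧ B ≤ θ * M := by
  obtain ⟨n, hn⟩ := exists_nat_ge (B / θ)
  refine ⟨m + n, by omega, ?_⟩
  rw [div_le_iff₀ hθ] at hn
  have h1 : θ * n ≤ θ * (m + n : ℕ) := by
    refine mul_le_mul_of_nonneg_left ?_ hθ.le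
    exact_mod_cast Nat.le_add_left n m
  linarith

/-- **the composition, for the path version** -/
theorem pe_of (h1 : T1G okP BXP TOPP) (h2 : T2G okP BXP TOPP) : PESt := by
  intro b hb θ hθ
  obtain ⟨w₁, w₂, ok₁, ok₂, H⟩ := sf_mainG partsSt h1 h2 b hb θ hθ
  obtain ⟨A', A2, hB⟩ := bx_lineU b 0 hb
  obtain ⟨A₁, hM⟩ := AEN.mainSt b 0 hb
  have hA' : (0 : ℝ) ≤ A' := Nat.cast_nonneg _
  have hA2 : (0 : ℝ) ≤ A2 := Nat.cast_nonneg _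
  have hA₁ : (0 : ℝ) ≤ A₁ := Nat.cast_nonneg _
  -- the two windows
  obtain ⟨θ₂, hθ₂⟩ : ∃ t : ℝ, t = 1 / (8 * (A' + A2 + 1)) := ⟨_, rfl⟩
  have t20 : 0 < θ₂ := by rw [hθ₂]; positivity
  have t2e : 8 * ((A' : ℝ) + A2 + 1) * θ₂ = 1 := by
    rw [hθ₂]
    field_simp
  have t2A : 8 * ((A' : ℝ) + 1) * θ₂ ≤ 1 := by nlinarith
  have t2B : 8 * ((A2 : ℝ) + 1) * θ₂ ≤ 1 := by nlinarith
  have t2h : θ₂ ≤ 1 / 2 := by nlinarith
  obtain ⟨θ₁, hθ₁⟩ : ∃ t : ℝ, t = min (min θ θ₂) (1 / (8 * (A₁ + 1))) := ⟨_, rfl⟩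
  have t10 : 0 < θ₁ := by rw [hθ₁]; exact lt_min (lt_min hθ t20) (by positivity)
  have t1a : θ₁ ≤ θ := by rw [hθ₁]; exact (min_le_left _ _).trans (min_le_left _ _)
  have t1b : θ₁ ≤ θ₂ := by rw [hθ₁]; exact (min_le_left _ _).trans (min_le_right _ _)
  have t1A : 8 * ((A₁ : ℝ) + 1) * θ₁ ≤ 1 := by
    have e1 : θ₁ ≤ 1 / (8 * (A₁ + 1)) := by rw [hθ₁]; exact min_le_right _ _
    rw [le_div_iff₀ (by positivity)] at e1
    linarith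
  obtain ⟨ε₁, μ₁, K₁, hε₁, hμ₁, hM⟩ := hM θ₁ t10 (by linarith)
  obtain ⟨εa, μa, Ka, hεa, hμa, hBa⟩ := hB θ₂ t20 t2h w₁.1 w₁.2.1 w₁.2.2.2 ok₁.1 ok₁.2.2
  obtain ⟨εb, μb, Kb, hεb, hμb, hBb⟩ := hB θ₂ t20 t2h w₂.1 w₂.2.1 w₂.2.2.2 ok₂.1 ok₂.2.2
  obtain ⟨K, hK⟩ : ∃ K : ℕ, K = max Ka Kb := ⟨_, rfl⟩
  have hKa : Ka ≤ K := by rw [hK]; exact le_max_left _ _
  have hKb : Kb ≤ K := by rw [hK]; exact le_max_right _ _
  obtain ⟨M₂, m1, m2⟩ := exists_big (B := 2 * (A' + 1) * (K + 1)) t20 (2 * K + 2)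
  obtain ⟨M₁, m3, m4⟩ := exists_big (B := max (2 * (A₁ + 1) * (K₁ + 1)) (2 * (A2 + 1) * (K + 1) + 6)) t10 (2 * K₁ + 2)
  obtain ⟨C₁, hC₁⟩ := hM M₁
  obtain ⟨na, Ca, hBa⟩ := hBa K hKa M₂
  obtain ⟨nb, Cb, hBb⟩ := hBb K hKb M₂
  obtain ⟨C₂, hC₂⟩ := H (IpU b 0 K A' A2 θ₂ (min εa εb) (min μa μb) M₂) na Ca nb Cb
    (hBa (min_le_left _ _) (min_le_left _ _) w₁.2.2.1) (hBb (min_le_right _ _) (min_le_right _ _) w₂.2.2.1)
  refine ⟨C₁ + C₂, ?_⟩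
  intro V R hT c F hl hD hF hP hθF X hX
  have hθF' : θ₁ * (c.size + 1) ≤ (F.size : ℝ) + 1 := by
    refine le_trans (mul_le_mul_of_nonneg_right t1a (by positivity)) hθF
  rcases path_cases (b := b) (l := 0) (ε := ε₁) (μ := μ₁) hb t10 t1A m3 ((le_max_left _ _).trans m4) hF hP hθF'
    (n := F.size + 1) le_rfl with h | ⟨h, h'⟩
  · exact (hC₁ hT le_rfl le_rfl (F.size + 1)).1 c hl hD h X (by omega)
  · have hbig : 2 * (A2 + 1) * (K + 1) + 6 ≤ F.size + 1 := by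
      have e1 : θ₁ * M₁ ≤ θ₁ * (c.size + 1) := by
        refine mul_le_mul_of_nonneg_left ?_ t10.le
        exact_mod_cast h.le
      have e2 : (2 * (A2 + 1) * (K + 1) + 6 : ℝ) ≤ F.size + 1 := by
        have := (le_max_right _ _).trans m4
        linarith
      exact_mod_cast e2
    have hr : (F.size : ℝ) + 1 < θ₂ * (F.size + 1) + rn true F := by
      have e1 : θ₁ * ((F.size : ℝ) + 1) ≤ θ₂ * (F.size + 1) := mul_le_mul_of_nonneg_right t1b (by positivity)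
      linarith
    obtain ⟨c1, c2, c3, e1, e2, e3, hc⟩ := top_path (b := b) (l := 0) (ε := min εa εb) (μ := min μa μb) hb t20 t2A t2B m1 m2
      hP hbig hr (n := F.size) le_rfl
    exact hC₂ hT c F hl hD hF ⟨c1, c2, c3, e1, e2, e3, ⟨F.size, (hc _ (Or.inl rfl)).2.2⟩,
      ⟨F.size, (hc _ (Or.inr (Or.inl rfl))).2.2⟩, ⟨F.size, (hc _ (Or.inr (Or.inr rfl))).2.2⟩⟩ hθF X (by omega)

/-- **trees with a long path behind an edge, from the case of a small set before the place** -/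
theorem path_end_of_t1 (h1 : T1G okP BXP TOPP) : PathEndSt := path_end_of (pe_of h1 t2G_P)

end AESF
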