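import Pool.Agent.AESF.Routes

/-!
# Free ends at the root: one middle vertex (case T1)
-/

set_option autoImplicit false

namespace AESF

open Finset AE15 AED AELT
open scoped Classical

variable {V : Type} {R : V → V → Prop}

/-- **One step in the case of a thick place**: among many vertices outside `U`, a vertex `f` dominates `b` of them, and `f`
is dominated by a large part of `K` -/
theorem route_one (b J : ℕ) {ω τ₀ lam : ℝ} (hω : 0 < ω) (hτ₀ : 0 < τ₀) (hlam : 0 < lam) :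
    ∃ N₁ : ℕ, ∀ e : ℕ, ∃ n₀ : ℕ, ∀ {V : Type} {R : V → V → Prop}, AE32.Tour R → ∀ {X U K : Finset V}
      {𝓛 : Finset (Finset V)} {p : ℕ} {ζ k τ ν : ℝ}, ThickD R X U K 𝓛 p ω ζ k lam τ ν → 𝓛.card ≤ J → τ₀ ≤ τ →
      τ ≤ 1 / 8 → 2 * τ ≤ k → 16 * ν ≤ ω → 8 * ν ≤ τ * lam → n₀ ≤ X.card → ∀ {Fb Q : Finset V},
      Fb.card ≤ e → Q ⊆ X \ U → N₁ ≤ Q.card →
      ∃ f ∈ X, f ∉ U ∧ f ∉ Fb ∧ b ≤ (Q.filter (fun x => R f x)).card ∧ k / 2 * X.card ≤ ((nI R K f).card : ℝ) := by
  obtain ⟨N', hN'⟩ := exists_nat_ge (8 * (b : ℝ) / τ₀)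
  refine ⟨(J + 1) * N' + 1, fun e => ?_⟩
  obtain ⟨n₀, hn₀⟩ := exists_nat_ge (32 * ((e : ℝ) + 1) / ω + 64 * ((e : ℝ) + 1) / (τ₀ * lam) +
    64 * ((e : ℝ) + 1) / (τ₀ * ω))
  refine ⟨n₀, ?_⟩
  intro V R hT X U K 𝓛 p ζ k τ ν hD hJ hτ hτ1 hτk hν1 hν2 hn Fb Q hFb hQ hN
  have hτ0 : 0 < τ := lt_of_lt_of_le hτ₀ hτ
  have hX : (n₀ : ℝ) ≤ X.card := by exact_mod_cast hn
  have hX0 : (0 : ℝ) ≤ X.card := Nat.cast_nonneg _
  have he0 : (0 : ℝ) ≤ e := Nat.cast_nonneg _
  have t1 : 0 ≤ 32 * ((e : ℝ) + 1) / ω := by positivity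
  have t2 : 0 ≤ 64 * ((e : ℝ) + 1) / (τ₀ * lam) := by positivity
  have t3 : 0 ≤ 64 * ((e : ℝ) + 1) / (τ₀ * ω) := by positivity
  have n1 : 32 * ((e : ℝ) + 1) ≤ ω * X.card := by
    have : 32 * ((e : ℝ) + 1) / ω ≤ X.card := by linarith
    rw [div_le_iff₀ (by positivity)] at this
    linarith
  have n2 : 64 * ((e : ℝ) + 1) ≤ τ₀ * lam * X.card := by
    have : 64 * ((e : ℝ) + 1) / (τ₀ * lam) ≤ X.card := by linarith
    rw [div_le_iff₀ (by positivity)] at this
    linarith
  have n3 : 64 * ((e : ℝ) + 1) ≤ τ₀ * ω * X.card := by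
    have : 64 * ((e : ℝ) + 1) / (τ₀ * ω) ≤ X.card := by linarith
    rw [div_le_iff₀ (by positivity)] at this
    linarith
  have hFb' : (Fb.card : ℝ) ≤ e := by exact_mod_cast hFb
  have hK1 := hD.exK
  have hKX : (K.card : ℝ) ≤ X.card := by exact_mod_cast card_le_card hD.subK
  have hK8 : 8 * ((e : ℝ) + 1) ≤ K.card := by linarith
  have hK2 : 2 ≤ K.card := by
    have h1 : (2 : ℝ) ≤ K.card := by linarith
    exact_mod_cast h1
  have hdisK : ∀ v, v ∈ U → v ∉ K := fun v hv => hD.disK hτ0 hτk hK2 hv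
  have hk0 : 0 < k := by linarith
  have hL : ∀ x ∈ Q, ∃ L ∈ insert K 𝓛, τ * L.card ≤ ((nI R L x).card : ℝ) := by
    intro x hxQ
    rcases hD.out x (hQ hxQ) with h1 | ⟨L, hL, h1⟩
    · exact ⟨K, mem_insert_self _ _, h1⟩
    · exact ⟨L, mem_insert_of_mem hL, h1⟩
  obtain ⟨L, hL𝓛, hLN⟩ := pigeon (N := N') (J := J + 1) ((card_insert_le _ _).trans (Nat.add_le_add_right hJ 1)) hL
    (by omega)
  obtain ⟨Q', hQ'⟩ : ∃ Q', Q' = Q.filter (fun x => τ * L.card ≤ ((nI R L x).card : ℝ)) := ⟨_, rfl⟩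
  rw [← hQ'] at hLN
  have hQx : ∀ x ∈ Q', τ * L.card ≤ ((nI R L x).card : ℝ) := fun x hx => by
    rw [hQ', mem_filter] at hx; exact hx.2
  have hsub : ∀ f, (nO R Q' f).card ≤ (Q.filter (fun x => R f x)).card := fun f =>
    card_le_card (fun x hx => by
      rw [mem_nO, hQ', mem_filter] at hx
      rw [mem_filter]
      exact ⟨hx.1.1, hx.2⟩)
  have hbQ : (b : ℝ) ≤ τ / 8 * Q'.card := by
    have h1 : (N' : ℝ) ≤ Q'.card := by exact_mod_cast hLN.le
    have h2 : 8 * (b : ℝ) ≤ τ₀ * N' := by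
      rw [div_le_iff₀ hτ₀] at hN'
      linarith
    have h3 : τ₀ * (N' : ℝ) ≤ τ * Q'.card := mul_le_mul hτ h1 (Nat.cast_nonneg _) hτ0.le
    linarith
  -- the good part of `L`
  suffices hS : ∃ G ⊆ L, (∀ f ∈ G, f ∈ X ∧ f ∉ U ∧ f ∉ Fb ∧ k / 2 * X.card ≤ ((nI R K f).card : ℝ)) ∧
      ((L \ G).card : ℝ) ≤ τ / 2 * L.card ∧ 0 < L.card by
    obtain ⟨G, hGL, hG, hLG, hL0⟩ := hS
    have hGL' : (G.card : ℝ) ≤ L.card := by exact_mod_cast card_le_card hGL
    have h1 := many (R := R) (L := G) (Q := Q') (a := τ / 4) (by positivity) (by omega) (fun x hx => by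
      have h2 := hQx x hx
      have h3 : nI R L x ⊆ nI R G x ∪ (L \ G) := by
        intro v hv
        rw [mem_nI] at hv
        rw [mem_union, mem_nI, mem_sdiff]
        tauto
      have h4 : ((nI R L x).card : ℝ) ≤ (nI R G x).card + (L \ G).card := by
        exact_mod_cast (card_le_card h3).trans (card_union_le _ _)
      have h5 : τ * (G.card : ℝ) ≤ τ * L.card := mul_le_mul_of_nonneg_left hGL' hτ0.le
      linarith)
    have hG0 : 0 < G.card := by
      have h2 : L.card ≤ (L \ G).card + G.card := by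
        have := card_sdiff_add_card_inter L G
        have h3 := card_le_card (inter_subset_right : L ∩ G ⊆ G)
        omega
      have h3 : (L.card : ℝ) ≤ (L \ G).card + G.card := by exact_mod_cast h2
      have h4 : (0 : ℝ) < L.card := by exact_mod_cast hL0
      have h5 : τ / 2 * (L.card : ℝ) ≤ 1 / 2 * L.card := mul_le_mul_of_nonneg_right (by linarith) h4.le
      have h6 : (0 : ℝ) < G.card := by linarith
      exact_mod_cast h6
    have h2 : 0 < (G.filter (fun f => τ / 4 * Q'.card ≤ ((nO R Q' f).card : ℝ))).card := by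
      have h3 : (0 : ℝ) < ((G.filter (fun f => τ / 4 * Q'.card ≤ ((nO R Q' f).card : ℝ))).card : ℝ) := by
        refine lt_of_lt_of_le ?_ h1
        have : (0 : ℝ) < G.card := by exact_mod_cast hG0
        positivity
      exact_mod_cast h3
    obtain ⟨f, hf⟩ := card_pos.1 h2
    rw [mem_filter] at hf
    obtain ⟨g1, g2, g3, g4⟩ := hG f hf.1
    refine ⟨f, g1, g2, g3, ?_, g4⟩
    refine le_trans ?_ (hsub f)
    have h7 : (b : ℝ) ≤ ((nO R Q' f).card : ℝ) := by
      have : τ / 8 * (Q'.card : ℝ) ≤ τ / 4 * Q'.card := mul_le_mul_of_nonneg_right (by linarith) (Nat.cast_nonneg _)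
      linarith [hf.2]
    exact_mod_cast h7
  rcases mem_insert.1 hL𝓛 with hLK | hL𝓛
  · -- the thick part
    subst hLK
    refine ⟨L \ Fb, sdiff_subset, ?_, ?_, by omega⟩
    · intro f hf
      rw [mem_sdiff] at hf
      refine ⟨hD.subK hf.1, fun h => hdisK _ h hf.1, hf.2, ?_⟩
      have := ex_in hD.ex hK2 hf.1
      have h2 : 0 ≤ k * X.card := by positivity
      linarith
    · have h1 : L \ (L \ Fb) ⊆ Fb := by
        intro v hv
        rw [mem_sdiff, mem_sdiff] at hv
        tauto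
      have h2 : ((L \ (L \ Fb)).card : ℝ) ≤ Fb.card := by exact_mod_cast card_le_card h1
      have h3 : τ₀ * (ω / 4 * X.card) ≤ τ * L.card := mul_le_mul hτ hK1 (by positivity) hτ0.le
      linarith
  · -- a part below
    have hbig : lam * X.card ≤ (L.card : ℝ) := hD.big L hL𝓛
    have hLX : (L.card : ℝ) ≤ X.card := by exact_mod_cast card_le_card (hD.subL L hL𝓛)
    have hXpos : (0 : ℝ) < X.card := by linarith
    have hlam1 : lam ≤ 1 := by
      have h1 : lam * X.card ≤ 1 * X.card := by linarith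
      exact le_of_mul_le_mul_right h1 hXpos
    have hτL : τ * lam * X.card ≤ τ * L.card := by
      have := mul_le_mul_of_nonneg_left hbig hτ0.le
      linarith
    have hτ₀τ : τ₀ * lam * X.card ≤ τ * lam * X.card :=
      mul_le_mul_of_nonneg_right (mul_le_mul_of_nonneg_right hτ hlam.le) hX0
    have hν2X : 8 * ν * X.card ≤ τ * lam * X.card := mul_le_mul_of_nonneg_right hν2 hX0
    have hdis := hD.dis hT (by linarith) hν1 (by linarith) hL𝓛
    refine ⟨(L \ (U ∪ Fb)) \ L.filter (fun f => ν * X.card < ((nO R K f).card : ℝ)), sdiff_subset.trans sdiff_subset,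
      ?_, ?_, ?_⟩
    · intro f hf
      rw [mem_sdiff, mem_sdiff, mem_union, not_or, mem_filter, not_and] at hf
      obtain ⟨⟨hfL, hfU, hfF⟩, hfg⟩ := hf
      refine ⟨hD.subL L hL𝓛 hfL, hfU, hfF, ?_⟩
      have h1 := not_lt.1 (hfg hfL)
      have h3 : (K.card : ℝ) ≤ (nO R K f).card + (nI R K f).card + 1 := by
        by_cases hfK : f ∈ K
        · exact_mod_cast (card_nO_add_nI' hT hfK).symm.le
        · have := card_nO_add_nI hT hfK
          have : K.card ≤ (nO R K f).card + (nI R K f).card + 1 := by omega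
          exact_mod_cast this
      obtain ⟨v, hv⟩ : K.Nonempty := by rw [← card_pos]; omega
      have h4 := ex_in hD.ex hK2 hv
      have h5 : ((nI R K v).card : ℝ) + 1 ≤ K.card := by
        have h6 : nI R K v ⊂ K := by
          refine ⟨nI_sub, fun h => ?_⟩
          have := h hv
          rw [mem_nI] at this
          exact hT.irr _ this.2
        have := card_lt_card h6
        exact_mod_cast this
      have h6 : 8 * ν ≤ τ := by
        have : τ * lam ≤ τ * 1 := mul_le_mul_of_nonneg_left hlam1 hτ0.le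
        linarith
      have h7 : ν ≤ k / 2 := by linarith
      have h8 : ν * X.card ≤ k / 2 * X.card := mul_le_mul_of_nonneg_right h7 hX0
      linarith
    · have h1 : L \ ((L \ (U ∪ Fb)) \ L.filter (fun f => ν * X.card < ((nO R K f).card : ℝ))) ⊆
          ((L ∩ U) ∪ Fb) ∪ L.filter (fun f => ν * X.card < ((nO R K f).card : ℝ)) := by
        intro v hv
        rw [mem_sdiff, mem_sdiff, mem_sdiff, mem_union] at hv
        rw [mem_union, mem_union, mem_inter]
        tauto
      have h2 : ((L \ ((L \ (U ∪ Fb)) \ L.filter (fun f => ν * X.card < ((nO R K f).card : ℝ)))).card : ℝ) ≤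
          ((L ∩ U).card + Fb.card) + (L.filter (fun f => ν * X.card < ((nO R K f).card : ℝ))).card := by
        exact_mod_cast (card_le_card h1).trans ((card_union_le _ _).trans (Nat.add_le_add_right (card_union_le _ _) _))
      have h3 := hD.genL L hL𝓛
      linarith
    · have : (0 : ℝ) < L.card := lt_of_lt_of_le (by positivity) hbig
      exact_mod_cast this

end AESF
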