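import Pool.Agent.AESF.DefsF

/-!
# Free ends: the vertices of a thick part are wide in both directions in every large set
-/

set_option autoImplicit false

namespace AESF

open Finset AE15 AED AELT AEB
open scoped Classical

variable {V : Type} {R : V → V → Prop}

/-- a closed set containing the out-neighbours of a vertex of an expanding part contains the part -/
theorem closed_part {κ a : ℝ} {W K Q : Finset V} (hK : EX R a K) (hKW : K ⊆ W) (ha : 0 ≤ a) (hK2 : 2 ≤ K.card)
    (h1 : κ * W.card ≤ a) (h2 : κ * W.card * K.card ≤ a * a) {z : V} (hz : z ∈ K) (hzQ : nO R W z ⊆ Q)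
    (hQ : Closed R κ W Q) : K ⊆ Q := by
  have h3 : Q ∩ K = K := by
    refine hK.closed (κ := κ * W.card) (ℓ := a) inter_subset_right ?_ ha h1 h2 ?_
    · refine (hK.deg ha hK2 hz).trans ?_
      have h4 : nO R K z ⊆ Q ∩ K := by
        intro v hv
        rw [mem_inter]
        exact ⟨hzQ (nO_mono hKW hv), (mem_nO.1 hv).1⟩
      exact_mod_cast card_le_card h4
    · intro v hv hvQ
      have h5 : v ∉ Q := fun h => hvQ (mem_inter.2 ⟨h, hv⟩)
      refine lt_of_le_of_lt ?_ (hQ v (hKW hv) h5)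
      exact_mod_cast card_le_card (nI_mono inter_subset_left)
  rw [← h3]
  exact inter_subset_left

/-- **roots in a thick part** -/
theorem wide_part {κ a t : ℝ} {W K : Finset V} (hK : Ex R a K) (hKW : K ⊆ W) (ha : 0 ≤ a) (hK2 : 2 ≤ K.card)
    (h1 : κ * W.card ≤ a) (h2 : κ * W.card * K.card ≤ a * a)
    (ht : ((W.filter (fun w => w ∉ K ∧ ((nI R K w).card : ℝ) < κ * W.card)).card : ℝ) ≤ t) {z : V} (hz : z ∈ K) :
    Wide R κ (W.card - t) W z ∧ Wide (fun a b => R b a) κ K.card W z := by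
  constructor
  · intro Q hQW hzQ hQ
    have h3 := closed_part hK.toEX hKW ha hK2 h1 h2 hz hzQ hQ
    have h4 : W \ Q ⊆ W.filter (fun w => w ∉ K ∧ ((nI R K w).card : ℝ) < κ * W.card) := by
      intro w hw
      rw [mem_sdiff] at hw
      rw [mem_filter]
      refine ⟨hw.1, fun h => hw.2 (h3 h), ?_⟩
      refine lt_of_le_of_lt ?_ (hQ w hw.1 hw.2)
      exact_mod_cast card_le_card (nI_mono h3)
    have h5 : (W.card : ℝ) ≤ Q.card + (W \ Q).card := by
      have := card_sdiff_add_card_eq_card hQW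
      exact_mod_cast (by omega : W.card ≤ Q.card + (W \ Q).card)
    have h6 : ((W \ Q).card : ℝ) ≤ t := le_trans (by exact_mod_cast card_le_card h4) ht
    linarith
  · intro Q hQW hzQ hQ
    have h3 : K ⊆ Q := closed_part (R := fun a b => R b a) (hK.toEX.sg false) hKW ha hK2 h1 h2 hz hzQ hQ
    exact_mod_cast card_le_card h3

/-- **T1, the roots**: all the vertices of `K` in a set `W` which contains almost all of `K` and almost all of `X \ U` -/
theorem roots {X U K W : Finset V} {𝓛 : Finset (Finset V)} {p J : ℕ} {ω ζ k lam τ ν κ n : ℝ} (hT : AE32.Tour R)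
    (hn : n = X.card) (hD : ThickD R X U K 𝓛 p ω ζ k lam τ ν) (hJ : 𝓛.card ≤ J) (hW : W ⊆ X \ U) (hk : 0 < k)
    (hk1 : k ≤ 1) (hω : 0 < ω) (hω1 : ω ≤ 1) (hν : 0 ≤ ν) (hν1 : 32 * ν ≤ ω) (hκ : 0 < κ) (hκk : 16 * κ ≤ k ^ 2)
    (hκω : 32 * κ ≤ ω) (hn1 : 64 ≤ ω * n) (hK1 : 2 * ((K \ W).card : ℝ) ≤ k * n)
    (hK2 : 16 * ((K \ W).card : ℝ) ≤ ω * n) {z : V} (hz : z ∈ K) (hzW : z ∈ W) :
    Wide R κ (W.card - (J * (ν * n) + ζ * n)) W z ∧ Wide (fun a b => R b a) κ ((K ∩ W).card) W z := by
  have hn0 : 0 < n := by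
    by_contra h
    push Not at h
    nlinarith
  have hWn : (W.card : ℝ) ≤ n := by
    rw [hn]
    exact_mod_cast card_le_card (hW.trans sdiff_subset)
  have hKn : ω / 4 * n ≤ (K.card : ℝ) := by rw [hn]; exact hD.exK
  have hKn' : (K.card : ℝ) ≤ n := by rw [hn]; exact_mod_cast card_le_card hD.subK
  have hKW : (K.card : ℝ) = (K ∩ W).card + (K \ W).card := by
    have := card_inter_add_card_sdiff K W
    exact_mod_cast this.symm
  have hKe : K \ (K \ W) = K ∩ W := by
    ext v
    simp only [mem_sdiff, mem_inter]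
    tauto
  have hEx : Ex R (k * n / 2) (K ∩ W) := by
    have h1 := hD.ex
    rw [← hn] at h1
    have h2 := h1.sdiff (D := K \ W) (by linarith)
    rwa [hKe] at h2
  have hKW2 : (3 : ℝ) * (ω * n) / 16 ≤ (K ∩ W).card := by linarith
  have hKWn : ((K ∩ W).card : ℝ) ≤ n := by
    refine le_trans ?_ hKn'
    exact_mod_cast card_le_card inter_subset_left
  have h2c : 2 ≤ (K ∩ W).card := by
    have : (2 : ℝ) ≤ (K ∩ W).card := by linarith
    exact_mod_cast this
  have hk2 : k ^ 2 ≤ k := by nlinarith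
  have hκn : κ * W.card ≤ κ * n := mul_le_mul_of_nonneg_left hWn hκ.le
  refine wide_part (a := k * n / 2) hEx inter_subset_right (by positivity) h2c ?_ ?_ ?_ (mem_inter.2 ⟨hz, hzW⟩)
  · have h1 : κ * n ≤ k / 16 * n := mul_le_mul_of_nonneg_right (by linarith) hn0.le
    have h2 : k / 16 * n ≤ k * n / 2 := by nlinarith
    linarith
  · have h1 : κ * W.card * (K ∩ W).card ≤ κ * n * n := by
      refine mul_le_mul hκn hKWn (Nat.cast_nonneg _) (by positivity)
    have h2 : κ * n * n ≤ k ^ 2 / 16 * n * n := by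
      have : κ ≤ k ^ 2 / 16 := by linarith
      exact mul_le_mul_of_nonneg_right (mul_le_mul_of_nonneg_right this hn0.le) hn0.le
    have h3 : k ^ 2 / 16 * n * n ≤ k * n / 2 * (k * n / 2) := by
      have h4 : 0 ≤ k ^ 2 * n ^ 2 := by positivity
      nlinarith
    linarith
  · -- the vertices with few in-neighbours in the part
    obtain ⟨G, hG⟩ : ∃ G : Finset V → Finset V, G = fun L => L.filter (fun f => ν * X.card < ((nO R K f).card : ℝ)) :=
      ⟨_, rfl⟩
    have h1 : W.filter (fun w => w ∉ K ∩ W ∧ ((nI R (K ∩ W) w).card : ℝ) < κ * W.card) ⊆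
        𝓛.biUnion G ∪ (X \ (U ∪ K ∪ 𝓛.biUnion id)) := by
      intro w hw
      rw [mem_filter] at hw
      obtain ⟨hwW, hwK, hwI⟩ := hw
      have hwXU := mem_sdiff.1 (hW hwW)
      have hwK' : w ∉ K := fun h => hwK (mem_inter.2 ⟨h, hwW⟩)
      rw [mem_union]
      by_cases hL : ∃ L ∈ 𝓛, w ∈ L
      · obtain ⟨L, hL, hwL⟩ := hL
        left
        rw [mem_biUnion]
        refine ⟨L, hL, ?_⟩
        rw [hG, mem_filter]
        refine ⟨hwL, ?_⟩
        by_contra hc
        push Not at hc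
        rw [← hn] at hc
        have h3 : K ∩ W ⊆ nI R (K ∩ W) w ∪ nO R K w := by
          intro v hv
          rw [mem_inter] at hv
          have hvw : v ≠ w := fun h => hwK' (h ▸ hv.1)
          rw [mem_union, mem_nI, mem_nO, mem_inter]
          rcases hT.tot v w hvw with h | h
          · exact Or.inl ⟨hv, h⟩
          · exact Or.inr ⟨hv.1, h⟩
        have h4 : ((K ∩ W).card : ℝ) ≤ (nI R (K ∩ W) w).card + (nO R K w).card := by
          exact_mod_cast (card_le_card h3).trans (card_union_le _ _)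
        have h5 : κ * n ≤ ω / 32 * n := mul_le_mul_of_nonneg_right (by linarith) hn0.le
        have h6 : ν * n ≤ ω / 32 * n := mul_le_mul_of_nonneg_right (by linarith) hn0.le
        nlinarith
      · right
        push Not at hL
        rw [mem_sdiff, mem_union, mem_union, mem_biUnion]
        refine ⟨hwXU.1, ?_⟩
        rintro ((h | h) | ⟨L, hL1, hL2⟩)
        · exact hwXU.2 h
        · exact hwK' h
        · exact hL L hL1 hL2
    have h2 : ((𝓛.biUnion G).card : ℝ) ≤ J * (ν * n) := by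
      have h3 : ((𝓛.biUnion G).card : ℝ) ≤ ∑ L ∈ 𝓛, ((G L).card : ℝ) := by exact_mod_cast card_biUnion_le
      have h4 : ∑ L ∈ 𝓛, ((G L).card : ℝ) ≤ ∑ _L ∈ 𝓛, ν * n := by
        apply sum_le_sum
        intro L hL
        rw [hG, hn]
        exact hD.genL L hL
      rw [sum_const, nsmul_eq_mul] at h4
      have h5 : (𝓛.card : ℝ) * (ν * n) ≤ J * (ν * n) :=
        mul_le_mul_of_nonneg_right (by exact_mod_cast hJ) (by positivity)
      linarith
    have h3 : ((X \ (U ∪ K ∪ 𝓛.biUnion id)).card : ℝ) ≤ ζ * n := by rw [hn]; exact hD.rest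
    have h4 : ((W.filter (fun w => w ∉ K ∩ W ∧ ((nI R (K ∩ W) w).card : ℝ) < κ * W.card)).card : ℝ) ≤
        (𝓛.biUnion G).card + (X \ (U ∪ K ∪ 𝓛.biUnion id)).card := by
      exact_mod_cast (card_le_card h1).trans (card_union_le _ _)
    linarith

end AESF
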