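import Pool.Agent.AESF.Hosts
import Pool.Agent.AESF.WideK
import Pool.Agent.AESF.Dual
import Pool.Agent.AESF.Tree
import Pool.Agent.AEK.LT1

/-!
# Free ends at the root, case T1: the root and the part of the tree before the place
-/

set_option autoImplicit false

namespace AESF

open Finset AE15 AED AELT AEB
open scoped Classical

/-- a large part of the thick part `K` consists of possible roots -/
theorem t1_lt (b : ℕ) (hb : 1 ≤ b) {θ ω k₀ : ℝ} (hθ : 0 < θ) (hω : 0 < ω) (hω1 : ω ≤ 1) (hk₀ : 0 < k₀) :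
    ∃ n₂ : ℕ, ∀ {V : Type} {R : V → V → Prop}, AE32.Tour R → ∀ {X U K W : Finset V} {𝓛 : Finset (Finset V)}
      {p J : ℕ} {ζ k lam τ ν : ℝ}, ThickD R X U K 𝓛 p ω ζ k lam τ ν → 𝓛.card ≤ J → k₀ ≤ k → k ≤ 1 → 0 ≤ ν →
      32 * ν ≤ ω → J * ν + ζ ≤ θ / 4 → n₂ ≤ X.card → W ⊆ X \ U → 4 * ((K \ W).card : ℝ) ≤ k * X.card →
      16 * ((K \ W).card : ℝ) ≤ ω * X.card → ∀ c : Fd, c.len ≤ b → c.Deg b →
      (c.size + 1 : ℝ) + θ / 2 * X.card ≤ W.card → (blk c + 1 : ℝ) + ω / 64 * X.card ≤ ((K ∩ W).card : ℝ) →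
      ∀ f : V, k / 2 * X.card ≤ ((nI R K f).card : ℝ) → In R c (fun y => y ∈ K ∧ R y f) W := by
  obtain ⟨ε, hε⟩ : ∃ ε : ℝ, ε = min (min (θ / 4) (ω / 64)) (k₀ / 4) := ⟨_, rfl⟩
  have e0 : 0 < ε := by rw [hε]; exact lt_min (lt_min (by positivity) (by positivity)) (by positivity)
  have e1 : ε ≤ θ / 4 := by rw [hε]; exact (min_le_left _ _).trans (min_le_left _ _)
  have e2 : ε ≤ ω / 64 := by rw [hε]; exact (min_le_left _ _).trans (min_le_right _ _)
  have e3 : ε ≤ k₀ / 4 := by rw [hε]; exact min_le_right _ _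
  obtain ⟨κ, hκ⟩ : ∃ κ : ℝ, κ = min (k₀ ^ 2 / 16) (ω / 32) := ⟨_, rfl⟩
  have k0 : 0 < κ := by rw [hκ]; exact lt_min (by positivity) (by positivity)
  have k1 : κ ≤ k₀ ^ 2 / 16 := by rw [hκ]; exact min_le_left _ _
  have k2 : κ ≤ ω / 32 := by rw [hκ]; exact min_le_right _ _
  obtain ⟨n₁, hlt⟩ := AEK.lt1 b hb (κ := κ) (ε := ε) k0 e0
  obtain ⟨n₂, hn₂⟩ := exists_nat_ge (2 * n₁ / θ + 64 / ω)
  refine ⟨n₂, ?_⟩
  intro V R hT X U K W 𝓛 p J ζ k lam τ ν hD hJ hk0 hk1 hν hνω hJν hn hW hK1 hK2 c hl hdeg hsz hblk f hf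
  have hn' : (n₂ : ℝ) ≤ X.card := by exact_mod_cast hn
  have q1 : (0 : ℝ) ≤ 2 * n₁ / θ := by positivity
  have q2 : (0 : ℝ) ≤ 64 / ω := by positivity
  have r1 : 2 * (n₁ : ℝ) ≤ θ * X.card := by
    have : 2 * n₁ / θ ≤ X.card := by linarith
    rwa [div_le_iff₀' hθ] at this
  have r2 : 64 ≤ ω * X.card := by
    have : 64 / ω ≤ X.card := by linarith
    rwa [div_le_iff₀' hω] at this
  have hX0 : (0 : ℝ) ≤ X.card := Nat.cast_nonneg _
  have hWX : (W.card : ℝ) ≤ X.card := by exact_mod_cast card_le_card (hW.trans sdiff_subset)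
  have c0 : (0 : ℝ) ≤ c.size := Nat.cast_nonneg _
  have hkpos : 0 < k := lt_of_lt_of_le hk₀ hk0
  have hεW : ε * W.card ≤ ε * X.card := mul_le_mul_of_nonneg_left hWX e0.le
  have hε1 : ε * X.card ≤ θ / 4 * X.card := mul_le_mul_of_nonneg_right e1 hX0
  have hε2 : ε * X.card ≤ ω / 64 * X.card := mul_le_mul_of_nonneg_right e2 hX0
  have hε3 : ε * X.card ≤ k / 4 * X.card := mul_le_mul_of_nonneg_right (by linarith) hX0
  obtain ⟨N, hN⟩ : ∃ N : V → Prop, N = fun y => y ∈ K ∧ R y f := ⟨_, rfl⟩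
  rw [← hN]
  refine hlt hT W N ?_ c hl hdeg ?_ ?_
  · have : (n₁ : ℝ) ≤ W.card := by linarith
    exact_mod_cast this
  · linarith
  · have h1 : ((nI R K f).card : ℝ) ≤ (nI R K f \ (K \ W)).card + (K \ W).card := by
      have := card_le_card_sdiff_add_card (s := nI R K f) (t := K \ W)
      exact_mod_cast this
    refine le_trans (b := ((nI R K f \ (K \ W)).card : ℝ)) (by linarith) ?_
    rw [Nat.cast_le]
    refine card_le_card ?_
    · intro z hz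
      rw [mem_sdiff, mem_nI, mem_sdiff] at hz
      obtain ⟨⟨hzK, hzf⟩, hz2⟩ := hz
      have hzW : z ∈ W := by
        by_contra h
        exact hz2 ⟨hzK, h⟩
      obtain ⟨w1, w2⟩ := roots hT rfl hD hJ hW hkpos hk1 hω hω1 hν (by linarith) k0 (by nlinarith) (by linarith) r2
        (by linarith [mul_nonneg hkpos.le hX0]) hK2 hzK hzW
      rw [mem_filter]
      refine ⟨hzW, by rw [hN]; exact ⟨hzK, hzf⟩, ?_, ?_⟩
      · intro Q hQ hQz hQc
        refine le_trans ?_ (w1 Q hQ hQz hQc)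
        have h1 : (dcl c : ℝ) ≤ c.size := by
          have := AEJ.dcl_add_blk_le c
          exact_mod_cast (by omega : dcl c ≤ c.size)
        have h2 : (J * ν + ζ) * X.card ≤ θ / 4 * X.card := mul_le_mul_of_nonneg_right hJν hX0
        linarith
      · intro Q hQ hQz hQc
        refine le_trans ?_ (w2 Q hQ hQz hQc)
        linarith

/-- the root and a tree `c` before the place, outside `U`, in the vertices with the property `P` -/
theorem t1_W (b : ℕ) (hb : 1 ≤ b) {θ ω k₀ : ℝ} (hθ : 0 < θ) (hω : 0 < ω) (hω1 : ω ≤ 1) (hk₀ : 0 < k₀) :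
    ∃ n₂ : ℕ, ∀ {V : Type} {R : V → V → Prop}, AE32.Tour R → ∀ {X U K E Q : Finset V} {𝓛 : Finset (Finset V)}
      {p J e A : ℕ} {ζ k lam τ ν d₀ : ℝ} {P : V → Prop}, ThickD R X U K 𝓛 p ω ζ k lam τ ν → 𝓛.card ≤ J → k₀ ≤ k →
      k ≤ 1 → 0 ≤ ν → 32 * ν ≤ ω → J * ν + ζ ≤ θ / 4 → n₂ ≤ X.card → d₀ ≤ θ / 16 → 64 * d₀ ≤ ω → 16 * d₀ ≤ k₀ →
      64 * (e + 1 + A : ℝ) ≤ ω * X.card → 16 * (e : ℝ) ≤ k₀ * X.card → E.card ≤ e → (Q.card : ℝ) ≤ d₀ * X.card →
      (∀ v ∈ K, v ∉ U) → 64 * ((K.filter (fun v => ¬ P v)).card : ℝ) ≤ ω * X.card →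
      16 * ((K.filter (fun v => ¬ P v)).card : ℝ) ≤ k * X.card →
      16 * (((X \ U).filter (fun v => ¬ P v)).card : ℝ) ≤ θ * X.card →
      ∀ c : Fd, c.len ≤ b → c.Deg b → (c.size + 1 : ℝ) + θ * X.card + U.card + e ≤ X.card →
      (blk c : ℝ) + ω / 4 * X.card ≤ K.card + A → ∀ f : V, k / 2 * X.card ≤ ((nI R K f).card : ℝ) →
      ∃ y ∈ X \ U, y ∉ E ∧ y ∉ Q ∧ P y ∧ R y f ∧ ∃ S : Finset V, (∀ a ∈ S, a ∈ X \ U ∧ a ∉ E ∧ a ∉ Q ∧ P a) ∧
        y ∉ S ∧ Emb R c y S := by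
  obtain ⟨n₂, hlt⟩ := t1_lt b hb hθ hω hω1 hk₀
  refine ⟨n₂, ?_⟩
  intro V R hT X U K E Q 𝓛 p J e A ζ k lam τ ν d₀ P hD hJ hk0 hk1 hν hνω hJν hn hd1 hd2 hd3 hn1 hn2 hE hQ hKU hP1 hP2
    hP3 c hl hdeg hsz hblk f hf
  obtain ⟨W, hW⟩ : ∃ W, W = ((X \ U) \ (E ∪ Q)).filter P := ⟨_, rfl⟩
  have hmW : ∀ a, a ∈ W ↔ a ∈ X \ U ∧ a ∉ E ∧ a ∉ Q ∧ P a := by
    intro a
    rw [hW, mem_filter, mem_sdiff, mem_union, not_or]
    tauto
  have hX0 : (0 : ℝ) ≤ X.card := Nat.cast_nonneg _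
  have hE' : (E.card : ℝ) ≤ e := by exact_mod_cast hE
  have hd1' : d₀ * X.card ≤ θ / 16 * X.card := mul_le_mul_of_nonneg_right hd1 hX0
  have hd2' : 64 * d₀ * X.card ≤ ω * X.card := mul_le_mul_of_nonneg_right hd2 hX0
  have hd3' : 16 * d₀ * X.card ≤ k₀ * X.card := mul_le_mul_of_nonneg_right hd3 hX0
  have hk' : k₀ * X.card ≤ k * X.card := mul_le_mul_of_nonneg_right hk0 hX0
  have hθ' : 0 ≤ θ * X.card := by positivity
  have hKW : ((K \ W).card : ℝ) ≤ e + d₀ * X.card + (K.filter (fun v => ¬ P v)).card := by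
    have h1 : K \ W ⊆ (E ∪ Q) ∪ K.filter (fun v => ¬ P v) := by
      intro v hv
      rw [mem_sdiff, hmW] at hv
      rw [mem_union, mem_union, mem_filter]
      by_cases h2 : v ∈ E
      · exact Or.inl (Or.inl h2)
      by_cases h3 : v ∈ Q
      · exact Or.inl (Or.inr h3)
      refine Or.inr ⟨hv.1, fun h4 => hv.2 ⟨?_, h2, h3, h4⟩⟩
      exact mem_sdiff.2 ⟨hD.subK hv.1, hKU v hv.1⟩
    have h2 := (card_le_card h1).trans ((card_union_le _ _).trans (Nat.add_le_add_right (card_union_le _ _) _))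
    have h3 : ((K \ W).card : ℝ) ≤ E.card + Q.card + (K.filter (fun v => ¬ P v)).card := by exact_mod_cast h2
    linarith
  have hYW : ((X \ U).card : ℝ) ≤ W.card + (e + d₀ * X.card + ((X \ U).filter (fun v => ¬ P v)).card) := by
    have h1 : X \ U ⊆ W ∪ ((E ∪ Q) ∪ (X \ U).filter (fun v => ¬ P v)) := by
      intro v hv
      rw [mem_union, mem_union, mem_union, mem_filter, hmW]
      tauto
    have h2 := (card_le_card h1).trans ((card_union_le _ _).trans (Nat.add_le_add_left ((card_union_le _ _).trans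
      (Nat.add_le_add_right (card_union_le _ _) _)) _))
    have h3 : ((X \ U).card : ℝ) ≤ W.card + (E.card + Q.card + ((X \ U).filter (fun v => ¬ P v)).card) := by
      exact_mod_cast h2
    linarith
  have hXU : ((X \ U).card : ℝ) + U.card = X.card := by exact_mod_cast card_sdiff_add_card_eq_card hD.subU
  have hKK : (K.card : ℝ) = (K ∩ W).card + (K \ W).card := by
    have := card_inter_add_card_sdiff K W
    exact_mod_cast this.symm
  have he0 : (0 : ℝ) ≤ e := Nat.cast_nonneg _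
  have hA0 : (0 : ℝ) ≤ A := Nat.cast_nonneg _
  obtain ⟨y, hy, S, hS, hyS, ⟨-, hyf⟩, hES⟩ := hlt hT hD hJ hk0 hk1 hν hνω hJν hn
    (fun a ha => ((hmW a).1 ha).1) (by linarith) (by linarith) c hl hdeg (by linarith) (by linarith) f hf
  obtain ⟨h1, h2, h3, h4⟩ := (hmW y).1 hy
  exact ⟨y, h1, h2, h3, h4, hyf, S, fun a ha => (hmW a).1 (hS ha), hyS, hES⟩

/-- **Case T1, everything but the branch `F`**: the root `y` is placed at an in-neighbour of `f` outside `U`, and `U` is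
filled up to a bounded number of vertices; the pending trees except `F` hang by arcs away from vertices of `U` -/
theorem t1_root (b : ℕ) (hb : 1 ≤ b) {θ : ℝ} (hθ : 0 < θ) : ∃ g : ℝ, 1 ≤ g ∧ ∀ {ω k₀ : ℝ}, 0 < ω → ω ≤ 1 → 0 < k₀ →
    ∃ d₀ : ℝ, 0 < d₀ ∧ ∀ c₁ m₀ e : ℕ, ∃ C C₃ : ℕ, ∀ {V : Type} {R : V → V → Prop}, AE32.Tour R →
      ∀ {X U K : Finset V} {𝓛 : Finset (Finset V)} {J : ℕ} {ζ k lam τ ν : ℝ} (F s : Fd),
      ThickD R X U K 𝓛 (blk s + c₁) ω ζ k lam τ ν → 𝓛.card ≤ J → k₀ ≤ k → k ≤ 1 → 0 ≤ ν → 32 * ν ≤ ω →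
      J * ν + ζ ≤ θ / 4 → 0 < τ → 16 * (g * ((J + 1) * τ + ζ)) ≤ θ → 64 * (g * τ) ≤ ω → 16 * (g * τ) ≤ k →
      (Fd.node true F s).len ≤ b → (Fd.node true F s).Deg b → θ * X.card ≤ (F.size + 1 : ℝ) →
      (Fd.node true F s).size + 1 + C ≤ X.card → U.card ≤ blk s + c₁ + m₀ → ∀ (E Q : Finset V) (f : V),
      E ⊆ X \ U → E.card ≤ e → Q ⊆ X \ U → (Q.card : ℝ) ≤ d₀ * X.card → k / 2 * X.card ≤ ((nI R K f).card : ℝ) →
      ∃ (y : V) (Z : Finset V) (G : List (V × Bool × Fd)), y ∈ X \ U ∧ y ∉ E ∧ y ∉ Q ∧ R y f ∧ Z ⊆ X ∧ y ∉ Z ∧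
        (∀ a ∈ Z, a ∉ E ∧ a ∉ Q) ∧ (U \ Z).card ≤ C₃ ∧ PGq R (.node true F s) y Z (G ++ [(y, true, F)]) ∧
        ∀ q ∈ G, q.2.1 = true ∧ q.1 ∈ U ∧ q.2.2.len ≤ b ∧ q.2.2.Deg b := by
  obtain ⟨ρ, C₂, m₁, hρ, hdual⟩ := dual b hb
  have hρ1 : 0 < 1 / ρ := by positivity
  refine ⟨1 + 1 / ρ, by linarith, ?_⟩
  intro ω k₀ hω hω1 hk₀
  obtain ⟨n₂, hW⟩ := t1_W b hb hθ hω hω1 hk₀
  obtain ⟨d₀, hd₀⟩ : ∃ d₀ : ℝ, d₀ = min (θ / 16) (min (ω / 64) (k₀ / 16)) := ⟨_, rfl⟩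
  have d0 : 0 < d₀ := by rw [hd₀]; exact lt_min (by positivity) (lt_min (by positivity) (by positivity))
  have d1 : d₀ ≤ θ / 16 := by rw [hd₀]; exact min_le_left _ _
  have d2 : d₀ ≤ ω / 64 := by rw [hd₀]; exact (min_le_right _ _).trans (min_le_left _ _)
  have d3 : d₀ ≤ k₀ / 16 := by rw [hd₀]; exact (min_le_right _ _).trans (min_le_right _ _)
  refine ⟨d₀, d0, ?_⟩
  intro c₁ m₀ e
  obtain ⟨C₄, hC₄⟩ : ∃ C₄, C₄ = C₂ + c₁ + m₀ + 1 := ⟨_, rfl⟩
  obtain ⟨M₁, hM₁⟩ : ∃ M₁, M₁ = m₁ + 2 * C₄ := ⟨_, rfl⟩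
  obtain ⟨n₃, hn₃⟩ := exists_nat_ge (64 * ((e : ℝ) + 1 + (C₄ + M₁ : ℕ)) / ω + 16 * (e : ℝ) / k₀)
  refine ⟨e + C₄ + M₁ + n₂ + n₃, M₁, ?_⟩
  intro V R hT X U K 𝓛 J ζ k lam τ ν F s hD hJ hk0 hk1 hν hνω hJν hτ hg1 hg2 hg3 hl hdeg hF hcard hU E Q f hE hEe hQ hQd
    hf
  have hsize : (Fd.node true F s).size = F.size + s.size + 1 := rfl
  have hbs : blk s ≤ s.size := by
    have := AEJ.dcl_add_blk_le s
    omega
  have hX0 : (0 : ℝ) ≤ X.card := Nat.cast_nonneg _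
  have hn₃' : (n₃ : ℝ) ≤ X.card := by exact_mod_cast (by omega : n₃ ≤ X.card)
  have q1 : (0 : ℝ) ≤ 64 * ((e : ℝ) + 1 + (C₄ + M₁ : ℕ)) / ω := by positivity
  have q2 : (0 : ℝ) ≤ 16 * (e : ℝ) / k₀ := by positivity
  have r1 : 64 * ((e : ℝ) + 1 + (C₄ + M₁ : ℕ)) ≤ ω * X.card := by
    have : 64 * ((e : ℝ) + 1 + (C₄ + M₁ : ℕ)) / ω ≤ X.card := by linarith
    rwa [div_le_iff₀' hω] at this
  have r2 : 16 * (e : ℝ) ≤ k₀ * X.card := by
    have : 16 * (e : ℝ) / k₀ ≤ X.card := by linarith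
    rwa [div_le_iff₀' hk₀] at this
  have hKX : (K.card : ℝ) ≤ X.card := by exact_mod_cast card_le_card hD.subK
  have hKge := hD.exK
  have e0 : (0 : ℝ) ≤ e := Nat.cast_nonneg _
  have cm0 : (0 : ℝ) ≤ ((C₄ + M₁ : ℕ) : ℝ) := Nat.cast_nonneg _
  have hK2 : 2 ≤ K.card := by
    have : (2 : ℝ) ≤ K.card := by linarith
    exact_mod_cast this
  have hgτ : τ ≤ (1 + 1 / ρ) * τ := by nlinarith
  have hKU : ∀ v ∈ K, v ∉ U := fun v hv hvU => hD.disK hτ (by linarith) hK2 hvU hv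
  have hlo := hD.lo
  have hUX : (U.card : ℝ) ≤ X.card := by exact_mod_cast card_le_card hD.subU
  by_cases hUM : M₁ ≤ U.card
  · -- `U` is large: a part of the in-closure is placed into `U`
    obtain ⟨m, hm⟩ : ∃ m, m = U.card - C₄ := ⟨_, rfl⟩
    have hmU : m + C₄ = U.card := by omega
    obtain ⟨c', I, h1, -, h3, h4, h5, h6, h7, h8, h9⟩ := select_out (b := b) (m := m) (c := .node true F s) (F := F) hl
      hdeg (by simp only [blk, if_true, Nat.zero_add]; omega) (by simp [Fd.trees])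
    simp only [blk, if_true, Nat.zero_add] at h1
    obtain ⟨x', hx'U, hx'⟩ := hdual hT U (by omega)
    obtain ⟨P, hP⟩ : ∃ P : V → Prop, ∀ h, P h ↔ (R x' h ∧ ((U.filter (fun u => ¬ R u h)).card : ℝ) ≤ ρ * U.card) :=
      ⟨fun h => R x' h ∧ ((U.filter (fun u => ¬ R u h)).card : ℝ) ≤ ρ * U.card, fun h => Iff.rfl⟩
    have hPK : ((K.filter (fun v => ¬ P v)).card : ℝ) ≤ (1 + 1 / ρ) * τ * K.card := by
      have h10 := good_hosts (R := R) (T := K) hx'U hρ (fun u hu => hD.missK hT hτ (by linarith) hK2 hu)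
      have h11 : τ * K.card + τ * K.card / ρ = (1 + 1 / ρ) * τ * K.card := by ring
      rw [← h11]
      refine le_trans ?_ h10
      rw [Nat.cast_le]
      refine card_le_card (fun v hv => ?_)
      rw [mem_filter] at hv ⊢
      rwa [hP] at hv
    have hPY : (((X \ U).filter (fun v => ¬ P v)).card : ℝ) ≤ (1 + 1 / ρ) * ((J + 1) * τ + ζ) * X.card := by
      have h10 := good_hosts (R := R) (T := X \ U) hx'U hρ (fun u hu => hD.missY hT hτ.le hJ hu)
      have h11 : ((J + 1) * τ + ζ) * X.card + ((J + 1) * τ + ζ) * X.card / ρ =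
          (1 + 1 / ρ) * ((J + 1) * τ + ζ) * X.card := by ring
      rw [← h11]
      refine le_trans ?_ h10
      rw [Nat.cast_le]
      refine card_le_card (fun v hv => ?_)
      rw [mem_filter] at hv ⊢
      rwa [hP] at hv
    have hPK' : (1 + 1 / ρ) * τ * K.card ≤ (1 + 1 / ρ) * τ * X.card :=
      mul_le_mul_of_nonneg_left hKX (by positivity)
    have g1 : 16 * ((1 + 1 / ρ) * ((J + 1) * τ + ζ)) * X.card ≤ θ * X.card := mul_le_mul_of_nonneg_right hg1 hX0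
    have g2 : 64 * ((1 + 1 / ρ) * τ) * X.card ≤ ω * X.card := mul_le_mul_of_nonneg_right hg2 hX0
    have g3 : 16 * ((1 + 1 / ρ) * τ) * X.card ≤ k * X.card := mul_le_mul_of_nonneg_right hg3 hX0
    have hsum : m ≤ (I.map (fun t => t.size + 1)).sum := by
      rw [← h3]
      apply List.sum_le_sum
      intro t _
      have := AEJ.dcl_add_blk_le t
      omega
    have hs1 : (c'.size + 1) + (F.size + 1) + U.card + e ≤ X.card := by omega
    have hs1' : (c'.size + 1 : ℝ) + (F.size + 1) + U.card + e ≤ X.card := by exact_mod_cast hs1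
    have hs2 : (blk c' : ℝ) + m = blk s := by exact_mod_cast h1
    have hs3 : (m : ℝ) + C₄ = U.card := by exact_mod_cast hmU
    have c10 : (0 : ℝ) ≤ c₁ := Nat.cast_nonneg _
    have M10 : (0 : ℝ) ≤ M₁ := Nat.cast_nonneg _
    obtain ⟨y, hyX, hyE, hyQ, hyP, hyf, S, hS, hyS, hES⟩ := hW hT (E := E) (Q := Q) (e := e) (A := C₄ + M₁) (d₀ := d₀)
      (P := P) hD hJ hk0 hk1 hν hνω hJν (by omega) d1 (by linarith) (by linarith) r1 r2 hEe hQd hKU (by linarith)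
      (by linarith) (by linarith) c' (by omega) h6 (by linarith) (by push_cast at hlo ⊢; linarith) f hf
    obtain ⟨G, hG1, hG2, hG3⟩ := h9 hES
    have hSX : ∀ a ∈ S, a ∈ X \ U := fun a ha => (hS a ha).1
    have hhost : ∀ q ∈ G, q.1 ∉ U ∧ P q.1 := by
      intro q hq
      rcases (hG2 q hq).2 with h | h
      · rw [h]
        exact ⟨(mem_sdiff.1 hyX).2, hyP⟩
      · exact ⟨(mem_sdiff.1 (hS _ h).1).2, (hS _ h).2.2.2⟩
    have hmapI : (G.map (fun q => (q.1, q.2.2))).map (fun q : V × Fd => blk q.2 + 1) = I.map (fun t => blk t + 1) := by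
      rw [← hG1, List.map_map, List.map_map]
      rfl
    obtain ⟨D, hDU, hED⟩ := hx' (G.map (fun q => (q.1, q.2.2))) (by
      intro q hq
      obtain ⟨r, hr, rfl⟩ := List.mem_map.1 hq
      obtain ⟨h10, h11⟩ := hhost r hr
      rw [hP] at h11
      have h12 : r.2.2 ∈ I := by rw [← hG1]; exact List.mem_map_of_mem hr
      exact ⟨h10, (h7 _ h12).1, (h7 _ h12).2, h11.1, h11.2⟩) (by rw [hmapI, h3]; omega) (by rw [hmapI, h3]; omega) (by
      obtain ⟨t, I', hI', hmt⟩ := h8 (by omega)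
      have h12 : t ∈ G.map (fun q => q.2.2) := by rw [hG1, hI']; exact List.mem_cons_self
      obtain ⟨r, hr, hrt⟩ := List.mem_map.1 h12
      refine ⟨(r.1, r.2.2), List.mem_map.2 ⟨r, hr, rfl⟩, ?_⟩
      rw [hmapI, h3]
      simp only [hrt]
      calc m ≤ b * (blk t + 1) := hmt
        _ ≤ 2 * (b * (blk t + 1)) := by omega
        _ = 2 * b * (blk t + 1) := by ring)
    have hmapG : (G.map (fun q => (q.1, q.2.2))).map (fun q : V × Fd => (q.1, false, prIn q.2)) =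
        G.map (fun q => (q.1, q.2.1, prIn q.2.2)) := by
      rw [List.map_map]
      apply List.map_congr_left
      intro q hq
      have h10 := (hG2 q hq).1
      simp only [Function.comp, h10]
    rw [hmapG] at hED
    have hSD : Disjoint S D := by
      rw [disjoint_left]
      intro a ha haD
      exact (mem_sdiff.1 (hSX a ha)).2 (hDU haD)
    obtain ⟨L', hL1, hL2, hL3⟩ := hG3.fillIn hED hSD
    have hDc : D.card = m := by
      rw [hED.card, gsz, List.map_map, ← h3, ← hG1, List.map_map]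
      congr 1
      apply List.map_congr_left
      intro q _
      simp only [Function.comp, blk_prIn]
    refine ⟨y, S ∪ D, L', hyX, hyE, hyQ, hyf, ?_, ?_, ?_, ?_, hL1, ?_⟩
    · refine union_subset (fun a ha => (mem_sdiff.1 (hSX a ha)).1) (hDU.trans hD.subU)
    · rw [mem_union, not_or]
      exact ⟨hyS, fun h => (mem_sdiff.1 hyX).2 (hDU h)⟩
    · intro a ha
      rcases mem_union.1 ha with h | h
      · exact ⟨(hS a h).2.1, (hS a h).2.2.1⟩
      · exact ⟨fun h' => (mem_sdiff.1 (hE h')).2 (hDU h), fun h' => (mem_sdiff.1 (hQ h')).2 (hDU h)⟩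
    · have h10 : (U \ D).card + D.card = U.card := card_sdiff_add_card_eq_card hDU
      have h11 : (U \ (S ∪ D)).card ≤ (U \ D).card := card_le_card (sdiff_subset_sdiff (Subset.refl _) subset_union_right)
      omega
    · intro q hq
      obtain ⟨h10, h11⟩ := hL2 q hq
      obtain ⟨h12, h13⟩ := hL3 b (fun r hr => by
        have h14 : r.2.2 ∈ I := by rw [← hG1]; exact List.mem_map_of_mem hr
        exact h7 _ h14) q hq
      exact ⟨h10, hDU h11, h12, h13⟩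
  · -- `U` is small
    push Not at hUM
    have hs1 : (s.size + 1) + (F.size + 1) + U.card + e ≤ X.card := by omega
    have hs1' : (s.size + 1 : ℝ) + (F.size + 1) + U.card + e ≤ X.card := by exact_mod_cast hs1
    have hUM' : (U.card : ℝ) ≤ M₁ := by exact_mod_cast hUM.le
    have c10 : (0 : ℝ) ≤ c₁ := Nat.cast_nonneg _
    have C40 : (0 : ℝ) ≤ C₄ := Nat.cast_nonneg _
    have hkn : 0 ≤ k * X.card := mul_nonneg (hk₀.le.trans hk0) hX0
    obtain ⟨y, hyX, hyE, hyQ, -, hyf, S, hS, hyS, hES⟩ := hW hT (E := E) (Q := Q) (e := e) (A := C₄ + M₁) (d₀ := d₀)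
      (P := fun _ => True) hD hJ hk0 hk1 hν hνω hJν (by omega) d1 (by linarith) (by linarith) r1 r2 hEe hQd hKU
      (by simpa using by positivity) (by simpa using hkn) (by simpa using by positivity) s
      (by simp only [Fd.len] at hl; omega) hdeg.2.2 (by linarith) (by push_cast at hlo ⊢; linarith) f hf
    refine ⟨y, S, [], hyX, hyE, hyQ, hyf, fun a ha => (mem_sdiff.1 (hS a ha).1).1, hyS, fun a ha => ⟨(hS a ha).2.1,
      (hS a ha).2.2.1⟩, (card_le_card sdiff_subset).trans hUM.le, ?_, by simp⟩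
    exact (PGq.ofEmb hES).pend (p := (true, F)) (List.Perm.refl _)

end AESF
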