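import Pool.Agent.AESF.T2
import Pool.Agent.AESF.T2P
import Pool.Agent.AESF.T1Root
import Pool.Agent.AESF.Route1
import Pool.Agent.AESF.DefsP

/-!
# Free path ends: case T1
-/

set_option autoImplicit false

namespace AESF

open Finset AE15 AED AELT AEB
open scoped Classical

/-- **Case T1 for a bare path** -/
theorem t1P (b : ℕ) (hb : 1 ≤ b) {θ : ℝ} (hθ : 0 < θ) : ∃ ω₀ : ℝ, 0 < ω₀ ∧ ∀ ω : ℝ, 0 < ω → ω ≤ ω₀ →
    ∃ ζ₀ : ℝ, 0 < ζ₀ ∧ ∀ ζ : ℝ, ζ ≤ ζ₀ → ∀ (lam : ℝ) (J : ℕ), 0 < lam → ∃ a₁₀ : ℝ, 0 < a₁₀ ∧ ∀ a₁ : ℝ, 0 < a₁ → a₁ ≤ a₁₀ →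
    ∃ a₂₀ : ℝ, 0 < a₂₀ ∧ ∀ a₂ : ℝ, 0 < a₂ → a₂ ≤ a₂₀ → ∀ k₀ : ℝ, 0 < k₀ → ∀ c₁ m₀ : ℕ,
    ∃ (N e : ℕ) (τb d : ℝ), 1 ≤ N ∧ 0 < τb ∧ 0 < d ∧ ∀ (I₀ : Fd → Prop) (nb Cb : ℕ), Bx N e τb d I₀ nb Cb → ∃ C : ℝ,
    ∀ {V : Type} {R : V → V → Prop}, AE32.Tour R → ∀ (X U K : Finset V) (𝓛 : Finset (Finset V)) (k : ℝ), k₀ ≤ k → k ≤ 1 →
      𝓛.card ≤ J → ∀ F s₀ : Fd, (Fd.node true F s₀).len ≤ b → (Fd.node true F s₀).Deg b → Top3 I₀ F →
      θ * X.card ≤ (F.size + 1 : ℝ) → ((Fd.node true F s₀).size + 1 : ℝ) + C ≤ X.card →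
      ThickD R X U K 𝓛 (blk s₀ + c₁) ω ζ k lam (a₁ * k ^ 2) (a₂ * k ^ 2) →
      U.card ≤ blk s₀ + c₁ + m₀ → In R (.node true F s₀) (fun _ => True) X := by
  obtain ⟨g, hg, hroot⟩ := t1_root b hb hθ
  have hg0 : 0 < g := by linarith
  refine ⟨1, one_pos, ?_⟩
  intro ω hω hω1
  refine ⟨min (θ / (32 * g)) (θ ^ 2 / 128), lt_min (by positivity) (by positivity), ?_⟩
  intro ζ hζ lam J hlam
  have hζ1 : g * ζ ≤ θ / 32 := by
    have h1 : ζ ≤ θ / (32 * g) := hζ.trans (min_le_left _ _)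
    rw [le_div_iff₀ (by positivity)] at h1
    linarith
  have hζ2 : ζ ≤ θ ^ 2 / 128 := hζ.trans (min_le_right _ _)
  have hζ3 : ζ ≤ θ / 32 := by
    by_cases h : 0 ≤ ζ
    · exact (le_mul_of_one_le_left h hg).trans hζ1
    · push Not at h
      have : 0 < θ / 32 := by positivity
      linarith
  have hJ0 : (0 : ℝ) ≤ J := Nat.cast_nonneg _
  obtain ⟨B, hB⟩ : ∃ B : ℝ, B = min (min (θ / 32) (ω / 64)) (min (1 / 16) (θ ^ 2 / 128)) := ⟨_, rfl⟩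
  have B0 : 0 < B := by
    rw [hB]
    exact lt_min (lt_min (by positivity) (by positivity)) (lt_min (by norm_num) (by positivity))
  have B1 : B ≤ θ / 32 := by rw [hB]; exact (min_le_left _ _).trans (min_le_left _ _)
  have B2 : B ≤ ω / 64 := by rw [hB]; exact (min_le_left _ _).trans (min_le_right _ _)
  have B3 : B ≤ 1 / 16 := by rw [hB]; exact (min_le_right _ _).trans (min_le_left _ _)
  have B4 : B ≤ θ ^ 2 / 128 := by rw [hB]; exact (min_le_right _ _).trans (min_le_right _ _)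
  refine ⟨B / (g * (J + 1)), by positivity, ?_⟩
  intro a₁ ha₁ ha₁'
  have ha₁B : g * (J + 1) * a₁ ≤ B := by
    rw [le_div_iff₀ (by positivity)] at ha₁'
    linarith
  have ha₁g : g * a₁ ≤ B := by
    have h1 := mul_nonneg (mul_nonneg hg0.le hJ0) ha₁.le
    linarith only [h1, ha₁B]
  have ha₁J : (J + 1) * a₁ ≤ B := by
    have h1 : (J + 1) * a₁ ≤ g * ((J + 1) * a₁) := le_mul_of_one_le_left (by positivity) hg
    linarith only [h1, ha₁B]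
  have ha₁1 : a₁ ≤ B := (le_mul_of_one_le_left ha₁.le hg).trans ha₁g
  refine ⟨min (min (ω / 32) (θ / (8 * (J + 1)))) (a₁ * lam / 8), by positivity, ?_⟩
  intro a₂ ha₂ ha₂' k₀ hk₀ c₁ m₀
  have ha₂1 : a₂ ≤ ω / 32 := ha₂'.trans ((min_le_left _ _).trans (min_le_left _ _))
  have ha₂2 : (J + 1) * a₂ ≤ θ / 8 := by
    have h1 : a₂ ≤ θ / (8 * (J + 1)) := ha₂'.trans ((min_le_left _ _).trans (min_le_right _ _))
    rw [le_div_iff₀ (by positivity)] at h1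
    linarith
  have ha₂3 : a₂ ≤ a₁ * lam / 8 := ha₂'.trans (min_le_right _ _)
  obtain ⟨d₀, hd₀, hroot⟩ := hroot hω hω1 hk₀
  obtain ⟨N₁, hone⟩ := route_one 1 J (ω := ω) (τ₀ := a₁ * k₀ ^ 2) (lam := lam) hω (by positivity) hlam
  obtain ⟨N, hN⟩ : ∃ N, N = N₁ + 1 := ⟨_, rfl⟩
  obtain ⟨e, he⟩ : ∃ e, e = N + 1 := ⟨_, rfl⟩
  obtain ⟨no, hone⟩ := hone e
  obtain ⟨ng, hgarb⟩ := garbG b hb (θ := θ / 4) (by positivity)
  obtain ⟨C', C₃, hroot⟩ := hroot c₁ m₀ e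
  obtain ⟨nr, hnr⟩ := exists_nat_ge (4 * (ng : ℝ) / θ + 4 * (e + 3 : ℝ) / θ)
  refine ⟨N, e, θ / 2, min d₀ (θ / 16), by omega, by positivity, lt_min hd₀ (by positivity), ?_⟩
  intro I₀ nb Cb hbox
  refine ⟨((C' + C₃ + no + nb + Cb + nr + e + c₁ + m₀ : ℕ) : ℝ), ?_⟩
  intro V R hT X U K 𝓛 k hk0 hk1 hJ F s₀ hl hD hF hθF hcard' hC hU
  have hcard : (Fd.node true F s₀).size + 1 + (C' + C₃ + no + nb + Cb + nr + e + c₁ + m₀) ≤ X.card := by
    exact_mod_cast hcard'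
  have hsize : (Fd.node true F s₀).size = F.size + s₀.size + 1 := rfl
  have hbs : blk s₀ ≤ s₀.size := by
    have := AEJ.dcl_add_blk_le s₀
    omega
  obtain ⟨n, hn⟩ : ∃ n : ℝ, n = (X.card : ℝ) := ⟨_, rfl⟩
  have hn0 : 0 ≤ n := by rw [hn]; exact Nat.cast_nonneg _
  have hnr' : 4 * (ng : ℝ) / θ + 4 * (e + 3 : ℝ) / θ ≤ n := by
    have h1 : nr ≤ X.card := by omega
    have h2 : (nr : ℝ) ≤ n := by rw [hn]; exact_mod_cast h1
    exact hnr.trans h2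
  have q1 : (0 : ℝ) ≤ 4 * (ng : ℝ) / θ := by positivity
  have q2 : (0 : ℝ) ≤ 4 * (e + 3 : ℝ) / θ := by positivity
  have r1 : 4 * (ng : ℝ) ≤ θ * n := by
    have : 4 * (ng : ℝ) / θ ≤ n := by linarith only [hnr', q2]
    rwa [div_le_iff₀' hθ] at this
  have r2 : 4 * (e + 3 : ℝ) ≤ θ * n := by
    have : 4 * (e + 3 : ℝ) / θ ≤ n := by linarith only [hnr', q1]
    rwa [div_le_iff₀' hθ] at this
  have hkpos : 0 < k := lt_of_lt_of_le hk₀ hk0
  have hk2 : k ^ 2 ≤ k := by rw [sq]; exact mul_le_of_le_one_right hkpos.le hk1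
  have hk3 : k₀ ^ 2 ≤ k ^ 2 := pow_le_pow_left₀ hk₀.le hk0 2
  have hk5 : 0 < k ^ 2 := by positivity
  have hk6 : k ^ 2 ≤ 1 := hk2.trans hk1
  obtain ⟨τ, hτ⟩ : ∃ τ : ℝ, τ = a₁ * k ^ 2 := ⟨_, rfl⟩
  obtain ⟨ν, hν⟩ : ∃ ν : ℝ, ν = a₂ * k ^ 2 := ⟨_, rfl⟩
  rw [← hτ, ← hν] at hC
  have τ0 : 0 < τ := by rw [hτ]; positivity
  have ν0 : 0 ≤ ν := by rw [hν]; positivity
  have τ1 : τ ≤ a₁ := by rw [hτ]; exact mul_le_of_le_one_right ha₁.le hk6
  have τ2 : τ ≤ a₁ * k := by rw [hτ]; exact mul_le_mul_of_nonneg_left hk2 ha₁.le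
  have ν1 : ν ≤ a₂ := by rw [hν]; exact mul_le_of_le_one_right ha₂.le hk6
  have τg : g * τ ≤ B * k := by
    have h1 : g * τ ≤ g * (a₁ * k) := mul_le_mul_of_nonneg_left τ2 hg0.le
    have h2 : g * a₁ * k ≤ B * k := mul_le_mul_of_nonneg_right ha₁g hkpos.le
    linarith only [h1, h2]
  have τg' : g * τ ≤ B := τg.trans (mul_le_of_le_one_right B0.le hk1)
  have τJ : (J + 1) * τ ≤ B := by
    have h1 : (J + 1) * τ ≤ (J + 1) * a₁ := mul_le_mul_of_nonneg_left τ1 (by positivity)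
    linarith only [h1, ha₁J]
  have τgJ : g * ((J + 1) * τ) ≤ B := by
    have h1 : g * (J + 1) * τ ≤ g * (J + 1) * a₁ := mul_le_mul_of_nonneg_left τ1 (by positivity)
    linarith only [h1, ha₁B]
  have τk : τ ≤ B * k := by
    have h2 : a₁ * k ≤ B * k := mul_le_mul_of_nonneg_right ha₁1 hkpos.le
    linarith only [h2, τ2]
  have hBk : B * k ≤ 1 / 16 * k := mul_le_mul_of_nonneg_right B3 hkpos.le
  have hJν : J * ν + ζ ≤ θ / 4 := by
    have h1 : (J : ℝ) * ν ≤ J * a₂ := mul_le_mul_of_nonneg_left ν1 hJ0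
    linarith only [h1, ha₂2, ha₂, hζ3, hθ]
  have hmissθ : (J + 1) * τ + ζ ≤ θ ^ 2 / 64 := by linarith only [τJ, hζ2, B4]
  have hτ₀ : a₁ * k₀ ^ 2 ≤ τ := by rw [hτ]; exact mul_le_mul_of_nonneg_left hk3 ha₁.le
  have hν8 : 8 * ν ≤ τ * lam := by
    rw [hν, hτ]
    have : 8 * a₂ * k ^ 2 ≤ a₁ * lam * k ^ 2 := mul_le_mul_of_nonneg_right (by linarith only [ha₂3]) hk5.le
    linarith only [this]
  -- the hosts
  obtain ⟨Y, hY⟩ : ∃ Y, Y = X \ U := ⟨_, rfl⟩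
  have hYc : Y.card + U.card = X.card := by rw [hY]; exact card_sdiff_add_card_eq_card hC.subU
  have hYn : (Y.card : ℝ) ≤ n := by rw [hn]; exact_mod_cast (by omega : Y.card ≤ X.card)
  obtain ⟨x, hxY, hxi, hbx⟩ := hbox hT Y (by omega)
  obtain ⟨I, hI⟩ : ∃ I, I = (range N).image x := ⟨_, rfl⟩
  have hIc : I.card = N := by
    rw [hI, card_image_of_injOn, card_range]
    intro i hi j hj hij
    exact hxi i (mem_range.1 hi) j (mem_range.1 hj) hij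
  have hIY : I ⊆ Y := by
    intro a ha
    rw [hI, mem_image] at ha
    obtain ⟨i, hi, rfl⟩ := ha
    exact hxY i (mem_range.1 hi)
  obtain ⟨f, hfX, hfU, hfI, hfN, hfK⟩ := hone hT hC hJ hτ₀ (by linarith only [τ1, ha₁1, B3]) (by linarith only [τk, hBk, hkpos])
    (by linarith only [ν1, ha₂1, hω]) hν8 (by omega)
    (Fb := I) (Q := I) (by omega) (by rw [← hY]; exact hIY) (by omega)
  obtain ⟨z, hz⟩ := card_pos.1 (Nat.lt_of_lt_of_le Nat.zero_lt_one hfN)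
  rw [mem_filter] at hz
  obtain ⟨hzI, hfz⟩ := hz
  have hfY : f ∈ Y := by rw [hY]; exact mem_sdiff.2 ⟨hfX, hfU⟩
  have hfz' : f ≠ z := fun h => hfI (h ▸ hzI)
  obtain ⟨E, hE⟩ : ∃ E, E = insert f I := ⟨_, rfl⟩
  have hEY : E ⊆ Y := by rw [hE]; exact insert_subset hfY hIY
  have hEc : E.card ≤ e := by
    rw [hE]
    have := card_insert_le f I
    omega
  have hIE : I ⊆ E := by rw [hE]; exact subset_insert _ _
  have hfE : f ∈ E := by rw [hE]; exact mem_insert_self _ _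
  obtain ⟨Q, hQ, hQc, hQP⟩ := hbx E hEY hEc (fun i hi => by
    apply hIE
    rw [hI]
    exact mem_image_of_mem x (mem_range.2 hi))
  have hQY : Q ⊆ Y := hQ.trans sdiff_subset
  have hQd : (Q.card : ℝ) ≤ d₀ * X.card := by
    have h1 : min d₀ (θ / 16) * (Y.card : ℝ) ≤ d₀ * Y.card := mul_le_mul_of_nonneg_right (min_le_left _ _) (Nat.cast_nonneg _)
    have h2 : d₀ * (Y.card : ℝ) ≤ d₀ * X.card := mul_le_mul_of_nonneg_left (by rw [← hn]; exact hYn) hd₀.le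
    linarith only [h1, h2, hQc]
  have hQθ : (Q.card : ℝ) ≤ θ / 16 * n := by
    have h1 : min d₀ (θ / 16) * (Y.card : ℝ) ≤ θ / 16 * Y.card :=
      mul_le_mul_of_nonneg_right (min_le_right _ _) (Nat.cast_nonneg _)
    have h2 : θ / 16 * (Y.card : ℝ) ≤ θ / 16 * n := mul_le_mul_of_nonneg_left hYn (by positivity)
    linarith only [h1, h2, hQc]
  -- the root
  obtain ⟨y, Z, G, hyXU, hyE, hyQ, hyf, hZX, hyZ, hZ, hUZ, hPG, hG⟩ := hroot hT F s₀ hC hJ hk0 hk1 ν0 (by linarith only [ν1, ha₂1])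
    hJν τ0 (by linarith only [τgJ, hζ1, B1]) (by linarith only [τg', B2]) (by linarith only [τg, hBk]) hl hD hθF (by omega) hU E Q f (by rw [← hY]; exact hEY) hEc
    (by rw [← hY]; exact hQY) hQd hfK
  obtain ⟨hyX, hyU⟩ := mem_sdiff.1 hyXU
  obtain ⟨f₁, f₂, f₃, hFc, hf₁, hf₂, i1, i2, i3⟩ := hF
  have z1 : f₁.size + 1 = F.size := by rw [hFc]; rfl
  have z2 : f₂.size + 1 = f₁.size := by rw [hf₁]; rfl
  have w1 : (f₁.size : ℝ) + 1 = F.size := by exact_mod_cast z1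
  have w2 : (f₂.size : ℝ) + 1 = f₁.size := by exact_mod_cast z2
  have hFn : θ * n ≤ F.size + 1 := by rw [hn]; exact hθF
  have hPGF : PGq R F f {z} [(z, true, f₂)] := by
    rw [hFc]
    have h1 : PGq R f₁ z ∅ [(z, true, f₂)] := by
      rw [hf₁]
      exact bare_pend f₂ z
    have h2 := bare_place hfz (notMem_empty z) h1
    rwa [insert_empty_eq] at h2
  have hPG' : PGq R (.node true F s₀) y (Z ∪ insert f {z}) ([(z, true, f₂)] ++ G) := by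
    have h1 : PGq R (.node true F s₀) y Z ((y, true, F) :: G) := hPG.perm (by
      have := List.perm_append_comm (l₁ := G) (l₂ := [(y, true, F)])
      simp)
    refine h1.bind (x := f) (A := {z}) (by simpa [Adj] using hyf) (by rw [mem_singleton]; exact hfz')
      (fun h => (hZ f h).1 hfE) ?_ hPGF
    rw [disjoint_singleton_right]
    exact fun h => (hZ z h).1 (hIE hzI)
  have hisz : isz [(z, f₂)] = f₂.size + 1 := by simp [AEB.isz]
  have hmYt : ∀ a, a ∈ (X \ (U ∪ Z)).erase y ↔ a ≠ y ∧ a ∈ X ∧ a ∉ U ∧ a ∉ Z := by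
    intro a
    rw [mem_erase, mem_sdiff, mem_union, not_or]
  have hYtY : (X \ (U ∪ Z)).erase y ⊆ Y := by
    intro a ha
    rw [hmYt] at ha
    rw [hY]
    exact mem_sdiff.2 ⟨ha.2.1, ha.2.2.1⟩
  refine t2_finish (P₁ := U ∪ Z) (S := Z) (Zr := insert f {z}) (E := E) (Q := Q) (L := [(z, f₂)]) (G := G)
    (σ := θ / 4 * n) (t := Z.card) (C₁ := Cb) (C₂ := C₃) hyX (union_subset hC.subU hZX) ?_ rfl hZX hyZ ?_ ?_ ?_ ?_ hPG'
    ?_ ?_ ?_ rfl ?_ ?_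
  · rw [mem_union, not_or]
    exact ⟨hyU, hyZ⟩
  · intro a ha
    rw [mem_sdiff, mem_union, not_or] at ha
    exact absurd ha.1 ha.2.2
  · intro a ha
    rw [mem_insert, mem_singleton] at ha
    rcases ha with rfl | rfl
    · exact hfE
    · exact hIE hzI
  · intro a ha
    have h1 := hEY ha
    rw [hY, mem_sdiff] at h1
    rw [hmYt]
    exact ⟨fun h => hyE (h ▸ ha), h1.1, h1.2, fun h => (hZ a h).1 ha⟩
  · intro a ha
    have h1 := hQY ha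
    rw [hY, mem_sdiff] at h1
    rw [mem_sdiff, hmYt]
    exact ⟨⟨fun h => hyQ (h ▸ ha), h1.1, h1.2, fun h => (hZ a h).2 ha⟩, (mem_sdiff.1 (hQ ha)).2⟩
  · intro P hP hPE hQP' hsz
    rw [hisz] at hsz
    obtain ⟨i, hi, rfl⟩ : ∃ i < N, z = x i := by
      rw [hI, mem_image] at hzI
      obtain ⟨i, hi, h⟩ := hzI
      exact ⟨i, mem_range.1 hi, h.symm⟩
    refine hQP P (hP.trans hYtY) hPE hQP' i hi f₂ i2 ?_ hsz
    have h1 : θ / 2 * (Y.card : ℝ) ≤ θ / 2 * n := mul_le_mul_of_nonneg_left hYn (by positivity)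
    have e0 : (0 : ℝ) ≤ e := Nat.cast_nonneg _
    linarith
  · intro W hW hsz
    have hWY : W ⊆ X \ U := by rw [← hY]; exact hW.trans hYtY
    have hWn : (W.card : ℝ) ≤ n := by
      rw [hn]
      exact_mod_cast card_le_card (hWY.trans sdiff_subset)
    refine hgarb hT G W (θ / 4 * n) (by linarith) (mul_le_mul_of_nonneg_left hWn (by positivity)) hsz ?_
    intro q hq
    obtain ⟨g1, g2, g3, g4⟩ := hG q hq
    refine ⟨g1, g3, g4, ?_⟩
    have h1 : ((W.filter (fun v => ¬ R q.1 v)).card : ℝ) ≤ (((X \ U).filter (fun v => ¬ R q.1 v)).card : ℝ) := by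
      exact_mod_cast card_le_card (filter_subset_filter _ hWY)
    have h2 := hC.missY hT τ0.le hJ g2
    rw [← hn] at h2
    have h3 : ((J + 1) * τ + ζ) * n ≤ θ ^ 2 / 64 * n := mul_le_mul_of_nonneg_right hmissθ hn0
    have h4 : θ / 4 / 4 * (θ / 4 * n) = θ ^ 2 / 64 * n := by ring
    rw [h4]
    linarith
  · rw [hisz]
    push_cast
    have h1 : (E.card : ℝ) ≤ e := by exact_mod_cast hEc
    have e0 : (0 : ℝ) ≤ e := Nat.cast_nonneg _
    linarith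
  · have := card_sdiff_add_card (s := U) (t := Z)
    omega
  · omega

end AESF
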