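import Pool.Agent.AESF.DefsX
import Pool.Agent.AER.Bcast

/-!
# Free ends: the first three levels of a branch (list version)
-/

set_option autoImplicit false

namespace AESF

open Finset AE15 AED AEB
open scoped Classical

/-- the first three levels of the tree with children forest `F` point away from the root, all trees in them are in the
class `I`, and the heavy chain is in the class `H` -/
structure Top3X (b : ℕ) (I H : Fd → Prop) (F : Fd) : Prop where
  len : F.len ≤ b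
  t1 : ∀ p ∈ F.trees, p.1 = true ∧ p.2.len ≤ b ∧ p.2.Deg b ∧ I p.2
  t2 : ∀ p ∈ F.trees, ∀ q ∈ p.2.trees, q.1 = true ∧ q.2.len ≤ b ∧ q.2.Deg b ∧ I q.2
  t3 : ∀ p ∈ F.trees, ∀ q ∈ p.2.trees, ∀ r ∈ q.2.trees, r.1 = true ∧ r.2.len ≤ b ∧ r.2.Deg b ∧ I r.2
  heavy : ∃ c₁ c₂ c₃ : Fd, F.hv = some (true, c₁) ∧ c₁.hv = some (true, c₂) ∧ c₂.hv = some (true, c₃) ∧
    H c₁ ∧ H c₂ ∧ H c₃

/-- the forest points away from its root to the depth `n` and has at most `b` trees at each vertex there -/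
def OutD (b : ℕ) : ℕ → Fd → Prop
  | 0, _ => True
  | n + 1, F => F.len ≤ b ∧ ∀ p ∈ F.trees, p.1 = true ∧ OutD b n p.2

theorem OutD.pend {V : Type} {R : V → V → Prop} {b n : ℕ} {F : Fd} (h : OutD b (n + 1) F) (v : V) :
    PE R F v ∅ (F.trees.map (fun p => (v, p.2))) := by
  have h1 : ∀ p ∈ F.trees, p.1 = true := fun p hp => (h.2 p hp).1
  clear h
  induction F with
  | nil => exact PE.nil v
  | node d c s _ ih =>
    have h2 : d = true := h1 (d, c) (by simp [Fd.trees])
    subst h2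
    exact PE.pend c s v ∅ _ (ih fun p hp => h1 p (by simp [Fd.trees, hp]))

theorem Top3X.outD {b : ℕ} {I H : Fd → Prop} {F : Fd} (h : Top3X b I H F) : OutD b 3 F :=
  ⟨h.len, fun p hp => ⟨(h.t1 p hp).1, (h.t1 p hp).2.1, fun q hq => ⟨(h.t2 p hp q hq).1, (h.t2 p hp q hq).2.1,
    fun r hr => ⟨(h.t3 p hp q hq r hr).1, trivial⟩⟩⟩⟩

end AESF
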