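import Pool.Agent.AESF.DefsF
import Pool.Agent.AESF.TopX

/-!
# Free ends: the statements of the two cases, list version
-/

set_option autoImplicit false

namespace AESF

open Finset AE15 AED AELT AEB
open scoped Classical

/-- the case of a large set before the place, list version -/
def T2XSt : Prop := ∀ b : ℕ, 1 ≤ b → ∀ θ : ℝ, 0 < θ → ∃ ω₀ : ℝ, 0 < ω₀ ∧ ∀ ω : ℝ, 0 < ω → ω ≤ ω₀ → ∃ ζ₀ : ℝ, 0 < ζ₀ ∧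
  ∀ ζ : ℝ, 0 < ζ → ζ ≤ ζ₀ → ∀ lam : ℝ, 0 < lam → ∀ J : ℕ, ∃ a₁₀ : ℝ, 0 < a₁₀ ∧ ∀ a1 : ℝ, 0 < a1 → a1 ≤ a₁₀ →
    ∃ a₂₀ : ℝ, 0 < a₂₀ ∧ ∀ a2 : ℝ, 0 < a2 → a2 ≤ a₂₀ → ∀ k0 : ℝ, 0 < k0 →
    ∃ (N e m c1 m0 : ℕ) (τb d : ℝ), 1 ≤ N ∧ 0 < τb ∧ 0 < d ∧ ∀ (I : ℕ → Fd → Prop) (H : Fd → Prop) (nb Cb : ℕ),
      BxL N e m τb d I H nb Cb → ∃ C : ℝ,
      ∀ {V : Type} {R : V → V → Prop}, AE32.Tour R → ∀ (X U : Finset V) (𝓛 : Finset (Finset V)) (k : ℝ), k0 ≤ k → k ≤ 1 →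
        𝓛.card ≤ J → ∀ F s : Fd, (Fd.node true F s).len ≤ b → (Fd.node true F s).Deg b →
          (∀ n, F.size + 1 ≤ n → Top3X b (I n) H F) → θ * X.card ≤ (F.size + 1 : ℝ) →
            ((Fd.node true F s).size : ℝ) + 1 + C ≤ X.card →
            (CutD R X U 𝓛 (blk s + c1) ω ζ lam (a1 * k ^ 2) (a2 * k ^ 2) ∨
              ∃ K, ThickD R X U K 𝓛 (blk s + c1) ω ζ k lam (a1 * k ^ 2) (a2 * k ^ 2)) →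
              blk s + c1 + m0 ≤ U.card → In R (.node true F s) (fun _ => True) X

/-- the case of a small set before the place, list version -/
def T1XSt : Prop := ∀ b : ℕ, 1 ≤ b → ∀ θ : ℝ, 0 < θ → ∃ ω₀ : ℝ, 0 < ω₀ ∧ ∀ ω : ℝ, 0 < ω → ω ≤ ω₀ → ∃ ζ₀ : ℝ, 0 < ζ₀ ∧
  ∀ ζ : ℝ, 0 < ζ → ζ ≤ ζ₀ → ∀ lam : ℝ, 0 < lam → ∀ J : ℕ, ∃ a₁₀ : ℝ, 0 < a₁₀ ∧ ∀ a1 : ℝ, 0 < a1 → a1 ≤ a₁₀ →
    ∃ a₂₀ : ℝ, 0 < a₂₀ ∧ ∀ a2 : ℝ, 0 < a2 → a2 ≤ a₂₀ → ∀ k0 : ℝ, 0 < k0 → ∀ c1 m0 : ℕ,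
    ∃ (N e m : ℕ) (τb d : ℝ), 1 ≤ N ∧ 0 < τb ∧ 0 < d ∧ ∀ (I : ℕ → Fd → Prop) (H : Fd → Prop) (nb Cb : ℕ),
      BxL N e m τb d I H nb Cb → ∃ C : ℝ,
      ∀ {V : Type} {R : V → V → Prop}, AE32.Tour R → ∀ (X U K : Finset V) (𝓛 : Finset (Finset V)) (k : ℝ), k0 ≤ k → k ≤ 1 →
        𝓛.card ≤ J → ∀ F s : Fd, (Fd.node true F s).len ≤ b → (Fd.node true F s).Deg b →
          (∀ n, F.size + 1 ≤ n → Top3X b (I n) H F) → θ * X.card ≤ (F.size + 1 : ℝ) →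
            ((Fd.node true F s).size : ℝ) + 1 + C ≤ X.card →
            ThickD R X U K 𝓛 (blk s + c1) ω ζ k lam (a1 * k ^ 2) (a2 * k ^ 2) → U.card ≤ blk s + c1 + m0 →
              In R (.node true F s) (fun _ => True) X

end AESF
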