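import Pool.Agent.AESF.DefsF
import Pool.Agent.AEG.PackR
import Pool.Agent.AEG.Hop
import Pool.Agent.AEG.ChainE
import Pool.Agent.AEK.Thin

/-!
# An exact place for an in-arborescence

`packU`: in every set `U` and for every place `p` there are `y`, `P₁`, `P₂`, where `P₁` has about `p` vertices, such that
every in-arborescence (forest hanging on `y`) with at most `p - C₁` vertices has a copy in `U` which leaves `P₁` in
boundedly many vertices only, and `y` reaches almost all vertices of any bounded subset of `P₂` in at most two steps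
outside the copy.
-/

set_option autoImplicit false

namespace AESF

open Finset AE15 AED AELT AEB SPD AECut AEG
open scoped Classical

/-- the trees of a pure forest hang by arcs away from the common vertex -/
theorem fok_true {b : ℕ} {A : Fd} (h : FOK b 0 0 A) : ∀ q ∈ A.trees, q.1 = true := by
  intro q hq
  have h1 := (InR.child h.2.2 hq).2
  by_contra hc
  have h2 := h1 (by simpa using hc)
  omega

/-- **The exact place for an in-arborescence** -/
theorem packU (b : ℕ) (hb : 1 ≤ b) : ∃ (J C₁ : ℕ) (s : ℝ), 0 < s ∧ ∀ N : ℕ, ∃ n₀ : ℕ, ∀ {V : Type} {R : V → V → Prop},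
    AE32.Tour R → ∀ (U : Finset V) (p : ℕ), n₀ ≤ p → p + n₀ ≤ U.card → ∃ (y : V) (P₁ P₂ : Finset V), y ∈ U ∧ P₁ ⊆ U ∧
      P₂ ⊆ U ∧ y ∉ P₁ ∧ y ∉ P₂ ∧ Disjoint P₁ P₂ ∧ p ≤ P₁.card ∧ P₁.card ≤ p + C₁ ∧ U.card ≤ P₁.card + P₂.card + C₁ ∧
      s * P₂.card ≤ ((nO R P₂ y).card : ℝ) ∧
      ∀ A : Fd, FOK b 0 0 (AEK.mrr A) → A.size + C₁ ≤ p → ∀ Q ⊆ P₂, Q.card ≤ N → ∃ S ⊆ U, y ∉ S ∧ Emb R A y S ∧
        (S \ P₁).card ≤ J ∧
        (Q.filter (fun x => ¬ (x ∉ S ∧ (R y x ∨ ∃ v ∈ P₂, v ∉ S ∧ R y v ∧ R v x)))).card ≤ 3 * J := by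
  obtain ⟨c₀, η, hη, hη8, hpack⟩ := packR b 0 1 1 hb le_rfl le_rfl
  obtain ⟨κ, ξ, s, τ, m₀, hκ, hξ, hs, hτ, hcut⟩ := cut (c₀ + 1) hη (by linarith) one_pos
  obtain ⟨κc, hκc⟩ : ∃ κc : ℝ, κc = min κ 1 := ⟨_, rfl⟩
  have hκc0 : 0 < κc := by rw [hκc]; exact lt_min hκ one_pos
  have hκc1 : κc ≤ 1 := by rw [hκc]; exact min_le_right _ _
  have hκc2 : κc ≤ κ := by rw [hκc]; exact min_le_left _ _
  obtain ⟨ξ₀, hξ₀⟩ : ∃ ξ₀ : ℝ, ξ₀ = min ξ (1 / 2) := ⟨_, rfl⟩
  have hξ00 : 0 < ξ₀ := by rw [hξ₀]; exact lt_min hξ (by norm_num)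
  have hξ01 : ξ₀ ≤ 1 / 2 := by rw [hξ₀]; exact min_le_right _ _
  have hξ02 : ξ₀ ≤ ξ := by rw [hξ₀]; exact min_le_left _ _
  obtain ⟨δA, hδA, hpack⟩ := hpack κc ξ₀ s hκc0 hκc1 hξ00 (by linarith) hs
  obtain ⟨C, J, hpack⟩ := hpack (2 * (2 * c₀ + 1))
  refine ⟨J, C + 4 * (c₀ + 1) + 1, s, hs, fun N => ?_⟩
  obtain ⟨n₁, hn₁⟩ := exists_big [(((1 + 2 * N : ℕ) : ℝ), δA), (((2 * c₀ + 1 : ℕ) : ℝ), τ), ((J : ℝ), τ)] (by
    intro q hq
    simp only [List.mem_cons, List.not_mem_nil, or_false] at hq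
    rcases hq with rfl | rfl | rfl
    · exact hδA
    · exact hτ
    · exact hτ)
  refine ⟨m₀ + n₁ + 4 * (c₀ + 1) + 1, ?_⟩
  intro V R hT U p hp hpU
  have key : ∀ {V : Type} {R : V → V → Prop} {A : Fd} {y : V} {S : Finset V}, EmbAllB (rv R) [(y, AEK.mrr A)] S →
      Emb R A y S := by
    intro V R A y S h
    have h1 := AEK.emb_mrr (embAllB_single.1 h)
    rw [AEK.mrr_mrr] at h1
    exact h1
  by_cases h2p : 2 * p + 1 ≤ U.card
  · -- the place is in the first half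
    obtain ⟨y, P₁, P₂, U₁, hyU, hPU₁, hP₂, hU₁, hyU₁, hd, hP1c, hc1, hc2, -, hξU, hS, hSC⟩ :=
      hcut hT U p (by omega) h2p
    have hSC' : SideC (rv R) U₁ P₁ (κc * U₁.card) (η * p) s τ (c₀ + 1) y :=
      hSC.mono (mul_le_mul_of_nonneg_right hκc2 (Nat.cast_nonneg _)) le_rfl le_rfl le_rfl
    have hyP₁ : y ∉ P₁ := hSC.side.notMem
    refine ⟨y, P₁, P₂, hyU, hPU₁.trans hU₁, hP₂, hyP₁, hS.notMem, hd, by omega, by omega, by omega, ?_, ?_⟩
    · refine hS.lin.trans (Nat.cast_le.2 (card_le_card ?_))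
      intro w hw
      rw [mem_filter] at hw
      exact mem_nO.2 ⟨hw.1, hw.2.1⟩
    intro A hA hAp Q hQ hQN
    have hv : ∀ x ∈ Q, ∃ v, R y x ∨ (v ∈ P₂ ∧ R y v ∧ R v x) := by
      intro x hx
      by_cases hy : R y x
      · exact ⟨y, Or.inl hy⟩
      · have hne : x ≠ y := fun e => hS.notMem (e ▸ hQ hx)
        obtain ⟨w, hw⟩ := hS.dom x (hQ hx) ((hT.tot x y hne).resolve_right hy)
        rw [mem_Dm] at hw
        exact ⟨w, Or.inr ⟨hw.1, hw.2.1, hw.2.2.1⟩⟩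
    choose! v hv using hv
    obtain ⟨A', hA'⟩ : ∃ A' : Finset V, A' = insert y (Q ∪ Q.image v) := ⟨_, rfl⟩
    have hA'c : A'.card ≤ 1 + 2 * N := by
      rw [hA']
      have h1 := card_insert_le y (Q ∪ Q.image v)
      have h2 := card_union_le Q (Q.image v)
      have h3 : (Q.image v).card ≤ Q.card := card_image_le
      omega
    have hU₁c : p ≤ U₁.card := hP1c ▸ card_le_card hPU₁
    have g1 : ((1 + 2 * N : ℕ) : ℝ) ≤ δA * U₁.card := hn₁ U₁.card (by omega) (_, δA) (by simp)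
    have g2 : ((2 * c₀ + 1 : ℕ) : ℝ) ≤ τ * P₁.card := hn₁ P₁.card (by omega) (_, τ) (by simp)
    obtain ⟨S, s1, s2, s3, s4⟩ := hpack (rv_tour hT) U₁ P₁ P₁ A' y (AEK.mrr A) [] (η * p) (Subset.refl _) hPU₁ (by simp)
      hA (fok_true hA) (by simp) hyU₁ hyP₁ (by rw [hA']; exact mem_insert_self _ _) (by simp) (by
        have h1 : ξ₀ * U₁.card ≤ ξ * U₁.card := mul_le_mul_of_nonneg_right hξ02 (Nat.cast_nonneg _)
        rw [hP1c]
        linarith) hSC'.side.reach hSC'.side.lin (by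
        refine le_trans (card_le_card ?_) (hSC'.cnt (2 * c₀ + 1) g2)
        intro u hu
        rw [mem_filter] at hu
        rw [mem_filter]
        refine ⟨hu.1, hu.2.1, ?_⟩
        by_contra hcon
        push Not at hcon
        obtain ⟨w, hw, hwc⟩ := exists_indeg (rv_tour hT)
          (B := Dm (rv R) U₁ P₁ (κc * U₁.card) (η * p) (c₀ + 1) y u) (by omega)
        refine hu.2.2 ?_
        have hw' := mem_Dm.1 hw
        refine ⟨w, hw'.1, hw'.2.1, hw'.2.2.1, hw'.2.2.2.1, ?_⟩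
        have h1 : nI (rv R) (Dm (rv R) U₁ P₁ (κc * U₁.card) (η * p) (c₀ + 1) y u) w ⊆
            P₁.filter (fun v => rv R v w ∧ Rea (rv R) U₁ P₁ (κc * U₁.card) (η * p) v) := by
          intro z hz
          rw [mem_nI, mem_Dm] at hz
          exact mem_filter.2 ⟨hz.1.1, hz.2, hz.1.2.2.2.1⟩
        have h2 := card_le_card h1
        omega) (by simp) (by rw [hP1c]) (by
        have : (A'.card : ℝ) ≤ ((1 + 2 * N : ℕ) : ℝ) := by exact_mod_cast hA'c
        linarith) (by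
        have : totB [(y, AEK.mrr A)] = A.size := by simp [totB, AEK.mrr_size]
        rw [this]
        omega)
    have hout : ∀ x ∈ A', x ∉ P₁ → x ∉ S := fun x hx hx1 hxS =>
      disjoint_left.1 s3 (mem_sdiff.2 ⟨hxS, hx1⟩) hx
    refine ⟨S, s2.trans hU₁, hout y (by rw [hA']; exact mem_insert_self _ _) hyP₁, key s1, s4, ?_⟩
    have hz : Q.filter (fun x => ¬ (x ∉ S ∧ (R y x ∨ ∃ v ∈ P₂, v ∉ S ∧ R y v ∧ R v x))) = ∅ := by
      rw [filter_eq_empty_iff]
      intro x hx hcon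
      refine hcon ⟨hout x (by rw [hA']; exact mem_insert_of_mem (mem_union_left _ hx))
        (disjoint_right.1 hd (hQ hx)), ?_⟩
      rcases hv x hx with h | ⟨h1, h2, h3⟩
      · exact Or.inl h
      · exact Or.inr ⟨v x, h1, hout _ (by
          rw [hA']
          exact mem_insert_of_mem (mem_union_right _ (mem_image_of_mem v hx))) (disjoint_right.1 hd h1), h2, h3⟩
    rw [hz, card_empty]
    exact Nat.zero_le _
  · -- the place is in the second half
    obtain ⟨p', hp'⟩ : ∃ p' : ℕ, p' = U.card - 1 - p - 4 * (c₀ + 1) := ⟨_, rfl⟩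
    obtain ⟨y, Q₁, Q₂, U₁, hyU, hQU₁, hQ₂, hU₁, hyU₁, hd, hQ1c, hc1, hc2, -, hξU, hS, hSC⟩ :=
      hcut (rv_tour hT) U p' (by omega) (by omega)
    have hS' : Side (rv R) U Q₂ (κc * U.card) (η * Q₂.card) s (c₀ + 1) y :=
      hS.mono (mul_le_mul_of_nonneg_right hκc2 (Nat.cast_nonneg _)) le_rfl le_rfl
    have hyQ₂ : y ∉ Q₂ := hS.notMem
    have hyQ₁ : y ∉ Q₁ := hSC.side.notMem
    refine ⟨y, Q₂, Q₁, hyU, hQ₂, hQU₁.trans hU₁, hyQ₂, hyQ₁, hd.symm, by omega, by omega, by omega, ?_, ?_⟩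
    · refine hSC.side.lin.trans (Nat.cast_le.2 (card_le_card ?_))
      intro w hw
      rw [mem_filter] at hw
      exact mem_nO.2 ⟨hw.1, hw.2.1⟩
    intro A hA hAp Q hQ hQN
    have g1 : ((1 + 2 * N : ℕ) : ℝ) ≤ δA * U.card := hn₁ U.card (by omega) (_, δA) (by simp)
    have g2 : (J : ℝ) ≤ τ * Q₁.card := hn₁ Q₁.card (by omega) ((J : ℝ), τ) (by simp)
    have hUQ : (U.card : ℝ) ≤ 2 * Q₂.card := by
      have : U.card ≤ 2 * Q₂.card := by omega
      exact_mod_cast this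
    obtain ⟨S, s1, s2, s3, s4⟩ := hpack (rv_tour hT) U (U.erase y) Q₂ {y} y (AEK.mrr A) [] (η * Q₂.card)
      (fun z hz => mem_erase.2 ⟨fun e => hyQ₂ (e ▸ hz), hQ₂ hz⟩) (erase_subset _ _) (by simp)
      hA (fok_true hA) (by simp) hyU (by simp) (by simp) (by simp) (by
        have h1 : ξ₀ * U.card ≤ 1 / 2 * U.card := mul_le_mul_of_nonneg_right hξ01 (Nat.cast_nonneg _)
        linarith) hS'.reach hS'.lin (by
        rw [card_eq_zero.2]
        · exact Nat.zero_le _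
        rw [filter_eq_empty_iff]
        intro u hu hcon
        obtain ⟨w, hw⟩ := hS'.dom u hu hcon.1
        rw [mem_Dm] at hw
        refine hcon.2 ⟨w, hw.1, hw.2.1, hw.2.2.1, hw.2.2.2.1, ?_⟩
        have h1 : U.filter (fun z => rv R z w ∧ Rea (rv R) U Q₂ (κc * U.card) (η * Q₂.card) z) ⊆
            insert y ((U.erase y).filter (fun z => rv R z w ∧ Rea (rv R) U Q₂ (κc * U.card) (η * Q₂.card) z)) := by
          intro z hz
          rw [mem_filter] at hz
          rw [mem_insert, mem_filter, mem_erase]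
          by_cases hzy : z = y
          · exact Or.inl hzy
          · exact Or.inr ⟨⟨hzy, hz.1⟩, hz.2⟩
        have h2 := (card_le_card h1).trans (card_insert_le _ _)
        have h3 := hw.2.2.2.2
        omega) (by simp) le_rfl (by
        rw [card_singleton]
        push_cast at g1 ⊢
        have : (0 : ℝ) ≤ N := Nat.cast_nonneg _
        linarith) (by
        have : totB [(y, AEK.mrr A)] = A.size := by simp [totB, AEK.mrr_size]
        rw [this]
        omega)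
    have hyS : y ∉ S := fun h => disjoint_left.1 s3 (mem_sdiff.2 ⟨h, by simp⟩) (mem_singleton_self _)
    refine ⟨S, s2, hyS, key s1, s4, ?_⟩
    have h1 : Q.filter (fun x => ¬ (x ∉ S ∧ (R y x ∨ ∃ v ∈ Q₁, v ∉ S ∧ R y v ∧ R v x))) ⊆
        (S \ Q₂) ∪ Q₁.filter (fun u => rv (rv R) u y ∧
          (Dm (rv (rv R)) U₁ Q₁ (κ * U₁.card) (η * p') (c₀ + 1) y u).card ≤ J) := by
      intro x hx
      rw [mem_filter] at hx
      have hx1 := hQ hx.1
      by_cases hxS : x ∈ S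
      · exact mem_union_left _ (mem_sdiff.2 ⟨hxS, disjoint_left.1 hd hx1⟩)
      · have h2 : ¬ (R y x ∨ ∃ v ∈ Q₁, v ∉ S ∧ R y v ∧ R v x) := fun h => hx.2 ⟨hxS, h⟩
        rw [not_or] at h2
        have hne : x ≠ y := fun e => hyQ₁ (e ▸ hx1)
        refine mem_union_right _ (mem_filter.2 ⟨hx1, (hT.tot x y hne).resolve_right h2.1, ?_⟩)
        refine (card_le_card ?_).trans s4
        intro w hw
        rw [mem_Dm] at hw
        rw [mem_sdiff]
        refine ⟨?_, disjoint_left.1 hd hw.1⟩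
        by_contra hwS
        exact h2.2 ⟨w, hw.1, hwS, hw.2.1, hw.2.2.1⟩
    have h2 := (card_le_card h1).trans (card_union_le _ _)
    have h3 := hSC.cnt J g2
    omega

end AESF
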