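import Pool.Agent.AESF.Tree
import Pool.Agent.AESF.Gar
import Pool.Agent.AESF.PackU
import Pool.Agent.AER.Bcast
import Pool.Agent.AER.Broad
import Pool.Agent.AER.Glue

/-!
# Free ends at the root: the in-closure of the root is placed exactly (case T2)
-/

set_option autoImplicit false

namespace AESF

open Finset AE15 AED AELT AEB
open scoped Classical

/-! ### the last step -/

/-- the garbage `G` and the exact items `L` are placed one after the other -/
theorem t2_finish {V : Type} {R : V → V → Prop} {c : Fd} {X P₁ Y S Zr E Q : Finset V} {y : V} {L : List (V × Fd)}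
    {G : List (V × Bool × Fd)} {σ : ℝ} {t C₁ C₂ : ℕ} (hyX : y ∈ X) (hP₁ : P₁ ⊆ X) (hyP : y ∉ P₁)
    (hY : Y = (X \ P₁).erase y) (hSX : S ⊆ X) (hyS : y ∉ S) (hSE : S \ P₁ ⊆ E) (hZE : Zr ⊆ E) (hEY : E ⊆ Y)
    (hQ : Q ⊆ Y \ E) (hPG : PGq R c y (S ∪ Zr) (L.map (fun q => (q.1, true, q.2)) ++ G))
    (hbox : ∀ P ⊆ Y, Disjoint P E → Q ⊆ P → isz L + C₁ ≤ P.card → ∃ A ⊆ P, EmbI R L A)
    (hgarb : ∀ W ⊆ Y, (gsz G : ℝ) + σ ≤ W.card → ∃ A ⊆ W, EmbG R G A)
    (hσ : σ + E.card + Q.card ≤ isz L) (ht : S.card = t) (hPc : P₁.card ≤ t + C₂)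
    (hcard : c.size + 1 + (C₁ + C₂ + E.card) ≤ X.card) : In R c (fun _ => True) X := by
  have hsz := hPG.size
  rw [gsz_append] at hsz
  have hLs : gsz (L.map (fun q => (q.1, true, q.2))) = isz L := by
    clear hPG hbox hσ hsz
    induction L with
    | nil => rfl
    | cons q L ih => rw [List.map_cons, gsz_cons, AEB.isz_cons, ih]
  rw [hLs] at hsz
  have hSZ : S.card ≤ (S ∪ Zr).card := card_le_card subset_union_left
  have hYc : Y.card + P₁.card + 1 = X.card := by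
    have h1 : y ∈ X \ P₁ := mem_sdiff.2 ⟨hyX, hyP⟩
    have h2 := card_sdiff_add_card_eq_card hP₁
    rw [hY, card_erase_of_mem h1]
    have h3 : 0 < (X \ P₁).card := card_pos.2 ⟨y, h1⟩
    omega
  have hYE : (Y \ E).card + E.card = Y.card := card_sdiff_add_card_eq_card hEY
  obtain ⟨W, hW⟩ : ∃ W, W = (Y \ E) \ Q := ⟨_, rfl⟩
  have hWc : W.card + Q.card = (Y \ E).card := by rw [hW]; exact card_sdiff_add_card_eq_card hQ
  have hWY : W ⊆ Y := by rw [hW]; exact sdiff_subset.trans sdiff_subset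
  obtain ⟨AG, hAG, hEG⟩ := hgarb W hWY (by
    have h1 : gsz G + isz L + C₁ + E.card ≤ Y.card := by omega
    have h2 : (gsz G : ℝ) + isz L + C₁ + E.card ≤ Y.card := by exact_mod_cast h1
    have h3 : (W.card : ℝ) + Q.card + E.card = Y.card := by
      have : W.card + Q.card + E.card = Y.card := by omega
      exact_mod_cast this
    have h4 : (0 : ℝ) ≤ C₁ := Nat.cast_nonneg _
    linarith)
  have hAGc := hEG.card
  obtain ⟨P, hP⟩ : ∃ P, P = (Y \ E) \ AG := ⟨_, rfl⟩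
  have hAGY : AG ⊆ Y \ E := hAG.trans (by rw [hW]; exact sdiff_subset)
  have hPc' : P.card + AG.card = (Y \ E).card := by rw [hP]; exact card_sdiff_add_card_eq_card hAGY
  have hPY : P ⊆ Y := by rw [hP]; exact sdiff_subset.trans sdiff_subset
  obtain ⟨AL, hAL, hEL⟩ := hbox P hPY (by
    rw [hP, disjoint_left]
    intro a ha
    exact (mem_sdiff.1 (mem_sdiff.1 ha).1).2) (by
    intro a ha
    rw [hP, mem_sdiff]
    refine ⟨hQ ha, fun h => ?_⟩
    have h1 := hAG h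
    rw [hW, mem_sdiff] at h1
    exact h1.2 ha) (by omega)
  have hdis : Disjoint AL AG := by
    rw [disjoint_left]
    intro a ha
    have h1 := hAL ha
    rw [hP, mem_sdiff] at h1
    exact h1.2
  have hall : EmbG R (L.map (fun q => (q.1, true, q.2)) ++ G) (AL ∪ AG) := (EmbG.of_embI hEL).append hEG hdis
  have hALY : AL ⊆ Y \ E := hAL.trans (by rw [hP]; exact sdiff_subset)
  have hA : AL ∪ AG ⊆ Y \ E := union_subset hALY hAGY
  have hYX : ∀ a ∈ Y, a ∈ X ∧ a ∉ P₁ ∧ a ≠ y := by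
    intro a ha
    rw [hY, mem_erase, mem_sdiff] at ha
    exact ⟨ha.2.1, ha.2.2, ha.1⟩
  have hdis2 : Disjoint (S ∪ Zr) (AL ∪ AG) := by
    rw [disjoint_left]
    intro a ha haA
    obtain ⟨h1, h2⟩ := mem_sdiff.1 (hA haA)
    rcases mem_union.1 ha with h3 | h3
    · exact h2 (hSE (mem_sdiff.2 ⟨h3, (hYX a h1).2.1⟩))
    · exact h2 (hZE h3)
  refine ⟨y, hyX, (S ∪ Zr) ∪ (AL ∪ AG), ?_, ?_, trivial, hPG.complete hall hdis2⟩
  · refine union_subset (union_subset hSX ?_) ?_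
    · exact fun a ha => (hYX a (hEY (hZE ha))).1
    · exact fun a ha => (hYX a (mem_sdiff.1 (hA ha)).1).1
  · simp only [mem_union, not_or]
    have h1 : y ∉ Y := fun h => (hYX y h).2.2 rfl
    refine ⟨⟨hyS, fun h => h1 (hEY (hZE h))⟩, fun h => h1 (mem_sdiff.1 (hALY h)).1, fun h => h1 (mem_sdiff.1 (hAGY h)).1⟩

/-- LEMMA G for pending trees -/
theorem garbG (b : ℕ) (hb : 1 ≤ b) {θ : ℝ} (hθ : 0 < θ) : ∃ n₀ : ℕ, ∀ {V : Type} {R : V → V → Prop}, AE32.Tour R →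
    ∀ (G : List (V × Bool × Fd)) (W : Finset V) (σ : ℝ), (n₀ : ℝ) ≤ σ → θ * W.card ≤ σ → (gsz G : ℝ) + σ ≤ W.card →
      (∀ q ∈ G, q.2.1 = true ∧ q.2.2.len ≤ b ∧ q.2.2.Deg b ∧
        ((W.filter (fun v => ¬ R q.1 v)).card : ℝ) ≤ θ / 4 * σ) → ∃ A ⊆ W, EmbG R G A := by
  obtain ⟨n₀, h₀⟩ := garb b hb hθ
  refine ⟨n₀, ?_⟩
  intro V R hT G W σ h1 h2 h3 h4
  have h5 : isz (G.map (fun q => (q.1, q.2.2))) = gsz G := by
    simp only [AEB.isz, gsz, List.map_map]
    rfl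
  obtain ⟨A, hA, hE⟩ := h₀ hT (G.map (fun q => (q.1, q.2.2))) W σ h1 h2 (by rw [h5]; exact h3) (by
    intro q hq
    obtain ⟨r, hr, rfl⟩ := List.mem_map.1 hq
    exact (h4 r hr).2)
  refine ⟨A, hA, ?_⟩
  have h6 := EmbG.of_embI hE
  rw [List.map_map] at h6
  have h7 : G.map ((fun p : V × Fd => (p.1, true, p.2)) ∘ fun q : V × Bool × Fd => (q.1, q.2.2)) = G := by
    have h8 : ∀ q ∈ G, ((fun p : V × Fd => (p.1, true, p.2)) ∘ fun q : V × Bool × Fd => (q.1, q.2.2)) q = id q := by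
      intro q hq
      obtain ⟨a, d, c⟩ := q
      have h9 := (h4 _ hq).1
      simp only at h9
      subst h9
      rfl
    rw [List.map_congr_left h8, List.map_id]
  rwa [h7] at h6

/-! ### routes: the tree side -/

/-- the root of the branch `F` is placed at `w` -/
theorem open_at {V : Type} {R : V → V → Prop} {F s : Fd} {y w : V} {S Z : Finset V} {M G : List (V × Bool × Fd)}
    (hS : PGq R s y S G) (hyw : R y w) (hwS : w ∉ S) (hwZ : w ∉ Z) (hd : Disjoint S Z) (hF : PGq R F w Z M) :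
    PGq R (.node true F s) y (S ∪ insert w Z) (M ++ G) := by
  have h1 : PGq R (.node true F s) y S ((y, true, F) :: G) := hS.pend (p := (true, F)) (List.Perm.refl _)
  exact h1.bind (by simpa [Adj] using hyw) hwZ hwS hd hF

/-- the root of the branch is placed at `v`, its heaviest child at `x` -/
theorem two_step {V : Type} {R : V → V → Prop} {b : ℕ} {F c₁ : Fd} (hF : FOK b 0 0 F) (hc : F.hv = some (true, c₁))
    {v x : V} (hvx : R v x) : ∃ G : List (V × Bool × Fd),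
      (∀ q ∈ G, q.1 = v ∧ q.2.1 = true ∧ q.2.2.len ≤ b ∧ q.2.2.Deg b) ∧
      PGq R F v {x} ((c₁.trees.map (fun p => (x, p.2))).map (fun q => (q.1, true, q.2)) ++ G) := by
  obtain ⟨⟨ts, hts⟩, -⟩ := hv_some hc
  have hc₁ : FOK b 0 0 c₁ := (AER.pure_child hF (hv_mem hc)).2
  have h1 := (PGq.start (R := R) F v).perm (hts.map (fun p => (v, p.1, p.2)))
  rw [List.map_cons] at h1
  have h2 := h1.bind (x := x) (A := ∅) (by simpa [Adj] using hvx) (notMem_empty x) (notMem_empty x)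
    (disjoint_empty_left _) (PGq.ofPE (AER.pure_pend hc₁ x))
  refine ⟨ts.map (fun p => (v, p.1, p.2)), ?_, ?_⟩
  · intro q hq
    obtain ⟨p, hp, rfl⟩ := List.mem_map.1 hq
    have h3 := AER.pure_child hF (hts.mem_iff.2 (List.mem_cons_of_mem _ hp))
    exact ⟨rfl, h3.1, h3.2.1, h3.2.2.1⟩
  · rw [empty_union] at h2
    exact h2

/-- the possible routes from `y` to the hosts in `Q` -/
def Rt {V : Type} (R : V → V → Prop) (X U P Fb Q : Finset V) (y : V) (b : ℕ) : Prop :=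
  (∃ x ∈ Q, ∃ v ∈ P, v ∉ Fb ∧ R y v ∧ R v x) ∨
  ∃ w ∈ X, (w ∈ P ∨ w ∉ U) ∧ w ∉ Fb ∧ R y w ∧ ∃ f : ℕ → V,
    (∀ j < b, f j ∈ X ∧ f j ∉ U ∧ f j ∉ Fb ∧ f j ≠ w ∧ R w (f j) ∧
      b * b ≤ (Q.filter (fun x => R (f j) x)).card) ∧ ∀ i < b, ∀ j < b, f i = f j → i = j

theorem isz_trees {V : Type} (F : Fd) (x : V) : isz (F.trees.map (fun p => (x, p.2))) = F.size := by
  rw [Fd.size_eq]
  simp only [AEB.isz, List.map_map]
  rfl

end AESF
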