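import Pool.Agent.AESF.T1Root
import Pool.Agent.AESF.T2
import Pool.Agent.AESF.Route1
import Pool.Agent.AESF.BcastX
import Pool.Agent.AESF.StX
import Pool.Agent.AER.PrepG

/-!
# Free ends: case T1, list version
-/

set_option autoImplicit false

namespace AESF

open Finset AE15 AED AELT AEB AER
open scoped Classical

/-- the branch `F` is placed at `f`, its children at hosts -/
theorem top_at {V : Type} {R : V → V → Prop} {b : ℕ} {I H : Fd → Prop} {F : Fd} (hF : Top3X b I H F) {f : V}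
    {B : Finset V} (hB : ∀ a ∈ B, R f a) (hBc : b ≤ B.card) : ∃ (Z : Finset V) (L : List (V × Fd)), Z ⊆ B ∧
      PGq R F f Z (L.map (fun q => (q.1, true, q.2))) ∧ L.length ≤ b * b ∧ (∀ q ∈ L, q.1 ∈ B ∧ I q.2) ∧
      ∃ q ∈ L, H q.2 ∧ (F.size : ℝ) ≤ b * (b * (q.2.size + 1) + 1) := by
  have hO := hF.outD
  obtain ⟨Z, L, h1, h2, -, h4, h5, h6⟩ := rootsX (R := R) (b := b) (z := f) F.trees B.toList
    (fun p hp => ⟨(hF.t1 p hp).1, (hF.t1 p hp).2.1, fun q hq => ⟨(hF.t2 p hp q hq).1, trivial⟩⟩)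
    (by
      rw [length_trees, length_toList]
      exact hF.len.trans hBc) (nodup_toList B) (fun a ha => hB a (mem_toList.1 ha))
  have hZB : Z ⊆ B := by
    intro a ha
    exact mem_toList.1 (List.mem_toFinset.1 (h2 ha))
  refine ⟨Z, L, hZB, PGq.ofPE ((pe_iff F f Z L).2 h1), ?_, ?_, ?_⟩
  · refine h4.trans ?_
    rw [length_trees]
    exact Nat.mul_le_mul_right b hF.len
  · intro q hq
    obtain ⟨g1, p, hp, r, hr, g2⟩ := h5 q hq
    rw [g2]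
    exact ⟨hZB g1, (hF.t2 p hp r hr).2.2.2⟩
  · obtain ⟨c₁, c₂, c₃, hc₁, hc₂, hc₃, -, j2, -⟩ := hF.heavy
    have hm₁ : (true, c₁) ∈ F.trees := hv_mem hc₁
    have hm₂ : (true, c₂) ∈ c₁.trees := hv_mem hc₂
    obtain ⟨q, hq, g⟩ := h6 _ hm₁ _ hm₂
    refine ⟨q, hq, ?_, ?_⟩
    · rw [g]
      exact j2
    · rw [g]
      have e1 : (F.size : ℝ) ≤ b * (c₁.size + 1) := hv_size hc₁ hF.len
      have e2 : (c₁.size : ℝ) ≤ b * (c₂.size + 1) := hv_size hc₂ (hF.t1 _ hm₁).2.1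
      refine e1.trans (mul_le_mul_of_nonneg_left (by linarith) (Nat.cast_nonneg _))

/-- **Case T1, list version** -/
theorem t1xSt : T1XSt := by
  intro b hb θ hθ
  have hb1 : (1 : ℝ) ≤ b := by exact_mod_cast hb
  have hb0 : (0 : ℝ) < b := by linarith
  obtain ⟨θ₂, hθ₂⟩ : ∃ θ₂ : ℝ, θ₂ = θ / (2 * (b * b)) := ⟨_, rfl⟩
  have t1 : 0 < θ₂ := by rw [hθ₂]; positivity
  have t2 : θ₂ * (2 * (b * b)) = θ := by rw [hθ₂]; field_simp
  obtain ⟨ng, hgarb⟩ := garbG b hb (θ := θ₂ / 2) (by positivity)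
  obtain ⟨γ, hγ, hroot⟩ := t1_root b hb hθ
  have hγ0 : 0 < γ := by linarith
  obtain ⟨μ, hμ⟩ : ∃ μ : ℝ, μ = min (θ / (16 * γ)) (θ₂ ^ 2 / 16) := ⟨_, rfl⟩
  have hμ0 : 0 < μ := by rw [hμ]; exact lt_min (by positivity) (by positivity)
  have hμ1 : 16 * (γ * μ) ≤ θ := by
    have h1 : μ ≤ θ / (16 * γ) := by rw [hμ]; exact min_le_left _ _
    rw [le_div_iff₀ (by positivity)] at h1
    linarith
  have hμ2 : μ ≤ θ₂ ^ 2 / 16 := by rw [hμ]; exact min_le_right _ _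
  refine ⟨1, one_pos, ?_⟩
  intro ω hω hω1
  refine ⟨min (μ / 2) (θ / 8), lt_min (by positivity) (by positivity), ?_⟩
  intro ζ hζ hζ0 lam hlam J
  have hζ1 : ζ ≤ μ / 2 := hζ0.trans (min_le_left _ _)
  have hζ2 : ζ ≤ θ / 8 := hζ0.trans (min_le_right _ _)
  have hJ0 : (0 : ℝ) ≤ J := Nat.cast_nonneg _
  refine ⟨min (min (1 / 8) (μ / (2 * (J + 1)))) (min (ω / (64 * γ)) (1 / (16 * γ))), ?_, ?_⟩
  · exact lt_min (lt_min (by norm_num) (by positivity)) (lt_min (by positivity) (by positivity))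
  intro a₁ ha₁ ha₁'
  have ha₁1 : a₁ ≤ 1 / 8 := ha₁'.trans ((min_le_left _ _).trans (min_le_left _ _))
  have ha₁2 : a₁ * (2 * (J + 1)) ≤ μ := by
    have := ha₁'.trans ((min_le_left _ _).trans (min_le_right _ _))
    rwa [le_div_iff₀ (by positivity)] at this
  have ha₁3 : 64 * (γ * a₁) ≤ ω := by
    have := ha₁'.trans ((min_le_right _ _).trans (min_le_left _ _))
    rw [le_div_iff₀ (by positivity)] at this
    linarith
  have ha₁4 : 16 * (γ * a₁) ≤ 1 := by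
    have := ha₁'.trans ((min_le_right _ _).trans (min_le_right _ _))
    rw [le_div_iff₀ (by positivity)] at this
    linarith
  refine ⟨min (min (ω / 32) (θ / (8 * (J + 1)))) (a₁ * lam / 8), ?_, ?_⟩
  · exact lt_min (lt_min (by positivity) (by positivity)) (by positivity)
  intro a₂ ha₂ ha₂' k₀ hk₀ c₁ m₀
  have ha₂1 : a₂ ≤ ω / 32 := ha₂'.trans ((min_le_left _ _).trans (min_le_left _ _))
  have ha₂2 : a₂ * (8 * (J + 1)) ≤ θ := by
    have := ha₂'.trans ((min_le_left _ _).trans (min_le_right _ _))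
    rwa [le_div_iff₀ (by positivity)] at this
  have ha₂3 : a₂ ≤ a₁ * lam / 8 := ha₂'.trans (min_le_right _ _)
  obtain ⟨N₁, hone⟩ := route_one b J (ω := ω) (τ₀ := a₁ * k₀ ^ 2) (lam := lam) hω (by positivity) hlam
  obtain ⟨N, hN⟩ : ∃ N, N = N₁ + 1 := ⟨_, rfl⟩
  obtain ⟨n₁, hone⟩ := hone N
  obtain ⟨δ₀, hδ₀, hroot⟩ := hroot hω hω1 hk₀
  obtain ⟨C₄, C₃, hroot⟩ := hroot c₁ m₀ (N + 1)
  obtain ⟨d, hd⟩ : ∃ d : ℝ, d = min δ₀ (θ₂ / 8) := ⟨_, rfl⟩
  have hd0 : 0 < d := by rw [hd]; exact lt_min hδ₀ (by positivity)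
  have hd1 : d ≤ δ₀ := by rw [hd]; exact min_le_left _ _
  have hd2 : d ≤ θ₂ / 8 := by rw [hd]; exact min_le_right _ _
  refine ⟨N, N + 1, b * b, θ₂, d, by omega, t1, hd0, ?_⟩
  intro I₀ H₀ nb Cb hbox
  obtain ⟨nr, hnr⟩ : ∃ nr : ℕ, nr = ⌈2 * ng / θ₂ + 4 * (N + 1) / θ₂ + 4 * b / θ⌉₊ := ⟨_, rfl⟩
  refine ⟨((C₄ + n₁ + nr + nb + Cb + C₃ + N + c₁ + m₀ + 2 : ℕ) : ℝ), ?_⟩
  intro V R hT X U K 𝓛 k hk0 hk1 hJ F s hl hD hF hθF hcard hTD hU
  have hcardN : (Fd.node true F s).size + 1 + (C₄ + n₁ + nr + nb + Cb + C₃ + N + c₁ + m₀ + 2) ≤ X.card := by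
    exact_mod_cast hcard
  have hsize : (Fd.node true F s).size = F.size + s.size + 1 := rfl
  have hbs : blk s ≤ s.size := AEK.blk_le_size s
  -- numbers
  have hkpos : 0 < k := lt_of_lt_of_le hk₀ hk0
  have hk2 : k ^ 2 ≤ 1 := pow_le_one₀ hkpos.le hk1
  have hk3 : k₀ ^ 2 ≤ k ^ 2 := pow_le_pow_left₀ hk₀.le hk0 2
  have hk4 : k ^ 2 ≤ k := by rw [sq]; exact mul_le_of_le_one_right hkpos.le hk1
  have hk5 : 0 < k ^ 2 := by positivity
  obtain ⟨τ, hτ⟩ : ∃ τ : ℝ, τ = a₁ * k ^ 2 := ⟨_, rfl⟩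
  obtain ⟨ν, hν⟩ : ∃ ν : ℝ, ν = a₂ * k ^ 2 := ⟨_, rfl⟩
  rw [← hτ, ← hν] at hTD
  have hτ0 : 0 < τ := by rw [hτ]; positivity
  have hν0 : 0 < ν := by rw [hν]; positivity
  have hτ1 : τ ≤ a₁ := by rw [hτ]; exact mul_le_of_le_one_right ha₁.le hk2
  have hτ2 : a₁ * k₀ ^ 2 ≤ τ := by rw [hτ]; exact mul_le_mul_of_nonneg_left hk3 ha₁.le
  have hτ3 : 2 * τ ≤ k := by
    have h1 := mul_le_mul_of_nonneg_right ha₁1 hk5.le
    rw [hτ]
    linarith only [h1, hk4, hk5]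
  have hτ4 : 64 * (γ * τ) ≤ ω := by
    have := mul_le_mul_of_nonneg_left hτ1 hγ0.le
    linarith
  have hτ5 : 16 * (γ * τ) ≤ k := by
    have h1 : 16 * (γ * τ) = 16 * (γ * a₁) * k ^ 2 := by rw [hτ]; ring
    rw [h1]
    have h2 : 16 * (γ * a₁) * k ^ 2 ≤ 1 * k ^ 2 := mul_le_mul_of_nonneg_right ha₁4 hk5.le
    linarith
  have hν1 : ν ≤ a₂ := by rw [hν]; exact mul_le_of_le_one_right ha₂.le hk2
  have hν2 : 8 * ν ≤ τ * lam := by
    rw [hν, hτ]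
    have : 8 * a₂ * k ^ 2 ≤ a₁ * lam * k ^ 2 := mul_le_mul_of_nonneg_right (by linarith) hk5.le
    linarith
  have hmiss : (J + 1) * τ + ζ ≤ μ := by
    have h1 : ((J : ℝ) + 1) * τ ≤ (J + 1) * a₁ := mul_le_mul_of_nonneg_left hτ1 (by positivity)
    linarith
  obtain ⟨n, hn⟩ : ∃ n : ℝ, n = (X.card : ℝ) := ⟨_, rfl⟩
  have hn0 : 0 ≤ n := by rw [hn]; exact Nat.cast_nonneg _
  have hnr' : 2 * ng / θ₂ + 4 * (N + 1) / θ₂ + 4 * b / θ ≤ n := by
    have h1 : nr ≤ X.card := by omega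
    have h2 : (nr : ℝ) ≤ n := by rw [hn]; exact_mod_cast h1
    exact (by rw [hnr]; exact Nat.le_ceil _ : _ ≤ (nr : ℝ)).trans h2
  have q1 : (0 : ℝ) ≤ 2 * ng / θ₂ := by positivity
  have q2 : (0 : ℝ) ≤ 4 * (N + 1) / θ₂ := by positivity
  have q3 : (0 : ℝ) ≤ 4 * b / θ := by positivity
  have r1 : 2 * ng ≤ θ₂ * n := by
    have : 2 * ng / θ₂ ≤ n := by linarith
    rwa [div_le_iff₀' t1] at this
  have r2 : 4 * (N + 1) ≤ θ₂ * n := by
    have : 4 * (N + 1) / θ₂ ≤ n := by linarith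
    rwa [div_le_iff₀' t1] at this
  have r3 : 4 * b ≤ θ * n := by
    have : 4 * b / θ ≤ n := by linarith
    rwa [div_le_iff₀' hθ] at this
  -- the hosts
  obtain ⟨Y₀, hY₀⟩ : ∃ Y₀, Y₀ = X \ U := ⟨_, rfl⟩
  have hUX := hTD.subU
  have hY₀c : Y₀.card + U.card = X.card := by rw [hY₀]; exact card_sdiff_add_card_eq_card hUX
  have hY₀X : Y₀ ⊆ X := by rw [hY₀]; exact sdiff_subset
  have hY₀n : (Y₀.card : ℝ) ≤ n := by rw [hn]; exact_mod_cast card_le_card hY₀X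
  obtain ⟨x, hxY, hxi, hbx⟩ := hbox hT Y₀ (by omega)
  obtain ⟨I, hI⟩ : ∃ I, I = (range N).image x := ⟨_, rfl⟩
  have hIc : I.card = N := by
    rw [hI, card_image_of_injOn, card_range]
    intro i hi j hj hij
    exact hxi i (mem_range.1 hi) j (mem_range.1 hj) hij
  have hIY : I ⊆ Y₀ := by
    intro a ha
    rw [hI, mem_image] at ha
    obtain ⟨i, hi, rfl⟩ := ha
    exact hxY i (mem_range.1 hi)
  have hmI : ∀ a ∈ I, ∃ i < N, a = x i := by
    intro a ha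
    rw [hI, mem_image] at ha
    obtain ⟨i, hi, rfl⟩ := ha
    exact ⟨i, mem_range.1 hi, rfl⟩
  -- the middle vertex
  obtain ⟨f, hfX, hfU, hfI, hfb, hfK⟩ := hone hT hTD hJ hτ2 (hτ1.trans ha₁1) hτ3 (by linarith) hν2 (by omega)
    (Fb := I) (Q := I) hIc.le (by rw [← hY₀]; exact hIY) (by omega)
  obtain ⟨E, hE⟩ : ∃ E, E = insert f I := ⟨_, rfl⟩
  have hEY : E ⊆ Y₀ := by
    rw [hE]
    exact insert_subset (by rw [hY₀]; exact mem_sdiff.2 ⟨hfX, hfU⟩) hIY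
  have hEc : E.card ≤ N + 1 := by
    rw [hE]
    have := card_insert_le f I
    omega
  obtain ⟨Q, hQ, hQc, hQP⟩ := hbx E hEY hEc (fun i hi => by
    rw [hE, hI]
    exact mem_insert_of_mem (mem_image_of_mem x (mem_range.2 hi)))
  have hQY : Q ⊆ Y₀ := hQ.trans sdiff_subset
  have hQn : (Q.card : ℝ) ≤ d * n := hQc.trans (mul_le_mul_of_nonneg_left hY₀n hd0.le)
  -- the root
  obtain ⟨y, Z, G, hyY, hyE, hyQ, hyf, hZX, hyZ, hZEQ, hUZ, hP, hG⟩ := hroot hT F s hTD hJ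
    hk0 hk1 hν0.le (by linarith)
    (by
      have h1 : (J : ℝ) * ν ≤ (J + 1) * a₂ := mul_le_mul (by linarith) hν1 hν0.le (by positivity)
      linarith) hτ0 (by
      have := mul_le_mul_of_nonneg_left hmiss hγ0.le
      linarith) hτ4 hτ5 hl hD hθF (by omega) hU E Q f (by rw [← hY₀]; exact hEY) hEc
    (by rw [← hY₀]; exact hQY) (by
      rw [← hn]
      exact hQn.trans (mul_le_mul_of_nonneg_right hd1 hn0)) hfK
  have hZE : Disjoint Z E := disjoint_left.2 fun a ha => (hZEQ a ha).1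
  have hZQ : Disjoint Z Q := disjoint_left.2 fun a ha => (hZEQ a ha).2
  -- the top of the branch
  have hFS : F.size + 1 ≤ Y₀.card := by omega
  have hFt := hF Y₀.card hFS
  obtain ⟨Z', L, hZ', hPF, hLl, hLI, q₀, hq₀, hq₀H, hq₀s⟩ := top_at hFt (f := f) (B := I.filter (fun a => R f a))
    (fun a ha => (mem_filter.1 ha).2) hfb
  have hZ'I : Z' ⊆ I := hZ'.trans (filter_subset _ _)
  have hfE : f ∈ E := by rw [hE]; exact mem_insert_self _ _
  have hIE : I ⊆ E := by rw [hE]; exact subset_insert _ _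
  have hPall : PGq R (.node true F s) y (Z ∪ insert f Z') (L.map (fun q => (q.1, true, q.2)) ++ G) := by
    have h1 : PGq R (.node true F s) y Z ((y, true, F) :: G) := hP.perm List.perm_append_comm
    refine h1.bind (by simpa [Adj] using hyf) (fun h => hfI (hZ'I h)) (fun h => disjoint_left.1 hZE h hfE) ?_ hPF
    exact disjoint_of_subset_right (hZ'I.trans hIE) hZE
  have hbig : θ₂ * n ≤ (q₀.2.size : ℝ) + 1 := by
    have h1 : θ * n ≤ F.size + 1 := by rw [hn]; exact hθF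
    have h2 : (b : ℝ) * (b * (q₀.2.size + 1) + 1) = b * b * (q₀.2.size + 1) + b := by ring
    rw [h2] at hq₀s
    have h3 : θ₂ * n * (b * b) * 2 = θ * n := by rw [← t2]; ring
    have h4 : θ₂ * n * (b * b) ≤ (q₀.2.size + 1) * (b * b) := by linarith only [h1, hq₀s, h3, r3, hb1]
    exact le_of_mul_le_mul_right h4 (by positivity)
  have hLs : θ₂ * n ≤ (isz L : ℝ) := by
    refine hbig.trans ?_
    have h1 : q₀.2.size + 1 ≤ isz L :=
      List.single_le_sum (l := L.map (fun p => p.2.size + 1)) (by simp) _ (List.mem_map.2 ⟨q₀, hq₀, rfl⟩)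
    exact_mod_cast h1
  obtain ⟨hyX, hyU⟩ := mem_sdiff.1 hyY
  have hEU : ∀ a ∈ E, a ∈ X ∧ a ∉ U := fun a ha => mem_sdiff.1 (by rw [← hY₀]; exact hEY ha)
  have hQU : ∀ a ∈ Q, a ∈ X ∧ a ∉ U := fun a ha => mem_sdiff.1 (by rw [← hY₀]; exact hQY ha)
  refine t2_finish (P₁ := U ∪ Z) (Y := (X \ (U ∪ Z)).erase y) (S := Z) (Zr := insert f Z') (E := E) (Q := Q) (L := L)
    (G := G) (σ := θ₂ / 2 * n) (t := Z.card) (C₁ := Cb) (C₂ := C₃) hyX (union_subset hUX hZX) ?_ rfl hZX hyZ ?_ ?_ ?_ ?_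
    hPall ?_ ?_ ?_ rfl ?_ ?_
  · rw [mem_union, not_or]
    exact ⟨hyU, hyZ⟩
  · intro a ha
    rw [mem_sdiff, mem_union, not_or] at ha
    exact absurd ha.1 ha.2.2
  · exact insert_subset hfE (hZ'I.trans hIE)
  · intro a ha
    rw [mem_erase, mem_sdiff, mem_union, not_or]
    exact ⟨fun h => hyE (h ▸ ha), (hEU a ha).1, (hEU a ha).2, disjoint_right.1 hZE ha⟩
  · intro a ha
    rw [mem_sdiff, mem_erase, mem_sdiff, mem_union, not_or]
    exact ⟨⟨fun h => hyQ (h ▸ ha), (hQU a ha).1, (hQU a ha).2, disjoint_right.1 hZQ ha⟩, (mem_sdiff.1 (hQ ha)).2⟩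
  · intro P hPY hPE hQP' hsz
    refine hQP P ?_ hPE hQP' L (by omega) ?_ ⟨q₀, hq₀, hq₀H, ?_⟩ hsz
    · intro a ha
      have h1 := hPY ha
      rw [mem_erase, mem_sdiff, mem_union, not_or] at h1
      rw [hY₀, mem_sdiff]
      exact ⟨h1.2.1, h1.2.2.1⟩
    · intro q hq
      exact ⟨hmI q.1 (mem_filter.1 (hLI q hq).1).1, (hLI q hq).2⟩
    · exact (mul_le_mul_of_nonneg_left hY₀n t1.le).trans hbig
  · intro W hW hsz
    have hWX : W ⊆ X \ U := by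
      intro a ha
      have h1 := hW ha
      rw [mem_erase, mem_sdiff, mem_union, not_or] at h1
      rw [mem_sdiff]
      exact ⟨h1.2.1, h1.2.2.1⟩
    have hWn : (W.card : ℝ) ≤ n := by
      rw [hn]
      exact_mod_cast card_le_card (hWX.trans sdiff_subset)
    refine hgarb hT G W (θ₂ / 2 * n) (by linarith) (mul_le_mul_of_nonneg_left hWn (by positivity)) hsz ?_
    intro q hq
    obtain ⟨g1, g2, g3, g4⟩ := hG q hq
    refine ⟨g1, g3, g4, ?_⟩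
    have h1 : ((W.filter (fun v => ¬ R q.1 v)).card : ℝ) ≤ ((X \ U).filter (fun v => ¬ R q.1 v)).card := by
      exact_mod_cast card_le_card (filter_subset_filter _ hWX)
    have h2 := hTD.missY hT hτ0.le hJ g2
    rw [← hn] at h2
    have h3 : ((J + 1) * τ + ζ) * n ≤ θ₂ ^ 2 / 16 * n := mul_le_mul_of_nonneg_right (hmiss.trans hμ2) hn0
    have h4 : θ₂ / 2 / 4 * (θ₂ / 2 * n) = θ₂ ^ 2 / 16 * n := by ring
    rw [h4]
    linarith
  · have h1 : (E.card : ℝ) ≤ N + 1 := by exact_mod_cast hEc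
    have h2 : (Q.card : ℝ) ≤ θ₂ / 8 * n := hQn.trans (mul_le_mul_of_nonneg_right hd2 hn0)
    have h3 : 0 ≤ θ₂ * n := by positivity
    linarith
  · have h1 : U ∪ Z = Z ∪ (U \ Z) := by
      ext a
      simp only [mem_union, mem_sdiff]
      tauto
    rw [h1]
    exact (card_union_le _ _).trans (Nat.add_le_add_left hUZ _)
  · omega

end AESF
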