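import Pool.Agent.AESF.T2Core
import Pool.Agent.AESF.StX
import Pool.Agent.AESF.BcastX

/-!
# Free ends: case T2, list version
-/

set_option autoImplicit false

namespace AESF

open Finset AE15 AED AELT AEB
open scoped Classical

/-- a forest whose trees hang by arcs away from the common vertex is pending -/
theorem true_pend {V : Type} {R : V → V → Prop} {F : Fd} (h : ∀ q ∈ F.trees, q.1 = true) (v : V) :
    PE R F v ∅ (F.trees.map (fun p => (v, p.2))) := by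
  induction F with
  | nil => exact PE.nil v
  | node d c s _ ih =>
    have h2 : d = true := h (d, c) (by simp [Fd.trees])
    subst h2
    exact PE.pend c s v ∅ _ (ih fun p hp => h p (by simp [Fd.trees, hp]))

/-- the root of the branch is placed at `v`, its heaviest child at `x` -/
theorem two_stepX {V : Type} {R : V → V → Prop} {b : ℕ} {F c₁ : Fd}
    (hF : ∀ q ∈ F.trees, q.1 = true ∧ q.2.len ≤ b ∧ q.2.Deg b) (hc : F.hv = some (true, c₁))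
    (hc₁ : ∀ q ∈ c₁.trees, q.1 = true) {v x : V} (hvx : R v x) : ∃ G : List (V × Bool × Fd),
      (∀ q ∈ G, q.1 = v ∧ q.2.1 = true ∧ q.2.2.len ≤ b ∧ q.2.2.Deg b) ∧
      PGq R F v {x} ((c₁.trees.map (fun p => (x, p.2))).map (fun q => (q.1, true, q.2)) ++ G) := by
  obtain ⟨⟨ts, hts⟩, -⟩ := hv_some hc
  have h1 := (PGq.start (R := R) F v).perm (hts.map (fun p => (v, p.1, p.2)))
  rw [List.map_cons] at h1
  have h2 := h1.bind (x := x) (A := ∅) (by simpa [Adj] using hvx) (notMem_empty x) (notMem_empty x)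
    (disjoint_empty_left _) (PGq.ofPE (true_pend hc₁ x))
  refine ⟨ts.map (fun p => (v, p.1, p.2)), ?_, ?_⟩
  · intro q hq
    obtain ⟨p, hp, rfl⟩ := List.mem_map.1 hq
    obtain ⟨h3, h4, h5⟩ := hF p (hts.mem_iff.2 (List.mem_cons_of_mem _ hp))
    exact ⟨rfl, h3, h4, h5⟩
  · rw [empty_union] at h2
    exact h2

/-- **Case T2**: `U` is a set of vertices which see almost everything outside `U`, a little larger than the in-closure of
the root; every vertex of `U` reaches the hosts outside `U` by short routes -/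
theorem t2_coreX (b : ℕ) (hb : 1 ≤ b) {θ : ℝ} (hθ : 0 < θ) : ∃ μ s : ℝ, 0 < μ ∧ 0 < s ∧ ∀ N₁ : ℕ,
    ∃ (N e m c₁ m₀ : ℕ) (τ d : ℝ), 1 ≤ N ∧ 0 < τ ∧ 0 < d ∧ ∀ (I₀ : ℕ → Fd → Prop) (H₀ : Fd → Prop) (nb Cb : ℕ),
    BxL N e m τ d I₀ H₀ nb Cb →
    ∃ C : ℕ, ∀ {V : Type} {R : V → V → Prop}, AE32.Tour R → ∀ (X U : Finset V) (F s₀ : Fd), U ⊆ X →
      (Fd.node true F s₀).len ≤ b → (Fd.node true F s₀).Deg b → (∀ n, F.size + 1 ≤ n → Top3X b (I₀ n) H₀ F) → θ * X.card ≤ (F.size + 1 : ℝ) →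
      (Fd.node true F s₀).size + 1 + C ≤ X.card → blk s₀ + c₁ + m₀ ≤ U.card →
      (U.card : ℝ) ≤ blk s₀ + c₁ + μ * X.card →
      (∀ u ∈ U, (((X \ U).filter (fun v => ¬ R u v)).card : ℝ) ≤ μ * X.card) →
      (∀ (y : V) (P Fb Q : Finset V), y ∈ U → P ⊆ U → Fb.card ≤ e → s * P.card ≤ ((nO R P y).card : ℝ) →
        U.card ≤ blk s₀ + c₁ + P.card + c₁ → Q ⊆ X \ U → N₁ ≤ Q.card → Rt R X U P Fb Q y b) →
      In R (.node true F s₀) (fun _ => True) X := by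
  obtain ⟨J, C₁, s, hs, hpack⟩ := packU b hb
  have hb0 : (1 : ℝ) ≤ b := by exact_mod_cast hb
  obtain ⟨θ₃, hθ₃⟩ : ∃ θ₃ : ℝ, θ₃ = θ / (2 * (b * b * b)) := ⟨_, rfl⟩
  have t1 : 0 < θ₃ := by rw [hθ₃]; positivity
  have t2 : θ₃ * (2 * (b * b * b)) = θ := by rw [hθ₃]; field_simp
  obtain ⟨ng, hgarb⟩ := garbG b hb (θ := θ₃ / 2) (by positivity)
  refine ⟨θ₃ ^ 2 / 64, s, by positivity, hs, ?_⟩
  intro N₁
  obtain ⟨N, hN⟩ : ∃ N, N = C₁ + 3 * J + 1 + N₁ := ⟨_, rfl⟩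
  obtain ⟨m, hm⟩ : ∃ m, m = b * b * b := ⟨_, rfl⟩
  have hm1 : 1 ≤ m := by rw [hm]; exact Nat.mul_pos (Nat.mul_pos hb hb) hb
  have hbm : b ≤ m := by
    rw [hm, mul_assoc]
    exact Nat.le_mul_of_pos_right b (Nat.mul_pos hb hb)
  have hm0 : (1 : ℝ) ≤ m := by exact_mod_cast hm1
  obtain ⟨e, he⟩ : ∃ e, e = N + J + (1 + b + b * b) + 1 := ⟨_, rfl⟩
  obtain ⟨np, hpack⟩ := hpack N
  obtain ⟨nr, hnr⟩ : ∃ nr : ℕ, nr = ⌈2 * ng / θ₃ + 8 * e / θ₃ + 10 / θ₃⌉₊ := ⟨_, rfl⟩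
  refine ⟨N, e, m, 2 * C₁ + np, np, θ₃, θ₃ / 8, by omega, t1, by positivity, ?_⟩
  intro I₀ H₀ nb Cb hbox
  refine ⟨C₁ + np + (2 * C₁ + np) + nb + Cb + e + nr + 2, ?_⟩
  intro V R hT X U F s₀ hUX hl hD hF0 hθF hcard hU1 hU2 hmiss hroute
  obtain ⟨y, P₁, P₂, hyU, hP₁, hP₂, hyP₁, hyP₂, hdis, hp1, hp2, hUc, hsP, hA⟩ :=
    hpack hT U (blk s₀ + (2 * C₁ + np)) (by omega) (by omega)
  have hsize : (Fd.node true F s₀).size = F.size + s₀.size + 1 := rfl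
  have hbs : blk s₀ ≤ s₀.size := by
    have := AEJ.dcl_add_blk_le s₀
    omega
  obtain ⟨n, hn⟩ : ∃ n : ℝ, n = (X.card : ℝ) := ⟨_, rfl⟩
  have hnr' : 2 * ng / θ₃ + 8 * e / θ₃ + 10 / θ₃ ≤ n := by
    have h1 : nr ≤ X.card := by omega
    have h2 : (nr : ℝ) ≤ n := by rw [hn]; exact_mod_cast h1
    exact (by rw [hnr]; exact Nat.le_ceil _ : _ ≤ (nr : ℝ)).trans h2
  have q1 : (0 : ℝ) ≤ 2 * ng / θ₃ := by positivity
  have q2 : (0 : ℝ) ≤ 8 * e / θ₃ := by positivity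
  have q3 : (0 : ℝ) ≤ 10 / θ₃ := by positivity
  have r1 : 2 * ng ≤ θ₃ * n := by
    have : 2 * ng / θ₃ ≤ n := by linarith
    rwa [div_le_iff₀' t1] at this
  have r2 : 8 * e ≤ θ₃ * n := by
    have : 8 * e / θ₃ ≤ n := by linarith
    rwa [div_le_iff₀' t1] at this
  have r3 : 10 ≤ θ₃ * n := by
    have : 10 / θ₃ ≤ n := by linarith
    rwa [div_le_iff₀' t1] at this
  have hn0 : 0 ≤ n := by rw [hn]; exact Nat.cast_nonneg _
  have hyX : y ∈ X := hUX hyU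
  have hP₁X : P₁ ⊆ X := hP₁.trans hUX
  obtain ⟨Y, hY⟩ : ∃ Y, Y = (X \ P₁).erase y := ⟨_, rfl⟩
  have hYc : Y.card + P₁.card + 1 = X.card := by
    have h1 : y ∈ X \ P₁ := mem_sdiff.2 ⟨hyX, hyP₁⟩
    have h2 := card_sdiff_add_card_eq_card hP₁X
    rw [hY, card_erase_of_mem h1]
    have h3 : 0 < (X \ P₁).card := card_pos.2 ⟨y, h1⟩
    omega
  have hYX : ∀ a, a ∈ Y ↔ a ∈ X ∧ a ∉ P₁ ∧ a ≠ y := by
    intro a
    rw [hY, mem_erase, mem_sdiff]
    tauto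
  have hYn : (Y.card : ℝ) ≤ n := by
    rw [hn]
    exact_mod_cast (by omega : Y.card ≤ X.card)
  obtain ⟨x, hxY, hxi, hbx⟩ := hbox hT Y (by omega)
  obtain ⟨I, hI⟩ : ∃ I, I = (range N).image x := ⟨_, rfl⟩
  have hIc : I.card = N := by
    rw [hI, card_image_of_injOn, card_range]
    intro i hi j hj hij
    exact hxi i (mem_range.1 hi) j (mem_range.1 hj) hij
  have hIY : I ⊆ Y := by
    intro a ha
    rw [hI, mem_image] at ha
    obtain ⟨i, hi, rfl⟩ := ha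
    exact hxY i (mem_range.1 hi)
  have hmI : ∀ a ∈ I, ∃ i < N, a = x i := by
    intro a ha
    rw [hI, mem_image] at ha
    obtain ⟨i, hi, rfl⟩ := ha
    exact ⟨i, mem_range.1 hi, rfl⟩
  obtain ⟨S, hSU, hyS, hES, hSJ, hbad⟩ := hA (prIn s₀) (prIn_fok (by simp only [Fd.len] at hl; omega) hD.2.2)
    (by rw [blk_prIn]; omega) (I ∩ P₂) inter_subset_right ((card_le_card inter_subset_left).trans hIc.le)
  obtain ⟨G₀, hG₀, hG₁, hG₂, -, hG₃⟩ := prIn_pg hES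
  have hSc : S.card = blk s₀ := by rw [hES.card, blk_prIn]
  have hSY : S \ P₁ ⊆ Y := by
    intro a ha
    rw [mem_sdiff] at ha
    rw [hYX]
    exact ⟨hUX (hSU ha.1), ha.2, fun h => hyS (h ▸ ha.1)⟩
  have hP₂Y : P₂ ⊆ Y := by
    intro a ha
    rw [hYX]
    exact ⟨hUX (hP₂ ha), disjoint_right.1 hdis ha, fun h => hyP₂ (h ▸ ha)⟩
  have hFY : F.size + 1 ≤ Y.card := by omega
  have hF := hF0 _ hFY
  obtain ⟨c₁, c₂, c₃, hc₁, hc₂, hc₃, j1, j2, j3⟩ := hF.heavy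
  have hm₁ : (true, c₁) ∈ F.trees := hv_mem hc₁
  have hm₂ : (true, c₂) ∈ c₁.trees := hv_mem hc₂
  have hm₃ : (true, c₃) ∈ c₂.trees := hv_mem hc₃
  have hb00 : (0 : ℝ) ≤ b := by linarith
  have hFn : θ * n ≤ F.size + 1 := by rw [hn]; exact hθF
  have e1 : (F.size : ℝ) ≤ b * (c₁.size + 1) := by exact_mod_cast (hv_size hc₁ hF.len).1
  have e2 : (c₁.size : ℝ) ≤ b * (c₂.size + 1) := by exact_mod_cast (hv_size hc₂ (hF.t1 _ hm₁).2.1).1
  have e3 : (c₂.size : ℝ) ≤ b * (c₃.size + 1) := by exact_mod_cast (hv_size hc₃ (hF.t2 _ hm₁ _ hm₂).2.1).1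
  have k3 : θ₃ * n ≤ (c₃.size : ℝ) := by
    by_contra hc
    push Not at hc
    have g3 : (c₃.size : ℝ) + 1 ≤ θ₃ * n + 1 := by linarith
    have g2 : (c₂.size : ℝ) + 1 ≤ b * (θ₃ * n + 1) + 1 := by nlinarith
    have g1 : (c₁.size : ℝ) + 1 ≤ b * (b * (θ₃ * n + 1) + 1) + 1 := by nlinarith
    have g0 : (F.size : ℝ) + 1 ≤ b * (b * (b * (θ₃ * n + 1) + 1) + 1) + 1 := by nlinarith
    have g4 : θ * n = 2 * (b * b * b) * (θ₃ * n) := by rw [← t2]; ring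
    obtain ⟨B, hB⟩ : ∃ B : ℝ, B = b * b * b := ⟨_, rfl⟩
    have g5 : (b : ℝ) * b ≤ B := by
      rw [hB]
      exact le_mul_of_one_le_right (by positivity) hb0
    have g6 : (b : ℝ) ≤ b * b := le_mul_of_one_le_right hb00 hb0
    have g7 : (b : ℝ) * (b * (b * (θ₃ * n + 1) + 1) + 1) + 1 = B * (θ₃ * n) + B + b * b + b + 1 := by rw [hB]; ring
    rw [g7] at g0
    rw [g4, ← hB] at hFn
    have g8 : B * 10 ≤ B * (θ₃ * n) := mul_le_mul_of_nonneg_left r3 (by linarith)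
    nlinarith
  have k2 : θ₃ * n ≤ (c₂.size : ℝ) := by
    have := size_lt_of_mem hm₃
    have h1 : (c₃.size : ℝ) ≤ c₂.size := by exact_mod_cast this.le
    linarith
  have k1 : θ₃ * n ≤ (c₁.size : ℝ) := by
    have := size_lt_of_mem hm₂
    have h1 : (c₂.size : ℝ) ≤ c₁.size := by exact_mod_cast this.le
    linarith
  -- the route
  have key : ∃ (Zr : Finset V) (L : List (V × Fd)) (G₁ : List (V × Bool × Fd)), Zr ⊆ Y ∧
        Zr.card ≤ 1 + b + b * b ∧ Disjoint S Zr ∧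
        PGq R (.node true F s₀) y (S ∪ Zr) (L.map (fun q => (q.1, true, q.2)) ++ (G₁ ++ G₀)) ∧
        (∀ q ∈ G₁, q.1 ∈ U ∧ q.2.1 = true ∧ q.2.2.len ≤ b ∧ q.2.2.Deg b) ∧
        (∀ q ∈ L, (∃ i < N, q.1 = x i) ∧ I₀ Y.card q.2) ∧ L.length ≤ m ∧
        ∃ q ∈ L, H₀ q.2 ∧ θ₃ * n ≤ (q.2.size : ℝ) := by
    -- the one-step route
    have R0 : ∀ z ∈ I, z ∉ S → R y z → ∃ (Zr : Finset V) (L : List (V × Fd)) (G₁ : List (V × Bool × Fd)), Zr ⊆ Y ∧
        Zr.card ≤ 1 + b + b * b ∧ Disjoint S Zr ∧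
        PGq R (.node true F s₀) y (S ∪ Zr) (L.map (fun q => (q.1, true, q.2)) ++ (G₁ ++ G₀)) ∧
        (∀ q ∈ G₁, q.1 ∈ U ∧ q.2.1 = true ∧ q.2.2.len ≤ b ∧ q.2.2.Deg b) ∧
        (∀ q ∈ L, (∃ i < N, q.1 = x i) ∧ I₀ Y.card q.2) ∧ L.length ≤ m ∧
        ∃ q ∈ L, H₀ q.2 ∧ θ₃ * n ≤ (q.2.size : ℝ) := by
      intro z hz hzS hyz
      refine ⟨insert z ∅, F.trees.map (fun p => (z, p.2)), [], ?_, ?_, ?_, ?_, by simp, ?_, ?_, ?_⟩
      · intro a ha
        simp only [insert_empty_eq, mem_singleton] at ha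
        rw [ha]
        exact hIY hz
      · simp only [insert_empty_eq, card_singleton]
        omega
      · simp only [insert_empty_eq, disjoint_singleton_right]
        exact hzS
      · rw [List.nil_append]
        exact open_at hG₀.q hyz hzS (notMem_empty z) (disjoint_empty_right _)
          (PGq.ofPE (true_pend (fun q hq => (hF.t1 q hq).1) z))
      · intro q hq
        obtain ⟨p, hp, rfl⟩ := List.mem_map.1 hq
        exact ⟨hmI z hz, (hF.t1 p hp).2.2.2⟩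
      · rw [List.length_map, ← Fd.len_eq]
        exact hF.len.trans hbm
      · exact ⟨(z, c₁), List.mem_map.2 ⟨(true, c₁), hm₁, rfl⟩, j1, k1⟩
    -- the two-step route
    have R1 : ∀ v ∈ Y, v ∈ U → v ∉ S → ∀ z ∈ I, z ∉ S → R y v → R v z → ∃ (Zr : Finset V) (L : List (V × Fd)) (G₁ : List (V × Bool × Fd)), Zr ⊆ Y ∧
        Zr.card ≤ 1 + b + b * b ∧ Disjoint S Zr ∧
        PGq R (.node true F s₀) y (S ∪ Zr) (L.map (fun q => (q.1, true, q.2)) ++ (G₁ ++ G₀)) ∧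
        (∀ q ∈ G₁, q.1 ∈ U ∧ q.2.1 = true ∧ q.2.2.len ≤ b ∧ q.2.2.Deg b) ∧
        (∀ q ∈ L, (∃ i < N, q.1 = x i) ∧ I₀ Y.card q.2) ∧ L.length ≤ m ∧
        ∃ q ∈ L, H₀ q.2 ∧ θ₃ * n ≤ (q.2.size : ℝ) := by
      intro v hvY hvU hvS z hz hzS hyv hvz
      have hvz' : v ≠ z := by
        rintro rfl
        exact hT.irr _ hvz
      obtain ⟨G, hG, hPG⟩ := two_stepX (R := R) (b := b)
        (fun q hq => ⟨(hF.t1 q hq).1, (hF.t1 q hq).2.1, (hF.t1 q hq).2.2.1⟩) hc₁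
        (fun q hq => (hF.t2 _ hm₁ q hq).1) hvz
      refine ⟨insert v {z}, c₁.trees.map (fun p => (z, p.2)), G, ?_, ?_, ?_, ?_, ?_, ?_, ?_, ?_⟩
      · intro a ha
        rw [mem_insert, mem_singleton] at ha
        rcases ha with rfl | rfl
        · exact hvY
        · exact hIY hz
      · have h1 := card_insert_le v {z}
        rw [card_singleton] at h1
        have h2 : 1 ≤ b * b := Nat.mul_pos hb hb
        omega
      · rw [disjoint_insert_right, disjoint_singleton_right]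
        exact ⟨hvS, hzS⟩
      · have h1 := open_at (F := F) hG₀.q hyv hvS (Z := {z}) (by rw [mem_singleton]; exact hvz')
          (by rw [disjoint_singleton_right]; exact hzS) hPG
        rwa [List.append_assoc] at h1
      · intro q hq
        obtain ⟨h1, h2, h3, h4⟩ := hG q hq
        exact ⟨by rw [h1]; exact hvU, h2, h3, h4⟩
      · intro q hq
        obtain ⟨p, hp, rfl⟩ := List.mem_map.1 hq
        exact ⟨hmI z hz, (hF.t2 _ hm₁ p hp).2.2.2⟩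
      · rw [List.length_map, ← Fd.len_eq]
        exact (hF.t1 _ hm₁).2.1.trans hbm
      · exact ⟨(z, c₂), List.mem_map.2 ⟨(true, c₂), hm₂, rfl⟩, j2, k2⟩
    -- routes with a broadcast
    have R2 : ∀ w ∈ Y, w ∉ S → R y w → ∀ (K : Finset V) (f : ℕ → V), K ⊆ I → (∀ a ∈ K, a ∉ S) → w ∉ K →
        (∀ j < b, f j ∈ Y ∧ f j ∉ S ∧ f j ∉ K ∧ f j ≠ w ∧ R w (f j) ∧ b * b ≤ (K.filter (fun a => R (f j) a)).card) →
        (∀ i < b, ∀ j < b, f i = f j → i = j) → ∃ (Zr : Finset V) (L : List (V × Fd)) (G₁ : List (V × Bool × Fd)), Zr ⊆ Y ∧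
        Zr.card ≤ 1 + b + b * b ∧ Disjoint S Zr ∧
        PGq R (.node true F s₀) y (S ∪ Zr) (L.map (fun q => (q.1, true, q.2)) ++ (G₁ ++ G₀)) ∧
        (∀ q ∈ G₁, q.1 ∈ U ∧ q.2.1 = true ∧ q.2.2.len ≤ b ∧ q.2.2.Deg b) ∧
        (∀ q ∈ L, (∃ i < N, q.1 = x i) ∧ I₀ Y.card q.2) ∧ L.length ≤ m ∧
        ∃ q ∈ L, H₀ q.2 ∧ θ₃ * n ≤ (q.2.size : ℝ) := by
      intro w hwY hwS hyw K f hKI hKS hwK hf hfi
      obtain ⟨Z, L, z1, z2, z3, z4, z5, z6⟩ := bcastO (b := b) hF.outD (y := w) (f := f) (K := K)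
        (fun j hj => (hf j hj).2.2.2.2.1) hfi (fun j hj => (hf j hj).2.2.1) (fun j hj => (hf j hj).2.2.2.2.2)
      have hwZ : w ∉ Z := by
        intro h
        rcases mem_union.1 (z2 h) with h1 | h1
        · obtain ⟨j, hj, h2⟩ := mem_image.1 h1
          exact (hf j (mem_range.1 hj)).2.2.2.1 h2
        · exact hwK h1
      have hZS : Disjoint S Z := by
        rw [disjoint_right]
        intro a ha
        rcases mem_union.1 (z2 ha) with h1 | h1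
        · obtain ⟨j, hj, rfl⟩ := mem_image.1 h1
          exact (hf j (mem_range.1 hj)).2.1
        · exact hKS a h1
      have hZY : Z ⊆ Y := by
        intro a ha
        rcases mem_union.1 (z2 ha) with h1 | h1
        · obtain ⟨j, hj, rfl⟩ := mem_image.1 h1
          exact (hf j (mem_range.1 hj)).1
        · exact hIY (hKI h1)
      refine ⟨insert w Z, L, [], insert_subset hwY hZY, ?_, disjoint_insert_right.2 ⟨hwS, hZS⟩, ?_, by simp, ?_, ?_, ?_⟩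
      · have := card_insert_le w Z
        omega
      · rw [List.nil_append]
        exact open_at hG₀.q hyw hwS hwZ hZS (PGq.ofPE z1)
      · intro p hp
        obtain ⟨h1, q, hq, r, hr, t, ht, h2⟩ := z5 p hp
        refine ⟨hmI _ (hKI h1), ?_⟩
        rw [h2]
        exact (hF.t3 q hq r hr t ht).2.2.2
      · rw [hm]
        exact z4
      · obtain ⟨q, hq, hq3⟩ := z6 _ hm₁ _ hm₂ _ hm₃
        exact ⟨q, hq, by rw [hq3]; exact j3, by rw [hq3]; exact k3⟩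
    by_cases hcase : ∃ z ∈ I ∩ P₂, z ∉ S ∧ (R y z ∨ ∃ v ∈ P₂, v ∉ S ∧ R y v ∧ R v z)
    · obtain ⟨z, hz, hzS, h1 | ⟨v, hv, hvS, hyv, hvz⟩⟩ := hcase
      · exact R0 z (mem_inter.1 hz).1 hzS h1
      · exact R1 v (hP₂Y hv) (hP₂ hv) hvS z (mem_inter.1 hz).1 hzS hyv hvz
    · have h1 : (I ∩ P₂).card ≤ 3 * J := by
        refine le_trans (card_le_card ?_) hbad
        intro z hz
        rw [mem_filter]
        refine ⟨hz, fun h => hcase ⟨z, hz, h⟩⟩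
      have h2 : ((I ∩ U) \ P₂).card ≤ C₁ := by
        have h3 : (I ∩ U) \ P₂ ⊆ U \ (P₁ ∪ P₂) := by
          intro a ha
          rw [mem_sdiff, mem_inter] at ha
          rw [mem_sdiff, mem_union, not_or]
          exact ⟨ha.1.2, ((hYX a).1 (hIY ha.1.1)).2.1, ha.2⟩
        have h4 := card_sdiff_add_card_eq_card (union_subset hP₁ hP₂)
        rw [card_union_of_disjoint hdis] at h4
        have h5 := card_le_card h3
        omega
      have h3 : N₁ ≤ (I \ U).card := by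
        have h4 : I.card ≤ (I \ U).card + ((I ∩ U) \ P₂).card + (I ∩ P₂).card := by
          have h5 : I ⊆ (I \ U) ∪ ((I ∩ U) \ P₂) ∪ (I ∩ P₂) := by
            intro a ha
            simp only [mem_union, mem_sdiff, mem_inter]
            tauto
          refine (card_le_card h5).trans ((card_union_le _ _).trans ?_)
          have := card_union_le (I \ U) ((I ∩ U) \ P₂)
          omega
        omega
      have hFbc : (insert y (I ∪ (S \ P₁))).card ≤ e := by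
        have h5 := card_insert_le y (I ∪ (S \ P₁))
        have h6 := card_union_le I (S \ P₁)
        omega
      rcases hroute y P₂ (insert y (I ∪ (S \ P₁))) (I \ U) hyU hP₂ hFbc hsP (by omega)
        (fun a ha => mem_sdiff.2 ⟨((hYX _).1 (hIY (mem_sdiff.1 ha).1)).1, (mem_sdiff.1 ha).2⟩) h3 with
        ⟨z, hz, v, hv, hvF, hyv, hvz⟩ | ⟨w, hwX, hwP, hwF, hyw, f, hf, hfi⟩
      · rw [mem_insert, mem_union, mem_sdiff, not_or, not_or, not_and, not_not] at hvF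
        have hvS : v ∉ S := fun h => disjoint_right.1 hdis hv (hvF.2.2 h)
        exact R1 v (hP₂Y hv) (hP₂ hv) hvS z (mem_sdiff.1 hz).1 (fun h => (mem_sdiff.1 hz).2 (hSU h)) hyv hvz
      · rw [mem_insert, mem_union, mem_sdiff, not_or, not_or, not_and, not_not] at hwF
        have hwP₁ : w ∉ P₁ := by
          rcases hwP with h | h
          · exact disjoint_right.1 hdis h
          · exact fun h' => h (hP₁ h')
        have hwY : w ∈ Y := (hYX w).2 ⟨hwX, hwP₁, hwF.1⟩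
        have hwS : w ∉ S := fun h => hwP₁ (hwF.2.2 h)
        refine R2 w hwY hwS hyw (I \ U) f sdiff_subset (fun a ha h => (mem_sdiff.1 ha).2 (hSU h))
          (fun h => hwF.2.1 (mem_sdiff.1 h).1) ?_ hfi
        intro j hj
        obtain ⟨f1, f2, f3, f4, f5, f6⟩ := hf j hj
        rw [mem_insert, mem_union, mem_sdiff, not_or, not_or] at f3
        exact ⟨(hYX _).2 ⟨f1, fun h => f2 (hP₁ h), f3.1⟩, fun h => f2 (hSU h),
          fun h => f3.2.1 (mem_sdiff.1 h).1, f4, f5, f6⟩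
  obtain ⟨Zr, L, G₁, k1, k2, k3, k4, k5, k6, k7, qb, hqb, hHb, hqbn⟩ := key
  obtain ⟨E, hE⟩ : ∃ E, E = I ∪ (S \ P₁) ∪ Zr := ⟨_, rfl⟩
  have hEY : E ⊆ Y := by rw [hE]; exact union_subset (union_subset hIY hSY) k1
  have hEc : E.card ≤ e := by
    have h1 := card_union_le (I ∪ (S \ P₁)) Zr
    have h2 := card_union_le I (S \ P₁)
    rw [hE]
    omega
  obtain ⟨Q, hQ, hQc, hQP⟩ := hbx E hEY hEc (fun i hi => by
    rw [hE, hI]
    exact mem_union_left _ (mem_union_left _ (mem_image_of_mem x (mem_range.2 hi))))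
  have hLbig : ∃ q ∈ L, H₀ q.2 ∧ θ₃ * Y.card ≤ (q.2.size + 1 : ℝ) := by
    refine ⟨qb, hqb, hHb, ?_⟩
    have h3 : θ₃ * (Y.card : ℝ) ≤ θ₃ * n := mul_le_mul_of_nonneg_left hYn t1.le
    linarith
  have k8 : θ₃ * n ≤ (isz L : ℝ) := by
    have h1 : qb.2.size + 1 ≤ isz L := by
      have h2 : (qb.2.size + 1) ∈ L.map (fun p => p.2.size + 1) := List.mem_map.2 ⟨qb, hqb, rfl⟩
      exact List.single_le_sum (by simp) _ h2
    have h2 : (qb.2.size : ℝ) + 1 ≤ isz L := by exact_mod_cast h1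
    linarith
  refine t2_finish (σ := θ₃ / 2 * n) (t := blk s₀) (C₁ := Cb) (C₂ := C₁ + (2 * C₁ + np)) hyX hP₁X hyP₁ hY
    (hSU.trans hUX) hyS ?_ ?_ hEY hQ k4 ?_ ?_ ?_ hSc ?_ ?_
  · rw [hE]
    exact fun a ha => mem_union_left _ (mem_union_right _ ha)
  · rw [hE]
    exact subset_union_right
  · intro P hP hPE hQP' hsz
    exact hQP P hP hPE hQP' L (by omega) k6 hLbig hsz
  · intro W hW hsz
    have hWn : (W.card : ℝ) ≤ n := le_trans (by exact_mod_cast card_le_card hW) hYn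
    refine hgarb hT (G₁ ++ G₀) W (θ₃ / 2 * n) (by linarith) (mul_le_mul_of_nonneg_left hWn (by positivity)) hsz ?_
    intro q hq
    have hqU : q.1 ∈ U ∧ q.2.1 = true ∧ q.2.2.len ≤ b ∧ q.2.2.Deg b := by
      rcases List.mem_append.1 hq with h | h
      · exact k5 q h
      · obtain ⟨h1, h2⟩ := hG₂ q h
        obtain ⟨h3, h4⟩ := hG₃ b (by simp only [Fd.len] at hl; omega) hD.2.2 q h
        refine ⟨?_, h1, h3, h4⟩
        rcases h2 with h2 | h2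
        · rw [h2]
          exact hyU
        · exact hSU h2
    obtain ⟨u1, u2, u3, u4⟩ := hqU
    refine ⟨u2, u3, u4, ?_⟩
    have h1 : W.filter (fun v => ¬ R q.1 v) ⊆ (U \ P₁) ∪ (X \ U).filter (fun v => ¬ R q.1 v) := by
      intro v hv
      rw [mem_filter] at hv
      have h2 := (hYX v).1 (hW hv.1)
      rw [mem_union, mem_sdiff, mem_filter, mem_sdiff]
      by_cases h3 : v ∈ U
      · exact Or.inl ⟨h3, h2.2.1⟩
      · exact Or.inr ⟨⟨h2.1, h3⟩, hv.2⟩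
    have h2 : ((W.filter (fun v => ¬ R q.1 v)).card : ℝ) ≤ (U \ P₁).card + ((X \ U).filter (fun v => ¬ R q.1 v)).card := by
      exact_mod_cast (card_le_card h1).trans (card_union_le _ _)
    have h3 : ((U \ P₁).card : ℝ) + P₁.card = U.card := by exact_mod_cast card_sdiff_add_card_eq_card hP₁
    have h4 : ((blk s₀ + (2 * C₁ + np) : ℕ) : ℝ) ≤ P₁.card := by exact_mod_cast hp1
    have h5 := hmiss q.1 u1
    push_cast at h4 hU2
    rw [← hn] at h5 hU2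
    have h6 : θ₃ / 2 / 4 * (θ₃ / 2 * n) = θ₃ ^ 2 / 16 * n := by ring
    rw [h6]
    have h7 : 0 ≤ θ₃ ^ 2 * n := by positivity
    linarith
  · have h1 : (E.card : ℝ) ≤ e := by exact_mod_cast hEc
    have h2 : (Q.card : ℝ) ≤ θ₃ / 8 * n := hQc.trans (mul_le_mul_of_nonneg_left hYn (by positivity))
    have h3 : 0 ≤ θ₃ * n := by positivity
    linarith
  · omega
  · omega

/-- **Case T2, list version** -/
theorem t2X (b : ℕ) (hb : 1 ≤ b) {θ : ℝ} (hθ : 0 < θ) : ∃ ω₀ : ℝ, 0 < ω₀ ∧ ∀ ω : ℝ, 0 < ω → ω ≤ ω₀ →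
    ∃ ζ₀ : ℝ, 0 < ζ₀ ∧ ∀ ζ : ℝ, ζ ≤ ζ₀ → ∀ (lam : ℝ) (J : ℕ), 0 < lam → ∃ a₁₀ : ℝ, 0 < a₁₀ ∧ ∀ a₁ : ℝ, 0 < a₁ → a₁ ≤ a₁₀ →
    ∃ a₂₀ : ℝ, 0 < a₂₀ ∧ ∀ a₂ : ℝ, 0 < a₂ → a₂ ≤ a₂₀ → ∀ k₀ : ℝ, 0 < k₀ →
    ∃ (N e m c₁ m₀ : ℕ) (τb d : ℝ), 1 ≤ N ∧ 0 < τb ∧ 0 < d ∧ ∀ (I₀ : ℕ → Fd → Prop) (H₀ : Fd → Prop) (nb Cb : ℕ),
    BxL N e m τb d I₀ H₀ nb Cb → ∃ C : ℝ,
    ∀ {V : Type} {R : V → V → Prop}, AE32.Tour R → ∀ (X U : Finset V) (𝓛 : Finset (Finset V)) (k : ℝ), k₀ ≤ k → k ≤ 1 →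
      𝓛.card ≤ J → ∀ F s₀ : Fd, (Fd.node true F s₀).len ≤ b → (Fd.node true F s₀).Deg b → (∀ n, F.size + 1 ≤ n → Top3X b (I₀ n) H₀ F) →
      θ * X.card ≤ (F.size + 1 : ℝ) → ((Fd.node true F s₀).size + 1 : ℝ) + C ≤ X.card →
      (CutD R X U 𝓛 (blk s₀ + c₁) ω ζ lam (a₁ * k ^ 2) (a₂ * k ^ 2) ∨
        ∃ K, ThickD R X U K 𝓛 (blk s₀ + c₁) ω ζ k lam (a₁ * k ^ 2) (a₂ * k ^ 2)) →
      blk s₀ + c₁ + m₀ ≤ U.card → In R (.node true F s₀) (fun _ => True) X := by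
  obtain ⟨μ, s, hμ, hs, hcore⟩ := t2_coreX b hb hθ
  refine ⟨μ / 4, by positivity, ?_⟩
  intro ω hω hωμ
  refine ⟨μ / 4, by positivity, ?_⟩
  intro ζ hζ lam J hlam
  have hJ0 : (0 : ℝ) ≤ J := Nat.cast_nonneg _
  refine ⟨min (1 / 8) (μ / (4 * (J + 1))), by positivity, ?_⟩
  intro a₁ ha₁ ha₁'
  have ha₁1 : a₁ ≤ 1 / 8 := ha₁'.trans (min_le_left _ _)
  have ha₁2 : a₁ * (4 * (J + 1)) ≤ μ := by
    have := ha₁'.trans (min_le_right _ _)
    rwa [le_div_iff₀ (by positivity)] at this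
  refine ⟨min (min (s * ω / 16) (ω / 16)) (a₁ * lam / 8), by positivity, ?_⟩
  intro a₂ ha₂ ha₂' k₀ hk₀
  have ha₂1 : a₂ ≤ s * ω / 16 := ha₂'.trans ((min_le_left _ _).trans (min_le_left _ _))
  have ha₂2 : a₂ ≤ ω / 16 := ha₂'.trans ((min_le_left _ _).trans (min_le_right _ _))
  have ha₂3 : a₂ ≤ a₁ * lam / 8 := ha₂'.trans (min_le_right _ _)
  obtain ⟨N₁, hcut⟩ := route_cut b J (s := s) (ω := ω) (τ₀ := a₁ * k₀ ^ 2) (lam := lam) hs hω (by positivity) hlam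
  obtain ⟨N₂, hthick⟩ := route_thick b J (ω := ω) (τ₀ := a₁ * k₀ ^ 2) (lam := lam) hω (by positivity) hlam
  obtain ⟨N, e, m, c₁, m₀, τb, d, hN, hτb, hd, hcore⟩ := hcore (max N₁ N₂)
  obtain ⟨n₁, hcut⟩ := hcut e
  obtain ⟨n₂, hthick⟩ := hthick e
  refine ⟨N, e, m, c₁, m₀, τb, d, hN, hτb, hd, ?_⟩
  intro I₀ H₀ nb Cb hbx
  obtain ⟨C, hcore⟩ := hcore I₀ H₀ nb Cb hbx
  refine ⟨C + n₁ + n₂ + 8 * c₁ / ω, ?_⟩
  intro V R hT X U 𝓛 k hk0 hk1 hJ F s₀ hl hD hF hθF hcard hCT hU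
  have hkpos : 0 < k := lt_of_lt_of_le hk₀ hk0
  have hk2 : k ^ 2 ≤ 1 := pow_le_one₀ hkpos.le hk1
  have hk3 : k₀ ^ 2 ≤ k ^ 2 := pow_le_pow_left₀ hk₀.le hk0 2
  have hk4 : k ^ 2 ≤ k := by
    rw [sq]
    exact mul_le_of_le_one_right hkpos.le hk1
  have hk5 : 0 < k ^ 2 := by positivity
  have p1 : (0 : ℝ) ≤ (Fd.node true F s₀).size := Nat.cast_nonneg _
  have p2 : (0 : ℝ) ≤ C := Nat.cast_nonneg _
  have p3 : (0 : ℝ) ≤ n₁ := Nat.cast_nonneg _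
  have p4 : (0 : ℝ) ≤ n₂ := Nat.cast_nonneg _
  have p5 : (0 : ℝ) ≤ 8 * c₁ / ω := by positivity
  have hX0 : (0 : ℝ) ≤ X.card := Nat.cast_nonneg _
  have hcardN : (Fd.node true F s₀).size + 1 + C ≤ X.card := by
    have : (((Fd.node true F s₀).size + 1 + C : ℕ) : ℝ) ≤ X.card := by push_cast; linarith
    exact_mod_cast this
  have hn₁ : n₁ ≤ X.card := by
    have : (n₁ : ℝ) ≤ X.card := by linarith
    exact_mod_cast this
  have hn₂ : n₂ ≤ X.card := by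
    have : (n₂ : ℝ) ≤ X.card := by linarith
    exact_mod_cast this
  have hn3 : 8 * c₁ ≤ ω * X.card := by
    have : 8 * c₁ / ω ≤ X.card := by linarith
    rwa [div_le_iff₀' hω] at this
  have hτ0 : 0 ≤ a₁ * k ^ 2 := by positivity
  have hτ1 : a₁ * k ^ 2 ≤ a₁ := mul_le_of_le_one_right ha₁.le hk2
  have hτ2 : a₁ * k₀ ^ 2 ≤ a₁ * k ^ 2 := mul_le_mul_of_nonneg_left hk3 ha₁.le
  have hν1 : a₂ * k ^ 2 ≤ a₂ := mul_le_of_le_one_right ha₂.le hk2
  have hν2 : 8 * (a₂ * k ^ 2) ≤ a₁ * k ^ 2 * lam := by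
    have h1 := mul_le_mul_of_nonneg_right ha₂3 hk5.le
    linarith only [h1]
  have hτ3 : 2 * (a₁ * k ^ 2) ≤ k := by
    have h1 := mul_le_mul_of_nonneg_right ha₁1 hk5.le
    linarith only [h1, hk4, hkpos]
  have hmu : ζ + (J + 1) * (a₁ * k ^ 2) ≤ μ := by
    have h1 : (J + 1 : ℝ) * (a₁ * k ^ 2) ≤ (J + 1) * a₁ := mul_le_mul_of_nonneg_left hτ1 (by positivity)
    linarith only [h1, ha₁2, hζ, hμ]
  have hωn : 2 * ω * (X.card : ℝ) ≤ μ * X.card := mul_le_mul_of_nonneg_right (by linarith) hX0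
  rcases hCT with hC | ⟨K, hK⟩
  · refine hcore hT X U F s₀ hC.subU hl hD hF hθF hcardN hU ?_ ?_ ?_
    · have := hC.hi
      push_cast at this
      linarith
    · intro u hu
      have h1 := card_miss hT (M := ∅) hu hJ hC.subL hτ0 (hC.few u hu) (empty_subset _) (by simp [nI])
        (by rw [union_empty]; exact hC.rest)
      exact h1.trans (mul_le_mul_of_nonneg_right hmu hX0)
    · intro y P Fb Q _ hPU hFb hsP hUP hQ hQN
      have hPc : ω / 8 * X.card ≤ (P.card : ℝ) := by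
        have h1 := hC.lo
        have h2 : (U.card : ℝ) ≤ blk s₀ + c₁ + P.card + c₁ := by exact_mod_cast hUP
        push_cast at h1
        linarith
      rcases hcut hT hC hJ hτ2 (by linarith only [hν1, ha₂1]) hν2 hn₁ hPU hPc hsP hFb hQ ((le_max_left _ _).trans hQN) with
        h | ⟨w, hw, hwF, hyw, h⟩
      · exact Or.inl h
      · exact Or.inr ⟨w, hC.subU (hPU hw), Or.inl hw, hwF, hyw, h⟩
  · refine hcore hT X U F s₀ hK.subU hl hD hF hθF hcardN hU ?_ ?_ ?_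
    · have := hK.hi
      push_cast at this
      linarith
    · intro u hu
      have h1 := card_miss hT hu hJ hK.subL hτ0 (hK.few u hu) hK.subK (hK.fewK u hu) hK.rest
      exact h1.trans (mul_le_mul_of_nonneg_right hmu hX0)
    · intro y P Fb Q hyU _ hFb _ _ hQ hQN
      obtain ⟨w, hw, hwU, hwF, hyw, h⟩ := hthick hT hK hJ hτ2 (by linarith) hτ3 (by linarith) hν2 hn₂ hyU hFb hQ
        ((le_max_right _ _).trans hQN)
      exact Or.inr ⟨w, hK.subK hw, Or.inr hwU, hwF, hyw, h⟩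

/-- **Case T2, list version**, in the form of the composition -/
theorem t2xSt : T2XSt := by
  intro b hb θ hθ
  obtain ⟨ω₀, h1, h2⟩ := t2X b hb hθ
  refine ⟨ω₀, h1, fun ω hω hω' => ?_⟩
  obtain ⟨ζ₀, h3, h4⟩ := h2 ω hω hω'
  refine ⟨ζ₀, h3, fun ζ _ hζ lam hlam J => ?_⟩
  exact h4 ζ hζ lam J hlam

end AESF
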