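import Pool.Agent.AESF.FE3
import Pool.Agent.AESF.MainP
import Pool.Agent.AESF.T1P
import Pool.Agent.AESF.T1X
import Pool.Agent.AESF.T2X

/-!
# Free ends: the theorems
-/

set_option autoImplicit false

namespace AESF

open Finset AE15 AED AEB AELT AEK AEJ
open scoped Classical

theorem t1G_P : T1G okP BXP TOPP := by
  intro b hb θ hθ
  obtain ⟨ω₀, h0, h⟩ := t1P b hb hθ
  refine ⟨ω₀, h0, fun ω hω hω' => ?_⟩
  obtain ⟨ζ₀, hζ₀, h⟩ := h ω hω hω'
  refine ⟨ζ₀, hζ₀, fun ζ _ hζ lam hlam J => ?_⟩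
  obtain ⟨a, ha, h⟩ := h ζ hζ lam J hlam
  refine ⟨a, ha, fun a1 h1 h1' => ?_⟩
  obtain ⟨a', ha', h⟩ := h a1 h1 h1'
  refine ⟨a', ha', fun a2 h2 h2' k0 hk0 c1 m0 => ?_⟩
  obtain ⟨N, e, τ, d, hN, hτ, hd, h⟩ := h a2 h2 h2' k0 hk0 c1 m0
  refine ⟨(N, e, τ, d), ⟨hN, hτ, hd⟩, fun I nb Cb hB => ?_⟩
  obtain ⟨C, h⟩ := h I nb Cb hB
  refine ⟨C, ?_⟩
  intro V R hT X U K 𝓛 k hk0 hk1 hJ F s hl hD hF hθF hX hTh hU
  exact h hT X U K 𝓛 k hk0 hk1 hJ F s hl hD hF hθF (by linarith) hTh hU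

/-- **every tree with a path of linear size, oriented in any way, behind an edge** -/
theorem path_end : PathEndSt := path_end_of_t1 t1G_P

/-- **lines behind an edge, on codes** -/
theorem sfxSt : SFXSt := sf_mainX partsSt t1xSt t2xSt

theorem fe3 : FE3St := fe3_of sfxSt

/-- **the final theorem** -/
theorem free_end3 : FreeEnd3St := free_end3_of path_end fe3

end AESF
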