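import Pool.Agent.AESF.FreeP
import Pool.Agent.AEX.Four

/-!
# The alternating class with a line below an arc away from the root at the start
-/

set_option autoImplicit false

namespace AESF

open Finset Relation AE15 AED AEB AELT AEK AEJ AEW AEY AEN
open scoped Classical

section

variable {τ : Type*} {E : τ → τ → Prop} {G : SimpleGraph τ} {r : τ}

theorem nc_rev (v : τ) : Nc (fun a b => E b a) G r v = Nc E G r v := by
  unfold Nc
  ext x
  have h1 : ReflTransGen (fun a b => E b a) v x ↔ ReflTransGen E x v := reflTransGen_swap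
  have h2 : ReflTransGen (fun a b => E b a) x v ↔ ReflTransGen E v x := reflTransGen_swap
  simp only [Set.mem_ofPred_eq, h1, h2]
  tauto

theorem TailG.insert0 {l K L M : ℕ} {h : τ → τ} {p : ℕ → τ} {m : ℕ} {S : Set ℕ} (H : TailG l K L M E G r h p m S) {t : ℕ}
    (ht : t ∈ S) (ht0 : 0 < t) (htm : t ≤ m) (h1 : (Br G r (p t)).ncard ≤ L * (Nc E G r (p t)).ncard)
    (h2 : (Br G r (p 0)).ncard ≤ L * (Br G r (p t)).ncard) : TailG l K L M E G r h p m (insert 0 S) := by
  rintro i (rfl | hi) hM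
  · refine Or.inr (Or.inl ⟨t, ht0, htm, Set.mem_insert_of_mem _ ht, h1, h2.trans (Nat.mul_le_mul_left _ (Nat.le_add_right _ _))⟩)
  · rcases H i hi hM with g | ⟨j, g1, g2, g3, g4, g5⟩ | ⟨j, g1, g2, g3, t, ht, g4⟩
    · exact Or.inl g
    · exact Or.inr (Or.inl ⟨j, g1, g2, Set.mem_insert_of_mem _ g3, g4, g5⟩)
    · exact Or.inr (Or.inr ⟨j, g1, g2, g3, t, Set.mem_insert_of_mem _ ht, g4⟩)

/-- the exit of a line below an arc away from the root -/
theorem FreeD.exit {l K L M : ℕ} {h : τ → τ} {p : ℕ → τ} {a t : ℕ} (H : FreeD l K L M E G r h p a t) :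
    0 < a ∧ a ≤ t ∧ ((Br G r (p t)).ncard ≤ L ∨ (Br G r (p t)).ncard ≤ M ∨
      (Br G r (p t)).ncard ≤ L * (Nc E G r (p t)).ncard) := by
  rcases H with ⟨h1, h2, -, -, h5, -⟩ | ⟨h1, h2, -, -, h5, -⟩
  · refine ⟨h1, h2, ?_⟩
    rcases h5 with h5 | ⟨-, -, -, h5⟩
    · exact Or.inl h5
    · exact Or.inr h5
  · refine ⟨h1, h2, ?_⟩
    rcases h5 with h5 | ⟨-, -, -, h5⟩
    · exact Or.inl h5
    · rw [nc_rev] at h5
      exact Or.inr h5

end

section

variable {τ : Type*} [Fintype τ] {G : SimpleGraph τ} {r : τ} {E : τ → τ → Prop}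

theorem altP_tail (hG : G.IsTree) (hadj : ∀ a c, E a c → G.Adj a c) {l K L M : ℕ} {h : τ → τ} {p : ℕ → τ} {m : ℕ}
    {S : Set ℕ} (h2 : ∀ i < m, G.Adj (p i) (p (i + 1)) ∧ G.dist r (p (i + 1)) = G.dist r (p i) + 1)
    (h3 : ∀ i ∈ S, i ≤ m) (h5 : TailG l K L M E G r h p m S) : AltP l K L M E (Pr G r) h p m S (Calm E G l K) := by
  refine ⟨h2, h3, ?_⟩
  intro i hi hL
  rw [card_br hG] at hL
  rcases h5 i hi hL with g | ⟨j, g1, g2, g3, g4, g5⟩ | ⟨j, g1, g2, g3, t, ht, g4⟩
  · refine Or.inl ?_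
    rw [card_ca hG, card_br hG]
    exact g
  · refine Or.inr (Or.inl ⟨j, g1, g2, g3, ?_, ?_⟩)
    · rw [card_br hG, card_nc hG]
      exact g4
    · rw [card_br hG, card_br hG, card_ca' hG]
      exact g5
  · refine Or.inr (Or.inr ⟨j, g1, g2, ?_, t, ht, h3 t ht, lineB_of hG hadj g4⟩)
    rw [card_br hG, card_br hG]
    exact g3

end

/-- **the final statement** -/
theorem line_end (hsf : SFXSt) (hold : AEN.FinalSt) (hcalm : AEN.CalmSt) (hbl : AEN.BlSt) : FreeStF := by
  intro Δ l L
  obtain ⟨A₃, hA₃⟩ : ∃ A : ℕ, A = (2 * (max Δ 1 + 1)) ^ (2 * (l + L) + 9) := ⟨_, rfl⟩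
  have hA1 : 1 ≤ A₃ := by rw [hA₃]; exact Nat.one_le_pow _ _ (by omega)
  have hLL : L ≤ L * A₃ := Nat.le_mul_of_pos_right _ hA1
  obtain ⟨K₂, hold⟩ := hold Δ l (L * A₃)
  obtain ⟨A', hA⟩ := sfx_root hsf (max Δ 1) (l + L) (le_max_right _ _)
  obtain ⟨θ', hθ', hE'⟩ := hcalm (max Δ 1) l (2 * L) (le_max_right _ _)
  obtain ⟨θ, hθ, hθ1, hB⟩ := hbl (max Δ 1) l L A' θ' hθ'
  obtain ⟨ε₀, μ₀, K₀, hε, hμ, hK₀⟩ := hA A' le_rfl θ hθ hθ1 (1 / (L + 1)) (by positivity)
  obtain ⟨ρ, m₀, hρ⟩ := hE' ε₀ hε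
  obtain ⟨K₁, hKK, hM⟩ := hB hε hμ m₀ K₀
  refine ⟨max (max K₁ ρ) K₂, fun M => ?_⟩
  obtain ⟨M', hM'⟩ := hM M
  obtain ⟨C, hC⟩ := hK₀ ε₀ μ₀ le_rfl le_rfl K₀ le_rfl M'
  obtain ⟨C₂, hold⟩ := hold M
  obtain ⟨B, hBd⟩ : ∃ B : ℕ, B = L * (A₃ * (L + M)) := ⟨_, rfl⟩
  refine ⟨C + C₂ + 4 * B + 1, fun k n hn R h1 h2 h3 E h4 h5 h6 r h hh h7 => ?_⟩
  have hadj : ∀ a c, E a c → (SimpleGraph.fromRel E).Adj a c := by
    intro a c hac
    rw [SimpleGraph.fromRel_adj]
    exact ⟨fun he => by subst he; exact h4 _ _ hac hac, Or.inl hac⟩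
  obtain ⟨p, m, S, hp0, hpm, hSm, hst, htail⟩ := h7
  have hold' : ∀ S' : Set ℕ, (∀ i ∈ S', i ≤ m) →
      (0 ∈ S' ∨ ∃ t ∈ S', LineD l K₂ (L * A₃) M E (SimpleGraph.fromRel E) r h p 0 t) →
      TailG l K₂ (L * A₃) M E (SimpleGraph.fromRel E) r h p m S' →
      ∃ f : Fin (k + 1) → Fin n, Function.Injective f ∧ ∀ a b, E a b → R (f a) (f b) := fun S' g1 g2 g3 =>
    hold k n (by omega) R h1 h2 h3 E h4 h5 h6 r h hh ⟨p, m, S', hp0, hpm, g1, g2, g3⟩
  have htail2 : TailG l K₂ (L * A₃) M E (SimpleGraph.fromRel E) r h p m S := htail.mono (le_max_right _ _) hLL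
  rcases hst with g | ⟨t, ht, g⟩ | ⟨a, t, ht, hTa, hfree⟩
  · exact hold' S hSm (Or.inl g) htail2
  · exact hold' S hSm (Or.inr ⟨t, ht, AESF.LineD.monoL (le_max_right _ _) hLL g⟩) htail2
  obtain ⟨ha0, hat, hexit⟩ := hfree.exit
  have htm : t ≤ m := hSm t ht
  by_cases hB1 : (Br (SimpleGraph.fromRel E) r (p a)).ncard ≤ A₃ * (Br (SimpleGraph.fromRel E) r (p t)).ncard ∧
      L < (Br (SimpleGraph.fromRel E) r (p t)).ncard ∧ M < (Br (SimpleGraph.fromRel E) r (p t)).ncard
  · -- a balanced branch of comparable size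
    obtain ⟨q1, q2, q3⟩ := hB1
    have hw : (Br (SimpleGraph.fromRel E) r (p t)).ncard ≤ L * (Nc E (SimpleGraph.fromRel E) r (p t)).ncard := by
      rcases hexit with g | g | g
      · omega
      · omega
      · exact g
    refine hold' (insert 0 S) ?_ (Or.inl (Set.mem_insert _ _)) (htail2.insert0 ht (by omega) htm
      (hw.trans (Nat.mul_le_mul_right _ hLL)) ?_)
    · rintro i (rfl | hi)
      · exact Nat.zero_le _
      · exact hSm i hi
    · rw [hp0, mul_assoc]
      exact hTa.trans (Nat.mul_le_mul_left _ q1)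
  -- the codes
  obtain ⟨G, hG⟩ : ∃ G, G = SimpleGraph.fromRel E := ⟨_, rfl⟩
  have h5' := h5
  rw [← hG] at h5 hh hadj hpm htail hTa hfree hexit hB1
  have h6' : ∀ v, {w | E v w ∨ E w v}.ncard ≤ max Δ 1 := by
    intro v
    refine le_trans (le_of_eq ?_) ((h6 v).trans (le_max_left _ _))
    congr 1
    ext w
    rw [SimpleGraph.mem_neighborSet, SimpleGraph.fromRel_adj]
    constructor
    · intro h
      refine ⟨?_, h⟩
      rintro rfl
      rcases h with h | h
      · exact h4 _ _ h h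
      · exact h4 _ _ h h
    · intro h
      exact h.2
  have hE : ∀ a c, Pr G r a c → G.dist r a < G.dist r c := by
    intro a c h
    have := h.2
    omega
  have hin : ∀ a b c, Pr G r a c → Pr G r b c → a = b := fun a b c h1 h2 =>
    parent_unique' h5 r h1.1 h2.1 h1.2 h2.2
  have hP : ∀ a c, Pr G r a c → E a c ∨ E c a := by
    intro a c h
    have h1 := h.1
    rw [hG, SimpleGraph.fromRel_adj] at h1
    exact h1.2
  have hmc : ∀ u w, Pr G r u w → Pr G r u (h u) ∧
      (AE32.desc (Pr G r) w).card ≤ (AE32.desc (Pr G r) (h u)).card := by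
    intro u w huw
    obtain ⟨g1, g2, g3⟩ := hh u w huw.1 huw.2
    refine ⟨⟨g1, g2⟩, ?_⟩
    rw [card_br h5, card_br h5]
    exact g3
  have hhP : ∀ u w, Pr G r u w → Pr G r u (h u) := fun u w h => (hmc u w h).1
  have hvc := vc_of_cod (h := fun v => G.dist r v) hE hin hP h6' (codH_cod' (E := E) (rk := fun v => G.dist r v) hE hhP r)
  have hroot : AE32.desc (Pr G r) r = univ := by
    rw [eq_univ_iff_forall]
    intro v
    rw [desc_br h5, Br, Set.mem_ofPred_eq, SimpleGraph.dist_self, zero_add]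
  have hsz := hvc.size
  rw [hroot, card_univ, Fintype.card_fin] at hsz
  have hT : AE32.Tour R := ⟨h1, h2, h3⟩
  have hcard : (codH E (Pr G r) h r).size + 1 + (C + 4 * B) ≤ (univ : Finset (Fin n)).card := by
    rw [card_univ, Fintype.card_fin]
    omega
  have hcon : In R (codH E (Pr G r) h r) (fun _ => True) (univ : Finset (Fin n)) := by
    by_cases hsm : (Br G r (p a)).ncard ≤ A₃ * (Br G r (p t)).ncard
    · -- a small tree
      have hsmall : (Br G r (p t)).ncard ≤ L + M := by
        by_contra hc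
        exact hB1 ⟨hsm, by omega, by omega⟩
      have hk : (codH E (Pr G r) h r).size + 1 ≤ B := by
        rw [hsz]
        have e1 : (Br G r r).ncard = k + 1 := by
          rw [← card_br h5, hroot, card_univ, Fintype.card_fin]
        rw [← e1, hBd]
        exact hTa.trans (Nat.mul_le_mul_left _ (hsm.trans (Nat.mul_le_mul_left _ hsmall)))
      refine AEX.un_four hT (max Δ 1) _ hvc.len hvc.deg univ ?_
      have e2 : 4 * ((codH E (Pr G r) h r).size + 1) ≤ (univ : Finset (Fin n)).card := by omega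
      have e3 : ((4 * ((codH E (Pr G r) h r).size + 1) : ℕ) : ℝ) ≤ (univ : Finset (Fin n)).card := by exact_mod_cast e2
      push_cast at e3
      linarith
    push Not at hsm
    have hEM := hρ h4 h5' h6' r h (by rw [← hG]; exact hhP)
    rw [← hG] at hEM
    have hAlt := (altP_tail h5 hadj hpm hSm htail).mono (K' := K₁) ((le_max_left _ _).trans (le_max_left _ _))
      (calm_mono (ρ := ρ) ((le_max_right K₁ ρ).trans (le_max_left _ _)))
    have hall := hM' (rk := fun v => G.dist r v) hE hin hP h4 h6' h hmc hEM hAlt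
    have hKle : K₀ ≤ max (max K₁ ρ) K₂ := hKK.trans ((le_max_left _ _).trans (le_max_left _ _))
    have hszv : ∀ v, (codH E (Pr G r) h v).size + 1 = (AE32.desc (Pr G r) v).card := fun v =>
      cod_size (h := fun v => G.dist r v) hE hin hP (codH_cod' (E := E) (rk := fun v => G.dist r v) hE hhP v)
    have hpP : ∀ i < m, Pr G r (p i) (p (i + 1)) := hpm
    -- the branch at `p a` in the tree
    have hPt : ∃ d0 d m', AESK.PtT 0 (d0, codH E (Pr G r) h r) (d, codH E (Pr G r) h (p (a - 1))) m' := by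
      rcases Nat.eq_or_lt_of_le (show 1 ≤ a from ha0) with h8 | h8
      · refine ⟨true, true, 0, ?_⟩
        rw [← h8, Nat.sub_self, hp0]
        exact AESK.PtT.refl
      · obtain ⟨a', ha'⟩ : ∃ a', a = a' + 2 := ⟨a - 2, by omega⟩
        obtain ⟨m', hm'⟩ := ptT_codH (rk := fun v => G.dist r v) (E := E) hE hhP (p := p) (i := 0) a'
          (fun t _ h2 => hpP t (by omega))
        rw [hp0] at hm'
        refine ⟨decide (E r (p (0 + 1))), decide (E (p (0 + a')) (p (0 + a' + 1))), m', ?_⟩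
        rw [show a - 1 = 0 + a' + 1 by omega]
        exact hm'
    obtain ⟨d0, d1, m', hPt⟩ := hPt
    have hPa : Pr G r (p (a - 1)) (p a) := by
      have := hpP (a - 1) (by omega)
      rwa [show a - 1 + 1 = a by omega] at this
    have hmem : (decide (E (p (a - 1)) (p a)), codH E (Pr G r) h (p a)) ∈ (codH E (Pr G r) h (p (a - 1))).trees :=
      mem_codH (rk := fun v => G.dist r v) hE hhP hPa
    have hsize : 1 / ((L : ℝ) + 1) * ((codH E (Pr G r) h r).size + 1) ≤ (codH E (Pr G r) h (p a)).size + 1 := by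
      have e1 : (codH E (Pr G r) h r).size + 1 ≤ L * ((codH E (Pr G r) h (p a)).size + 1) := by
        rw [hszv, hszv, card_br h5, card_br h5]
        exact hTa
      have e2 : ((codH E (Pr G r) h r).size : ℝ) + 1 ≤ L * ((codH E (Pr G r) h (p a)).size + 1) := by exact_mod_cast e1
      rw [div_mul_eq_mul_div, one_mul, div_le_iff₀ (by positivity)]
      have e3 : (0 : ℝ) ≤ (codH E (Pr G r) h (p a)).size + 1 := by positivity
      linarith
    have hexs : A₃ * ((codH E (Pr G r) h (p t)).size + 1) < (codH E (Pr G r) h (p a)).size + 1 := by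
      rw [hszv, hszv, card_br h5, card_br h5]
      exact hsm
    have hpa : ∀ i < m - a, Pr G r (p (a + i)) (p (a + (i + 1))) := fun i hi => hpP (a + i) (by omega)
    have hQ := hall t ht
    refine hC hT _ d0 _ m' hvc.len hvc.deg hPt _ _ hmem hsize ?_ univ (by omega)
    rcases hfree with hf | hf
    · -- the arcs
      left
      have hf' := freeP_of h5 hadj hP hf
      refine ⟨decide_eq_true hf'.arc, ?_, ?_⟩
      · exact cln_codH (rk := fun v => G.dist r v) hE hin hP h4 hhP hf'.a1 hf'.a2 (fun x y z g1 g2 g3 =>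
          ⟨(hf'.a3 x y z g1 g2 g3).1, (Nat.mul_le_mul_right _ hKle).trans (hf'.a3 x y z g1 g2 g3).2⟩)
      · rw [← hA₃]
        have hfx := line_fx (rk := fun v => G.dist r v) hE hin hP h4 h6' h hmc (p := fun i => p (a + i)) (m := m - a)
          hpa (a := 0) (t := t - a) (by omega) (Q := fun e => WcU (max Δ 1 + 1) (l + L) K₀ A' θ ε₀ μ₀ M' e ∧
            A₃ * (e.size + 1) < (codH E (Pr G r) h (p a)).size + 1) (fun hlt => ?_) (hf'.line.mono le_rfl hKle le_rfl le_rfl)
        · exact fx_monoB (Nat.le_succ _) hfx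
        · have e1 : a + (t - a) = t := by omega
          show WcU (max Δ 1 + 1) (l + L) K₀ A' θ ε₀ μ₀ M' (codH E (Pr G r) h (p (a + (t - a)))) ∧ _
          have hlt' : L < (AE32.desc (Pr G r) (p t)).card := by
            have hlt2 : L < (AE32.desc (Pr G r) (p (a + (t - a)))).card := hlt
            rwa [e1] at hlt2
          have hex : (AE32.desc (Pr G r) (p t)).card ≤ M ∨
              (AE32.desc (Pr G r) (p t)).card ≤ L * (ncY E (Pr G r) (p t)).card := by
            rw [card_br h5] at hlt'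
            rw [card_br h5, card_nc h5]
            rcases hexit with g | g | g
            · omega
            · exact Or.inl g
            · exact Or.inr g
          simp only [e1]
          exact ⟨wcU_monoB (Nat.le_succ _) le_rfl le_rfl (hQ.2 hex hlt'), hexs⟩
    · -- the reversed arcs
      right
      have hadj' : ∀ a c, E c a → G.Adj a c := fun a c hac => (hadj c a hac).symm
      have hx : ∀ a c, Pr G r a c → (E c a ↔ ¬ E a c) := by
        intro a c hac
        constructor
        · intro h8 h9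
          exact h4 _ _ h8 h9
        · intro h8
          exact (hP a c hac).resolve_left h8
      have h6'' : ∀ v, {w | E w v ∨ E v w}.ncard ≤ max Δ 1 := fun v => by
        refine le_trans (le_of_eq ?_) (h6' v)
        congr 1
        ext w
        exact or_comm
      have hf' := freeP_of h5 hadj' (fun a c h => (hP a c h).symm) hf
      have harc : E (p a) (p (a - 1)) := hf'.arc
      refine ⟨decide_eq_false (fun h9 => h4 _ _ h9 harc), ?_, ?_⟩
      · rw [mrr_codH hhP hx]
        exact cln_codH (rk := fun v => G.dist r v) hE hin (fun a c h => (hP a c h).symm) (fun a c h => h4 c a h) hhP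
          hf'.a1 hf'.a2 (fun x y z g1 g2 g3 =>
          ⟨(hf'.a3 x y z g1 g2 g3).1, (Nat.mul_le_mul_right _ hKle).trans (hf'.a3 x y z g1 g2 g3).2⟩)
      · rw [← hA₃, mrr_codH hhP hx]
        have hszr : ∀ v, (codH (fun a b => E b a) (Pr G r) h v).size = (codH E (Pr G r) h v).size := fun v => by
          rw [← mrr_codH hhP hx, mrr_size]
        have hfx := line_fx (rk := fun v => G.dist r v) hE hin (fun a c h => (hP a c h).symm) (fun a c h => h4 c a h)
          h6'' h hmc (p := fun i => p (a + i)) (m := m - a)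
          hpa (a := 0) (t := t - a) (by omega) (Q := fun e => WcU (max Δ 1 + 1) (l + L) K₀ A' θ ε₀ μ₀ M' e ∧
            A₃ * (e.size + 1) < (codH (fun a b => E b a) (Pr G r) h (p a)).size + 1) (fun hlt => ?_)
          (hf'.line.mono le_rfl hKle le_rfl le_rfl)
        · exact fx_monoB (Nat.le_succ _) hfx
        · have e1 : a + (t - a) = t := by omega
          show WcU (max Δ 1 + 1) (l + L) K₀ A' θ ε₀ μ₀ M' (codH (fun a b => E b a) (Pr G r) h (p (a + (t - a)))) ∧ _
          have hlt' : L < (AE32.desc (Pr G r) (p t)).card := by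
            have hlt2 : L < (AE32.desc (Pr G r) (p (a + (t - a)))).card := hlt
            rwa [e1] at hlt2
          have hex : (AE32.desc (Pr G r) (p t)).card ≤ M ∨
              (AE32.desc (Pr G r) (p t)).card ≤ L * (ncY E (Pr G r) (p t)).card := by
            rw [card_br h5] at hlt'
            rw [card_br h5, card_nc h5]
            rcases hexit with g | g | g
            · omega
            · exact Or.inl g
            · exact Or.inr g
          simp only [e1]
          refine ⟨?_, ?_⟩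
          · rw [← mrr_codH hhP hx]
            exact wcU_monoB' (Nat.le_succ _) le_rfl le_rfl (hQ.2 hex hlt')
          · rw [hszr, hszr]
            exact hexs
  obtain ⟨x, hx, A, hA, hxA, hN', hS⟩ := hcon
  obtain ⟨f, p1, p2, p3, p4⟩ := hvc.emb hxA hS
  rw [hroot] at p2 p3 p4
  refine ⟨f, fun a b hab => p3 a (mem_univ _) b (mem_univ _) hab, fun a c hac => ?_⟩
  rcases h5.dist_eq_dist_add_one_of_adj r (hadj _ _ hac) with h | h
  · have h8 := p4 c (mem_univ _) a ⟨(hadj _ _ hac).symm, h⟩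
    have h9 : ¬ E c a := h4 _ _ hac
    simpa [Adj, h9] using h8
  · have h8 := p4 a (mem_univ _) c ⟨hadj _ _ hac, h⟩
    simpa [Adj, hac] using h8

end AESF
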