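import Pool.Agent.AESF.FinalB
import Pool.Agent.AESF.LineEnd
import Pool.Agent.AEN.MainB
import Pool.Agent.AEN.CalmH

/-!
# The alternating class with a line below an arc away from the root at the start: unconditional
-/

set_option autoImplicit false

namespace AESF

theorem free_f : FreeStF := line_end sfxSt (AEN.final_of AEN.mainSt AEN.calmSt AEN.blSt) AEN.calmSt AEN.blSt

end AESF
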