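import Pool.Agent.AESF.PathEnd

/-!
# Bounded-degree oriented trees with a long path or a large arborescence behind an edge, in tournaments

The final sentence, from the two statements for coded trees.
-/

set_option autoImplicit false

namespace AESF

open Relation

/-- **Trees with a path or an arborescence of linear size behind an edge.** `{x | dist v x < dist u x}` is the component
of `T - uv` which contains `v`. -/
def FreeEndSt : Prop := ∀ (Δ : ℕ) (θ : ℝ), 0 < θ → ∃ C : ℕ, ∀ k n : ℕ, k + C ≤ n → ∀ R : Fin n → Fin n → Prop,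
    (∀ a, ¬ R a a) → (∀ a b, a ≠ b → R a b ∨ R b a) → (∀ a b, R a b → ¬ R b a) →
    ∀ E : Fin (k + 1) → Fin (k + 1) → Prop,
      (∀ a b, E a b → ¬ E b a) →
      (SimpleGraph.fromRel E).IsTree →
      (∀ v, ((SimpleGraph.fromRel E).neighborSet v).ncard ≤ Δ) →
      (∃ u v, (SimpleGraph.fromRel E).Adj u v ∧
        θ * k ≤ ({x | (SimpleGraph.fromRel E).dist v x < (SimpleGraph.fromRel E).dist u x}.ncard : ℝ) ∧
        ((∀ x, (SimpleGraph.fromRel E).dist v x < (SimpleGraph.fromRel E).dist u x →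
            ((SimpleGraph.fromRel E).neighborSet x).ncard ≤ 2) ∨
          (∀ x, (SimpleGraph.fromRel E).dist v x < (SimpleGraph.fromRel E).dist u x → ReflTransGen E v x) ∨
          (∀ x, (SimpleGraph.fromRel E).dist v x < (SimpleGraph.fromRel E).dist u x → ReflTransGen E x v))) →
      ∃ f : Fin (k + 1) → Fin n, Function.Injective f ∧ ∀ a b, E a b → R (f a) (f b)

theorem free_end_of (h1 : PESt) (h2 : SFSt) : FreeEndSt := by
  intro Δ θ hθ
  obtain ⟨C₁, g1⟩ := path_end_of h1 Δ θ hθ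
  obtain ⟨C₂, g2⟩ := arb_end_of h2 Δ θ hθ
  refine ⟨C₁ + C₂, ?_⟩
  rintro k n hn R a1 a2 a3 E b1 b2 b3 ⟨u, v, huv, hk, h | h⟩
  · exact g1 k n (by omega) R a1 a2 a3 E b1 b2 b3 ⟨u, v, huv, hk, h⟩
  · exact g2 k n (by omega) R a1 a2 a3 E b1 b2 b3 ⟨u, v, huv, hk, h⟩

end AESF
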