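import Pool.Agent.AESF.MainX

/-!
# Free lines behind any vertex of a coded tree
-/

set_option autoImplicit false

namespace AESF

open Finset AE15 AED AEB AELT AEK AEJ AEY AEN
open scoped Classical

/-- the conditions on a branch which is joined to its parent by an arc directed to it -/
def FrL (b l K A' : ℕ) (θ ε₁ μ₁ : ℝ) (M : ℕ) (F : Fd) : Prop := Cln K F ∧
  FX b l K (fun e => WcU b l K A' θ ε₁ μ₁ M e ∧ (2 * b) ^ (2 * l + 9) * (e.size + 1) < F.size + 1) 0 F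

/-- **free lines behind any vertex** -/
theorem sfx_root (h : SFXSt) (b l : ℕ) (hb : 1 ≤ b) : ∃ A₀ : ℕ, ∀ A' : ℕ, A₀ ≤ A' → ∀ θw : ℝ, 0 < θw → θw ≤ 1 / 2 →
    ∀ θ : ℝ, 0 < θ → ∃ (ε₀ μ₀ : ℝ) (K₀ : ℕ), 0 < ε₀ ∧ 0 < μ₀ ∧ ∀ ε₁ μ₁ : ℝ, ε₁ ≤ ε₀ → μ₁ ≤ μ₀ → ∀ K : ℕ, K₀ ≤ K →
      ∀ M : ℕ, ∃ C : ℕ, ∀ {V : Type} {R : V → V → Prop}, AE32.Tour R → ∀ (c : Fd) (d0 : Bool) (q : Bool × Fd) (m : ℕ),
        c.len ≤ b → c.Deg b → AESK.PtT 0 (d0, c) q m → ∀ (d : Bool) (F : Fd), (d, F) ∈ q.2.trees →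
          θ * (c.size + 1) ≤ (F.size + 1 : ℝ) →
            ((d = true ∧ FrL (b + 1) l K A' θw ε₁ μ₁ M F) ∨ (d = false ∧ FrL (b + 1) l K A' θw ε₁ μ₁ M (mrr F))) →
              ∀ X : Finset V, c.size + 1 + C ≤ X.card → In R c (fun _ => True) X := by
  obtain ⟨A₀, h⟩ := h (b + 1) l (by omega)
  refine ⟨A₀, fun A' hA' θw hw1 hw2 θ hθ => ?_⟩
  obtain ⟨ε₀, μ₀, K₀, hε₀, hμ₀, h⟩ := h A' hA' θw hw1 hw2 θ hθ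
  refine ⟨ε₀, μ₀, K₀, hε₀, hμ₀, fun ε₁ μ₁ hε₁ hμ₁ K hK M => ?_⟩
  obtain ⟨C, h⟩ := h ε₁ μ₁ hε₁ hμ₁ K hK M
  refine ⟨C, ?_⟩
  intro V R hT c d0 q m hl hD hP d F hF hθF hfr X hX
  obtain ⟨c', g1, g2, g3, g4, -, g6⟩ := reroot_in hP hl hD
  refine g6 X ?_
  have hF' := g1 _ hF
  rcases hfr with ⟨rfl, hcl, hfx⟩ | ⟨rfl, hcl, hfx⟩
  · exact h hT c' F g2 g3 hF' (by rw [g4]; exact hθF) hcl hfx X (by rw [g4]; exact hX)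
  · have h1 := h (tour_rev hT) (mrr c') (mrr F) (by rw [mrr_len]; exact g2) (mrr_deg g3) (mem_mrr_trees hF')
      (by rw [mrr_size, mrr_size, g4]; exact hθF) hcl hfx X (by rw [mrr_size, g4]; exact hX)
    have h2 := In.mrr h1
    rw [mrr_mrr] at h2
    exact h2

/-! ### larger degree bounds -/

theorem wcU_monoB {b b' l K A' : ℕ} (hb : b ≤ b') {θ ε μ ε₁ μ₁ : ℝ} (hε : ε ≤ ε₁) (hμ : μ ≤ μ₁) {M n : ℕ} {c : Fd}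
    (h : Wc θ ε μ M (Rgn b l K A' θ ε μ M n) c) : WcU b' l K A' θ ε₁ μ₁ M c :=
  ⟨ε, μ, n, hε, hμ, Or.inl (h.mono (rgn_monoB hb n))⟩

theorem wcU_monoB' {b b' l K A' : ℕ} (hb : b ≤ b') {θ ε μ ε₁ μ₁ : ℝ} (hε : ε ≤ ε₁) (hμ : μ ≤ μ₁) {M n : ℕ} {c : Fd}
    (h : Wc θ ε μ M (Rgn b l K A' θ ε μ M n) c) : WcU b' l K A' θ ε₁ μ₁ M (mrr c) :=
  ⟨ε, μ, n, hε, hμ, Or.inr (by rw [mrr_mrr]; exact h.mono (rgn_monoB hb n))⟩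

end AESF
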