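import Pool.Agent.AESF.StmtF
import Pool.Agent.AESF.RootX
import Pool.Agent.AEN.BlH

/-!
# Lines below an arc away from the root: from oriented trees to codes
-/

set_option autoImplicit false

namespace AESF

open Finset Relation AE15 AED AEB AELT AEK AEJ AEY AEN
open scoped Classical

section

variable {τ : Type*} [Fintype τ] {G : SimpleGraph τ} {r : τ} {E : τ → τ → Prop}

/-- a line below an arc away from the root, for a rooted tree given by its parent relation -/
structure FreeP (l K L M : ℕ) (E P : τ → τ → Prop) (h : τ → τ) (p : ℕ → τ) (a t : ℕ) : Prop where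
  pos : 0 < a
  le : a ≤ t
  arc : E (p (a - 1)) (p a)
  line : LineP l K L M E P h (fun i => p (a + i)) 0 (t - a)
  a1 : ∀ x, P (p a) x → E (p a) x
  a2 : ∀ x y, P (p a) x → P x y → E x y
  a3 : ∀ x y z, P (p a) x → P x y → P y z → E y z ∧ K * (inY E P z).card ≤ (AE32.desc P (p a)).card

theorem freeP_of (hG : G.IsTree) (hadj : ∀ a c, E a c → G.Adj a c) (hP : ∀ a c, Pr G r a c → E a c ∨ E c a)
    {l K L M : ℕ} {h : τ → τ} {p : ℕ → τ} {a t : ℕ} (H : FreeG l K L M E G r h p a t) :
    FreeP l K L M E (Pr G r) h p a t := by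
  obtain ⟨h1, h2, h3, h4, h5, h6, h7, h8⟩ := H
  have hlineG : LineG l K L M E G r h (fun i => p (a + i)) 0 (t - a) := by
    refine ⟨Nat.zero_le _, ?_, Or.inl rfl, ?_, ?_⟩
    · intro i _ hi
      exact h4 (a + i) (by omega) (by omega)
    · show (Br G r (p (a + (t - a)))).ncard ≤ L ∨ _
      have e1 : a + (t - a) = t := by omega
      rcases h5 with h5 | ⟨g1, g2, g3, g4⟩
      · left
        rw [e1]
        exact h5
      · right
        have e2 : a + (t - a - 1) = t - 1 := by omega
        refine ⟨by omega, ?_, ?_, ?_⟩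
        · show E (p (a + (t - a - 1))) (p (a + (t - a)))
          rw [e1, e2]
          exact g2
        · show K * (Ic E G r (p (a + (t - a)))).ncard ≤ (Br G r (p (a + (t - a - 1)))).ncard
          rw [e1, e2]
          exact g3
        · show (Br G r (p (a + (t - a)))).ncard ≤ M ∨
            (Br G r (p (a + (t - a)))).ncard ≤ L * (Nc E G r (p (a + (t - a)))).ncard
          rw [e1]
          exact g4
    · intro q hq hr
      have hr' : q (l + 1) ∈ Br G r (p a) := hr
      show q 0 ∈ Br G r (p (a + (t - a))) ∨ _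
      rw [show a + (t - a) = t by omega]
      rcases h6 q hq hr' with g | ⟨u, w, g1, g2, g3, g4, g5, g6⟩
      · exact Or.inl g
      · exact Or.inr ⟨u, w, g1, Or.inl rfl, g2, g3, g4, g5, g6⟩
  have hself : p a ∈ Br G r (p a) := by
    rw [← desc_br hG]
    exact AE32.self_mem_desc _
  have hchild : ∀ x y, x ∈ Br G r (p a) → Pr G r x y → y ∈ Br G r (p a) := by
    intro x y hx hy
    rw [← desc_br hG] at hx ⊢
    exact AE32.mem_desc.2 ((AE32.mem_desc.1 hx).tail hy)
  have hout : ∀ x y, x ∈ Br G r (p a) → Pr G r x y → G.dist r x < G.dist r (p a) + 3 → E x y := by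
    intro x y hx hy hd
    rcases hP x y hy with g | g
    · exact g
    · exfalso
      have := h7 y x g hy.2 hx
      omega
  refine ⟨h1, h2, h3, lineP_of hG hadj hlineG, ?_, ?_, ?_⟩
  · intro x hx
    exact hout _ _ hself hx (by omega)
  · intro x y hx hy
    have d1 := hx.2
    exact hout _ _ (hchild _ _ hself hx) hy (by omega)
  · intro x y z hx hy hz
    have d1 := hx.2
    have d2 := hy.2
    have d3 := hz.2
    have m1 := hchild _ _ hself hx
    have m2 := hchild _ _ m1 hy
    have m3 := hchild _ _ m2 hz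
    refine ⟨hout _ _ m2 hz (by omega), ?_⟩
    rw [card_ic hadj, card_br hG]
    exact h8 z m3 (by omega)

end

section

variable {τ : Type*} [Fintype τ] {E P : τ → τ → Prop}

theorem codH_trees {rk : τ → ℕ} (hE : ∀ a b, P a b → rk a < rk b) {h : τ → τ} (hh : ∀ u w, P u w → P u (h u)) {v : τ}
    {q : Bool × Fd} (hq : q ∈ (codH E P h v).trees) : ∃ w, P v w ∧ q = (decide (E v w), codH E P h w) := by
  rw [codH_eq hE hh, mkY_trees, List.mem_map] at hq
  obtain ⟨w, hw, rfl⟩ := hq
  exact ⟨w, (mem_ordH hh).1 hw, rfl⟩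

/-- the first three levels -/
theorem cln_codH {rk : τ → ℕ} (hE : ∀ a b, P a b → rk a < rk b) (hin : ∀ a b c, P a c → P b c → a = b)
    (hP : ∀ a c, P a c → E a c ∨ E c a) (hanti : ∀ a c, E a c → ¬ E c a) {h : τ → τ} (hh : ∀ u w, P u w → P u (h u))
    {K : ℕ} {v : τ} (a1 : ∀ x, P v x → E v x) (a2 : ∀ x y, P v x → P x y → E x y)
    (a3 : ∀ x y z, P v x → P x y → P y z → E y z ∧ K * (inY E P z).card ≤ (AE32.desc P v).card) :
    Cln K (codH E P h v) := by
  refine ⟨?_, ?_, ?_⟩
  · intro p hp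
    obtain ⟨w, hw, rfl⟩ := codH_trees hE hh hp
    exact decide_eq_true (a1 w hw)
  · intro p hp q hq
    obtain ⟨w, hw, rfl⟩ := codH_trees hE hh hp
    obtain ⟨x, hx, rfl⟩ := codH_trees hE hh hq
    exact decide_eq_true (a2 w x hw hx)
  · intro p hp q hq r hr
    obtain ⟨w, hw, rfl⟩ := codH_trees hE hh hp
    obtain ⟨x, hx, rfl⟩ := codH_trees hE hh hq
    obtain ⟨y, hy, rfl⟩ := codH_trees hE hh hr
    obtain ⟨g1, g2⟩ := a3 w x y hw hx hy
    refine ⟨decide_eq_true g1, ?_⟩
    show K * (AEB.blk (codH E P h y) + 1) ≤ (codH E P h v).size + 1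
    rw [blk_inY hE hin hP hanti (codH_cod' hE hh y), cod_size hE hin hP (codH_cod' hE hh v)]
    exact g2

end

end AESF
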