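import Pool.Agent.AESF.SupU
import Pool.Agent.AESF.TopX

/-!
# Free ends: a line whose first three levels point away from the root
-/

set_option autoImplicit false

namespace AESF

open Finset AE15 AED AELT AEK AEB AEG AEF AET AEY AEN
open scoped Classical

/-- the first three levels of the forest point away from the root, and the in-closures at the third level are small -/
structure Cln (K : ℕ) (F : Fd) : Prop where
  a1 : ∀ p ∈ F.trees, p.1 = true
  a2 : ∀ p ∈ F.trees, ∀ q ∈ p.2.trees, q.1 = true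
  a3 : ∀ p ∈ F.trees, ∀ q ∈ p.2.trees, ∀ r ∈ q.2.trees, r.1 = true ∧ K * (AEB.blk r.2 + 1) ≤ F.size + 1

theorem blk_zero {F : Fd} (h : ∀ p ∈ F.trees, p.1 = true) : AEB.blk F = 0 := by
  induction F with
  | nil => rfl
  | node d c s _ ih =>
    have h1 : d = true := h (d, c) (by simp [Fd.trees])
    subst h1
    simp only [AEB.blk, if_true]
    exact by simpa using ih fun p hp => h p (by simp [Fd.trees, hp])

theorem hv_out {F : Fd} (h : ∀ p ∈ F.trees, p.1 = true) (h0 : 1 ≤ F.size) : ∃ c, F.hv = some (true, c) := by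
  cases hF : F.hv with
  | none =>
    exfalso
    cases F with
    | nil => simp [Fd.size] at h0
    | node d c s =>
      simp only [Fd.hv] at hF
      split at hF
      · simp at hF
      · split_ifs at hF
  | some q =>
    obtain ⟨d, c⟩ := q
    have h1 : d = true := h (d, c) (hv_mem hF)
    subst h1
    exact ⟨c, rfl⟩

/-- **a line whose first three levels point away from the root** -/
theorem top3x_of_fx {b l K A : ℕ} (hb : 1 ≤ b) (hA : 1 ≤ A) {γB : ℝ} (hγ : 0 < γB) (hK : 1 ≤ γB * K) {W : Fd → Prop}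
    {F : Fd} (hF : FX b l K (fun c => W c ∧ A * (2 * b) ^ 3 * (c.size + 1) < F.size + 1) 0 F) (hc : Cln K F)
    (hKF : K ≤ F.size + 1) (hbig : (2 * b) ^ 3 < F.size + 1) {n : ℕ} (hn : F.size + 1 ≤ n) :
    Top3X b (LtX b γB n) (fun D => FX b l K (fun c => W c ∧ A * (c.size + 1) < D.size + 1) 0 D) F := by
  have hn' : (F.size + 1 : ℝ) ≤ n := by exact_mod_cast hn
  have hb2 : 1 ≤ 2 * b := by omega
  have hKn : 1 ≤ γB * n := by
    refine hK.trans (mul_le_mul_of_nonneg_left ?_ hγ.le)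
    exact_mod_cast hKF.trans hn
  have hdeg := (Fd.deg_iff b F).1 hF.2.1
  have hdeg2 : ∀ p ∈ F.trees, ∀ q ∈ p.2.trees, q.2.len ≤ b ∧ q.2.Deg b := fun p hp q hq =>
    (Fd.deg_iff b p.2).1 (hdeg p hp).2 q hq
  have hdeg3 : ∀ p ∈ F.trees, ∀ q ∈ p.2.trees, ∀ r ∈ q.2.trees, r.2.len ≤ b ∧ r.2.Deg b := fun p hp q hq r hr =>
    (Fd.deg_iff b q.2).1 (hdeg2 p hp q hq).2 r hr
  have hz : ∀ D : Fd, (∀ p ∈ D.trees, p.1 = true) → (AEB.blk D + 1 : ℝ) ≤ γB * n := by
    intro D hD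
    rw [blk_zero hD]
    simpa using hKn
  refine ⟨hF.1, ?_, ?_, ?_, ?_⟩
  · intro p hp
    exact ⟨hc.a1 p hp, (hdeg p hp).1, (hdeg p hp).2, (hdeg p hp).1, (hdeg p hp).2, hz _ (hc.a2 p hp)⟩
  · intro p hp q hq
    obtain ⟨g1, g2⟩ := hdeg2 p hp q hq
    exact ⟨hc.a2 p hp q hq, g1, g2, g1, g2, hz _ fun r hr => (hc.a3 p hp q hq r hr).1⟩
  · intro p hp q hq r hr
    obtain ⟨g1, g2⟩ := hdeg3 p hp q hq r hr
    obtain ⟨g3, g4⟩ := hc.a3 p hp q hq r hr
    refine ⟨g3, g1, g2, g1, g2, ?_⟩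
    have e1 : (K : ℝ) * (AEB.blk r.2 + 1) ≤ F.size + 1 := by exact_mod_cast g4
    have e2 : (AEB.blk r.2 + 1 : ℝ) ≤ γB * K * (AEB.blk r.2 + 1) := by
      have e3 : (0 : ℝ) ≤ AEB.blk r.2 + 1 := by positivity
      nlinarith
    calc (AEB.blk r.2 + 1 : ℝ) ≤ γB * K * (AEB.blk r.2 + 1) := e2
      _ = γB * (K * (AEB.blk r.2 + 1)) := by ring
      _ ≤ γB * (F.size + 1) := mul_le_mul_of_nonneg_left e1 hγ.le
      _ ≤ γB * n := mul_le_mul_of_nonneg_left hn' hγ.le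
  · obtain ⟨c₁, hc₁⟩ := hv_out (F := F) hc.a1 (by
      have : 1 ≤ (2 * b) ^ 3 := Nat.one_le_pow _ _ hb2
      omega)
    have s1 : F.size + 1 ≤ 2 * b * (c₁.size + 1) := by
      have := (hv_size hc₁ hF.1).1
      nlinarith
    have hm1 := hv_mem hc₁
    have b1 : (2 * b) ^ 2 < c₁.size + 1 := by
      have h1 : 2 * b * (2 * b) ^ 2 < 2 * b * (c₁.size + 1) := lt_of_lt_of_le (by rw [← pow_succ']; exact hbig) s1
      exact lt_of_mul_lt_mul_left h1 (Nat.zero_le _)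
    obtain ⟨c₂, hc₂⟩ := hv_out (F := c₁) (hc.a2 _ hm1) (by
      have : 1 ≤ (2 * b) ^ 2 := Nat.one_le_pow _ _ hb2
      omega)
    have s2 : c₁.size + 1 ≤ 2 * b * (c₂.size + 1) := by
      have := (hv_size hc₂ (hdeg _ hm1).1).1
      nlinarith
    have hm2 := hv_mem hc₂
    have b2 : 2 * b < c₂.size + 1 := by
      have h1 : 2 * b * (2 * b) < 2 * b * (c₂.size + 1) := lt_of_lt_of_le (by rw [← pow_two]; exact b1) s2
      exact lt_of_mul_lt_mul_left h1 (Nat.zero_le _)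
    obtain ⟨c₃, hc₃⟩ := hv_out (F := c₂) (fun r hr => (hc.a3 _ hm1 _ hm2 r hr).1) (by omega)
    have f1 := fx_down hb hA (e := 2) hF hc₁
    have f2 := fx_down hb hA (e := 1) f1 hc₂
    have f3 := fx_down hb hA (e := 0) f2 hc₃
    have hmono : ∀ {e : ℕ} {D : Fd}, FX b l K (fun c' => W c' ∧ A * (2 * b) ^ e * (c'.size + 1) < D.size + 1) 0 D →
        FX b l K (fun c' => W c' ∧ A * (c'.size + 1) < D.size + 1) 0 D := by
      intro e D hD
      refine hD.monoQ fun c' hc' => ⟨hc'.1, lt_of_le_of_lt ?_ hc'.2⟩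
      have h1 : 1 ≤ (2 * b) ^ e := Nat.one_le_pow _ _ hb2
      exact Nat.mul_le_mul_right _ (Nat.le_mul_of_pos_right _ h1)
    exact ⟨c₁, c₂, c₃, hc₁, hc₂, hc₃, hmono f1, hmono f2, hmono f3⟩

end AESF
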