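import Pool.Agent.AEJ.BlCod
import Pool.Agent.AEY.StmtY
import Pool.Agent.AEN.RigPure
import Pool.Agent.AESF.DefsF

/-!
# Free ends at the root: from an oriented tree with an arborescence behind an edge to a coded tree
-/

set_option autoImplicit false
set_option linter.unusedSectionVars false

namespace AESF

open Finset Relation AE15 AED AEB AELT AEK AEJ
open scoped Classical

section glue

variable {τ : Type*} [Fintype τ] {E P : τ → τ → Prop}

/-- directed paths from `v` which end in the branch at `v` run inside of it, away from `v` -/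
theorem reach_out {rk : τ → ℕ} (hE : ∀ a b, P a b → rk a < rk b) (hin : ∀ a b c, P a c → P b c → a = b)
    (hadj : ∀ a c, E a c → P a c ∨ P c a) (hanti : ∀ a c, E a c → ¬ E c a) {u v : τ} (huv : P u v) {x : τ}
    (hx : ReflTransGen E v x) :
    (x ∈ AE32.desc P v → ReflTransGen (fun a c => P a c ∧ E a c) v x) ∧ (x ∉ AE32.desc P v → E v u) := by
  have hpar : ∀ a c, P a c → c ∈ AE32.desc P v → c ≠ v → a ∈ AE32.desc P v := by
    intro a c hac hc hne
    rcases (AE32.mem_desc.1 hc).cases_tail with h1 | ⟨e, h1, h2⟩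
    · exact absurd h1 hne
    · obtain rfl := hin _ _ _ h2 hac
      exact AE32.mem_desc.2 h1
  induction hx with
  | refl => exact ⟨fun _ => ReflTransGen.refl, fun h => absurd (AE32.self_mem_desc v) h⟩
  | @tail x y hx hxy ih =>
    by_cases hxv : x ∈ AE32.desc P v
    · have h1 := ih.1 hxv
      constructor
      · intro hy
        rcases hadj x y hxy with h2 | h2
        · exact h1.tail ⟨h2, hxy⟩
        · exfalso
          rcases h1.cases_tail with h3 | ⟨e, h3, h4⟩
          · subst h3
            exact AE32.notMem_desc hE h2 hy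
          · obtain rfl := hin _ _ _ h4.1 h2
            exact hanti _ _ h4.2 hxy
      · intro hy
        rcases hadj x y hxy with h2 | h2
        · exact absurd (AE32.mem_desc.2 ((AE32.mem_desc.1 hxv).tail h2)) hy
        · by_cases hne : x = v
          · rw [hne] at h2 hxy
            obtain rfl := hin _ _ _ h2 huv
            exact hxy
          · exact absurd (hpar _ _ h2 hxv hne) hy
    · have h1 := ih.2 hxv
      constructor
      · intro hy
        exfalso
        rcases hadj x y hxy with h2 | h2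
        · by_cases hne : y = v
          · rw [hne] at h2 hxy
            obtain rfl := hin _ _ _ h2 huv
            exact hanti _ _ h1 hxy
          · exact hxv (hpar _ _ h2 hy hne)
        · exact hxv (AE32.mem_desc.2 ((AE32.mem_desc.1 hy).tail h2))
      · intro _
        exact h1

/-- in an out-arborescence all arcs run away from the root -/
theorem all_out {rk : τ → ℕ} (hE : ∀ a b, P a b → rk a < rk b) (hin : ∀ a b c, P a c → P b c → a = b)
    (hadj : ∀ a c, E a c → P a c ∨ P c a) (hanti : ∀ a c, E a c → ¬ E c a) {u v : τ} (huv : P u v)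
    (h : ∀ x ∈ AE32.desc P v, ReflTransGen E v x) : ∀ a ∈ AE32.desc P v, ∀ c, P a c → E a c := by
  intro a ha c hac
  have hc : c ∈ AE32.desc P v := AE32.mem_desc.2 ((AE32.mem_desc.1 ha).tail hac)
  rcases ((reach_out hE hin hadj hanti huv (h c hc)).1 hc).cases_tail with h1 | ⟨e, h1, h2⟩
  · rw [h1] at hac
    exact absurd ha (AE32.notMem_desc hE hac)
  · obtain rfl := hin _ _ _ h2.1 hac
    exact h2.2

theorem inR_codL : ∀ (F : Fd) (a : τ) (l : List τ), CodL E P a l F → (∀ w ∈ l, P a w) →
    (∀ x ∈ AE32.desc P a, ∀ y, P x y → E x y) → InR 0 0 F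
  | .nil, _, _, _, _, _ => trivial
  | .node d c s, a, [], h, _, _ => by simp [CodL] at h
  | .node d c s, a, w :: l, h, hl, hall => by
    obtain ⟨h1, ⟨l', h2, h3, h4⟩, h5⟩ := h
    have hw := hl w List.mem_cons_self
    have hE : E a w := hall a (AE32.self_mem_desc a) w hw
    have hd : d = true := by
      rw [h1]
      exact decide_eq_true hE
    subst hd
    refine ⟨?_, inR_codL s a l h5 (fun u hu => hl u (List.mem_cons_of_mem _ hu)) hall⟩
    simp only [if_true]
    exact inR_codL c w l' h4 (fun u hu => (h3 u).1 hu) (fun x hx => hall x (AE32.desc_subset hw hx))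

/-- the mirror image -/
theorem codL_mrr (hx : ∀ a c, P a c → (E c a ↔ ¬ E a c)) : ∀ (F : Fd) (a : τ) (l : List τ), (∀ w ∈ l, P a w) →
    CodL E P a l F → CodL (fun a b => E b a) P a l (mrr F)
  | .nil, _, [], _, _ => trivial
  | .nil, _, _ :: _, _, h => by simp [CodL] at h
  | .node d c s, _, [], _, h => by simp [CodL] at h
  | .node d c s, a, w :: l, hl, h => by
    obtain ⟨h1, ⟨l', h2, h3, h4⟩, h5⟩ := h
    refine ⟨?_, ⟨l', h2, h3, codL_mrr hx c w l' (fun u hu => (h3 u).1 hu) h4⟩,
      codL_mrr hx s a l (fun u hu => hl u (List.mem_cons_of_mem _ hu)) h5⟩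
    have h6 := hx a w (hl w List.mem_cons_self)
    rw [h1]
    by_cases h7 : E a w
    · simp [h7, h6]
    · simp [h7, h6]

theorem cod_mrr (hx : ∀ a c, P a c → (E c a ↔ ¬ E a c)) {a : τ} {F : Fd} (h : Cod E P a F) :
    Cod (fun a b => E b a) P a (mrr F) := by
  obtain ⟨l, h1, h2, h3⟩ := h
  exact ⟨l, h1, h2, codL_mrr hx F a l (fun w hw => (h2 w).1 hw) h3⟩

end glue

/-- **Every oriented tree with an edge `u v` is coded, from `u`, by a forest in which the branch at `v` is one of the trees;
this tree is pure if the branch is an arborescence with the root `v`.** -/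
theorem graph_arb {k b : ℕ} {E : Fin (k + 1) → Fin (k + 1) → Prop} (h4 : ∀ a c, E a c → ¬ E c a)
    (h5 : (SimpleGraph.fromRel E).IsTree) (h6 : ∀ v, {w | E v w ∨ E w v}.ncard ≤ b) {u v : Fin (k + 1)}
    (huv : (SimpleGraph.fromRel E).Adj u v) :
    ∃ c F : Fd, c.size = k ∧ c.len ≤ b ∧ c.Deg b ∧ (decide (E u v), F) ∈ c.trees ∧
      F.size + 1 = {x | (SimpleGraph.fromRel E).dist v x < (SimpleGraph.fromRel E).dist u x}.ncard ∧
      ((∀ x, (SimpleGraph.fromRel E).dist v x < (SimpleGraph.fromRel E).dist u x → ReflTransGen E v x) →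
        FOK b 0 0 F) ∧
      ((∀ x, (SimpleGraph.fromRel E).dist v x < (SimpleGraph.fromRel E).dist u x → ReflTransGen E x v) →
        FOK b 0 0 (mrr F)) ∧
      ∀ {V : Type} {R : V → V → Prop} {N : V → Prop} {X : Finset V}, In R c N X →
        ∃ f : Fin (k + 1) → V, Function.Injective f ∧ (∀ a, f a ∈ X) ∧ N (f u) ∧ ∀ a c, E a c → R (f a) (f c) := by
  obtain ⟨G, hG⟩ : ∃ G, G = SimpleGraph.fromRel E := ⟨_, rfl⟩
  rw [← hG] at h5 huv ⊢
  obtain ⟨P, hPdef⟩ : ∃ P : Fin (k + 1) → Fin (k + 1) → Prop, P = fun a c => G.Adj a c ∧ G.dist u c = G.dist u a + 1 :=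
    ⟨_, rfl⟩
  have hPi : ∀ a c, P a c ↔ G.Adj a c ∧ G.dist u c = G.dist u a + 1 := fun a c => by rw [hPdef]
  have hE : ∀ a c, P a c → G.dist u a < G.dist u c := by
    intro a c h
    rw [hPi] at h
    have := h.2
    omega
  have hin : ∀ a b c, P a c → P b c → a = b := by
    intro a b c h1 h2
    rw [hPi] at h1 h2
    exact parent_unique' h5 u h1.1 h2.1 h1.2 h2.2
  have hP : ∀ a c, P a c → E a c ∨ E c a := by
    intro a c h
    rw [hPi] at h
    have h1 := h.1
    rw [hG, SimpleGraph.fromRel_adj] at h1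
    exact h1.2
  have hadj : ∀ a c, E a c → G.Adj a c := by
    intro a c hac
    rw [hG, SimpleGraph.fromRel_adj]
    refine ⟨?_, Or.inl hac⟩
    rintro rfl
    exact h4 _ _ hac hac
  have hadjP : ∀ a c, E a c → P a c ∨ P c a := by
    intro a c hac
    rcases h5.dist_eq_dist_add_one_of_adj u (hadj _ _ hac) with h | h
    · exact Or.inr ((hPi _ _).2 ⟨(hadj _ _ hac).symm, h⟩)
    · exact Or.inl ((hPi _ _).2 ⟨hadj _ _ hac, h⟩)
  have huv1 : G.dist u v = 1 := SimpleGraph.dist_eq_one_iff_adj.2 huv
  have huvP : P u v := (hPi _ _).2 ⟨huv, by rw [huv1, SimpleGraph.dist_self]⟩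
  have hreach : ∀ x, x ∈ AE32.desc P v ↔ G.dist v x < G.dist u x := by
    intro x
    rw [AE32.mem_desc, hPdef]
    have h1 : G.dist u x ≤ G.dist u v + G.dist v x := h5.connected.dist_triangle
    constructor
    · intro h
      have h2 := dist_of_desc h5 u v h
      omega
    · intro h
      exact desc_of_dist h5 u v _ x rfl (by omega)
  obtain ⟨c, hc⟩ := exists_cod (E := E) (h := fun v => G.dist u v) hE _ u rfl
  obtain ⟨F, hF, hFc⟩ := cod_mem hc huvP
  have hvc := vc_of_cod (h := fun v => G.dist u v) hE hin hP h6 hc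
  have hvF := vc_of_cod (h := fun v => G.dist u v) hE hin hP h6 hFc
  have hroot : AE32.desc P u = univ := by
    rw [eq_univ_iff_forall]
    intro x
    rw [AE32.mem_desc, hPdef]
    exact desc_of_dist h5 u u _ x rfl (by rw [SimpleGraph.dist_self, zero_add])
  have hsz := hvc.size
  rw [hroot, card_univ, Fintype.card_fin] at hsz
  refine ⟨c, F, by omega, hvc.len, hvc.deg, hF, ?_, ?_, ?_, ?_⟩
  · rw [hvF.size, ← Set.ncard_coe_finset]
    congr 1
    ext x
    rw [mem_coe]
    exact hreach x
  · intro h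
    refine ⟨hvF.len, hvF.deg, ?_⟩
    obtain ⟨l, -, h2, h3⟩ := hFc
    exact inR_codL F v l h3 (fun w hw => (h2 w).1 hw)
      (all_out hE hin hadjP h4 huvP (fun x hx => h x ((hreach x).1 hx)))
  · intro h
    have hx : ∀ a c, P a c → (E c a ↔ ¬ E a c) := by
      intro a c hac
      constructor
      · intro h1
        exact h4 _ _ h1
      · intro h1
        exact (hP a c hac).resolve_left h1
    refine ⟨by rw [mrr_len]; exact hvF.len, mrr_deg hvF.deg, ?_⟩
    obtain ⟨l, -, h2, h3⟩ := cod_mrr hx hFc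
    refine inR_codL (mrr F) v l h3 (fun w hw => (h2 w).1 hw)
      (all_out (E := fun a b => E b a) hE hin (fun a c hac => (hadjP c a hac).symm) (fun a c => h4 c a) huvP
        (fun x hx => ?_))
    have h7 := h x ((hreach x).1 hx)
    exact reflTransGen_swap.2 h7
  · rintro V R N X ⟨x, hx, A, hA, hxA, hN', hS⟩
    obtain ⟨f, p1, p2, p3, p4⟩ := hvc.emb hxA hS
    rw [hroot] at p2 p3 p4
    refine ⟨f, fun a b hab => p3 a (mem_univ _) b (mem_univ _) hab, fun a => ?_, by rw [p1]; exact hN', fun a c hac => ?_⟩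
    · have := p2 a (mem_univ _)
      rw [mem_insert] at this
      rcases this with h | h
      · rw [h]
        exact hx
      · exact hA h
    · rcases h5.dist_eq_dist_add_one_of_adj u (hadj _ _ hac) with h | h
      · have h1 := p4 c (mem_univ _) a ((hPi _ _).2 ⟨(hadj _ _ hac).symm, h⟩)
        have h2 : ¬ E c a := h4 _ _ hac
        simpa [Adj, h2] using h1
      · have h1 := p4 a (mem_univ _) c ((hPi _ _).2 ⟨hadj _ _ hac, h⟩)
        simpa [Adj, hac] using h1

end AESF
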