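import Pool.Agent.AESF.ArbEnd

/-!
# Free ends: from an oriented tree with a branch without long runs towards its root to a coded tree
-/

set_option autoImplicit false
set_option linter.unusedSectionVars false

namespace AESF

open Finset Relation AE15 AED AEB AELT AEK AEJ
open scoped Classical

section glue

variable {τ : Type*} [Fintype τ] {E P : τ → τ → Prop}

/-- a branch without long runs towards its root -/
theorem inR_codL_run (hP : ∀ a c, P a c → E a c ∨ E c a) {l : ℕ} {v : τ}
    (hno : ∀ q : ℕ → τ, (∀ i ≤ l, E (q i) (q (i + 1)) ∧ P (q (i + 1)) (q i)) → q (l + 1) ∉ AE32.desc P v) :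
    ∀ (F : Fd) (a : τ) (L : List τ) (j : ℕ) (q : ℕ → τ), CodL E P a L F → (∀ w ∈ L, P a w) → q 0 = a →
      (∀ i < j, E (q i) (q (i + 1)) ∧ P (q (i + 1)) (q i)) → q j ∈ AE32.desc P v → j ≤ l → InR l j F
  | .nil, _, _, _, _, _, _, _, _, _, _ => trivial
  | .node d c s, a, [], _, _, h, _, _, _, _, _ => by simp [CodL] at h
  | .node d c s, a, w :: L, j, q, h, hl, hq0, hq, hqj, hjl => by
    obtain ⟨h1, ⟨l', h2, h3, h4⟩, h5⟩ := h
    have hw := hl w List.mem_cons_self
    have hdown : ∀ s, s ≤ j → q (j - s) ∈ AE32.desc P v := by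
      intro s
      induction s with
      | zero => intro _; exact hqj
      | succ s ih =>
        intro hs
        have h6 := ih (by omega)
        have h7 := (hq (j - (s + 1)) (by omega)).2
        rw [show j - (s + 1) + 1 = j - s by omega] at h7
        exact AE32.mem_desc.2 ((AE32.mem_desc.1 h6).tail h7)
    have ha : a ∈ AE32.desc P v := by
      have := hdown j le_rfl
      rwa [Nat.sub_self, hq0] at this
    have hwv : w ∈ AE32.desc P v := AE32.mem_desc.2 ((AE32.mem_desc.1 ha).tail hw)
    refine ⟨?_, inR_codL_run hP hno s a L j q h5 (fun u hu => hl u (List.mem_cons_of_mem _ hu)) hq0 hq hqj hjl⟩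
    by_cases hE : E a w
    · have hd : d = true := by
        rw [h1]
        exact decide_eq_true hE
      subst hd
      simp only [if_true]
      exact inR_codL_run hP hno c w l' 0 (fun _ => w) h4 (fun u hu => (h3 u).1 hu) rfl
        (fun i hi => absurd hi (Nat.not_lt_zero i)) hwv (Nat.zero_le _)
    · have hd : d = false := by
        rw [h1]
        exact decide_eq_false hE
      subst hd
      simp only [Bool.false_eq_true, if_false]
      have hEw : E w a := (hP a w hw).resolve_left hE
      have hq' : ∀ i < j + 1, E ((fun i => if i = 0 then w else q (i - 1)) i) ((fun i => if i = 0 then w else q (i - 1)) (i + 1)) ∧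
          P ((fun i => if i = 0 then w else q (i - 1)) (i + 1)) ((fun i => if i = 0 then w else q (i - 1)) i) := by
        intro i hi
        cases i with
        | zero =>
          simp only [if_true, Nat.zero_add, one_ne_zero, if_false, Nat.sub_self, hq0]
          exact ⟨hEw, hw⟩
        | succ i =>
          simp only [Nat.succ_ne_zero, if_false, Nat.add_sub_cancel]
          exact hq i (by omega)
      have hj : j + 1 ≤ l := by
        by_contra hc
        obtain rfl : j = l := by omega
        refine hno (fun i => if i = 0 then w else q (i - 1)) (fun i hi => hq' i (by omega)) ?_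
        simp only [Nat.succ_ne_zero, if_false, Nat.add_sub_cancel]
        exact hqj
      refine ⟨hj, ?_⟩
      refine inR_codL_run hP hno c w l' (j + 1) (fun i => if i = 0 then w else q (i - 1)) h4 (fun u hu => (h3 u).1 hu)
        rfl hq' ?_ hj
      simp only [Nat.succ_ne_zero, if_false, Nat.add_sub_cancel]
      exact hqj

/-- the trees of a coded forest -/
theorem codL_trees : ∀ (F : Fd) (a : τ) (L : List τ), CodL E P a L F → ∀ p ∈ F.trees, ∃ w ∈ L, p.1 = decide (E a w) ∧
    Cod E P w p.2
  | .nil, _, _, _, p, hp => by simp [Fd.trees] at hp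
  | .node d c s, a, [], h, _, _ => by simp [CodL] at h
  | .node d c s, a, w :: L, h, p, hp => by
    obtain ⟨h1, h2, h5⟩ := h
    rw [Fd.trees, List.mem_cons] at hp
    rcases hp with rfl | hp
    · exact ⟨w, List.mem_cons_self, h1, h2⟩
    · obtain ⟨w', g1, g2, g3⟩ := codL_trees s a L h5 p hp
      exact ⟨w', List.mem_cons_of_mem _ g1, g2, g3⟩

theorem cod_trees {a : τ} {F : Fd} (h : Cod E P a F) {p : Bool × Fd} (hp : p ∈ F.trees) : ∃ w, P a w ∧
    p.1 = decide (E a w) ∧ Cod E P w p.2 := by
  obtain ⟨L, -, h2, h3⟩ := h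
  obtain ⟨w, g1, g2, g3⟩ := codL_trees F a L h3 p hp
  exact ⟨w, (h2 w).1 g1, g2, g3⟩

end glue

/-- the first three levels of the forest point away from the root -/
def Out3 (F : Fd) : Prop := ∀ p ∈ F.trees, p.1 = true ∧ ∀ q ∈ p.2.trees, q.1 = true ∧ ∀ r ∈ q.2.trees, r.1 = true

/-- **Every oriented tree with an edge `u v` is coded, from `u`, by a forest in which the branch at `v` is one of the trees;
this tree has no long runs towards its root if the branch has none, and starts with three levels of arcs away from the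
root if no vertex of the branch at distance at most `2` from `v` has an in-neighbour farther from `v`.** -/
theorem graph_b {k b : ℕ} {E : Fin (k + 1) → Fin (k + 1) → Prop} (h4 : ∀ a c, E a c → ¬ E c a)
    (h5 : (SimpleGraph.fromRel E).IsTree) (h6 : ∀ v, {w | E v w ∨ E w v}.ncard ≤ b) {u v : Fin (k + 1)}
    (huv : (SimpleGraph.fromRel E).Adj u v) :
    ∃ c F : Fd, c.size = k ∧ c.len ≤ b ∧ c.Deg b ∧ (decide (E u v), F) ∈ c.trees ∧
      F.size + 1 = {x | (SimpleGraph.fromRel E).dist v x < (SimpleGraph.fromRel E).dist u x}.ncard ∧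
      (∀ l : ℕ, (∀ q : ℕ → Fin (k + 1), (∀ i ≤ l, E (q i) (q (i + 1)) ∧
          (SimpleGraph.fromRel E).dist v (q (i + 1)) < (SimpleGraph.fromRel E).dist v (q i)) →
          ¬ (SimpleGraph.fromRel E).dist v (q 0) < (SimpleGraph.fromRel E).dist u (q 0)) → FOK b l 0 F) ∧
      ((∀ x y, E x y → (SimpleGraph.fromRel E).dist v x < (SimpleGraph.fromRel E).dist u x →
          (SimpleGraph.fromRel E).dist v y ≤ 2 →
          (SimpleGraph.fromRel E).dist v x < (SimpleGraph.fromRel E).dist v y) → Out3 F) ∧
      ∀ {V : Type} {R : V → V → Prop} {N : V → Prop} {X : Finset V}, In R c N X →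
        ∃ f : Fin (k + 1) → V, Function.Injective f ∧ (∀ a, f a ∈ X) ∧ N (f u) ∧ ∀ a c, E a c → R (f a) (f c) := by
  obtain ⟨G, hG⟩ : ∃ G, G = SimpleGraph.fromRel E := ⟨_, rfl⟩
  rw [← hG] at h5 huv ⊢
  obtain ⟨P, hPdef⟩ : ∃ P : Fin (k + 1) → Fin (k + 1) → Prop, P = fun a c => G.Adj a c ∧ G.dist u c = G.dist u a + 1 :=
    ⟨_, rfl⟩
  have hPi : ∀ a c, P a c ↔ G.Adj a c ∧ G.dist u c = G.dist u a + 1 := fun a c => by rw [hPdef]
  have hE : ∀ a c, P a c → G.dist u a < G.dist u c := by
    intro a c h
    rw [hPi] at h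
    have := h.2
    omega
  have hin : ∀ a b c, P a c → P b c → a = b := by
    intro a b c h1 h2
    rw [hPi] at h1 h2
    exact parent_unique' h5 u h1.1 h2.1 h1.2 h2.2
  have hP : ∀ a c, P a c → E a c ∨ E c a := by
    intro a c h
    rw [hPi] at h
    have h1 := h.1
    rw [hG, SimpleGraph.fromRel_adj] at h1
    exact h1.2
  have hadj : ∀ a c, E a c → G.Adj a c := by
    intro a c hac
    rw [hG, SimpleGraph.fromRel_adj]
    refine ⟨?_, Or.inl hac⟩
    rintro rfl
    exact h4 _ _ hac hac
  have huv1 : G.dist u v = 1 := SimpleGraph.dist_eq_one_iff_adj.2 huv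
  have huvP : P u v := (hPi _ _).2 ⟨huv, by rw [huv1, SimpleGraph.dist_self]⟩
  have hdesc : ∀ x, x ∈ AE32.desc P v → G.dist u x = G.dist v x + 1 := by
    intro x hx
    rw [AE32.mem_desc, hPdef] at hx
    have h2 := dist_of_desc h5 u v hx
    omega
  have hreach : ∀ x, x ∈ AE32.desc P v ↔ G.dist v x < G.dist u x := by
    intro x
    rw [AE32.mem_desc, hPdef]
    have h1 : G.dist u x ≤ G.dist u v + G.dist v x := h5.connected.dist_triangle
    constructor
    · intro h
      have h2 := dist_of_desc h5 u v h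
      omega
    · intro h
      exact desc_of_dist h5 u v _ x rfl (by omega)
  have hchild : ∀ a w, a ∈ AE32.desc P v → P a w → w ∈ AE32.desc P v ∧ G.dist v w = G.dist v a + 1 := by
    intro a w ha haw
    have hw : w ∈ AE32.desc P v := AE32.mem_desc.2 ((AE32.mem_desc.1 ha).tail haw)
    have h1 := hdesc a ha
    have h2 := hdesc w hw
    have h3 := ((hPi _ _).1 haw).2
    exact ⟨hw, by omega⟩
  obtain ⟨c, hc⟩ := exists_cod (E := E) (h := fun v => G.dist u v) hE _ u rfl
  obtain ⟨F, hF, hFc⟩ := cod_mem hc huvP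
  have hvc := vc_of_cod (h := fun v => G.dist u v) hE hin hP h6 hc
  have hvF := vc_of_cod (h := fun v => G.dist u v) hE hin hP h6 hFc
  have hroot : AE32.desc P u = univ := by
    rw [eq_univ_iff_forall]
    intro x
    rw [AE32.mem_desc, hPdef]
    exact desc_of_dist h5 u u _ x rfl (by rw [SimpleGraph.dist_self, zero_add])
  have hsz := hvc.size
  rw [hroot, card_univ, Fintype.card_fin] at hsz
  refine ⟨c, F, by omega, hvc.len, hvc.deg, hF, ?_, ?_, ?_, ?_⟩
  · rw [hvF.size, ← Set.ncard_coe_finset]
    congr 1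
    ext x
    rw [mem_coe]
    exact hreach x
  · intro l h
    refine ⟨hvF.len, hvF.deg, ?_⟩
    obtain ⟨L, -, h2, h3⟩ := hFc
    refine inR_codL_run hP (l := l) (v := v) ?_ F v L 0 (fun _ => v) h3 (fun w hw => (h2 w).1 hw) rfl
      (fun i hi => absurd hi (Nat.not_lt_zero i)) (AE32.self_mem_desc v) (Nat.zero_le _)
    intro q hq hql
    have hdown : ∀ s, s ≤ l + 1 → q (l + 1 - s) ∈ AE32.desc P v := by
      intro s
      induction s with
      | zero => intro _; exact hql
      | succ s ih =>
        intro hs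
        have h6 := ih (by omega)
        have h7 := (hq (l + 1 - (s + 1)) (by omega)).2
        rw [show l + 1 - (s + 1) + 1 = l + 1 - s by omega] at h7
        exact AE32.mem_desc.2 ((AE32.mem_desc.1 h6).tail h7)
    refine h q (fun i hi => ⟨(hq i hi).1, ?_⟩) ?_
    · have h7 := hdown (l + 1 - (i + 1)) (by omega)
      rw [show l + 1 - (l + 1 - (i + 1)) = i + 1 by omega] at h7
      have := (hchild _ _ h7 (hq i hi).2).2
      omega
    · have h7 := hdown (l + 1) le_rfl
      rw [Nat.sub_self] at h7
      exact (hreach _).1 h7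
  · intro h p hp
    have hvv := AE32.self_mem_desc (E := P) v
    have hd0 : G.dist v v = 0 := SimpleGraph.dist_self
    have key : ∀ a w, a ∈ AE32.desc P v → P a w → G.dist v a ≤ 2 → E a w := by
      intro a w ha haw h2
      obtain ⟨g1, g2⟩ := hchild a w ha haw
      rcases hP a w haw with h3 | h3
      · exact h3
      · have := h w a h3 ((hreach w).1 g1) h2
        omega
    obtain ⟨w, w1, w2, w3⟩ := cod_trees hFc hp
    obtain ⟨w4, w5⟩ := hchild v w hvv w1
    refine ⟨by rw [w2]; exact decide_eq_true (key v w hvv w1 (by omega)), ?_⟩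
    intro q hq
    obtain ⟨z, z1, z2, z3⟩ := cod_trees w3 hq
    obtain ⟨z4, z5⟩ := hchild w z w4 z1
    refine ⟨by rw [z2]; exact decide_eq_true (key w z w4 z1 (by omega)), ?_⟩
    intro r hr
    obtain ⟨y, y1, y2, y3⟩ := cod_trees z3 hr
    rw [y2]
    exact decide_eq_true (key z y z4 y1 (by omega))
  · rintro V R N X ⟨x, hx, A, hA, hxA, hN', hS⟩
    obtain ⟨f, p1, p2, p3, p4⟩ := hvc.emb hxA hS
    rw [hroot] at p2 p3 p4
    refine ⟨f, fun a b hab => p3 a (mem_univ _) b (mem_univ _) hab, fun a => ?_, by rw [p1]; exact hN', fun a c hac => ?_⟩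
    · have := p2 a (mem_univ _)
      rw [mem_insert] at this
      rcases this with h | h
      · rw [h]
        exact hx
      · exact hA h
    · rcases h5.dist_eq_dist_add_one_of_adj u (hadj _ _ hac) with h | h
      · have h1 := p4 c (mem_univ _) a ((hPi _ _).2 ⟨(hadj _ _ hac).symm, h⟩)
        have h2 : ¬ E c a := h4 _ _ hac
        simpa [Adj, h2] using h1
      · have h1 := p4 a (mem_univ _) c ((hPi _ _).2 ⟨hadj _ _ hac, h⟩)
        simpa [Adj, hac] using h1

end AESF
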