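import Pool.Agent.AESF.Routes

/-!
# Free ends: most vertices outside `U` are good hosts for in-arcs from `U`
-/

set_option autoImplicit false

namespace AESF

open Finset AE15 AED AELT AEB
open scoped Classical

variable {V : Type} {R : V → V → Prop}

/-- double counting: if every vertex of `U` misses at most `t` vertices of `T`, then all but `t + t / ρ` vertices of `T` are
dominated by `x'` and by all but `ρ |U|` vertices of `U` -/
theorem good_hosts {U T : Finset V} {x' : V} {t ρ : ℝ} (hx' : x' ∈ U) (hρ : 0 < ρ)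
    (ht : ∀ u ∈ U, ((T.filter (fun h => ¬ R u h)).card : ℝ) ≤ t) :
    ((T.filter (fun h => ¬ (R x' h ∧ ((U.filter (fun u => ¬ R u h)).card : ℝ) ≤ ρ * U.card))).card : ℝ) ≤
      t + t / ρ := by
  have hU : (0 : ℝ) < U.card := by exact_mod_cast card_pos.2 ⟨x', hx'⟩
  obtain ⟨B, hB⟩ : ∃ B, B = T.filter (fun h => ρ * U.card < ((U.filter (fun u => ¬ R u h)).card : ℝ)) := ⟨_, rfl⟩
  have h1 : T.filter (fun h => ¬ (R x' h ∧ ((U.filter (fun u => ¬ R u h)).card : ℝ) ≤ ρ * U.card)) ⊆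
      T.filter (fun h => ¬ R x' h) ∪ B := by
    intro h hh
    rw [mem_filter] at hh
    rw [hB, mem_union, mem_filter, mem_filter]
    by_cases hx : R x' h
    · refine Or.inr ⟨hh.1, ?_⟩
      by_contra hc
      exact hh.2 ⟨hx, not_lt.1 hc⟩
    · exact Or.inl ⟨hh.1, hx⟩
  have h2 : ((T.filter (fun h => ¬ (R x' h ∧ ((U.filter (fun u => ¬ R u h)).card : ℝ) ≤ ρ * U.card))).card : ℝ) ≤
      (T.filter (fun h => ¬ R x' h)).card + B.card := by
    exact_mod_cast (card_le_card h1).trans (card_union_le _ _)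
  have h3 : (∑ h ∈ T, ((U.filter (fun u => ¬ R u h)).card : ℝ)) = ∑ u ∈ U, ((T.filter (fun h => ¬ R u h)).card : ℝ) := by
    have : ∑ h ∈ T, (U.filter (fun u => ¬ R u h)).card = ∑ u ∈ U, (T.filter (fun h => ¬ R u h)).card := by
      simp only [card_filter]
      rw [sum_comm]
    exact_mod_cast this
  have h4 : (∑ u ∈ U, ((T.filter (fun h => ¬ R u h)).card : ℝ)) ≤ U.card * t := by
    have := sum_le_sum ht
    rwa [sum_const, nsmul_eq_mul] at this
  have h5 : (B.card : ℝ) * (ρ * U.card) ≤ ∑ h ∈ T, ((U.filter (fun u => ¬ R u h)).card : ℝ) := by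
    have h6 : (B.card : ℝ) * (ρ * U.card) ≤ ∑ h ∈ B, ((U.filter (fun u => ¬ R u h)).card : ℝ) := by
      rw [← nsmul_eq_mul]
      refine card_nsmul_le_sum _ _ _ (fun h hh => ?_)
      rw [hB, mem_filter] at hh
      exact hh.2.le
    refine h6.trans (sum_le_sum_of_subset_of_nonneg ?_ (fun _ _ _ => Nat.cast_nonneg _))
    rw [hB]
    exact filter_subset _ _
  have h6 : (B.card : ℝ) * ρ ≤ t := by
    have h7 : (B.card : ℝ) * ρ * U.card ≤ t * U.card := by
      have e1 : (B.card : ℝ) * ρ * U.card = B.card * (ρ * U.card) := by ring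
      have e2 : t * (U.card : ℝ) = U.card * t := by ring
      rw [e1, e2]
      linarith
    exact le_of_mul_le_mul_right h7 hU
  have h7 : (B.card : ℝ) ≤ t / ρ := by
    rw [le_div_iff₀ hρ]
    exact h6
  have h8 := ht x' hx'
  linarith

/-- a vertex of `U` misses at most `τ |K|` vertices of `K` -/
theorem ThickD.missK (hT : AE32.Tour R) {X U K : Finset V} {𝓛 : Finset (Finset V)} {p : ℕ} {ω ζ k lam τ ν : ℝ}
    (hD : ThickD R X U K 𝓛 p ω ζ k lam τ ν) (hτ0 : 0 < τ) (hτ : 2 * τ ≤ k) (hn : 2 ≤ K.card) {u : V} (hu : u ∈ U) :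
    ((K.filter (fun h => ¬ R u h)).card : ℝ) ≤ τ * K.card := by
  refine le_trans ?_ (hD.fewK u hu)
  have h1 : K.filter (fun h => ¬ R u h) ⊆ nI R K u := by
    intro h hh
    rw [mem_filter] at hh
    rw [mem_nI]
    have hne : u ≠ h := fun he => hD.disK hτ0 hτ hn hu (he ▸ hh.1)
    rcases hT.tot u h hne with h2 | h2
    · exact absurd h2 hh.2
    · exact ⟨hh.1, h2⟩
  exact_mod_cast card_le_card h1

/-- a vertex of `U` misses few vertices of `X \ U` -/
theorem ThickD.missY (hT : AE32.Tour R) {X U K : Finset V} {𝓛 : Finset (Finset V)} {p J : ℕ} {ω ζ k lam τ ν : ℝ}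
    (hD : ThickD R X U K 𝓛 p ω ζ k lam τ ν) (hτ0 : 0 ≤ τ) (hJ : 𝓛.card ≤ J) {u : V} (hu : u ∈ U) :
    (((X \ U).filter (fun h => ¬ R u h)).card : ℝ) ≤ ((J + 1) * τ + ζ) * X.card := by
  have h1 : (X \ U).filter (fun h => ¬ R u h) ⊆
      (nI R K u ∪ 𝓛.biUnion (fun L => nI R L u)) ∪ (X \ (U ∪ K ∪ 𝓛.biUnion id)) := by
    intro h hh
    rw [mem_filter, mem_sdiff] at hh
    obtain ⟨⟨hX, hU⟩, hR⟩ := hh
    have hne : u ≠ h := fun he => hU (he ▸ hu)
    have hR' : R h u := (hT.tot u h hne).resolve_left hR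
    rw [mem_union, mem_union]
    by_cases hK : h ∈ K
    · exact Or.inl (Or.inl (mem_nI.2 ⟨hK, hR'⟩))
    by_cases hL : ∃ L ∈ 𝓛, h ∈ L
    · obtain ⟨L, hL, hhL⟩ := hL
      exact Or.inl (Or.inr (mem_biUnion.2 ⟨L, hL, mem_nI.2 ⟨hhL, hR'⟩⟩))
    · refine Or.inr ?_
      push Not at hL
      rw [mem_sdiff, mem_union, mem_union, mem_biUnion]
      refine ⟨hX, ?_⟩
      rintro ((h2 | h2) | ⟨L, hL1, hL2⟩)
      · exact hU h2
      · exact hK h2
      · exact hL L hL1 hL2
  have h2 := (card_le_card h1).trans (card_union_le _ _)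
  have h3 := card_union_le (nI R K u) (𝓛.biUnion (fun L => nI R L u))
  have h4 : (((X \ U).filter (fun h => ¬ R u h)).card : ℝ) ≤ (nI R K u).card +
      (𝓛.biUnion (fun L => nI R L u)).card + (X \ (U ∪ K ∪ 𝓛.biUnion id)).card := by
    exact_mod_cast h2.trans (Nat.add_le_add_right h3 _)
  have hX0 : (0 : ℝ) ≤ X.card := Nat.cast_nonneg _
  have h5 : ((nI R K u).card : ℝ) ≤ τ * X.card := by
    refine (hD.fewK u hu).trans (mul_le_mul_of_nonneg_left ?_ hτ0)
    exact_mod_cast card_le_card hD.subK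
  have h6 : ((𝓛.biUnion (fun L => nI R L u)).card : ℝ) ≤ J * (τ * X.card) := by
    have e1 : ((𝓛.biUnion (fun L => nI R L u)).card : ℝ) ≤ ∑ L ∈ 𝓛, ((nI R L u).card : ℝ) := by
      exact_mod_cast card_biUnion_le
    have e2 : ∑ L ∈ 𝓛, ((nI R L u).card : ℝ) ≤ ∑ _L ∈ 𝓛, τ * X.card := by
      apply sum_le_sum
      intro L hL
      refine (hD.few u hu L hL).trans (mul_le_mul_of_nonneg_left ?_ hτ0)
      exact_mod_cast card_le_card (hD.subL L hL)
    rw [sum_const, nsmul_eq_mul] at e2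
    have e3 : (𝓛.card : ℝ) * (τ * X.card) ≤ J * (τ * X.card) :=
      mul_le_mul_of_nonneg_right (by exact_mod_cast hJ) (by positivity)
    linarith
  have h7 := hD.rest
  linarith

end AESF
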