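import Pool.Agent.AESF.Main

/-!
# Free ends at the root: the constants, for an abstract class of branches with an abstract black box

`Ω`: the parameters of the black box; `Cls`: the classes of branches; `BX w I n₀ C₁`: the black box of the class `I` with the
parameters `w`; `TOP b I F`: the branch `F` starts with a few good vertices and then belongs to the class `I`.
-/

set_option autoImplicit false

namespace AESF

open Finset AE15 AED AEB AELT AEK AEJ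
open scoped Classical

/-- the case of a small set before the place -/
def T1G {Ω Cls : Type} (ok : Ω → Prop) (BX : Ω → Cls → ℕ → ℕ → Prop) (TOP : ℕ → Cls → Fd → Prop) : Prop :=
  ∀ b : ℕ, 1 ≤ b → ∀ θ : ℝ, 0 < θ → ∃ ω₀ : ℝ, 0 < ω₀ ∧ ∀ ω : ℝ, 0 < ω → ω ≤ ω₀ → ∃ ζ₀ : ℝ, 0 < ζ₀ ∧
  ∀ ζ : ℝ, 0 < ζ → ζ ≤ ζ₀ → ∀ lam : ℝ, 0 < lam → ∀ J : ℕ, ∃ a₁₀ : ℝ, 0 < a₁₀ ∧ ∀ a1 : ℝ, 0 < a1 → a1 ≤ a₁₀ →
    ∃ a₂₀ : ℝ, 0 < a₂₀ ∧ ∀ a2 : ℝ, 0 < a2 → a2 ≤ a₂₀ → ∀ k0 : ℝ, 0 < k0 → ∀ c1 m0 : ℕ, ∃ w : Ω, ok w ∧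
      ∀ (I : Cls) (nb Cb : ℕ), BX w I nb Cb → ∃ C : ℝ,
      ∀ {V : Type} {R : V → V → Prop}, AE32.Tour R → ∀ (X U K : Finset V) (𝓛 : Finset (Finset V)) (k : ℝ), k0 ≤ k → k ≤ 1 →
        𝓛.card ≤ J → ∀ F s : Fd, (Fd.node true F s).len ≤ b → (Fd.node true F s).Deg b → TOP b I F →
          θ * X.card ≤ (F.size + 1 : ℝ) → ((Fd.node true F s).size : ℝ) + 1 + C ≤ X.card →
            ThickD R X U K 𝓛 (blk s + c1) ω ζ k lam (a1 * k ^ 2) (a2 * k ^ 2) → U.card ≤ blk s + c1 + m0 →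
              In R (.node true F s) (fun _ => True) X

/-- the case of a large set before the place -/
def T2G {Ω Cls : Type} (ok : Ω → Prop) (BX : Ω → Cls → ℕ → ℕ → Prop) (TOP : ℕ → Cls → Fd → Prop) : Prop :=
  ∀ b : ℕ, 1 ≤ b → ∀ θ : ℝ, 0 < θ → ∃ ω₀ : ℝ, 0 < ω₀ ∧ ∀ ω : ℝ, 0 < ω → ω ≤ ω₀ → ∃ ζ₀ : ℝ, 0 < ζ₀ ∧
  ∀ ζ : ℝ, 0 < ζ → ζ ≤ ζ₀ → ∀ lam : ℝ, 0 < lam → ∀ J : ℕ, ∃ a₁₀ : ℝ, 0 < a₁₀ ∧ ∀ a1 : ℝ, 0 < a1 → a1 ≤ a₁₀ →
    ∃ a₂₀ : ℝ, 0 < a₂₀ ∧ ∀ a2 : ℝ, 0 < a2 → a2 ≤ a₂₀ → ∀ k0 : ℝ, 0 < k0 → ∃ (w : Ω) (c1 m0 : ℕ), ok w ∧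
      ∀ (I : Cls) (nb Cb : ℕ), BX w I nb Cb → ∃ C : ℝ,
      ∀ {V : Type} {R : V → V → Prop}, AE32.Tour R → ∀ (X U : Finset V) (𝓛 : Finset (Finset V)) (k : ℝ), k0 ≤ k → k ≤ 1 →
        𝓛.card ≤ J → ∀ F s : Fd, (Fd.node true F s).len ≤ b → (Fd.node true F s).Deg b → TOP b I F →
          θ * X.card ≤ (F.size + 1 : ℝ) → ((Fd.node true F s).size : ℝ) + 1 + C ≤ X.card →
            (CutD R X U 𝓛 (blk s + c1) ω ζ lam (a1 * k ^ 2) (a2 * k ^ 2) ∨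
              ∃ K, ThickD R X U K 𝓛 (blk s + c1) ω ζ k lam (a1 * k ^ 2) (a2 * k ^ 2)) →
              blk s + c1 + m0 ≤ U.card → In R (.node true F s) (fun _ => True) X

/-- **the statement for coded trees, for an abstract class** -/
theorem sf_mainG {Ω Cls : Type} {ok : Ω → Prop} {BX : Ω → Cls → ℕ → ℕ → Prop} {TOP : ℕ → Cls → Fd → Prop}
    (hP : PartsSt) (h1 : T1G ok BX TOP) (h2 : T2G ok BX TOP) (b : ℕ) (hb : 1 ≤ b) (θ' : ℝ) (hθ' : 0 < θ') :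
    ∃ w₁ w₂ : Ω, ok w₁ ∧ ok w₂ ∧ ∀ (I : Cls) (nb₁ Cb₁ nb₂ Cb₂ : ℕ), BX w₁ I nb₁ Cb₁ → BX w₂ I nb₂ Cb₂ → ∃ C : ℕ,
      ∀ {V : Type} {R : V → V → Prop}, AE32.Tour R → ∀ c F : Fd, c.len ≤ b → c.Deg b → (true, F) ∈ c.trees →
        TOP b I F → θ' * (c.size + 1) ≤ (F.size + 1 : ℝ) → ∀ X : Finset V, c.size + 1 + C ≤ X.card →
          In R c (fun _ => True) X := by
  obtain ⟨θ, hθdef⟩ : ∃ θ : ℝ, θ = θ' / 2 := ⟨_, rfl⟩
  have hθ : 0 < θ := by rw [hθdef]; positivity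
  obtain ⟨ω1, hω1, h1⟩ := h1 b hb θ hθ
  obtain ⟨ω2, hω2, h2⟩ := h2 b hb θ hθ
  obtain ⟨ω, hω⟩ : ∃ ω : ℝ, ω = min (min ω1 ω2) (min (θ / 8) (1 / 8)) := ⟨_, rfl⟩
  have hω0 : 0 < ω := by
    rw [hω]
    exact lt_min (lt_min hω1 hω2) (lt_min (by positivity) (by norm_num))
  have hωa : ω ≤ ω1 := by rw [hω]; exact (min_le_left _ _).trans (min_le_left _ _)
  have hωb : ω ≤ ω2 := by rw [hω]; exact (min_le_left _ _).trans (min_le_right _ _)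
  have hωθ : ω ≤ θ / 8 := by rw [hω]; exact (min_le_right _ _).trans (min_le_left _ _)
  have hω8 : ω ≤ 1 / 8 := by rw [hω]; exact (min_le_right _ _).trans (min_le_right _ _)
  obtain ⟨ζ1, hζ1, h1⟩ := h1 ω hω0 hωa
  obtain ⟨ζ2, hζ2, h2⟩ := h2 ω hω0 hωb
  obtain ⟨ζ, hζ⟩ : ∃ ζ : ℝ, ζ = min ζ1 ζ2 := ⟨_, rfl⟩
  have hζ0 : 0 < ζ := by rw [hζ]; exact lt_min hζ1 hζ2
  obtain ⟨lam, J, hlam, hP⟩ := hP ω ζ hω0 hω8 hζ0
  obtain ⟨a11, ha11, h1⟩ := h1 ζ hζ0 (by rw [hζ]; exact min_le_left _ _) lam hlam J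
  obtain ⟨a12, ha12, h2⟩ := h2 ζ hζ0 (by rw [hζ]; exact min_le_right _ _) lam hlam J
  obtain ⟨a1, ha1⟩ : ∃ a : ℝ, a = min (min a11 a12) 1 := ⟨_, rfl⟩
  have ha10 : 0 < a1 := by rw [ha1]; exact lt_min (lt_min ha11 ha12) one_pos
  obtain ⟨a21, ha21, h1⟩ := h1 a1 ha10 (by rw [ha1]; exact (min_le_left _ _).trans (min_le_left _ _))
  obtain ⟨a22, ha22, h2⟩ := h2 a1 ha10 (by rw [ha1]; exact (min_le_left _ _).trans (min_le_right _ _))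
  obtain ⟨a2, ha2⟩ : ∃ a : ℝ, a = min (min a21 a22) 1 := ⟨_, rfl⟩
  have ha20 : 0 < a2 := by rw [ha2]; exact lt_min (lt_min ha21 ha22) one_pos
  obtain ⟨k0, n1, hk0, hP⟩ := hP a1 a2 ha10 (by rw [ha1]; exact min_le_right _ _) ha20 (by rw [ha2]; exact min_le_right _ _)
  obtain ⟨w₂, c1, m0, hw₂, h2⟩ := h2 a2 ha20 (by rw [ha2]; exact (min_le_left _ _).trans (min_le_right _ _)) k0 hk0
  obtain ⟨w₁, hw₁, h1⟩ := h1 a2 ha20 (by rw [ha2]; exact (min_le_left _ _).trans (min_le_left _ _)) k0 hk0 c1 m0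
  refine ⟨w₁, w₂, hw₁, hw₂, ?_⟩
  intro I nb₁ Cb₁ nb₂ Cb₂ hB₁ hB₂
  obtain ⟨C2, h2⟩ := h2 I nb₂ Cb₂ hB₂
  obtain ⟨C1, h1⟩ := h1 I nb₁ Cb₁ hB₁
  obtain ⟨C, hC1, hC2⟩ : ∃ C : ℕ, C1 ≤ C ∧ C2 ≤ C := by
    obtain ⟨C, hC⟩ := exists_nat_ge (max C1 C2)
    exact ⟨C, (le_max_left _ _).trans hC, (le_max_right _ _).trans hC⟩
  -- the order from which on everything works
  obtain ⟨B, hB1, hB2, hB3, hB4⟩ : ∃ B : ℕ, n1 ≤ B ∧ C ≤ B ∧ (c1 : ℝ) ≤ θ / 2 * B ∧ (m0 : ℝ) ≤ ω / 4 * B := by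
    obtain ⟨B1, hB1⟩ := exists_nat_ge ((c1 : ℝ) / (θ / 2))
    obtain ⟨B2, hB2⟩ := exists_nat_ge ((m0 : ℝ) / (ω / 4))
    refine ⟨n1 + C + B1 + B2, by omega, by omega, ?_, ?_⟩
    · rw [div_le_iff₀ (by positivity)] at hB1
      refine hB1.trans ?_
      rw [mul_comm]
      refine mul_le_mul_of_nonneg_left ?_ (by positivity)
      push_cast
      have e1 : (0 : ℝ) ≤ n1 := Nat.cast_nonneg _
      have e2 : (0 : ℝ) ≤ C := Nat.cast_nonneg _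
      have e3 : (0 : ℝ) ≤ B2 := Nat.cast_nonneg _
      linarith
    · rw [div_le_iff₀ (by positivity)] at hB2
      refine hB2.trans ?_
      rw [mul_comm]
      refine mul_le_mul_of_nonneg_left ?_ (by positivity)
      push_cast
      have e1 : (0 : ℝ) ≤ n1 := Nat.cast_nonneg _
      have e2 : (0 : ℝ) ≤ C := Nat.cast_nonneg _
      have e3 : (0 : ℝ) ≤ B1 := Nat.cast_nonneg _
      linarith
  refine ⟨4 * B, ?_⟩
  intro V R hT c F hl hD hF hFO hθF X hX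
  by_cases hsm : c.size + 1 ≤ B
  · -- small trees
    refine AEX.un_four hT b c hl hD X ?_
    have e1 : ((c.size + 1 + 4 * B : ℕ) : ℝ) ≤ X.card := by exact_mod_cast hX
    have e2 : ((c.size + 1 : ℕ) : ℝ) ≤ B := by exact_mod_cast hsm
    push_cast at e1 e2
    have e3 : (0 : ℝ) ≤ c.size := Nat.cast_nonneg _
    linarith
  · -- large trees
    push Not at hsm
    obtain ⟨s, hs⟩ := AER.eqt_first hF
    obtain ⟨Y, hYX, hY⟩ := exists_subset_card_eq (s := X) (n := c.size + 1 + C) (by omega)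
    have hY2 : Y.card ≤ 2 * (c.size + 1) := by omega
    have hY2' : (Y.card : ℝ) ≤ 2 * (c.size + 1) := by exact_mod_cast hY2
    have hBY : (B : ℝ) ≤ Y.card := by
      have : B ≤ Y.card := by omega
      exact_mod_cast this
    have hYc : (c.size : ℝ) + 1 + C = Y.card := by
      rw [hY]
      push_cast
      ring
    have hθY : θ * Y.card ≤ (F.size + 1 : ℝ) := by
      refine le_trans ?_ hθF
      rw [hθdef]
      nlinarith
    have hsz : (Fd.node true F s).size = c.size := hs.size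
    have hsz' : F.size + s.size + 1 = c.size := hsz
    have hlen : (Fd.node true F s).len ≤ b := by rw [hs.len]; exact hl
    have hdeg : (Fd.node true F s).Deg b := hs.deg b hD
    have hblk := blk_le s
    have hp : ((blk s + c1 : ℕ) : ℝ) + 4 * ω * Y.card ≤ Y.card := by
      have e1 : ((blk s + F.size + 1 : ℕ) : ℝ) ≤ Y.card := by
        have : blk s + F.size + 1 ≤ Y.card := by omega
        exact_mod_cast this
      push_cast at e1 ⊢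
      have e2 : θ / 2 * B ≤ θ / 2 * Y.card := mul_le_mul_of_nonneg_left hBY (by positivity)
      have e3 : 4 * ω * Y.card ≤ θ / 2 * Y.card := mul_le_mul_of_nonneg_right (by linarith) (Nat.cast_nonneg _)
      linarith
    obtain ⟨k, U, K, 𝓛, hk1, hk2, hJ, hUK⟩ := hP hT Y (blk s + c1) (by omega) hp
    have hIn : In R (.node true F s) (fun _ => True) Y := by
      by_cases hU : blk s + c1 + m0 ≤ U.card
      · refine h2 hT Y U 𝓛 k hk1 hk2 hJ F s hlen hdeg hFO hθY ?_ ?_ hU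
        · rw [hsz]
          linarith
        · rcases hUK with h | h
          · exact Or.inl h
          · exact Or.inr ⟨K, h⟩
      · rcases hUK with h | h
        · exfalso
          apply hU
          have e1 := h.lo
          have e2 : ω / 4 * B ≤ ω / 4 * Y.card := mul_le_mul_of_nonneg_left hBY (by positivity)
          have e3 : ((blk s + c1 + m0 : ℕ) : ℝ) ≤ U.card := by
            push_cast at e1 ⊢
            linarith
          exact_mod_cast e3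
        · exact h1 hT Y U K 𝓛 k hk1 hk2 hJ F s hlen hdeg hFO hθY (by rw [hsz]; linarith) h (by omega)
    obtain ⟨x, hx, A, hA, hxA, hN, hE⟩ := hIn
    refine ⟨x, hYX hx, A, hA.trans hYX, hxA, trivial, ?_⟩
    exact hs.emb hE

end AESF
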