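import Pool.Agent.AESF.Main
import Pool.Agent.AESF.StX
import Pool.Agent.AESF.FxTop

/-!
# Free ends: the constants, list version
-/

set_option autoImplicit false

namespace AESF

open Finset AE15 AED AEB AELT AEK AEJ AEY AEN
open scoped Classical

/-- the statement for coded trees: a line at the root, which hangs by an arc away from the root -/
def SFXSt : Prop := ∀ b l : ℕ, 1 ≤ b → ∃ A₀ : ℕ, ∀ A' : ℕ, A₀ ≤ A' → ∀ θw : ℝ, 0 < θw → θw ≤ 1 / 2 → ∀ θ : ℝ, 0 < θ →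
  ∃ (ε₀ μ₀ : ℝ) (K₀ : ℕ), 0 < ε₀ ∧ 0 < μ₀ ∧ ∀ ε₁ μ₁ : ℝ, ε₁ ≤ ε₀ → μ₁ ≤ μ₀ → ∀ K : ℕ, K₀ ≤ K → ∀ M : ℕ, ∃ C : ℕ,
    ∀ {V : Type} {R : V → V → Prop}, AE32.Tour R → ∀ c F : Fd, c.len ≤ b → c.Deg b → (true, F) ∈ c.trees →
      θ * (c.size + 1) ≤ (F.size + 1 : ℝ) → Cln K F →
      FX b l K (fun e => WcU b l K A' θw ε₁ μ₁ M e ∧ (2 * b) ^ (2 * l + 9) * (e.size + 1) < F.size + 1) 0 F →
      ∀ X : Finset V, c.size + 1 + C ≤ X.card → In R c (fun _ => True) X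

/-- **the statement for coded trees** -/
theorem sf_mainX (hP : PartsSt) (h1 : T1XSt) (h2 : T2XSt) : SFXSt := by
  intro b l hb
  obtain ⟨A₀, hBx⟩ := bxl_all b l hb
  refine ⟨A₀, ?_⟩
  intro A' hA' θw hθw hθw2 θ' hθ'
  have hBx := hBx A' hA' θw hθw hθw2
  obtain ⟨θ, hθdef⟩ : ∃ θ : ℝ, θ = θ' / 2 := ⟨_, rfl⟩
  have hθ : 0 < θ := by rw [hθdef]; positivity
  obtain ⟨ω1, hω1, h1⟩ := h1 b hb θ hθ
  obtain ⟨ω2, hω2, h2⟩ := h2 b hb θ hθ
  obtain ⟨ω, hω⟩ : ∃ ω : ℝ, ω = min (min ω1 ω2) (min (θ / 8) (1 / 8)) := ⟨_, rfl⟩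
  have hω0 : 0 < ω := by
    rw [hω]
    exact lt_min (lt_min hω1 hω2) (lt_min (by positivity) (by norm_num))
  have hωa : ω ≤ ω1 := by rw [hω]; exact (min_le_left _ _).trans (min_le_left _ _)
  have hωb : ω ≤ ω2 := by rw [hω]; exact (min_le_left _ _).trans (min_le_right _ _)
  have hωθ : ω ≤ θ / 8 := by rw [hω]; exact (min_le_right _ _).trans (min_le_left _ _)
  have hω8 : ω ≤ 1 / 8 := by rw [hω]; exact (min_le_right _ _).trans (min_le_right _ _)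
  obtain ⟨ζ1, hζ1, h1⟩ := h1 ω hω0 hωa
  obtain ⟨ζ2, hζ2, h2⟩ := h2 ω hω0 hωb
  obtain ⟨ζ, hζ⟩ : ∃ ζ : ℝ, ζ = min ζ1 ζ2 := ⟨_, rfl⟩
  have hζ0 : 0 < ζ := by rw [hζ]; exact lt_min hζ1 hζ2
  obtain ⟨lam, J, hlam, hP⟩ := hP ω ζ hω0 hω8 hζ0
  obtain ⟨a11, ha11, h1⟩ := h1 ζ hζ0 (by rw [hζ]; exact min_le_left _ _) lam hlam J
  obtain ⟨a12, ha12, h2⟩ := h2 ζ hζ0 (by rw [hζ]; exact min_le_right _ _) lam hlam J
  obtain ⟨a1, ha1⟩ : ∃ a : ℝ, a = min (min a11 a12) 1 := ⟨_, rfl⟩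
  have ha10 : 0 < a1 := by rw [ha1]; exact lt_min (lt_min ha11 ha12) one_pos
  obtain ⟨a21, ha21, h1⟩ := h1 a1 ha10 (by rw [ha1]; exact (min_le_left _ _).trans (min_le_left _ _))
  obtain ⟨a22, ha22, h2⟩ := h2 a1 ha10 (by rw [ha1]; exact (min_le_left _ _).trans (min_le_right _ _))
  obtain ⟨a2, ha2⟩ : ∃ a : ℝ, a = min (min a21 a22) 1 := ⟨_, rfl⟩
  have ha20 : 0 < a2 := by rw [ha2]; exact lt_min (lt_min ha21 ha22) one_pos
  obtain ⟨k0, n1, hk0, hP⟩ := hP a1 a2 ha10 (by rw [ha1]; exact min_le_right _ _) ha20 (by rw [ha2]; exact min_le_right _ _)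
  obtain ⟨N2, e2, m2, c1, m0, τ2, d2, hN2, hτ2, hd2, h2⟩ :=
    h2 a2 ha20 (by rw [ha2]; exact (min_le_left _ _).trans (min_le_right _ _)) k0 hk0
  obtain ⟨N1, e1, m1, τ1, d1, hN1, hτ1, hd1, h1⟩ :=
    h1 a2 ha20 (by rw [ha2]; exact (min_le_left _ _).trans (min_le_left _ _)) k0 hk0 c1 m0
  obtain ⟨γ1, ε01, μ01, K1, nb1, hγ1, hε01, hμ01, hB1⟩ := hBx N1 e1 m1 hN1 hτ1 hd1
  obtain ⟨γ2, ε02, μ02, K2, nb2, hγ2, hε02, hμ02, hB2⟩ := hBx N2 e2 m2 hN2 hτ2 hd2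
  obtain ⟨K3, hK3⟩ := exists_nat_ge (max (1 / γ1) (1 / γ2))
  refine ⟨min ε01 ε02, min μ01 μ02, max (max K1 K2) K3, lt_min hε01 hε02, lt_min hμ01 hμ02, ?_⟩
  intro ε₁ μ₁ hε₁ hμ₁ K hK M
  have hK1 : K1 ≤ K := (le_max_left _ _).trans ((le_max_left _ _).trans hK)
  have hK2 : K2 ≤ K := (le_max_right _ _).trans ((le_max_left _ _).trans hK)
  have hK3' : max (1 / γ1) (1 / γ2) ≤ K := hK3.trans (by exact_mod_cast (le_max_right _ _).trans hK)
  have hγK1 : 1 ≤ γ1 * K := by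
    have := (le_max_left _ _).trans hK3'
    rwa [div_le_iff₀' hγ1] at this
  have hγK2 : 1 ≤ γ2 * K := by
    have := (le_max_right _ _).trans hK3'
    rwa [div_le_iff₀' hγ2] at this
  obtain ⟨Cb1, hB1⟩ := hB1 ε₁ μ₁ (hε₁.trans (min_le_left _ _)) (hμ₁.trans (min_le_left _ _)) K hK1 M
  obtain ⟨Cb2, hB2⟩ := hB2 ε₁ μ₁ (hε₁.trans (min_le_right _ _)) (hμ₁.trans (min_le_right _ _)) K hK2 M
  obtain ⟨C1, h1⟩ := h1 _ _ nb1 Cb1 (hB1 Cb1 le_rfl)
  obtain ⟨C2, h2⟩ := h2 _ _ nb2 Cb2 (hB2 Cb2 le_rfl)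
  obtain ⟨C, hC1, hC2⟩ : ∃ C : ℕ, C1 ≤ C ∧ C2 ≤ C := by
    obtain ⟨C, hC⟩ := exists_nat_ge (max C1 C2)
    exact ⟨C, (le_max_left _ _).trans hC, (le_max_right _ _).trans hC⟩
  -- the order from which on everything works
  obtain ⟨B, hB1, hB2, hB3, hB4, hB5⟩ : ∃ B : ℕ, n1 ≤ B ∧ C ≤ B ∧ (c1 : ℝ) ≤ θ / 2 * B ∧ (m0 : ℝ) ≤ ω / 4 * B ∧
      ((K + (2 * b) ^ 3 : ℕ) : ℝ) ≤ θ' * B := by
    obtain ⟨B1, hB1⟩ := exists_nat_ge ((c1 : ℝ) / (θ / 2))
    obtain ⟨B2, hB2⟩ := exists_nat_ge ((m0 : ℝ) / (ω / 4))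
    obtain ⟨B3, hB3⟩ := exists_nat_ge (((K + (2 * b) ^ 3 : ℕ) : ℝ) / θ')
    have e1 : (0 : ℝ) ≤ n1 := Nat.cast_nonneg _
    have e2 : (0 : ℝ) ≤ C := Nat.cast_nonneg _
    have e3 : (0 : ℝ) ≤ B1 := Nat.cast_nonneg _
    have e4 : (0 : ℝ) ≤ B2 := Nat.cast_nonneg _
    have e5 : (0 : ℝ) ≤ B3 := Nat.cast_nonneg _
    refine ⟨n1 + C + B1 + B2 + B3, by omega, by omega, ?_, ?_, ?_⟩
    · rw [div_le_iff₀ (by positivity)] at hB1
      refine hB1.trans ?_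
      rw [mul_comm]
      refine mul_le_mul_of_nonneg_left ?_ (by positivity)
      push_cast
      linarith
    · rw [div_le_iff₀ (by positivity)] at hB2
      refine hB2.trans ?_
      rw [mul_comm]
      refine mul_le_mul_of_nonneg_left ?_ (by positivity)
      push_cast
      linarith
    · rw [div_le_iff₀ hθ'] at hB3
      refine hB3.trans ?_
      rw [mul_comm]
      refine mul_le_mul_of_nonneg_left ?_ hθ'.le
      push_cast
      linarith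
  refine ⟨4 * B, ?_⟩
  intro V R hT c F hl hD hF hθF hcl hFX X hX
  by_cases hsm : c.size + 1 ≤ B
  · -- small trees
    refine AEX.un_four hT b c hl hD X ?_
    have e1 : ((c.size + 1 + 4 * B : ℕ) : ℝ) ≤ X.card := by exact_mod_cast hX
    have e2 : ((c.size + 1 : ℕ) : ℝ) ≤ B := by exact_mod_cast hsm
    push_cast at e1 e2
    have e3 : (0 : ℝ) ≤ c.size := Nat.cast_nonneg _
    linarith
  · -- large trees
    push Not at hsm
    have hFbig : K + (2 * b) ^ 3 < F.size + 1 := by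
      have e1 : (B : ℝ) < c.size + 1 := by exact_mod_cast hsm
      have e2 : θ' * B < θ' * (c.size + 1) := mul_lt_mul_of_pos_left e1 hθ'
      have e3 : ((K + (2 * b) ^ 3 : ℕ) : ℝ) < ((F.size + 1 : ℕ) : ℝ) := by
        push_cast at hB5 ⊢
        linarith
      exact_mod_cast e3
    have hFX' : FX b l K (fun e => WcU b l K A' θw ε₁ μ₁ M e ∧ (2 * b) ^ (2 * l + 6) * (2 * b) ^ 3 * (e.size + 1) < F.size + 1)
        0 F := by
      refine hFX.monoQ fun e he => ⟨he.1, ?_⟩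
      rw [← pow_add]
      exact he.2
    have hA1 : 1 ≤ (2 * b) ^ (2 * l + 6) := Nat.one_le_pow _ _ (by omega)
    have hTop1 : ∀ n, F.size + 1 ≤ n → Top3X b (LtX b γ1 n) (HX b l K A' θw ε₁ μ₁ M) F := fun n hn =>
      top3x_of_fx hb hA1 hγ1 hγK1 hFX' hcl (by omega) (by omega) hn
    have hTop2 : ∀ n, F.size + 1 ≤ n → Top3X b (LtX b γ2 n) (HX b l K A' θw ε₁ μ₁ M) F := fun n hn =>
      top3x_of_fx hb hA1 hγ2 hγK2 hFX' hcl (by omega) (by omega) hn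
    obtain ⟨s, hs⟩ := AER.eqt_first hF
    obtain ⟨Y, hYX, hY⟩ := exists_subset_card_eq (s := X) (n := c.size + 1 + C) (by omega)
    have hY2 : Y.card ≤ 2 * (c.size + 1) := by omega
    have hY2' : (Y.card : ℝ) ≤ 2 * (c.size + 1) := by exact_mod_cast hY2
    have hBY : (B : ℝ) ≤ Y.card := by
      have : B ≤ Y.card := by omega
      exact_mod_cast this
    have hYc : (c.size : ℝ) + 1 + C = Y.card := by
      rw [hY]
      push_cast
      ring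
    have hθY : θ * Y.card ≤ (F.size + 1 : ℝ) := by
      refine le_trans ?_ hθF
      rw [hθdef]
      nlinarith
    have hsz : (Fd.node true F s).size = c.size := hs.size
    have hsz' : F.size + s.size + 1 = c.size := hsz
    have hlen : (Fd.node true F s).len ≤ b := by rw [hs.len]; exact hl
    have hdeg : (Fd.node true F s).Deg b := hs.deg b hD
    have hblk := blk_le s
    have hp : ((blk s + c1 : ℕ) : ℝ) + 4 * ω * Y.card ≤ Y.card := by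
      have e1 : ((blk s + F.size + 1 : ℕ) : ℝ) ≤ Y.card := by
        have : blk s + F.size + 1 ≤ Y.card := by omega
        exact_mod_cast this
      push_cast at e1 ⊢
      have e2 : θ / 2 * B ≤ θ / 2 * Y.card := mul_le_mul_of_nonneg_left hBY (by positivity)
      have e3 : 4 * ω * Y.card ≤ θ / 2 * Y.card := mul_le_mul_of_nonneg_right (by linarith) (Nat.cast_nonneg _)
      linarith
    obtain ⟨k, U, K', 𝓛, hk1, hk2, hJ, hUK⟩ := hP hT Y (blk s + c1) (by omega) hp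
    have hIn : In R (.node true F s) (fun _ => True) Y := by
      by_cases hU : blk s + c1 + m0 ≤ U.card
      · refine h2 hT Y U 𝓛 k hk1 hk2 hJ F s hlen hdeg hTop2 hθY ?_ ?_ hU
        · rw [hsz]
          linarith
        · rcases hUK with h | h
          · exact Or.inl h
          · exact Or.inr ⟨K', h⟩
      · rcases hUK with h | h
        · exfalso
          apply hU
          have e1 := h.lo
          have e2 : ω / 4 * B ≤ ω / 4 * Y.card := mul_le_mul_of_nonneg_left hBY (by positivity)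
          have e3 : ((blk s + c1 + m0 : ℕ) : ℝ) ≤ U.card := by
            push_cast at e1 ⊢
            linarith
          exact_mod_cast e3
        · exact h1 hT Y U K' 𝓛 k hk1 hk2 hJ F s hlen hdeg hTop1 hθY (by rw [hsz]; linarith) h (by omega)
    obtain ⟨x, hx, A, hA, hxA, hN, hE⟩ := hIn
    refine ⟨x, hYX hx, A, hA.trans hYX, hxA, trivial, ?_⟩
    exact hs.emb hE

end AESF
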