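import Pool.Agent.AEN.FinalA

/-!
# Bare path ends, any orientation: the alternating structure

The branch at `p i₀` is the path `p i₀, …, p m`. The indices with small or balanced branches form a set `S` as in `AltP`.
-/

set_option autoImplicit false

namespace AEN

open Finset Relation AE15 AED AEB AELT AEK AEY AEJ AEW
open scoped Classical

/-- the branch at `p i₀` is the path `p i₀, …, p m` -/
structure Bare {τ : Type*} (P : τ → τ → Prop) (p : ℕ → τ) (i₀ m : ℕ) : Prop where
  le : i₀ ≤ m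
  arc : ∀ i < m, P (p i) (p (i + 1))
  one : ∀ i, i₀ ≤ i → i ≤ m → ∀ w, P (p i) w → i < m ∧ w = p (i + 1)

section

variable {τ : Type*} [Fintype τ] {E P : τ → τ → Prop}

omit [Fintype τ] in
theorem Bare.mono {p : ℕ → τ} {i₀ j m : ℕ} (H : Bare P p i₀ m) (h1 : i₀ ≤ j) (h2 : j ≤ m) : Bare P p j m :=
  ⟨h2, H.arc, fun i hi => H.one i (h1.trans hi)⟩

theorem Bare.mem {p : ℕ → τ} {i₀ m : ℕ} (H : Bare P p i₀ m) {i : ℕ} (h1 : i₀ ≤ i) (h2 : i ≤ m) {x : τ} :
    x ∈ AE32.desc P (p i) ↔ ∃ s, i ≤ s ∧ s ≤ m ∧ x = p s := by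
  constructor
  · intro hx
    have := AE32.mem_desc.1 hx
    induction this with
    | refl => exact ⟨i, le_rfl, h2, rfl⟩
    | tail h3 h4 ih =>
      obtain ⟨s, g1, g2, rfl⟩ := ih (AE32.mem_desc.2 h3)
      obtain ⟨g3, rfl⟩ := H.one s (h1.trans g1) g2 _ h4
      exact ⟨s + 1, by omega, g3, rfl⟩
  · rintro ⟨s, g1, g2, rfl⟩
    induction s, g1 using Nat.le_induction with
    | base => exact AE32.self_mem_desc _
    | succ s g1 ih =>
      exact AE32.mem_desc.2 ((AE32.mem_desc.1 (ih (by omega))).tail (H.arc s (by omega)))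

omit [Fintype τ] in
theorem Bare.inj {p : ℕ → τ} {i₀ m : ℕ} (H : Bare P p i₀ m) {rk : τ → ℕ} (hE : ∀ a b, P a b → rk a < rk b) {i j : ℕ}
    (hi : i ≤ m) (hj : j ≤ m) (hij : p i = p j) : i = j := by
  have hmono : ∀ d i, i + d ≤ m → rk (p i) + d ≤ rk (p (i + d)) := by
    intro d
    induction d with
    | zero => intro i _; simp
    | succ d ih =>
      intro i hi
      have h1 := ih i (by omega)
      have h2 := hE _ _ (H.arc (i + d) (by omega))
      rw [show i + (d + 1) = i + d + 1 by omega]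
      omega
  rcases Nat.lt_trichotomy i j with h | h | h
  · have := hmono (j - i) i (by omega)
    rw [show i + (j - i) = j by omega, hij] at this
    omega
  · exact h
  · have := hmono (i - j) j (by omega)
    rw [show j + (i - j) = i by omega, hij] at this
    omega

theorem Bare.card {p : ℕ → τ} {i₀ m : ℕ} (H : Bare P p i₀ m) {rk : τ → ℕ} (hE : ∀ a b, P a b → rk a < rk b) {i : ℕ}
    (h1 : i₀ ≤ i) (h2 : i ≤ m) : (AE32.desc P (p i)).card = m + 1 - i := by
  have h3 : AE32.desc P (p i) = (Finset.Icc i m).image p := by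
    ext x
    rw [H.mem h1 h2, mem_image]
    constructor
    · rintro ⟨s, g1, g2, rfl⟩
      exact ⟨s, mem_Icc.2 ⟨g1, g2⟩, rfl⟩
    · rintro ⟨s, g1, rfl⟩
      rw [mem_Icc] at g1
      exact ⟨s, g1.1, g1.2, rfl⟩
  rw [h3, card_image_of_injOn, Nat.card_Icc]
  intro i hi j hj hij
  rw [coe_Icc, Set.mem_Icc] at hi hj
  exact H.inj hE hi.2 hj.2 hij

/-- an arc leads into the branch -/
theorem cross_out (hin : ∀ a b c, P a c → P b c → a = b) (hEP : ∀ a c, E a c → P a c ∨ P c a) {u w a b : τ} (huw : P u w)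
    (ha : a ∉ AE32.desc P w) (hb : b ∈ AE32.desc P w) (h : ReflTransGen E a b) : E u w := by
  induction h with
  | refl => exact absurd hb ha
  | @tail x y h1 h2 ih =>
    by_cases hx : x ∈ AE32.desc P w
    · exact ih hx
    · rcases hEP _ _ h2 with h3 | h3
      · rcases (AE32.mem_desc.1 hb).cases_tail with h4 | ⟨z, h4, h5⟩
        · subst h4
          rw [← hin _ _ _ huw h3] at h2
          exact h2
        · rw [hin _ _ _ h5 h3] at h4
          exact absurd (AE32.mem_desc.2 h4) hx
      · exact absurd (AE32.mem_desc.2 ((AE32.mem_desc.1 hb).tail h3)) hx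

/-- an arc leads out of the branch -/
theorem cross_in (hin : ∀ a b c, P a c → P b c → a = b) (hEP : ∀ a c, E a c → P a c ∨ P c a) {u w a b : τ} (huw : P u w)
    (ha : a ∉ AE32.desc P w) (hb : b ∈ AE32.desc P w) (h : ReflTransGen E b a) : E w u := by
  have h1 : ReflTransGen (fun x y => E y x) a b := reflTransGen_swap.1 h
  exact cross_out (E := fun x y => E y x) hin (fun a c h => (hEP c a h).symm) huw ha hb h1

/-- the arcs between `i` and `b` have the same direction, and `b` is a turn or the end -/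
structure RunB (E : τ → τ → Prop) (p : ℕ → τ) (m i b : ℕ) : Prop where
  lt : i < b
  le : b ≤ m
  run : (∀ j, i ≤ j → j < b → E (p j) (p (j + 1))) ∨ ∀ j, i ≤ j → j < b → E (p (j + 1)) (p j)
  turn : b < m → (E (p (b - 1)) (p b) ↔ E (p (b + 1)) (p b)) ∧ (E (p b) (p (b - 1)) ↔ E (p b) (p (b + 1)))

omit [Fintype τ] in
theorem exists_run (hP : ∀ a c, P a c → E a c ∨ E c a) (hanti : ∀ a c, E a c → ¬ E c a) {p : ℕ → τ} {m : ℕ}
    (hp : ∀ i < m, P (p i) (p (i + 1))) {i : ℕ} (hi : i < m) : ∃ b, RunB E p m i b := by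
  have hex : ∃ b, i < b ∧ (m ≤ b ∨ ¬ (E (p b) (p (b + 1)) ↔ E (p i) (p (i + 1)))) := ⟨m, hi, Or.inl le_rfl⟩
  have h1 := Nat.find_spec hex
  have h2 : ∀ j, i < j → j < Nat.find hex → j < m ∧ (E (p j) (p (j + 1)) ↔ E (p i) (p (i + 1))) := by
    intro j hj hlt
    have := Nat.find_min hex hlt
    push Not at this
    exact this hj
  have hle : Nat.find hex ≤ m := Nat.find_min' hex ⟨hi, Or.inl le_rfl⟩
  have hd : ∀ j, j < m → (E (p (j + 1)) (p j) ↔ ¬ E (p j) (p (j + 1))) := by
    intro j hj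
    constructor
    · exact fun h => hanti _ _ h
    · intro h
      exact (hP _ _ (hp j hj)).resolve_left h
  have h3 : ∀ j, i ≤ j → j < Nat.find hex → (E (p j) (p (j + 1)) ↔ E (p i) (p (i + 1))) := by
    intro j hj hlt
    rcases eq_or_lt_of_le hj with rfl | hj
    · exact Iff.rfl
    · exact (h2 j hj hlt).2
  refine ⟨Nat.find hex, h1.1, hle, ?_, ?_⟩
  · by_cases h : E (p i) (p (i + 1))
    · exact Or.inl fun j hj hlt => (h3 j hj hlt).2 h
    · refine Or.inr fun j hj hlt => (hd j (by omega)).2 fun h4 => h ((h3 j hj hlt).1 h4)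
  · intro hbm
    have h4 : ¬ (E (p (Nat.find hex)) (p (Nat.find hex + 1)) ↔ E (p i) (p (i + 1))) := by
      rcases h1.2 with h4 | h4
      · omega
      · exact h4
    have h5 := h3 (Nat.find hex - 1) (by omega) (by omega)
    have h6 : Nat.find hex - 1 + 1 = Nat.find hex := by omega
    rw [h6] at h5
    have h7 := hd (Nat.find hex - 1) (by omega)
    rw [h6] at h7
    have h8 := hd _ hbm
    by_cases g1 : E (p (Nat.find hex - 1)) (p (Nat.find hex)) <;>
      by_cases g2 : E (p (Nat.find hex)) (p (Nat.find hex + 1)) <;> simp_all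

/-- the vertices which are not joined to `p i` by directed paths are those behind the first turn -/
theorem card_nc_run (hin : ∀ a b c, P a c → P b c → a = b) {rk : τ → ℕ} (hE : ∀ a b, P a b → rk a < rk b)
    (hEP : ∀ a c, E a c → P a c ∨ P c a) (hanti : ∀ a c, E a c → ¬ E c a) {p : ℕ → τ} {i₀ m : ℕ}
    (H : Bare P p i₀ m) {i b : ℕ} (hi : i₀ ≤ i) (hR : RunB E p m i b) : (ncY E P (p i)).card = m - b := by
  have hib := hR.lt
  have hbm := hR.le
  have h3 : ncY E P (p i) = (Finset.Icc (b + 1) m).image p := by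
    ext x
    rw [ncY, mem_filter, H.mem hi (by omega), mem_image]
    constructor
    · rintro ⟨⟨s, g1, g2, rfl⟩, g3, g4⟩
      refine ⟨s, mem_Icc.2 ⟨?_, g2⟩, rfl⟩
      by_contra hc
      rcases hR.run with h | h
      · refine g3 ?_
        clear g3 g4
        induction s, g1 using Nat.le_induction with
        | base => exact ReflTransGen.refl
        | succ s g1 ih => exact (ih (by omega) (by omega)).tail (h s g1 (by omega))
      · refine g4 ?_
        clear g3 g4
        induction s, g1 using Nat.le_induction with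
        | base => exact ReflTransGen.refl
        | succ s g1 ih => exact ReflTransGen.head (h s g1 (by omega)) (ih (by omega) (by omega))
    · rintro ⟨s, g1, rfl⟩
      rw [mem_Icc] at g1
      refine ⟨⟨s, by omega, g1.2, rfl⟩, ?_⟩
      have hP1 := H.arc b (by omega)
      have hP2 := H.arc (b - 1) (by omega)
      rw [show b - 1 + 1 = b by omega] at hP2
      have ha1 : p i ∉ AE32.desc P (p (b + 1)) := by
        intro hc
        obtain ⟨s', g2, g3, g4⟩ := (H.mem (by omega) (by omega)).1 hc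
        have := H.inj hE (by omega) g3 g4
        omega
      have ha2 : p i ∉ AE32.desc P (p b) := by
        intro hc
        obtain ⟨s', g2, g3, g4⟩ := (H.mem (by omega) (by omega)).1 hc
        have := H.inj hE (by omega) g3 g4
        omega
      have hb1 : p s ∈ AE32.desc P (p (b + 1)) := (H.mem (by omega) (by omega)).2 ⟨s, g1.1, g1.2, rfl⟩
      have hb2 : p s ∈ AE32.desc P (p b) := (H.mem (by omega) (by omega)).2 ⟨s, by omega, g1.2, rfl⟩
      obtain ⟨t1, t2⟩ := hR.turn (by omega)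
      constructor
      · intro hc
        have h4 := cross_out hin hEP hP1 ha1 hb1 hc
        have h5 := cross_out hin hEP hP2 ha2 hb2 hc
        exact hanti _ _ (t1.1 h5) h4
      · intro hc
        have h4 := cross_in hin hEP hP1 ha1 hb1 hc
        have h5 := cross_in hin hEP hP2 ha2 hb2 hc
        exact hanti _ _ (t2.1 h5) h4
  rw [h3, card_image_of_injOn, Nat.card_Icc]
  · omega
  · intro i hi j hj hij
    rw [coe_Icc, Set.mem_Icc] at hi hj
    exact H.inj hE hi.2 hj.2 hij

/-- the set of indices -/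
def SB (E P : τ → τ → Prop) (p : ℕ → τ) (L M i₀ m : ℕ) : Set ℕ :=
  {i | i₀ ≤ i ∧ i ≤ m ∧ ((AE32.desc P (p i)).card ≤ M ∨ (AE32.desc P (p i)).card ≤ L * (ncY E P (p i)).card)}

/-- a run away from the root, after an arc towards the root or at the root of the line, is a line -/
theorem line_run (hin : ∀ a b c, P a c → P b c → a = b) {rk : τ → ℕ} (hE : ∀ a b, P a b → rk a < rk b)
    (hEP : ∀ a c, E a c → P a c ∨ P c a) (hanti : ∀ a c, E a c → ¬ E c a) {h : τ → τ}
    (hh : ∀ u w, P u w → P u (h u)) {p : ℕ → τ} {i₀ m l K L M : ℕ} (H : Bare P p i₀ m) {i b : ℕ} (hi : i₀ ≤ i)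
    (hR : RunB E p m i b) (hrun : ∀ j, i ≤ j → j < b → E (p j) (p (j + 1))) (hL : 3 ≤ L) (hM : K ≤ M) (hM1 : 1 ≤ M)
    (hK : K ≤ m + 1 - i) (hbal : L * (m - b) < m + 1 - i) (h0 : i = 0 ∨ E (p i) (p (i - 1))) :
    ∃ t ∈ SB E P p L M i₀ m, t ≤ m ∧ LineP l K L M E P h p i t := by
  have hib := hR.lt
  have hbm := hR.le
  have hmain : ∀ j, i₀ ≤ j → j < m → p (j + 1) = h (p j) := by
    intro j hj hjm
    exact ((H.one j hj hjm.le _ (hh _ _ (H.arc j hjm))).2).symm
  -- no run towards the root starts before `b + 1`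
  have hq0 : ∀ t, i ≤ t → t ≤ b → ∀ q : ℕ → τ, (∀ j ≤ l, E (q j) (q (j + 1)) ∧ P (q (j + 1)) (q j)) →
      q (l + 1) ∈ AE32.desc P (p i) → q 0 ∈ AE32.desc P (p t) := by
    intro t hit htb q hq hr
    have hdown : ∀ s, s ≤ l → q (l + 1 - s) ∈ AE32.desc P (p i) := by
      intro s
      induction s with
      | zero => intro _; exact hr
      | succ s ih =>
        intro hs
        have h6 := ih (by omega)
        have h7 := (hq (l + 1 - (s + 1)) (by omega)).2
        rw [show l + 1 - (s + 1) + 1 = l + 1 - s by omega] at h7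
        exact AE32.mem_desc.2 ((AE32.mem_desc.1 h6).tail h7)
    have h1 := hdown l le_rfl
    rw [show l + 1 - l = 1 by omega] at h1
    obtain ⟨s, g1, g2, g3⟩ := (H.mem hi (by omega)).1 h1
    obtain ⟨g4, g5⟩ := hq 0 (Nat.zero_le _)
    rw [Nat.zero_add] at g4 g5
    rw [g3] at g4 g5
    obtain ⟨g6, g7⟩ := H.one s (by omega) g2 _ g5
    rw [g7] at g4 ⊢
    have h2 : ¬ s < b := fun hc => hanti _ _ (hrun s g1 hc) g4
    exact (H.mem (by omega) (by omega)).2 ⟨s + 1, by omega, by omega, rfl⟩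
  rcases eq_or_lt_of_le hbm with hb | hb
  · -- the run goes to the end
    refine ⟨m, ⟨H.le, le_rfl, ?_⟩, le_rfl, by omega, fun j hj hjt => hmain j (by omega) hjt, h0, Or.inl ?_, ?_⟩
    · rw [H.card hE H.le le_rfl]
      left; omega
    · rw [H.card hE H.le le_rfl]
      omega
    · intro q hq hr
      exact Or.inl (hq0 m (by omega) (by omega) q hq hr)
  · -- the exit before the turn
    obtain ⟨y, hy⟩ : ∃ y, y = max M (L * (m - b)) := ⟨_, rfl⟩
    have hx : 1 ≤ m - b := by omega
    have hy1 : M ≤ y := hy ▸ le_max_left _ _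
    have hy2 : L * (m - b) ≤ y := hy ▸ le_max_right _ _
    have hLx : 3 * (m - b) ≤ L * (m - b) := Nat.mul_le_mul_right _ hL
    obtain ⟨t, ht⟩ : ∃ t, t = max (i + 1) (m + 1 - y) := ⟨_, rfl⟩
    have ht1 : i + 1 ≤ t := ht ▸ le_max_left _ _
    have ht2 : m + 1 - y ≤ t := ht ▸ le_max_right _ _
    have ht3 : t = i + 1 ∨ t = m + 1 - y := by
      rw [ht]
      exact max_choice _ _
    have htb : t < b := by
      rcases ht3 with h1 | h1
      · omega
      · omega
    have hct : (AE32.desc P (p t)).card = m + 1 - t := H.card hE (by omega) (by omega)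
    have hRt : RunB E p m t b := ⟨htb, hbm, Or.inl fun j hj hjb => hrun j (by omega) hjb, hR.turn⟩
    have hnt : (ncY E P (p t)).card = m - b := card_nc_run hin hE hEP hanti H (by omega) hRt
    have hcl : (AE32.desc P (p t)).card ≤ M ∨ (AE32.desc P (p t)).card ≤ L * (ncY E P (p t)).card := by
      rw [hct, hnt]
      have h1 : m + 1 - t ≤ y := by omega
      rcases max_choice M (L * (m - b)) with h2 | h2
      · rw [h2] at hy
        left; omega
      · rw [h2] at hy
        right; omega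
    refine ⟨t, ⟨by omega, by omega, hcl⟩, by omega, by omega, fun j hj hjt => hmain j (by omega) (by omega), h0,
      Or.inr ⟨by omega, ?_, ?_, hcl⟩, ?_⟩
    · have h1 := hrun (t - 1) (by omega) (by omega)
      rwa [show t - 1 + 1 = t by omega] at h1
    · have h1 : (inY E P (p t)).card ≤ 1 := by
        rw [card_le_one]
        have h2 : ∀ a ∈ inY E P (p t), a = p t := by
          intro a ha
          rcases (mem_inY.1 ha).cases_tail with h2 | ⟨c, -, h3, h4⟩
          · exact h2.symm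
          · obtain ⟨-, rfl⟩ := H.one t (by omega) (by omega) _ h4
            exact absurd h3 (hanti _ _ (hrun t (by omega) htb))
        intro a ha b hb
        rw [h2 a ha, h2 b hb]
      rw [H.card hE (by omega) (by omega)]
      have h2 : K * (inY E P (p t)).card ≤ K * 1 := Nat.mul_le_mul_left _ h1
      rcases ht3 with h3 | h3
      · omega
      · have h4 : m + 1 - t = min (m + 1) y := by omega
        omega
    · intro q hq hr
      exact Or.inl (hq0 t (by omega) (by omega) q hq hr)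

theorem ncY_rev (v : τ) : ncY (fun a b => E b a) P v = ncY E P v := by
  unfold ncY
  apply filter_congr
  intro x _
  have e1 : ∀ a b, ReflTransGen (fun a b => E b a) a b ↔ ReflTransGen E b a := fun a b => reflTransGen_swap
  rw [e1, e1]
  exact and_comm

theorem SB_rev (p : ℕ → τ) (L M i₀ m : ℕ) : SB (fun a b => E b a) P p L M i₀ m = SB E P p L M i₀ m := by
  ext i
  unfold SB
  rw [Set.mem_ofPred_eq, Set.mem_ofPred_eq, ncY_rev]

omit [Fintype τ] in
theorem RunB.rev {p : ℕ → τ} {m i b : ℕ} (H : RunB E p m i b) : RunB (fun a b => E b a) p m i b :=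
  ⟨H.lt, H.le, H.run.symm, fun h => ⟨(H.turn h).2, (H.turn h).1⟩⟩

/-- **the options at a turn** -/
theorem opt_turn (hin : ∀ a b c, P a c → P b c → a = b) {rk : τ → ℕ} (hE : ∀ a b, P a b → rk a < rk b)
    (hP : ∀ a c, P a c → E a c ∨ E c a)
    (hEP : ∀ a c, E a c → P a c ∨ P c a) (hanti : ∀ a c, E a c → ¬ E c a) {h : τ → τ}
    (hh : ∀ u w, P u w → P u (h u)) {p : ℕ → τ} {i₀ m l K L M : ℕ} (H : Bare P p i₀ m) {i j : ℕ} (hj : i₀ ≤ j)
    (hR : RunB E p m i j) (hjm : j < m) (hL : 3 ≤ L) (hM : K ≤ M) (hM1 : 1 ≤ M) (hK : K ≤ m + 1 - j) :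
    (j ∈ SB E P p L M i₀ m ∧ (AE32.desc P (p j)).card ≤ L * (ncY E P (p j)).card) ∨
      ∃ t ∈ SB E P p L M i₀ m, t ≤ m ∧ LineB l K L M E P h p j t := by
  obtain ⟨b, hb⟩ := exists_run hP hanti H.arc hjm
  have hnc := card_nc_run hin hE hEP hanti H hj hb
  have hc := H.card hE hj hjm.le
  by_cases hbal : (AE32.desc P (p j)).card ≤ L * (ncY E P (p j)).card
  · exact Or.inl ⟨⟨hj, hjm.le, Or.inr hbal⟩, hbal⟩
  · right
    rw [hnc, hc] at hbal
    push Not at hbal
    obtain ⟨t1, t2⟩ := hR.turn hjm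
    rcases hb.run with hrun | hrun
    · obtain ⟨t, h1, h2, h3⟩ := line_run (l := l) hin hE hEP hanti hh H hj hb hrun hL hM hM1 hK hbal
        (Or.inr (t2.2 (hrun j le_rfl hb.lt)))
      exact ⟨t, h1, h2, Or.inl h3⟩
    · obtain ⟨t, h1, h2, h3⟩ := line_run (E := fun a b => E b a) (l := l) hin hE (fun a c h => (hEP c a h).symm)
        (fun a c h => hanti c a h) hh H hj hb.rev hrun hL hM hM1 hK hbal
        (Or.inr (t1.2 (hrun j le_rfl hb.lt)))
      rw [SB_rev] at h1
      exact ⟨t, h1, h2, Or.inr h3⟩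

/-- **bare path ends satisfy the condition of the alternating class** -/
theorem path_alt (hin : ∀ a b c, P a c → P b c → a = b) {rk : τ → ℕ} (hE : ∀ a b, P a b → rk a < rk b)
    (hP : ∀ a c, P a c → E a c ∨ E c a)
    (hEP : ∀ a c, E a c → P a c ∨ P c a) (hanti : ∀ a c, E a c → ¬ E c a) {h : τ → τ}
    (hh : ∀ u w, P u w → P u (h u)) {p : ℕ → τ} {i₀ m l K L M : ℕ} (H : Bare P p i₀ m) (hL : 3 ≤ L)
    (hM : K * L ≤ M) (hM1 : 1 ≤ M) {Ca : Set τ} : ∀ i ∈ SB E P p L M i₀ m, M < (AE32.desc P (p i)).card →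
      (∃ j, i < j ∧ j ≤ m ∧ j ∈ SB E P p L M i₀ m ∧ (AE32.desc P (p j)).card ≤ L * (ncY E P (p j)).card ∧
        (AE32.desc P (p i)).card ≤ L * ((AE32.desc P (p j)).card +
          ((AE32.desc P (p i) \ AE32.desc P (p j)).filter (fun x => x ∈ Ca)).card)) ∨
      ∃ j, i < j ∧ j ≤ m ∧ (AE32.desc P (p i)).card ≤ L * (AE32.desc P (p j)).card ∧
        ∃ t ∈ SB E P p L M i₀ m, t ≤ m ∧ LineB l K L M E P h p j t := by
  intro i hi hMi
  obtain ⟨h1, h2, h3⟩ := hi
  have hK1 : K ≤ M := by
    have : K * 1 ≤ K * L := Nat.mul_le_mul_left _ (by omega)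
    omega
  have him : i < m := by
    rcases eq_or_lt_of_le h2 with h4 | h4
    · subst h4
      rw [H.card hE h1 le_rfl] at hMi
      rcases h3 with h3 | h3
      · rw [H.card hE h1 le_rfl] at h3
        omega
      · exfalso
        have h5 : (ncY E P (p i)).card = 0 := by
          rw [card_eq_zero, ncY, filter_eq_empty_iff]
          intro x hx
          obtain ⟨s, g1, g2, rfl⟩ := (H.mem h1 le_rfl).1 hx
          obtain rfl : i = s := by omega
          exact fun h => h.1 ReflTransGen.refl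
        rw [h5, H.card hE h1 le_rfl] at h3
        omega
    · exact h4
  obtain ⟨b, hb⟩ := exists_run hP hanti H.arc him
  have hnc := card_nc_run hin hE hEP hanti H h1 hb
  have hci := H.card hE h1 h2
  rw [hci] at hMi
  have h4 : m + 1 - i ≤ L * (m - b) := by
    rcases h3 with h3 | h3
    · rw [hci] at h3
      omega
    · rwa [hci, hnc] at h3
  have hbm : b < m := by
    by_contra hc
    have : m - b = 0 := by omega
    rw [this] at h4
    omega
  have hib := hb.lt
  have hcb := H.card hE (show i₀ ≤ b by omega) hbm.le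
  have h5 : L * (m - b) ≤ L * (m + 1 - b) := Nat.mul_le_mul_left _ (by omega)
  have hKb : K ≤ m + 1 - b := by
    by_contra hc
    push Not at hc
    have h6 : L * (m + 1 - b) ≤ L * K := Nat.mul_le_mul_left _ hc.le
    have h7 : L * K = K * L := Nat.mul_comm _ _
    omega
  rcases opt_turn (l := l) hin hE hP hEP hanti hh H (by omega) hb hbm hL hK1 hM1 hKb with ⟨g1, g2⟩ | ⟨t, g1, g2, g3⟩
  · refine Or.inl ⟨b, hib, hbm.le, g1, g2, ?_⟩
    rw [hci]
    have h8 : L * (m + 1 - b) ≤ L * ((AE32.desc P (p b)).card +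
        ((AE32.desc P (p i) \ AE32.desc P (p b)).filter (fun x => x ∈ Ca)).card) :=
      Nat.mul_le_mul_left _ (by rw [hcb]; exact Nat.le_add_right _ _)
    omega
  · refine Or.inr ⟨b, hib, hbm.le, ?_, t, g1, g2, g3⟩
    rw [hci, hcb]
    omega

end

end AEN
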