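import Pool.Agent.AEN.FinalA

/-!
# Alternation of lines, balanced branches and many small pieces, with a free arc at the start: the statement

The tree `G` (underlying `E`) is rooted at `r`; `Br G r v`: the branch at `v`; `Ic E G r w`: the vertices from which a
directed path towards the root leads to `w`; `Nc E G r v`: the vertices of the branch at `v` which are not joined to `v`
by directed paths; `h u`: the main child of `u`.
-/

set_option autoImplicit false

namespace AESF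

open Relation AEY AEN

variable {τ : Type*}

/-- **A line below an arc away from the root.** The path `p a, …, p t` follows the main children; the arc between `p a` and
its parent is directed to `p a`; the branch at `p t` is small, or the path leaves by an arc directed away from the root into
a branch which has bounded size or many vertices not joined to its root; long runs towards `r` inside the branch at `p a`
start in the branch at `p t` or behind a light arc; all arcs of the branch at `p a` up to distance `3` from `p a` are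
directed away from `r`, and few vertices are joined by directed paths towards `r` to the vertices at distance `3`. -/
def FreeG (l K L M : ℕ) (E : τ → τ → Prop) (G : SimpleGraph τ) (r : τ) (h : τ → τ) (p : ℕ → τ) (a t : ℕ) : Prop :=
  0 < a ∧ a ≤ t ∧ E (p (a - 1)) (p a) ∧ (∀ i, a ≤ i → i < t → p (i + 1) = h (p i)) ∧
  ((Br G r (p t)).ncard ≤ L ∨ (a < t ∧ E (p (t - 1)) (p t) ∧
      K * (Ic E G r (p t)).ncard ≤ (Br G r (p (t - 1))).ncard ∧
      ((Br G r (p t)).ncard ≤ M ∨ (Br G r (p t)).ncard ≤ L * (Nc E G r (p t)).ncard))) ∧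
  (∀ q : ℕ → τ, (∀ i ≤ l, E (q i) (q (i + 1)) ∧ G.dist r (q i) = G.dist r (q (i + 1)) + 1) →
    q (l + 1) ∈ Br G r (p a) →
      q 0 ∈ Br G r (p t) ∨ ∃ u w, u ∈ Br G r (p a) ∧ E u w ∧
        G.dist r w = G.dist r u + 1 ∧ w ≠ h u ∧ K * (Ic E G r w).ncard ≤ (Br G r u).ncard ∧ q 0 ∈ Br G r w) ∧
  (∀ x y, E x y → G.dist r x = G.dist r y + 1 → y ∈ Br G r (p a) → G.dist r (p a) + 3 ≤ G.dist r y) ∧
  ∀ y ∈ Br G r (p a), G.dist r y = G.dist r (p a) + 3 → K * (Ic E G r y).ncard ≤ (Br G r (p a)).ncard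

/-- with respect to the arcs, or to the reversed arcs -/
def FreeD (l K L M : ℕ) (E : τ → τ → Prop) (G : SimpleGraph τ) (r : τ) (h : τ → τ) (p : ℕ → τ) (a t : ℕ) : Prop :=
  FreeG l K L M E G r h p a t ∨ FreeG l K L M (fun a b => E b a) G r h p a t

/-- the condition on the indices in `S` -/
def TailG (l K L M : ℕ) (E : τ → τ → Prop) (G : SimpleGraph τ) (r : τ) (h : τ → τ) (p : ℕ → τ) (m : ℕ) (S : Set ℕ) : Prop :=
  ∀ i ∈ S, M < (Br G r (p i)).ncard →
      (Br G r (p i)).ncard ≤ L * (Br G r (p i) ∩ Calm E G l K).ncard ∨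
      (∃ j, i < j ∧ j ≤ m ∧ j ∈ S ∧ (Br G r (p j)).ncard ≤ L * (Nc E G r (p j)).ncard ∧
        (Br G r (p i)).ncard ≤ L * ((Br G r (p j)).ncard + ((Br G r (p i) \ Br G r (p j)) ∩ Calm E G l K).ncard)) ∨
      ∃ j, i < j ∧ j ≤ m ∧ (Br G r (p i)).ncard ≤ L * (Br G r (p j)).ncard ∧ ∃ t ∈ S, LineD l K L M E G r h p j t

/-- **The class of trees**: as `AEN.AltG`, but the structure may also start with a line of comparable size below an arc
away from the root. -/
def AltF (l K L M : ℕ) (E : τ → τ → Prop) (G : SimpleGraph τ) (r : τ) (h : τ → τ) : Prop :=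
  ∃ (p : ℕ → τ) (m : ℕ) (S : Set ℕ), p 0 = r ∧
    (∀ i < m, G.Adj (p i) (p (i + 1)) ∧ G.dist r (p (i + 1)) = G.dist r (p i) + 1) ∧ (∀ i ∈ S, i ≤ m) ∧
    (0 ∈ S ∨ (∃ t ∈ S, LineD l K L M E G r h p 0 t) ∨
      ∃ a, ∃ t ∈ S, (Br G r r).ncard ≤ L * (Br G r (p a)).ncard ∧ FreeD l K L M E G r h p a t) ∧
    TailG l K L M E G r h p m S

/-- the final statement -/
def FreeStF : Prop := ∀ Δ l L : ℕ, ∃ K : ℕ, ∀ M : ℕ, ∃ C : ℕ, ∀ k n : ℕ, k + C ≤ n → ∀ R : Fin n → Fin n → Prop,
    (∀ a, ¬ R a a) → (∀ a b, a ≠ b → R a b ∨ R b a) → (∀ a b, R a b → ¬ R b a) →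
    ∀ E : Fin (k + 1) → Fin (k + 1) → Prop,
      (∀ a b, E a b → ¬ E b a) →
      (SimpleGraph.fromRel E).IsTree →
      (∀ v, ((SimpleGraph.fromRel E).neighborSet v).ncard ≤ Δ) →
      ∀ (r : Fin (k + 1)) (h : Fin (k + 1) → Fin (k + 1)), AET.MainChild (SimpleGraph.fromRel E) r h →
      AltF l K L M E (SimpleGraph.fromRel E) r h →
      ∃ f : Fin (k + 1) → Fin n, Function.Injective f ∧ ∀ a b, E a b → R (f a) (f b)

theorem LineG.monoL {l K K' L L' M : ℕ} (hK : K' ≤ K) (hL : L ≤ L') {E : τ → τ → Prop} {G : SimpleGraph τ} {r : τ}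
    {h : τ → τ} {p : ℕ → τ} {a t : ℕ} (H : LineG l K L M E G r h p a t) : LineG l K' L' M E G r h p a t := by
  obtain ⟨h1, h2, h3, h4, h5⟩ := H
  refine ⟨h1, h2, h3, ?_, ?_⟩
  · rcases h4 with h4 | ⟨h4, h6, h7, h8⟩
    · exact Or.inl (h4.trans hL)
    · exact Or.inr ⟨h4, h6, le_trans (Nat.mul_le_mul_right _ hK) h7, h8.imp_right fun h8 =>
        h8.trans (Nat.mul_le_mul_right _ hL)⟩
  · intro q hq hr
    rcases h5 q hq hr with h6 | ⟨u, w, g1, g0, g2, g3, g4, g5, g6⟩
    · exact Or.inl h6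
    · exact Or.inr ⟨u, w, g1, g0, g2, g3, g4, le_trans (Nat.mul_le_mul_right _ hK) g5, g6⟩

theorem LineD.monoL {l K K' L L' M : ℕ} (hK : K' ≤ K) (hL : L ≤ L') {E : τ → τ → Prop} {G : SimpleGraph τ} {r : τ}
    {h : τ → τ} {p : ℕ → τ} {a t : ℕ} (H : LineD l K L M E G r h p a t) : LineD l K' L' M E G r h p a t :=
  H.imp (fun H => LineG.monoL hK hL H) fun H => LineG.monoL hK hL H

theorem TailG.mono [Finite τ] {l K K' L L' M : ℕ} (hK : K' ≤ K) (hL : L ≤ L') {E : τ → τ → Prop} {G : SimpleGraph τ} {r : τ}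
    {h : τ → τ} {p : ℕ → τ} {m : ℕ} {S : Set ℕ} (H : TailG l K L M E G r h p m S) : TailG l K' L' M E G r h p m S := by
  have hc : ∀ A : Set τ, (A ∩ Calm E G l K).ncard ≤ (A ∩ Calm E G l K').ncard := fun A =>
    Set.ncard_le_ncard (Set.inter_subset_inter_right A (calm_mono hK)) (Set.toFinite _)
  intro i hi hM
  rcases H i hi hM with g | ⟨j, g1, g2, g3, g4, g5⟩ | ⟨j, g1, g2, g3, t, ht, g4⟩
  · exact Or.inl (g.trans (Nat.mul_le_mul hL (hc _)))
  · exact Or.inr (Or.inl ⟨j, g1, g2, g3, g4.trans (Nat.mul_le_mul_right _ hL),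
      g5.trans (Nat.mul_le_mul hL (Nat.add_le_add_left (hc _) _))⟩)
  · exact Or.inr (Or.inr ⟨j, g1, g2, g3.trans (Nat.mul_le_mul_right _ hL), t, ht, LineD.monoL hK hL g4⟩)

end AESF
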