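import Pool.Agent.AESF.SupX
import Pool.Agent.AEN.AltMono

/-!
# Free ends: the prepared hosts for lines, for all exits of the class together
-/

set_option autoImplicit false

namespace AESF

open Finset AE15 AED AELT AEK AEB AEG AEF AET AEY AEN
open scoped Classical

/-- the exits -/
def WcU (b l K A' : ℕ) (θ ε₀ μ₀ : ℝ) (M : ℕ) (c : Fd) : Prop :=
  ∃ (ε μ : ℝ) (n : ℕ), ε ≤ ε₀ ∧ μ ≤ μ₀ ∧ (Wc θ ε μ M (Rgn b l K A' θ ε μ M n) c ∨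
    Wc θ ε μ M (Rgn b l K A' θ ε μ M n) (mrr c))

/-- the large items: lines with small exits -/
def HX (b l K A' : ℕ) (θ ε₀ μ₀ : ℝ) (M : ℕ) (D : Fd) : Prop :=
  FX b l K (fun c => WcU b l K A' θ ε₀ μ₀ M c ∧ (2 * b) ^ (2 * l + 6) * (c.size + 1) < D.size + 1) 0 D

/-- **prepared hosts for lines** whose exits have codes of the alternating class -/
theorem bxl_all (b l : ℕ) (hb : 1 ≤ b) : ∃ A₀ : ℕ, ∀ A' : ℕ, A₀ ≤ A' → ∀ θ : ℝ, 0 < θ → θ ≤ 1 / 2 → ∀ (N e m : ℕ), 1 ≤ N →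
    ∀ {τ d : ℝ}, 0 < τ → 0 < d → ∃ (γB ε₀ μ₀ : ℝ) (K₁ n₀ : ℕ), 0 < γB ∧ 0 < ε₀ ∧ 0 < μ₀ ∧ ∀ ε₁ μ₁ : ℝ, ε₁ ≤ ε₀ → μ₁ ≤ μ₀ →
      ∀ K : ℕ, K₁ ≤ K → ∀ M : ℕ, ∃ C₀ : ℕ, ∀ C : ℕ, C₀ ≤ C →
        BxL N e m τ d (LtX b γB) (HX b l K A' θ ε₁ μ₁ M) n₀ C := by
  obtain ⟨A₀, hA'⟩ := alt_coarse b l hb (rigSt b _ hb)
  refine ⟨A₀, ?_⟩
  intro A' hAA θ hθ hθ2 N e m hN τ d hτ hd
  obtain ⟨γB, ke, ee, be, K₁, n₀, hγB, u1, u2, u3, hbox⟩ := bxl_line b l hb hθ (by linarith) N e m hN hτ hd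
  obtain ⟨κ, ε₀, μ₀, K₂, -, -, hε₀, hμ₀, hco⟩ := hA' θ hθ hθ2 (k := ke) (e := ee) (bt := be) (cap := 1) u1 u2 u3 one_pos
  refine ⟨γB, ε₀, μ₀, max K₁ K₂, n₀, hγB, hε₀, hμ₀, ?_⟩
  intro ε₁ μ₁ hε₁ hμ₁ K hK M
  obtain ⟨C₁, hbox⟩ := hbox K ((le_max_left _ _).trans hK)
  obtain ⟨C₂, hco⟩ := hco K ((le_max_right _ _).trans hK) M
  refine ⟨C₁ + ⌈C₂⌉₊ + 2 * M, ?_⟩
  intro C hC
  have c2 : C₂ ≤ C := (Nat.le_ceil C₂).trans (by exact_mod_cast (by omega : ⌈C₂⌉₊ ≤ C))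
  have c3 : 2 * (M : ℝ) ≤ C := by exact_mod_cast (by omega : 2 * M ≤ C)
  intro V R
  refine hbox C (by omega) (W := WcU b l K A' θ ε₁ μ₁ M) ?_ ?_
  · rintro c ⟨ε, μ, n, -, -, hc | hc⟩
    · exact hc.win hθ2 c3
    · have h1 := hc.win hθ2 c3
      rw [AEJ.dcl_mrr, AEJ.blk_mrr, mrr_size] at h1
      linarith
  · rintro c hl hD ⟨ε, μ, n, hε, hμ, hc | hc⟩ V R
    · exact (hco C c2 (hε.trans hε₁) (hμ.trans hμ₁) n).2 c hl hD (wc_monoA hAA n hc).2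
    · exact (@AEJ.coarse_mrr ke ee be C c).1
        ((hco C c2 (hε.trans hε₁) (hμ.trans hμ₁) n).2 (mrr c) (by rw [mrr_len]; exact hl) (mrr_deg hD)
          (wc_monoA hAA n hc).2)

end AESF
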