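import Pool.Agent.AESF.BoxX
import Pool.Agent.AEN.MainB

/-!
# Free ends: the prepared hosts for lines with exits, unconditional
-/

set_option autoImplicit false

namespace AESF

open Finset AE15 AED AELT AEK AEB AEG AEF AET AEY AEN
open scoped Classical

/-- **prepared hosts for lines**: the exits have a window and are coarse -/
theorem bxl_line (b l : ℕ) (hb : 1 ≤ b) {θ : ℝ} (hθ : 0 < θ) (hθ1 : θ ≤ 1) (N e m : ℕ) (hN : 1 ≤ N) {τ d : ℝ}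
    (hτ : 0 < τ) (hd : 0 < d) : ∃ (γB ke ee be : ℝ) (K₁ n₀ : ℕ), 0 < γB ∧ 0 < ke ∧ 0 < ee ∧ 0 < be ∧ ∀ K : ℕ, K₁ ≤ K →
      ∃ C₀ : ℕ, ∀ C : ℕ, C₀ ≤ C → ∀ {W : Fd → Prop},
        (∀ c : Fd, W c → (dcl c : ℝ) + blk c ≤ (1 - θ) * (c.size + 1 + C)) →
          (∀ c : Fd, c.len ≤ b → c.Deg b → W c → AEJ.Coarse ke ee be C c) →
            BxL N e m τ d (LtX b γB) (fun D => FX b l K (fun c => W c ∧ (2 * b) ^ (2 * l + 6) * (c.size + 1) < D.size + 1)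
              0 D) n₀ C := by
  obtain ⟨g, hg⟩ := box_ee b N e m hb hN hτ hd
  obtain ⟨p₀, hp₀, hpb₀, hpl₀, hab₀, hB₀⟩ := exists_npL b l hb
  obtain ⟨p, hp, q1, q2, q3, q4, q5, q6, q7, q8, q9⟩ := exists_np2L p₀ hp₀ (g p₀.c0)
  have hpb : p.b = b := q1.trans hpb₀
  have hpl : p.l = l := q2.trans hpl₀
  have hab : ab p.b p.l ≤ p.a := by rw [hpb, hpl, q3]; exact hab₀
  have hB2 : (2 * p.b) ^ p.A0 ≤ p.B := by rw [q1, q8, q9]; exact hB₀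
  have hpg : g p.c0 ≤ p.u0 := by rw [q5]; exact q7
  have hpA : p.A = (2 * p.b) ^ (2 * p.l + 6) := rfl
  subst hpb hpl
  have hc1 : 1 ≤ ⌈1 / θ⌉₊ := Nat.one_le_ceil_iff.2 (by positivity)
  obtain ⟨D₀, hD₀⟩ : ∃ D₀ : ℕ, D₀ = p.A * ⌈1 / θ⌉₊ := ⟨_, rfl⟩
  have hDA : p.A ≤ D₀ := by rw [hD₀]; exact Nat.le_mul_of_pos_right _ hc1
  have hD64 : 64 ≤ D₀ := hp.D₀.trans hDA
  obtain ⟨ω, c, η, η₁, κ₀, κ₁, κ, γ₀, τ', s, σ₂, μ, P⟩ := exists_KB hD64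
  obtain ⟨hω0, hω1, hc0, hc1', hη0, hη1, hη₁0, hη₁1, hκ₀0, hκ₁0, hκ₁1, hκ0, hκ1, hs0, hγ₀0, hτ0, hσ₂0, -, hκ₁η, hκs⟩ :=
    P.num
  have hcη : c * η ≤ 1 * η := mul_le_mul_of_nonneg_right (by linarith) hη0.le
  obtain ⟨γ, ε₀, μ₀, m₁, hγ, hε₀, hμ₀, hL⟩ := itX_one p.b hb (κ := κ) (η := η) hκ0 (by linarith) hη0 (by linarith)
  have hηθ : 16 * η * p.A ≤ θ := by
    have hD0 : (0 : ℝ) < D₀ := by exact_mod_cast (by omega : 0 < D₀)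
    have h1 : (p.A : ℝ) ≤ θ * D₀ := by
      have h2 : 1 / θ ≤ ⌈1 / θ⌉₊ := Nat.le_ceil _
      rw [div_le_iff₀ hθ] at h2
      rw [hD₀]
      push_cast
      have h3 : (p.A : ℝ) * 1 ≤ p.A * (⌈1 / θ⌉₊ * θ) := mul_le_mul_of_nonneg_left h2 (Nat.cast_nonneg _)
      linarith
    have h2 : η = 1 / (112 * D₀) := by
      rw [P.hη, P.hω]
      field_simp
      norm_num
    rw [h2]
    have h3 : 16 * (1 / (112 * (D₀ : ℝ))) * p.A = p.A / (7 * D₀) := by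
      field_simp
      ring
    rw [h3, div_le_iff₀ (by positivity)]
    have h4 : 0 ≤ θ * D₀ := by positivity
    linarith
  obtain ⟨ke, ee, be, K₁, h1, h2, h3, hu⟩ := ee_allY' p hp hab hB2 hDA P hγ hε₀ hμ₀ hL hθ hθ1 hηθ
  obtain ⟨D₁, hD₁⟩ := hg p hp hpg
  obtain ⟨D', hD'⟩ : ∃ D' : ℕ, D' = max D₀ D₁ := ⟨_, rfl⟩
  have hD'0 : D₀ ≤ D' := by rw [hD']; exact le_max_left _ _
  have hD'1 : D₁ ≤ D' := by rw [hD']; exact le_max_right _ _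
  obtain ⟨ω', c', η', η₁', κ₀', κ₁', κ', γ₀', τ'', s', σ₂', μ', P'⟩ := exists_KB (hD64.trans hD'0)
  obtain ⟨γB, n₀, hγB, hbox⟩ := hD₁ D' hD'1 P'
  obtain ⟨K₂, hpoor⟩ := ee_poor p hp hab hB2 hDA P hD'0 P'
  refine ⟨γB, ke, ee, be, max K₁ K₂, n₀, hγB, h1, h2, h3, ?_⟩
  intro K hK
  obtain ⟨n₁, hu⟩ := hu K ((le_max_left _ _).trans hK)
  obtain ⟨n₂, hpoor⟩ := hpoor K ((le_max_right _ _).trans hK)
  refine ⟨n₁ + n₂, ?_⟩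
  intro C hC W hwin hco V R hT Y hY
  have hn1 : (n₁ : ℝ) ≤ C := by exact_mod_cast (by omega : n₁ ≤ C)
  have hn2 : (n₂ : ℝ) ≤ C := by exact_mod_cast (by omega : n₂ ≤ C)
  obtain ⟨x, hx1, hx2, hx3⟩ := hbox C hT Y hY
  refine ⟨x, hx1, hx2, ?_⟩
  intro E hE hEc hxE
  obtain ⟨Q, hQ1, hQ2, hQ3⟩ := hx3 E hE hEc hxE
  refine ⟨Q, hQ1, hQ2, ?_⟩
  intro P'' hP1 hP2 hP3 L hL1 hL2 ⟨q, hq1, hq2, hq3⟩ hP4
  refine hQ3 P'' hP1 hP2 hP3 L hL1 hL2 ⟨q, hq1, ?_, hq3⟩ hP4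
  intro V' R' hT'
  rw [← hpA] at hq2
  exact hpoor hT' C hn2 q.2 hq2 fun F' hF' _ =>
    hu hT' C hn1 hwin F'.size (fun c _ hcl hcD hcW => hco c hcl hcD hcW) F' le_rfl hF'

/-- **prepared hosts for lines** whose exits have codes of the alternating class -/
theorem bxl_alt (b l : ℕ) (hb : 1 ≤ b) : ∃ A' : ℕ, ∀ θ : ℝ, 0 < θ → θ ≤ 1 / 2 → ∀ (N e m : ℕ), 1 ≤ N → ∀ {τ d : ℝ},
    0 < τ → 0 < d → ∃ (γB ε₀ μ₀ : ℝ) (K₁ n₀ : ℕ), 0 < γB ∧ 0 < ε₀ ∧ 0 < μ₀ ∧ ∀ K : ℕ, K₁ ≤ K → ∀ M : ℕ, ∃ C₀ : ℕ,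
      ∀ C : ℕ, C₀ ≤ C → ∀ {ε μ : ℝ}, ε ≤ ε₀ → μ ≤ μ₀ → ∀ n : ℕ,
        BxL N e m τ d (LtX b γB) (fun D => FX b l K (fun c => Wc θ ε μ M (Rgn b l K A' θ ε μ M n) c ∧
          (2 * b) ^ (2 * l + 6) * (c.size + 1) < D.size + 1) 0 D) n₀ C := by
  obtain ⟨A', hA'⟩ := alt_coarse b l hb (rigSt b _ hb)
  refine ⟨A', ?_⟩
  intro θ hθ hθ2 N e m hN τ d hτ hd
  obtain ⟨γB, ke, ee, be, K₁, n₀, hγB, u1, u2, u3, hbox⟩ := bxl_line b l hb hθ (by linarith) N e m hN hτ hd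
  obtain ⟨κ, ε₀, μ₀, K₂, -, -, hε₀, hμ₀, hco⟩ := hA' θ hθ hθ2 (k := ke) (e := ee) (bt := be) (cap := 1) u1 u2 u3 one_pos
  refine ⟨γB, ε₀, μ₀, max K₁ K₂, n₀, hγB, hε₀, hμ₀, ?_⟩
  intro K hK M
  obtain ⟨C₁, hbox⟩ := hbox K ((le_max_left _ _).trans hK)
  obtain ⟨C₂, hco⟩ := hco K ((le_max_right _ _).trans hK) M
  refine ⟨C₁ + ⌈C₂⌉₊ + 2 * M, ?_⟩
  intro C hC ε μ hε hμ n
  have c2 : C₂ ≤ C := (Nat.le_ceil C₂).trans (by exact_mod_cast (by omega : ⌈C₂⌉₊ ≤ C))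
  have c3 : 2 * (M : ℝ) ≤ C := by exact_mod_cast (by omega : 2 * M ≤ C)
  obtain ⟨-, hco2⟩ := hco C c2 hε hμ n
  intro V R
  exact hbox C (by omega) (W := Wc θ ε μ M (Rgn b l K A' θ ε μ M n)) (fun c hc => hc.win hθ2 c3) (fun c hl hD hc => by
    intro V R
    exact hco2 c hl hD hc.2)

end AESF
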