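import Pool.Agent.AESF.T1Core

/-!
# Free ends at the root: the part below a small set, the constants
-/

set_option autoImplicit false

namespace AESF

open Finset AE15 AED AELT AEB
open scoped Classical

/-- **The part of the tree below the small set `U`.** `GH`: good hosts. The tree `s` at a vertex `v` uses good hosts only;
then the garbage `G` with hosts in `U` and the pure branch `F` (exactly) fit in. -/
theorem t1_core (b J : ℕ) (hb : 1 ≤ b) {θ ω lam τ₀ k₀ : ℝ} (hθ : 0 < θ) (hθ1 : θ ≤ 1) (hω : 0 < ω) (hω1 : ω ≤ 1)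
    (hlam : 0 < lam) (hτ₀ : 0 < τ₀) (hk₀ : 0 < k₀) : ∃ n₀ C' : ℕ, ∀ {V : Type} {R : V → V → Prop}, AE32.Tour R →
      ∀ {X U K : Finset V} {𝓛 : Finset (Finset V)} {p : ℕ} {ζ k τ ν n : ℝ}, ThickD R X U K 𝓛 p ω ζ k lam τ ν →
      n = X.card → 𝓛.card ≤ J → n₀ ≤ X.card → k₀ ≤ k → k ≤ 1 → τ₀ ≤ τ → τ ≤ 1 / 8 → 2 * τ ≤ k → 0 ≤ ν → 32 * ν ≤ ω →
      8 * ν ≤ τ * lam → J * ν ≤ θ / 64 → (J + 1) * τ + ζ ≤ θ ^ 2 / 64 →
      ∀ GH : V → Prop, (((X \ U).filter (fun h => ¬ GH h)).card : ℝ) ≤ θ / 64 * n →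
        ((K.filter (fun h => ¬ GH h)).card : ℝ) ≤ k / 16 * n → ((K.filter (fun h => ¬ GH h)).card : ℝ) ≤ ω / 64 * n →
      ∀ F s : Fd, FOK b 0 0 F → s.len ≤ b → s.Deg b → θ * n ≤ (F.size + 1 : ℝ) →
        s.size + F.size + 2 + C' ≤ (X \ U).card → (blk s : ℝ) + 1 + ω / 8 * n ≤ K.card →
        ∃ v ∈ X \ U, ∃ S ⊆ X \ U, v ∉ S ∧ (∀ a ∈ insert v S, GH a) ∧ Emb R s v S ∧
          ∀ G : List (V × Fd), (∀ q ∈ G, q.1 ∈ U ∧ q.2.len ≤ b ∧ q.2.Deg b) →
            s.size + isz G + F.size + 2 + C' ≤ (X \ U).card →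
            ∃ A ⊆ X \ U, ∃ f ∈ X \ U, ∃ B ⊆ X \ U, EmbI R G A ∧ R v f ∧ f ∉ B ∧ Emb R F f B ∧
              Disjoint (insert v S) A ∧ Disjoint (insert v S) (insert f B) ∧ Disjoint A (insert f B) := by
  obtain ⟨N₁, hroute⟩ := route_one b J hω hτ₀ hlam
  obtain ⟨nr, hroute⟩ := hroute 0
  obtain ⟨N, hN⟩ : ∃ N : ℕ, N = N₁ + 1 := ⟨_, rfl⟩
  obtain ⟨e, he⟩ : ∃ e : ℕ, e = N + 1 := ⟨_, rfl⟩
  obtain ⟨d, hd⟩ : ∃ d : ℝ, d = min (k₀ / 32) (min (ω / 64) (θ / 64)) := ⟨_, rfl⟩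
  have hd0 : 0 < d := by rw [hd]; exact lt_min (by positivity) (lt_min (by positivity) (by positivity))
  have hdk : d ≤ k₀ / 32 := by rw [hd]; exact min_le_left _ _
  have hdω : d ≤ ω / 64 := by rw [hd]; exact (min_le_right _ _).trans (min_le_left _ _)
  have hdθ : d ≤ θ / 64 := by rw [hd]; exact (min_le_right _ _).trans (min_le_right _ _)
  obtain ⟨κ, hκ⟩ : ∃ κ : ℝ, κ = min (k₀ ^ 2 / 16) (ω / 32) := ⟨_, rfl⟩
  have hκ0 : 0 < κ := by rw [hκ]; exact lt_min (by positivity) (by positivity)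
  have hκk : κ ≤ k₀ ^ 2 / 16 := by rw [hκ]; exact min_le_left _ _
  have hκω : κ ≤ ω / 32 := by rw [hκ]; exact min_le_right _ _
  obtain ⟨ε, hε⟩ : ∃ ε : ℝ, ε = min (θ / 8) (min (ω / 32) (k₀ / 8)) := ⟨_, rfl⟩
  have hε0 : 0 < ε := by rw [hε]; exact lt_min (by positivity) (lt_min (by positivity) (by positivity))
  have hεθ : ε ≤ θ / 8 := by rw [hε]; exact min_le_left _ _
  have hεω : ε ≤ ω / 32 := by rw [hε]; exact (min_le_right _ _).trans (min_le_left _ _)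
  have hεk : ε ≤ k₀ / 8 := by rw [hε]; exact (min_le_right _ _).trans (min_le_right _ _)
  obtain ⟨nb, C₁, hbr⟩ := t1_branch b N e hb (by omega) hθ hd0 hdθ
  obtain ⟨nl, hrest⟩ := t1_rest b hb hκ0 hε0
  obtain ⟨n₁, hn₁⟩ := exists_nat_ge (((nb : ℝ) + 2 * nl) / θ + e / d + 64 / ω)
  refine ⟨nr + n₁, C₁ + e, ?_⟩
  clear hd hκ hε
  intro V R hT X U K 𝓛 p ζ k τ ν n hD hn hJ hnX hkk hk1 hττ hτ8 hτk hν0 hνω hντ hJν hJτ GH hGY hGK hGK' F s hF hl hDs hθF
    hsz hblk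
  have hk0 : 0 < k := lt_of_lt_of_le hk₀ hkk
  have hτ0 : 0 < τ := lt_of_lt_of_le hτ₀ hττ
  have hn1 : (n₁ : ℝ) ≤ n := by
    rw [hn]
    exact_mod_cast (Nat.le_add_left _ _).trans hnX
  have hbig : (nb : ℝ) + 2 * nl ≤ θ * n ∧ (e : ℝ) ≤ d * n ∧ 64 ≤ ω * n := by
    have q1 : 0 ≤ ((nb : ℝ) + 2 * nl) / θ := by positivity
    have q2 : 0 ≤ (e : ℝ) / d := by positivity
    have q3 : 0 ≤ 64 / ω := by positivity
    refine ⟨?_, ?_, ?_⟩
    · have : ((nb : ℝ) + 2 * nl) / θ ≤ n := by linarith only [q2, q3, hn₁, hn1]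
      rw [div_le_iff₀ hθ] at this
      linarith only [this]
    · have : (e : ℝ) / d ≤ n := by linarith only [q1, q3, hn₁, hn1]
      rw [div_le_iff₀ hd0] at this
      linarith only [this]
    · have : 64 / ω ≤ n := by linarith only [q1, q2, hn₁, hn1]
      rw [div_le_iff₀ hω] at this
      linarith only [this]
  obtain ⟨hnθ, hnd, hnω⟩ := hbig
  have hn0 : 0 < n := by
    have h1 : (0 : ℝ) < ω * n := lt_of_lt_of_le (by norm_num) hnω
    exact (mul_pos_iff_of_pos_left hω).1 h1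
  obtain ⟨Y, hY⟩ : ∃ Y, Y = X \ U := ⟨_, rfl⟩
  rw [← hY] at hGY hsz ⊢
  have hYX : Y ⊆ X := by rw [hY]; exact sdiff_subset
  have hYn : (Y.card : ℝ) ≤ n := by rw [hn]; exact_mod_cast card_le_card hYX
  have hszR : (s.size : ℝ) + F.size + 2 ≤ Y.card := by
    have : s.size + F.size + 2 ≤ Y.card := by omega
    exact_mod_cast this
  have hs0 : (0 : ℝ) ≤ s.size := Nat.cast_nonneg _
  have hnb0 : (0 : ℝ) ≤ nb := Nat.cast_nonneg _
  have hnl0 : (0 : ℝ) ≤ nl := Nat.cast_nonneg _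
  have hθY : θ * n ≤ Y.card := by linarith only [hszR, hs0, hθF]
  have hK16 : ω / 4 * n ≤ (K.card : ℝ) := by rw [hn]; exact hD.exK
  have hK2 : 2 ≤ K.card := by
    have : (2 : ℝ) ≤ K.card := by linarith only [hK16, hnω]
    exact_mod_cast this
  have hKY : K ⊆ Y := by
    intro u hu
    rw [hY, mem_sdiff]
    exact ⟨hD.subK hu, fun h => hD.disK hτ0 hτk hK2 h hu⟩
  obtain ⟨x, hxY, hxi, hfin⟩ := hbr hT hYn (by
    have : (nb : ℝ) ≤ Y.card := by linarith only [hnθ, hθY, hnl0]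
    exact_mod_cast this)
  obtain ⟨Qx, hQx⟩ : ∃ Qx, Qx = (range N).image x := ⟨_, rfl⟩
  rw [← hQx] at hfin
  have hQxY : Qx ⊆ Y := by
    rw [hQx]
    intro a ha
    obtain ⟨i, hi, rfl⟩ := mem_image.1 ha
    exact hxY i (mem_range.1 hi)
  have hQxc : Qx.card = N := by
    rw [hQx, card_image_of_injOn, card_range]
    intro a ha a' ha' h
    rw [mem_coe, mem_range] at ha ha'
    exact hxi a ha a' ha' h
  obtain ⟨f, hfX, hfU, -, hfb, hfK⟩ := hroute hT hD hJ hττ hτ8 hτk (by linarith only [hνω, hν0]) hντ (by omega) (Fb := ∅)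
    (Q := Qx) (by simp) (by rw [← hY]; exact hQxY) (by omega)
  have hfY : f ∈ Y := by rw [hY, mem_sdiff]; exact ⟨hfX, hfU⟩
  obtain ⟨Qr, hQr, hQrc, hfin⟩ := hfin f hfY hfb (by
    have := card_insert_le f Qx
    omega) hnd
  obtain ⟨E, hE⟩ : ∃ E, E = insert f Qx := ⟨_, rfl⟩
  rw [← hE] at hfin hQr
  have hEc : (E.card : ℝ) ≤ e := by
    have h1 := card_insert_le f Qx
    rw [hE]
    exact_mod_cast (by omega : (insert f Qx).card ≤ e)
  obtain ⟨W, hW⟩ : ∃ W, W = (Y \ (E ∪ Qr)).filter GH := ⟨_, rfl⟩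
  have hmW : ∀ a, a ∈ W ↔ a ∈ Y ∧ a ∉ E ∧ a ∉ Qr ∧ GH a := by
    intro a
    rw [hW, mem_filter, mem_sdiff, mem_union, not_or]
    tauto
  have hWY : W ⊆ Y := fun a ha => ((hmW a).1 ha).1
  have hWn : (W.card : ℝ) ≤ n := by
    have : (W.card : ℝ) ≤ Y.card := by exact_mod_cast card_le_card hWY
    exact this.trans hYn
  have hmiss : ∀ T ⊆ Y, ((T \ W).card : ℝ) ≤ 2 * (d * n) + (T.filter (fun h => ¬ GH h)).card := by
    intro T hTY
    have h1 : T \ W ⊆ (E ∪ Qr) ∪ T.filter (fun h => ¬ GH h) := by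
      intro a ha
      rw [mem_sdiff, hmW] at ha
      rw [mem_union, mem_union, mem_filter]
      by_contra hc
      rw [not_or, not_or] at hc
      exact ha.2 ⟨hTY ha.1, hc.1.1, hc.1.2, by_contra fun h => hc.2 ⟨ha.1, h⟩⟩
    have h2 : ((T \ W).card : ℝ) ≤ (E.card + Qr.card : ℝ) + (T.filter (fun h => ¬ GH h)).card := by
      exact_mod_cast (card_le_card h1).trans ((card_union_le _ _).trans (Nat.add_le_add_right (card_union_le _ _) _))
    linarith only [h2, hEc, hQrc, hnd]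
  have hKW := hmiss K hKY
  have hYW := hmiss Y (Subset.refl _)
  have hdn : d * n ≤ k / 32 * n := mul_le_mul_of_nonneg_right (by linarith only [hdk, hkk]) hn0.le
  have hdn2 : d * n ≤ ω / 64 * n := mul_le_mul_of_nonneg_right hdω hn0.le
  have hdn3 : d * n ≤ θ / 64 * n := mul_le_mul_of_nonneg_right hdθ hn0.le
  have hKW1 : ((K \ W).card : ℝ) ≤ k / 8 * n := by linarith only [hKW, hGK, hdn]
  have hKW2 : ((K \ W).card : ℝ) ≤ 3 * (ω / 64 * n) := by linarith only [hKW, hGK', hdn2]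
  have hYW1 : ((Y \ W).card : ℝ) ≤ 3 * (θ / 64 * n) := by linarith only [hYW, hGY, hdn3]
  have hWc : (Y.card : ℝ) ≤ W.card + 3 * (θ / 64 * n) := by
    have h1 : (Y.card : ℝ) = (Y \ W).card + W.card := by exact_mod_cast (card_sdiff_add_card_eq_card hWY).symm
    linarith only [h1, hYW1]
  have hKWc : (K.card : ℝ) ≤ ((K ∩ W).card : ℝ) + (K \ W).card := by
    have h1 : K ⊆ (K ∩ W) ∪ (K \ W) := by
      intro a ha
      rw [mem_union, mem_inter, mem_sdiff]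
      tauto
    exact_mod_cast (card_le_card h1).trans (card_union_le _ _)
  have hεW : ε * W.card ≤ ε * n := mul_le_mul_of_nonneg_left hWn hε0.le
  have hεn : ε * n ≤ θ / 8 * n := mul_le_mul_of_nonneg_right hεθ hn0.le
  have hεn2 : ε * n ≤ ω / 32 * n := mul_le_mul_of_nonneg_right hεω hn0.le
  have hεn3 : ε * n ≤ k / 8 * n := mul_le_mul_of_nonneg_right (by linarith only [hεk, hkk]) hn0.le
  have hθ2 : θ ^ 2 ≤ θ := by nlinarith only [hθ, hθ1]
  have hθn : θ ^ 2 / 64 * n ≤ θ / 64 * n := mul_le_mul_of_nonneg_right (by linarith only [hθ2]) hn0.le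
  have hJ1τ : 0 ≤ ((J : ℝ) + 1) * τ := by positivity
  have hζn : ζ * n ≤ θ / 64 * n := by
    have : ζ * n ≤ θ ^ 2 / 64 * n := mul_le_mul_of_nonneg_right (by linarith only [hJτ, hJ1τ]) hn0.le
    exact this.trans hθn
  have hJνn : J * (ν * n) ≤ θ / 64 * n := by
    have h1 : J * ν * n ≤ θ / 64 * n := mul_le_mul_of_nonneg_right hJν hn0.le
    rwa [mul_assoc] at h1
  have hk2 : k₀ ^ 2 ≤ k ^ 2 := by nlinarith only [hk₀, hkk]
  have hωn0 : 0 ≤ ω * n := by positivity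
  have hθn0 : 0 ≤ θ * n := by positivity
  -- the rest of the tree
  obtain ⟨v, hvW, S, hSW, hvS, ⟨hvK, hvf⟩, hEs⟩ := hrest hT hD hn hJ (by rw [← hY]; exact hWY) hk0 hk1 hω hω1 hν0 hνω
    (by linarith only [hκk, hk2]) (by linarith only [hκω]) hnω hKW1 (by linarith only [hKW2, hωn0]) (by rw [hn]; exact hfK) (by
      have : (nl : ℝ) ≤ W.card := by linarith only [hWc, hθY, hnθ, hnb0, hθn0]
      exact_mod_cast this) s hl hDs (by
      have h1 : (s.size + 1 : ℝ) ≤ W.card - ε * W.card := by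
        linarith only [hWc, hszR, hθF, hεW, hεn, hθn0]
      have h2 : (1 - ε) * (W.card : ℝ) = W.card - ε * W.card := by ring
      rw [h2]
      exact h1) (hεW.trans hεn3) (by linarith only [hWc, hszR, hθF, hεW, hεn, hθn0, hζn, hJνn])
      (by linarith only [hKWc, hKW2, hblk, hεW, hεn2, hωn0])
  have hIS : ∀ a ∈ insert v S, a ∈ W := by
    intro a ha
    rcases mem_insert.1 ha with rfl | ha
    · exact hvW
    · exact hSW ha
  have hSc : (insert v S).card = s.size + 1 := by rw [card_insert_of_notMem hvS, hEs.card]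
  refine ⟨v, hWY hvW, S, hSW.trans hWY, hvS, fun a ha => ((hmW a).1 (hIS a ha)).2.2.2, hEs, ?_⟩
  intro G hG hszG
  obtain ⟨A, hA, B, hB, r1, r2, r3, r4, r5, r6⟩ := hfin F s v S hF hθF (fun a ha => hWY (hIS a ha)) (by
    rw [disjoint_left]
    intro a ha h
    have h1 := (hmW a).1 (hIS a ha)
    rcases mem_union.1 h with h | h
    · exact h1.2.1 h
    · exact h1.2.2.1 h) hSc hvf G U hG (by
    intro u hu
    have h2 := hD.missY hT hτ0.le hJ hu
    rw [← hY, ← hn] at h2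
    exact h2.trans (mul_le_mul_of_nonneg_right hJτ hn0.le)) hszG
  exact ⟨A, hA, f, hfY, B, hB, r1, hvf, r2, r3, r4, r5, r6⟩

end AESF
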