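import Pool.Agent.AESF.Box
import Pool.Agent.AESF.WideK
import Pool.Agent.AESF.Route1
import Pool.Agent.AESF.Hosts
import Pool.Agent.AESF.Gar
import Pool.Agent.AESF.Tree
import Pool.Agent.AER.Glue

/-!
# Free ends at the root: the part below a small set
-/

set_option autoImplicit false

namespace AESF

open Finset AE15 AED AELT AEB
open scoped Classical

variable {V : Type} {R : V → V → Prop}

/-- the roots of the trees of a pure forest on a list of out-neighbours, everything else pending -/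
theorem roots1 {b : ℕ} {z : V} (ts : List (Bool × Fd)) : ∀ xs : List V,
    (∀ p ∈ ts, p.1 = true ∧ FOK b 0 0 p.2) → ts.length ≤ xs.length → xs.Nodup → (∀ x ∈ xs, R z x) →
    ∃ Z L, PEL R z ts Z L ∧ Z ⊆ xs.toFinset ∧ Z.card ≤ ts.length ∧ L.length ≤ ts.length * b ∧
      ∀ q ∈ L, q.1 ∈ Z ∧ FOK b 0 0 q.2 := by
  induction ts with
  | nil => intro xs _ _ _ _; exact ⟨∅, [], ⟨rfl, rfl⟩, by simp, by simp, by simp, by simp⟩
  | cons p ts ih =>
    intro xs hp hl hnd hx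
    obtain _ | ⟨x, xs⟩ := xs
    · simp at hl
    obtain ⟨Z, L, h1, h2, h3, h4, h5⟩ := ih xs (fun q hq => hp q (List.mem_cons_of_mem _ hq)) (by simpa using hl)
      (List.nodup_cons.1 hnd).2 (fun y hy => hx y (List.mem_cons_of_mem _ hy))
    obtain ⟨d, c⟩ := p
    obtain ⟨g1, g2⟩ := hp (d, c) List.mem_cons_self
    simp only at g1 g2
    subst g1
    have hxZ : x ∉ Z := fun h => (List.nodup_cons.1 hnd).1 (List.mem_toFinset.1 (h2 h))
    refine ⟨insert x ∅ ∪ Z, c.trees.map (fun p => (x, p.2)) ++ L, ⟨insert x ∅, Z, _, _, ?_, rfl, rfl,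
      Or.inr ⟨x, ∅, by simpa [Adj] using hx x List.mem_cons_self, by simp, rfl, AER.pure_pend g2 x⟩, h1⟩, ?_, ?_, ?_, ?_⟩
    · rw [disjoint_left]
      intro a ha
      rw [mem_insert] at ha
      rcases ha with rfl | ha
      · exact hxZ
      · simp at ha
    · intro a ha
      rw [mem_union, mem_insert] at ha
      rw [List.mem_toFinset]
      rcases ha with (rfl | ha) | ha
      · exact List.mem_cons_self
      · simp at ha
      · exact List.mem_cons_of_mem _ (List.mem_toFinset.1 (h2 ha))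
    · refine (card_union_le _ _).trans ?_
      simp only [insert_empty_eq, card_singleton, List.length_cons]
      omega
    · rw [List.length_append, List.length_map, AER.length_trees, List.length_cons, add_mul, one_mul]
      have := g2.1
      omega
    · intro q hq
      rcases List.mem_append.1 hq with hq | hq
      · obtain ⟨r, hr, rfl⟩ := List.mem_map.1 hq
        exact ⟨by simp, (AER.pure_child g2 hr).2⟩
      · exact ⟨mem_union_right _ (h5 q hq).1, (h5 q hq).2⟩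

/-- the children of `f` at given out-neighbours -/
theorem pe_roots {b : ℕ} {F : Fd} (hF : FOK b 0 0 F) {f : V} {Q : Finset V}
    (h : b ≤ (Q.filter (fun x => R f x)).card) : ∃ (Z : Finset V) (L : List (V × Fd)), PE R F f Z L ∧ Z ⊆ Q ∧
      (∀ a ∈ Z, R f a) ∧ Z.card ≤ b ∧ L.length ≤ b * b ∧ ∀ q ∈ L, q.1 ∈ Q ∧ FOK b 0 0 q.2 := by
  have hlen : F.trees.length ≤ b := by rw [AER.length_trees]; exact hF.1
  obtain ⟨Z, L, h1, h2, h3, h4, h5⟩ := roots1 (R := R) (b := b) (z := f) F.trees (Q.filter (fun x => R f x)).toList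
    (fun p hp => AER.pure_child hF hp) (by rw [length_toList]; exact hlen.trans h) (nodup_toList _)
    (fun x hx => (mem_filter.1 (mem_toList.1 hx)).2)
  rw [toList_toFinset] at h2
  refine ⟨Z, L, (pe_iff F f Z L).2 h1, h2.trans (filter_subset _ _), fun a ha => (mem_filter.1 (h2 ha)).2, h3.trans hlen,
    h4.trans (Nat.mul_le_mul_right _ hlen), fun q hq => ⟨(mem_filter.1 (h2 (h5 q hq).1)).1, (h5 q hq).2⟩⟩

/-- stage A: the rest of the tree in `W` -/
theorem t1_rest (b : ℕ) (hb : 1 ≤ b) {κ ε : ℝ} (hκ0 : 0 < κ) (hε0 : 0 < ε) : ∃ nl : ℕ, ∀ {V : Type} {R : V → V → Prop},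
    AE32.Tour R → ∀ {X U K W : Finset V} {𝓛 : Finset (Finset V)} {p J : ℕ} {ω ζ k lam τ ν n : ℝ} {f : V},
      ThickD R X U K 𝓛 p ω ζ k lam τ ν → n = X.card → 𝓛.card ≤ J → W ⊆ X \ U → 0 < k → k ≤ 1 → 0 < ω → ω ≤ 1 → 0 ≤ ν →
      32 * ν ≤ ω → 16 * κ ≤ k ^ 2 → 32 * κ ≤ ω → 64 ≤ ω * n → ((K \ W).card : ℝ) ≤ k / 8 * n →
      ((K \ W).card : ℝ) ≤ ω / 16 * n → k / 2 * n ≤ ((nI R K f).card : ℝ) → nl ≤ W.card → ∀ s : Fd, s.len ≤ b → s.Deg b →
      ((s.size : ℝ) + 1) ≤ (1 - ε) * W.card → ε * W.card ≤ k / 8 * n →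
      ((s.size : ℝ) + 1) + ε * W.card ≤ W.card - (J * (ν * n) + ζ * n) →
      ((blk s : ℝ) + 1) + ε * W.card ≤ (K ∩ W).card → In R s (fun z => z ∈ K ∧ R z f) W := by
  obtain ⟨nl, hlt⟩ := AEK.lt1 b hb (κ := κ) (ε := ε) hκ0 hε0
  refine ⟨nl, ?_⟩
  intro V R hT X U K W 𝓛 p J ω ζ k lam τ ν n f hD hn hJ hW hk0 hk1 hω hω1 hν0 hνω hκk hκω hnω hKW1 hKW2 hfK hnl s hl hDs
    h1 h2 h3 h4
  have hk : 0 ≤ k / 8 * n := le_trans (Nat.cast_nonneg _) hKW1
  obtain ⟨N', hN'⟩ : ∃ N' : V → Prop, N' = fun z => z ∈ K ∧ R z f := ⟨_, rfl⟩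
  rw [← hN']
  refine hlt hT W N' hnl s hl hDs h1 ?_
  have hcount : k / 8 * n ≤ (((nI R K f) ∩ W).card : ℝ) := by
    have g1 : nI R K f ⊆ (nI R K f ∩ W) ∪ (K \ W) := by
      intro a ha
      rw [mem_union, mem_inter, mem_sdiff]
      by_cases h : a ∈ W
      · exact Or.inl ⟨ha, h⟩
      · exact Or.inr ⟨(mem_nI.1 ha).1, h⟩
    have g2 : ((nI R K f).card : ℝ) ≤ ((nI R K f ∩ W).card : ℝ) + (K \ W).card := by
      exact_mod_cast (card_le_card g1).trans (card_union_le _ _)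
    linarith only [g2, hfK, hKW1, hk]
  refine (h2.trans hcount).trans ?_
  refine Nat.cast_le.2 (card_le_card ?_)
  intro z hz
  rw [mem_inter, mem_nI] at hz
  obtain ⟨⟨hzK, hzf⟩, hzW⟩ := hz
  obtain ⟨w1, w2⟩ := roots hT hn hD hJ hW hk0 hk1 hω hω1 hν0 hνω hκ0 hκk hκω hnω (by linarith only [hKW1, hk])
    (by linarith only [hKW2]) hzK hzW
  rw [mem_filter]
  refine ⟨hzW, by rw [hN']; exact ⟨hzK, hzf⟩, AEK.wide_mono ?_ w1, AEK.wide_mono h4 w2⟩
  have g1 : (AELT.dcl s : ℝ) ≤ s.size := by exact_mod_cast AEK.dcl_le_size s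
  linarith only [g1, h3]

/-- stage B: the garbage and the branch -/
theorem t1_branch (b N e : ℕ) (hb : 1 ≤ b) (hN : 1 ≤ N) {θ d : ℝ} (hθ : 0 < θ) (hd : 0 < d) (hdθ : d ≤ θ / 64) :
    ∃ nb C₁ : ℕ, ∀ {V : Type} {R : V → V → Prop}, AE32.Tour R → ∀ {Y : Finset V} {n : ℝ}, (Y.card : ℝ) ≤ n → nb ≤ Y.card →
      ∃ x : ℕ → V, (∀ i < N, x i ∈ Y) ∧ (∀ i < N, ∀ j < N, x i = x j → i = j) ∧ ∀ f ∈ Y,
        b ≤ (((range N).image x).filter (fun a => R f a)).card → (insert f ((range N).image x)).card ≤ e →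
        (e : ℝ) ≤ d * n → ∃ Qr ⊆ Y \ insert f ((range N).image x), (Qr.card : ℝ) ≤ d * n ∧
          ∀ (F s : Fd) (v : V) (S : Finset V), FOK b 0 0 F → θ * n ≤ (F.size + 1 : ℝ) → insert v S ⊆ Y →
            Disjoint (insert v S) (insert f ((range N).image x) ∪ Qr) → (insert v S).card = s.size + 1 → R v f →
            ∀ (G : List (V × Fd)) (U : Finset V), (∀ q ∈ G, q.1 ∈ U ∧ q.2.len ≤ b ∧ q.2.Deg b) →
              (∀ u ∈ U, ((Y.filter (fun h => ¬ R u h)).card : ℝ) ≤ θ ^ 2 / 64 * n) →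
              s.size + isz G + F.size + 2 + (C₁ + e) ≤ Y.card →
              ∃ A ⊆ Y, ∃ B ⊆ Y, EmbI R G A ∧ f ∉ B ∧ Emb R F f B ∧
                Disjoint (insert v S) A ∧ Disjoint (insert v S) (insert f B) ∧ Disjoint A (insert f B) := by
  obtain ⟨nb, C₁, hbox⟩ := box b N e (b * b) hb hN (τ := θ / (2 * (b * b + 1))) (d := d) (by positivity) hd
  obtain ⟨ng, hgarb⟩ := garb b hb (θ := θ / 4) (by positivity)
  obtain ⟨n₁, hn₁⟩ := exists_nat_ge (4 * (ng : ℝ) / θ + 4 * ((b : ℝ) + 1) / θ)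
  refine ⟨nb + n₁, C₁, ?_⟩
  intro V R hT Y n hYn hnb
  obtain ⟨x, hxY, hxi, hfin⟩ := hbox hT Y (by omega)
  refine ⟨x, hxY, hxi, ?_⟩
  obtain ⟨Qx, hQx⟩ : ∃ Qx, Qx = (range N).image x := ⟨_, rfl⟩
  rw [← hQx]
  intro f hfY hfb hEc hen
  have hn1 : (n₁ : ℝ) ≤ n := by
    refine le_trans ?_ hYn
    exact_mod_cast (Nat.le_add_left _ _).trans hnb
  have e3 : 4 * (ng : ℝ) ≤ θ * n ∧ 4 * ((b : ℝ) + 1) ≤ θ * n := by
    have q1 : 0 ≤ 4 * (ng : ℝ) / θ := by positivity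
    have q2 : 0 ≤ 4 * ((b : ℝ) + 1) / θ := by positivity
    have q3 : 4 * (ng : ℝ) / θ ≤ n := by linarith only [q2, hn₁, hn1]
    have q4 : 4 * ((b : ℝ) + 1) / θ ≤ n := by linarith only [q1, hn₁, hn1]
    rw [div_le_iff₀ hθ] at q3 q4
    constructor
    · linarith only [q3]
    · linarith only [q4]
  obtain ⟨e3, e4⟩ := e3
  have hn0 : 0 < n := by
    have h1 : (0 : ℝ) < θ * n := lt_of_lt_of_le (by positivity) e4
    exact (mul_pos_iff_of_pos_left hθ).1 h1
  obtain ⟨E, hE⟩ : ∃ E, E = insert f Qx := ⟨_, rfl⟩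
  rw [← hE] at hEc ⊢
  have hQxY : Qx ⊆ Y := by
    rw [hQx]
    intro a ha
    obtain ⟨i, hi, rfl⟩ := mem_image.1 ha
    exact hxY i (mem_range.1 hi)
  have hEY : E ⊆ Y := by rw [hE]; exact insert_subset hfY hQxY
  have hEcR : (E.card : ℝ) ≤ e := by exact_mod_cast hEc
  have hxE : ∀ i < N, x i ∈ E := by
    intro i hi
    rw [hE, hQx]
    exact mem_insert_of_mem (mem_image_of_mem x (mem_range.2 hi))
  obtain ⟨Qr, hQr, hQrc, hfin⟩ := hfin E hEY hEc hxE
  have hQrcn : (Qr.card : ℝ) ≤ d * n := hQrc.trans (mul_le_mul_of_nonneg_left hYn hd.le)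
  refine ⟨Qr, hQr, hQrcn, ?_⟩
  clear hbox
  intro F s v S hF hθF hvSY hvSd hSc hvf G U hG hmiss hszG
  have hszGR : (s.size : ℝ) + isz G + F.size + 2 + (C₁ + e) ≤ Y.card := by exact_mod_cast hszG
  have hC0 : (0 : ℝ) ≤ C₁ := Nat.cast_nonneg _
  have he0 : (0 : ℝ) ≤ e := Nat.cast_nonneg _
  have hdn3 : d * n ≤ θ / 64 * n := mul_le_mul_of_nonneg_right hdθ hn0.le
  have hvE : ∀ a ∈ insert v S, a ∉ E ∧ a ∉ Qr := by
    intro a ha
    have := disjoint_left.1 hvSd ha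
    rwa [mem_union, not_or] at this
  -- the garbage
  obtain ⟨W', hW'⟩ : ∃ W', W' = (Y \ (E ∪ Qr)) \ insert v S := ⟨_, rfl⟩
  have hW'Y : W' ⊆ Y := by rw [hW']; exact sdiff_subset.trans sdiff_subset
  have hW'n : (W'.card : ℝ) ≤ n := le_trans (by exact_mod_cast card_le_card hW'Y) hYn
  have hW'c : (Y.card : ℝ) ≤ W'.card + (2 * (d * n) + (s.size + 1)) := by
    have h1 : Y ⊆ W' ∪ ((E ∪ Qr) ∪ insert v S) := by
      intro a ha
      rw [mem_union, mem_union, hW', mem_sdiff, mem_sdiff]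
      tauto
    have h2 : Y.card ≤ W'.card + ((E.card + Qr.card) + (insert v S).card) :=
      (card_le_card h1).trans ((card_union_le _ _).trans (Nat.add_le_add_left
        ((card_union_le _ _).trans (Nat.add_le_add_right (card_union_le _ _) _)) _))
    rw [hSc] at h2
    have h3 : (Y.card : ℝ) ≤ W'.card + ((E.card + Qr.card) + (s.size + 1)) := by exact_mod_cast h2
    linarith only [h3, hEcR, hQrcn, hen]
  have hθn0 : 0 ≤ θ * n := by positivity
  obtain ⟨A, hAW, hEA⟩ := hgarb hT G W' (θ / 4 * n) (by linarith only [e3]) (mul_le_mul_of_nonneg_left hW'n (by positivity))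
    (by linarith only [hW'c, hszGR, hC0, he0, hdn3, hθF, hθn0]) (by
      intro q hq
      obtain ⟨g1, g2, g3⟩ := hG q hq
      refine ⟨g2, g3, ?_⟩
      have h1 : ((W'.filter (fun h => ¬ R q.1 h)).card : ℝ) ≤ ((Y.filter (fun h => ¬ R q.1 h)).card : ℝ) := by
        exact_mod_cast card_le_card (filter_subset_filter _ hW'Y)
      have h4 : θ / 4 / 4 * (θ / 4 * n) = θ ^ 2 / 64 * n := by ring
      rw [h4]
      exact h1.trans (hmiss _ g1))
  have hAc : A.card = isz G := hEA.card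
  -- the branch
  obtain ⟨Z, L, p1, p2, p3, p4, p5, p6⟩ := pe_roots (R := R) hF hfb
  obtain ⟨P, hP⟩ : ∃ P, P = ((Y \ E) \ insert v S) \ A := ⟨_, rfl⟩
  have hmP : ∀ a, a ∈ P ↔ a ∈ Y ∧ a ∉ E ∧ a ∉ insert v S ∧ a ∉ A := by
    intro a
    rw [hP, mem_sdiff, mem_sdiff, mem_sdiff]
    tauto
  have hPY : P ⊆ Y := fun a ha => ((hmP a).1 ha).1
  have hPE : Disjoint P E := by
    rw [disjoint_left]
    exact fun a ha => ((hmP a).1 ha).2.1
  have hmA : ∀ a ∈ A, a ∈ Y ∧ a ∉ E ∧ a ∉ Qr ∧ a ∉ insert v S := by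
    intro a ha
    have h1 := hAW ha
    rw [hW', mem_sdiff, mem_sdiff, mem_union, not_or] at h1
    exact ⟨h1.1.1, h1.1.2.1, h1.1.2.2, h1.2⟩
  have hQrP : Qr ⊆ P := by
    intro a ha
    have h1 := mem_sdiff.1 (hQr ha)
    rw [hmP]
    exact ⟨h1.1, h1.2, fun h => (hvE a h).2 ha, fun h => (hmA a h).2.2.1 ha⟩
  have hsL := p1.size
  have hheavy : ∃ q ∈ L, θ / (2 * (b * b + 1)) * (Y.card : ℝ) ≤ (q.2.size + 1 : ℝ) := by
    have g1 : θ / 2 * n ≤ (isz L : ℝ) := by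
      have g2 : (F.size : ℝ) = Z.card + isz L := by exact_mod_cast hsL
      have g3 : (Z.card : ℝ) ≤ b := by exact_mod_cast p4
      linarith only [g2, g3, hθF, e4]
    have g2 : L ≠ [] := by
      rintro rfl
      simp only [AEB.isz_nil, Nat.cast_zero] at g1
      have : 0 < θ / 2 * n := by positivity
      linarith only [g1, this]
    obtain ⟨q, hq, g3⟩ := AER.exists_big g2
    refine ⟨q, hq, ?_⟩
    have g4 : (isz L : ℝ) ≤ (b * b + 1) * (q.2.size + 1) := by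
      have g5 : (isz L : ℝ) ≤ L.length * (q.2.size + 1) := by exact_mod_cast g3
      have g6 : (L.length : ℝ) ≤ b * b + 1 := by exact_mod_cast (by omega : L.length ≤ b * b + 1)
      exact g5.trans (mul_le_mul_of_nonneg_right g6 (by positivity))
    have g7 : θ / (2 * (b * b + 1)) * (Y.card : ℝ) ≤ θ / (2 * (b * b + 1)) * n :=
      mul_le_mul_of_nonneg_left hYn (by positivity)
    refine g7.trans ?_
    have g8 : (0 : ℝ) < b * b + 1 := by positivity
    have g9 : θ / (2 * (b * b + 1)) * n = θ / 2 * n / (b * b + 1) := by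
      field_simp
    rw [g9, div_le_iff₀ g8]
    linarith only [g1, g4]
  have hPc : isz L + C₁ ≤ P.card := by
    have g1 : Y ⊆ P ∪ ((E ∪ insert v S) ∪ A) := by
      intro a ha
      rw [mem_union, mem_union, mem_union, hmP]
      tauto
    have g2 : Y.card ≤ P.card + ((E.card + (insert v S).card) + A.card) :=
      (card_le_card g1).trans ((card_union_le _ _).trans (Nat.add_le_add_left
        ((card_union_le _ _).trans (Nat.add_le_add_right (card_union_le _ _) _)) _))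
    rw [hSc, hAc] at g2
    omega
  obtain ⟨B, hBP, hEB⟩ := hfin P hPY hPE hQrP L (by omega) (by
      intro q hq
      obtain ⟨g1, g2⟩ := p6 q hq
      rw [hQx, mem_image] at g1
      obtain ⟨i, hi, h⟩ := g1
      exact ⟨⟨i, mem_range.1 hi, h.symm⟩, g2⟩) hheavy hPc
  have hmB : ∀ a ∈ B, a ∈ Y ∧ a ∉ E ∧ a ∉ insert v S ∧ a ∉ A := fun a ha => (hmP a).1 (hBP ha)
  have hZE : Z ⊆ E := by
    rw [hE]
    exact p2.trans (subset_insert _ _)
  have hZB : Disjoint Z B := by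
    rw [disjoint_left]
    exact fun a ha h => (hmB a h).2.1 (hZE ha)
  have hfE : f ∈ E := by rw [hE]; exact mem_insert_self _ _
  refine ⟨A, hAW.trans hW'Y, Z ∪ B, union_subset (hZE.trans hEY) (hBP.trans hPY), hEA, ?_, p1.complete hEB hZB, ?_, ?_, ?_⟩
  · rw [mem_union, not_or]
    exact ⟨fun h => hT.irr _ (p3 f h), fun h => (hmB f h).2.1 hfE⟩
  · rw [disjoint_left]
    exact fun a ha h => (hmA a h).2.2.2 ha
  · rw [disjoint_left]
    intro a ha h
    rw [mem_insert, mem_union] at h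
    rcases h with rfl | h | h
    · exact (hvE _ ha).1 hfE
    · exact (hvE a ha).1 (hZE h)
    · exact (hmB a h).2.2.1 ha
  · rw [disjoint_left]
    intro a ha h
    rw [mem_insert, mem_union] at h
    rcases h with rfl | h | h
    · exact (hmA _ ha).2.1 hfE
    · exact (hmA a ha).2.1 (hZE h)
    · exact (hmB a h).2.2.2 ha

end AESF
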