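import Pool.Agent.AESF.FE3
import Pool.Agent.AESF.PathC
import Pool.Agent.AEN.TameH

/-!
# Codes of thin branches: a main chain with small pendants
-/

set_option autoImplicit false

namespace AESF

open Finset AE15 AED AELT AEK AEJ AEW AEY AEN AET
open scoped Classical

/-- a main chain, which starts at the root, with pendants of at most `D` vertices at every vertex -/
def Thn (D : ℕ) : Fd → Prop
  | .nil => True
  | .node _ c s => s.size ≤ D ∧ Thn D c

theorem thn_small {D : ℕ} (F : Fd) : F.size ≤ D → Thn D F := by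
  induction F with
  | nil => intro _; trivial
  | node d c s ihc _ =>
    intro h
    simp only [Fd.size] at h
    exact ⟨by omega, ihc (by omega)⟩

theorem Thn.mrr {D : ℕ} {F : Fd} (h : Thn D F) : Thn D (mrr F) := by
  induction F with
  | nil => trivial
  | node d c s ihc _ => exact ⟨by rw [mrr_size]; exact h.1, ihc h.2⟩

/-- the forest at the first turn of the main chain, if the first run has the direction `d` -/
def rst (d : Bool) : Fd → Fd
  | .nil => .nil
  | .node e c s => if e = d then rst d c else .node e c s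

theorem rn_rst (d : Bool) (F : Fd) : rn d (rst d F) = 0 := by
  induction F with
  | nil => rfl
  | node e c s ihc _ =>
    simp only [rst]
    split_ifs with h
    · exact ihc
    · simp [rn, h]

theorem rst_eq {d : Bool} {F : Fd} (h : rn d F = 0) : rst d F = F := by
  cases F with
  | nil => rfl
  | node e c s =>
    simp only [rn] at h
    simp only [rst]
    split_ifs with h1
    · rw [if_pos h1] at h
      omega
    · rfl

theorem rst_size (d : Bool) (F : Fd) : (rst d F).size + rn d F ≤ F.size := by
  induction F with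
  | nil => simp [rst, rn, Fd.size]
  | node e c s ihc _ =>
    simp only [rst, rn, Fd.size]
    split_ifs with h
    · omega
    · simp only [Fd.size]
      omega

theorem rst_mrr (d : Bool) (F : Fd) : rst d (mrr F) = mrr (rst (!d) F) := by
  induction F with
  | nil => rfl
  | node e c s ihc _ =>
    simp only [rst, AEK.mrr, ihc]
    cases d <;> cases e <;> simp [AEK.mrr]

private theorem dcl_le_size (F : Fd) : dcl F ≤ F.size := by
  have := AEJ.dcl_add_blk_le F
  omega

private theorem blk_le_size (F : Fd) : AEB.blk F ≤ F.size := by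
  have := AEJ.dcl_add_blk_le F
  omega

theorem Thn.dcl_rst {D : ℕ} {F : Fd} (h : Thn D F) : dcl F + (rst true F).size ≤ F.size + D := by
  induction F with
  | nil => simp [AELT.dcl, rst, Fd.size]
  | node e c s ihc _ =>
    have h1 := dcl_le_size s
    have h2 := h.1
    have h3 := ihc h.2
    cases e with
    | true =>
      simp only [AELT.dcl, rst, Fd.size, if_true]
      omega
    | false =>
      simp only [AELT.dcl, rst, Fd.size, Bool.false_eq_true, if_false]
      omega

theorem Thn.dcl_small {D : ℕ} {F : Fd} (h : Thn D F) (h0 : rn true F = 0) : dcl F ≤ D := by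
  cases F with
  | nil => simp [AELT.dcl]
  | node e c s =>
    have h1 := dcl_le_size s
    have h2 := h.1
    cases e with
    | true => simp [rn] at h0
    | false =>
      simp only [AELT.dcl, Bool.false_eq_true, if_false]
      omega

theorem Thn.blk_small {D : ℕ} {F : Fd} (h : Thn D F) (h0 : rn false F = 0) : AEB.blk F ≤ D := by
  cases F with
  | nil => simp [AEB.blk]
  | node e c s =>
    have h1 := blk_le_size s
    have h2 := h.1
    cases e with
    | false => simp [rn] at h0
    | true =>
      simp only [AEB.blk, if_true]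
      omega

theorem Thn.blk_rst {D : ℕ} {F : Fd} (h : Thn D F) : AEB.blk F + (rst false F).size ≤ F.size + D := by
  have h1 := h.mrr.dcl_rst
  rw [AEJ.dcl_mrr, rst_mrr, mrr_size, mrr_size] at h1
  simpa using h1

/-! ### sorted thin codes -/

theorem sz_mrr {N : ℕ} {s : Fd} (h : ∀ q ∈ s.trees, q.2.size ≤ N) : ∀ q ∈ (mrr s).trees, q.2.size ≤ N := by
  induction s with
  | nil => simpa [AEK.mrr] using h
  | node d c s _ ihs =>
    intro q hq
    simp only [AEK.mrr, Fd.trees, List.mem_cons] at hq
    rcases hq with rfl | hq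
    · simp only [mrr_size]
      exact h (d, c) (by simp [Fd.trees])
    · exact ihs (fun q hq => h q (by simp only [Fd.trees, List.mem_cons]; exact Or.inr hq)) q hq

theorem Sd.mrr {e : Bool} {F : Fd} (h : Sd e F) : Sd e (mrr F) := by
  induction F generalizing e with
  | nil => trivial
  | node d c s ihc ihs =>
    refine ⟨ihc h.1, ihs h.2.1, fun he => ?_⟩
    rw [mrr_size]
    exact sz_mrr (h.2.2 he)

theorem inR_small {l : ℕ} (F : Fd) : ∀ {j : ℕ}, F.size + j ≤ l → AEB.InR l j F := by
  induction F with
  | nil => intro j _; trivial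
  | node d c s ihc ihs =>
    intro j h
    simp only [Fd.size] at h
    refine ⟨?_, ihs (by omega)⟩
    cases d with
    | true =>
      simp only [if_true]
      exact ihc (by omega)
    | false =>
      simp only [Bool.false_eq_true, if_false]
      exact ⟨by omega, ihc (by omega)⟩

/-- thin codes with the heavy child first -/
def TC (b D : ℕ) (F : Fd) : Prop := Thn D F ∧ Sd true F ∧ F.len ≤ b ∧ F.Deg b

variable {b D : ℕ}

theorem TC.mrr {F : Fd} (h : TC b D F) : TC b D (mrr F) :=
  ⟨h.1.mrr, h.2.1.mrr, by rw [mrr_len]; exact h.2.2.1, mrr_deg h.2.2.2⟩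

theorem TC.child {d : Bool} {c s : Fd} (h : TC b D (.node d c s)) : TC b D c :=
  ⟨h.1.2, h.2.1.1, h.2.2.2.1, h.2.2.2.2.1⟩

theorem TC.rst (d : Bool) {F : Fd} (h : TC b D F) : TC b D (rst d F) := by
  induction F with
  | nil => exact h
  | node e c s ihc _ =>
    simp only [AESF.rst]
    split_ifs
    · exact ihc h.child
    · exact h

/-- the branch before the first turn -/
theorem TC.turn (d : Bool) (F : Fd) : TC b D F → 1 ≤ rn d F → ∃ s : Fd, s.size ≤ D ∧ TC b D (.node d (AESF.rst d F) s) ∧
    (Fd.node d (AESF.rst d F) s = F ∨ ((Fd.node d (AESF.rst d F) s).size < F.size ∧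
      ∀ d0, ∃ m, AESK.PtT 0 (d0, F) (d, .node d (AESF.rst d F) s) m)) := by
  induction F with
  | nil => intro _ h; simp [rn] at h
  | node e c s ihc _ =>
    intro h h1
    have he : e = d := by
      by_contra he
      simp [rn, he] at h1
    subst he
    have h2 : AESF.rst e (.node e c s) = AESF.rst e c := by simp [AESF.rst]
    rw [h2]
    rcases Nat.eq_zero_or_pos (rn e c) with h0 | h0
    · rw [rst_eq h0]
      exact ⟨s, h.1.1, h, Or.inl rfl⟩
    · obtain ⟨t, g1, g2, g3⟩ := ihc h.child h0
      refine ⟨t, g1, g2, Or.inr ?_⟩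
      have h5 : ∀ d0, AESK.PtT 0 (d0, Fd.node e c s) (e, c) (0 + if e = d0 then 0 else 1) := fun d0 =>
        AESK.PtT.step _ _ _ AESK.PtT.refl (by simp [Fd.trees]) (Nat.zero_le _)
      rcases g3 with g3 | ⟨g3, g4⟩
      · rw [g3]
        exact ⟨by simp only [Fd.size]; omega, fun d0 => ⟨_, h5 d0⟩⟩
      · refine ⟨lt_of_lt_of_le g3 (by simp only [Fd.size]; omega), fun d0 => ?_⟩
        obtain ⟨m, hm⟩ := g4 e
        exact ⟨_, (h5 d0).trans hm⟩

theorem TC.tame {l K : ℕ} (hl : D ≤ l) {F : Fd} (h : TC b D F) : TameR b l K F := by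
  intro c c' h1 h2 t ht
  cases F with
  | nil => simp [Fd.hv] at h1
  | node d f s =>
    rw [hv_first (h.2.1.2.2 rfl)] at h1
    simp only [Option.some.injEq, Prod.mk.injEq] at h1
    obtain ⟨-, rfl⟩ := h1
    have h3 := h.child
    cases f with
    | nil => simp [Fd.hv] at h2
    | node d' f' s' =>
      rw [hv_first (h3.2.1.2.2 rfl)] at h2
      simp only [Option.some.injEq, Prod.mk.injEq] at h2
      obtain ⟨rfl, rfl⟩ := h2
      simp only [Fd.trees, List.mem_cons, Prod.mk.injEq] at ht
      rcases ht with ⟨-, rfl⟩ | ht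
      · exact Or.inl rfl
      · right
        have h4 := (Fd.deg_iff b s').1 h3.2.2.2.2.2 _ ht
        have h5 : t.size ≤ D := by
          have h6 : t.size < s'.size := AEB.size_lt_of_mem ht
          have h7 : s'.size ≤ D := h3.1.1
          omega
        exact fol_of_fok ⟨h4.1, h4.2, inR_small t (by omega)⟩ (h3.2.1.2.1.mem ht)

/-- **an exit inside of the first run** -/
theorem TC.inX {l K S : ℕ} {Q : Fd → Prop} (hl : D ≤ l) (hK : K * (D + 1) ≤ S + 2) (F : Fd) : TC b D F → S < F.size →
    (AESF.rst true F).size + D < S →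
    (∀ c, TC b D c → c.size ≤ S → S ≤ c.size + D → AESF.rst true c = AESF.rst true F → 1 ≤ rn true c → c.size < F.size → Q c) →
      InX l K Q (F.size + 1) 0 F := by
  induction F with
  | nil => intro _ h; simp [Fd.size] at h
  | node d c s ihc _ =>
    intro h h1 h2 hQ
    have hd : d = true := by
      by_contra hd
      have : d = false := by simpa using hd
      subst this
      simp only [AESF.rst, Bool.false_eq_true, if_false] at h2
      omega
    subst hd
    have hr : AESF.rst true (.node true c s) = AESF.rst true c := by simp [AESF.rst]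
    rw [hr] at h2 hQ
    have hs := h.1.1
    have hF : (Fd.node true c s).size = c.size + 1 + s.size := by
      simp only [Fd.size]
      omega
    refine ⟨?_, inL_of_inR s (inR_small s (by omega)) h.2.1.2.1, h.2.1.2.2 rfl⟩
    simp only [if_true]
    by_cases hc : c.size ≤ S
    · left
      have h3 : 1 ≤ rn true c := by
        by_contra h3
        have h4 := rst_eq (d := true) (F := c) (by omega)
        rw [h4] at h2
        omega
      refine ⟨hQ c h.child hc (by omega) rfl h3 (by omega), ?_⟩
      have h4 := h.child.1.blk_small (rn_zero h3)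
      calc K * (AEB.blk c + 1) ≤ K * (D + 1) := Nat.mul_le_mul_left _ (by omega)
        _ ≤ _ := by omega
    · right
      exact ihc h.child (by omega) h2 fun e g1 g2 g3 g4 g5 g6 => hQ e g1 g2 g3 g4 g5 (by omega)

/-! ### chains of branches -/

variable {l K M A' κ₀ : ℕ} {θ ε μ θ₁ : ℝ}

/-- **a line with a small rest behind its first run** -/
theorem TC.fx {W : Fd → Prop} {G : Fd} (hl : D ≤ l) (hκ : K * (D + 1) + D + 1 ≤ κ₀) (hθA : 8 * (A' + 1) * θ₁ ≤ 1)
    (hG : TC b D G) (hbig : 4 * (A' + 1) * (κ₀ + 1) ≤ G.size + 1)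
    (hρ : ((AESF.rst true G).size : ℝ) + 1 < θ₁ * (G.size + 1))
    (hW : ∀ c, TC b D c → c.size < G.size → AESF.rst true c = AESF.rst true G → 1 ≤ rn true c →
      c.size ≤ 2 * (AESF.rst true G).size + κ₀ → 2 * (AESF.rst true G).size + κ₀ ≤ c.size + D → W c) :
    FX b l K (fun c => W c ∧ A' * (c.size + 1) < G.size + 1) 0 G := by
  obtain ⟨ρ, hρd⟩ : ∃ ρ, ρ = (AESF.rst true G).size := ⟨_, rfl⟩
  rw [← hρd] at hρ hW
  have hA0 : (0 : ℝ) ≤ A' := Nat.cast_nonneg _
  have h5 : (0 : ℝ) ≤ (G.size : ℝ) + 1 := by positivity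
  have h6 : 8 * ((A' : ℝ) + 1) * (ρ + 1) ≤ G.size + 1 := by
    have e1 : ((A' : ℝ) + 1) * (ρ + 1) ≤ (A' + 1) * (θ₁ * (G.size + 1)) := mul_le_mul_of_nonneg_left hρ.le (by positivity)
    have e2 : 8 * ((A' : ℝ) + 1) * θ₁ * (G.size + 1) ≤ 1 * (G.size + 1) := mul_le_mul_of_nonneg_right hθA h5
    linarith only [e1, e2]
  have h6' : 8 * ((A' + 1) * (ρ + 1)) ≤ G.size + 1 := by
    have : (8 * ((A' + 1) * (ρ + 1)) : ℝ) ≤ G.size + 1 := by linarith only [h6]
    exact_mod_cast this
  have h7 : 4 * ((A' + 1) * (κ₀ + 1)) ≤ G.size + 1 := by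
    rw [← mul_assoc]
    exact hbig
  have h8 : ρ + 1 ≤ (A' + 1) * (ρ + 1) := Nat.le_mul_of_pos_left _ (by omega)
  have h9 : κ₀ + 1 ≤ (A' + 1) * (κ₀ + 1) := Nat.le_mul_of_pos_left _ (by omega)
  refine ⟨hG.2.2.1, hG.2.2.2, ?_⟩
  refine TC.inX (S := 2 * ρ + κ₀) hl (by omega) G hG (by omega) (by omega) ?_
  intro c hc h1 h2 h3 h4 hcG
  refine ⟨hW c hc hcG h3 h4 h1 h2, ?_⟩
  have e1 : A' * (c.size + 1) ≤ (A' + 1) * (2 * ρ + κ₀ + 1) := Nat.mul_le_mul (by omega) (by omega)
  have e2 : (A' + 1) * (2 * ρ + κ₀ + 1) + (A' + 1) = 2 * ((A' + 1) * (ρ + 1)) + (A' + 1) * κ₀ := by ring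
  have e3 : (A' + 1) * (κ₀ + 1) = (A' + 1) * κ₀ + (A' + 1) := by ring
  omega

/-- the exits are balanced, and have a large rest -/
theorem TC.exit {c : Fd} {ρ : ℕ} (h : TC b D c) (hκ : 4 * D ≤ κ₀) (hM : 3 * κ₀ + 1 ≤ M) (hθ : 0 < θ) (hθθ : 2 * θ ≤ θ₁)
    (hθ₁ : θ₁ ≤ 1 / 8) (h1 : c.size ≤ 2 * ρ + κ₀) (h2 : (AESF.rst true c).size = ρ) (h4 : 1 ≤ rn true c) :
    (c.size + 1 ≤ M ∨ θ * (c.size + 1) + dcl c + AEB.blk c ≤ c.size + 1) ∧
      (c.size + 1 ≤ M ∨ θ₁ * (c.size + 1) ≤ (AESF.rst true c).size + 1) := by
  rcases Nat.lt_or_ge ρ κ₀ with hρ | hρ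
  · exact ⟨Or.inl (by omega), Or.inl (by omega)⟩
  · have e1 : (c.size : ℝ) ≤ 2 * ρ + κ₀ := by exact_mod_cast h1
    have e2 : (κ₀ : ℝ) ≤ ρ := by exact_mod_cast hρ
    have e3 : (4 * D : ℝ) ≤ κ₀ := by exact_mod_cast hκ
    have e4 : (0 : ℝ) ≤ (c.size : ℝ) := Nat.cast_nonneg _
    have e5 : θ₁ * (c.size + 1) ≤ 1 / 8 * (c.size + 1) := mul_le_mul_of_nonneg_right hθ₁ (by positivity)
    have e6 : 2 * θ * (c.size + 1) ≤ θ₁ * (c.size + 1) := mul_le_mul_of_nonneg_right hθθ (by positivity)
    have e9 : (0 : ℝ) ≤ (ρ : ℝ) := Nat.cast_nonneg _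
    refine ⟨Or.inr ?_, Or.inr ?_⟩
    · have g1 := h.1.dcl_rst
      have g2 := h.1.blk_small (rn_zero h4)
      rw [h2] at g1
      have e7 : (dcl c : ℝ) + ρ ≤ c.size + D := by exact_mod_cast g1
      have e8 : (AEB.blk c : ℝ) ≤ D := by exact_mod_cast g2
      linarith only [hθ, hθθ, hθ₁, e1, e2, e3, e5, e6, e7, e8]
    · rw [h2]
      linarith only [hθ, hθθ, hθ₁, e1, e2, e5]

/-- **thin branches with a large rest behind the first run are chains of branches** -/
theorem bl_thin (hl : D ≤ l) (hκ : K * (D + 1) + 4 * D + 1 ≤ κ₀) (hθ : 0 < θ) (hθθ : 2 * θ ≤ θ₁) (hθA : 8 * (A' + 1) * θ₁ ≤ 1)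
    (hM : 3 * κ₀ + 1 ≤ M) (hM2 : (4 * (A' + 1) * (κ₀ + 1) + 16 * (D + 1) : ℝ) ≤ θ * (θ * M)) (m : ℕ) :
    ∀ F : Fd, F.size = m → TC b D F → ∀ n, F.size ≤ n →
      (F.size + 1 ≤ M ∨ ∃ d, 1 ≤ rn d F ∧ θ₁ * (F.size + 1) ≤ (AESF.rst d F).size + 1) →
      BlN θ ε μ M (Rgn b l K A' θ ε μ M n) (EndP θ ε M) F := by
  have hA0 : (0 : ℝ) ≤ A' := Nat.cast_nonneg _
  have hD0 : (0 : ℝ) ≤ D := Nat.cast_nonneg _
  have hκ0 : (0 : ℝ) ≤ κ₀ := Nat.cast_nonneg _
  have hθ₁ : 0 < θ₁ := by linarith only [hθ, hθθ]
  have hθ8 : θ₁ ≤ 1 / 8 := by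
    have : 8 * (0 + 1) * θ₁ ≤ 8 * (A' + 1) * θ₁ := by
      refine mul_le_mul_of_nonneg_right ?_ hθ₁.le
      linarith
    linarith only [hθA, this]
  induction m using Nat.strong_induction_on with
  | _ m ih =>
    intro F hm hF n hn hw
    by_cases hs : F.size + 1 ≤ M
    · exact BlN.small F hs
    obtain ⟨d, hd, hG1⟩ := hw.resolve_left hs
    obtain ⟨s, hs1, hq, hqF⟩ := hF.turn d F hd
    obtain ⟨G, hGd⟩ : ∃ G, G = AESF.rst d F := ⟨_, rfl⟩
    rw [← hGd] at hG1 hq hqF
    have hG : TC b D G := hq.child
    have hr0 : rn d G = 0 := by rw [hGd]; exact rn_rst d F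
    have hFM : (M : ℝ) ≤ F.size + 1 := by
      have : M ≤ F.size + 1 := by omega
      exact_mod_cast this
    have hGF : θ * M ≤ (G.size : ℝ) + 1 := by
      have e1 : θ * M ≤ θ * (F.size + 1) := mul_le_mul_of_nonneg_left hFM hθ.le
      have e2 : θ * (F.size + 1) ≤ θ₁ * (F.size + 1) := mul_le_mul_of_nonneg_right (by linarith only [hθ, hθθ]) (by positivity)
      linarith only [hG1, e1, e2]
    have hGθ : (4 * (A' + 1) * (κ₀ + 1) + 16 * (D + 1) : ℝ) ≤ θ * (G.size + 1) :=
      hM2.trans (mul_le_mul_of_nonneg_left hGF hθ.le)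
    have hGbig : (4 * (A' + 1) * (κ₀ + 1) + 16 * (D + 1) : ℝ) ≤ G.size + 1 := by
      have : θ * (G.size + 1) ≤ 1 * (G.size + 1) := mul_le_mul_of_nonneg_right (by linarith only [hθ, hθθ, hθ8]) (by positivity)
      linarith
    have hGbig' : 4 * (A' + 1) * (κ₀ + 1) ≤ G.size + 1 := by
      have : (4 * (A' + 1) * (κ₀ + 1) : ℝ) ≤ G.size + 1 := by linarith only [hθ, hθθ, hθ8, hGbig]
      exact_mod_cast this
    have hGD : (16 * (D + 1) : ℝ) ≤ G.size + 1 := by
      have : 0 ≤ (4 * (A' + 1) * (κ₀ + 1) : ℝ) := by positivity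
      linarith only [hGbig, this]
    have hqs : (Fd.node d G s).size = G.size + 1 + s.size := by
      simp only [Fd.size]
      omega
    have hqs' : ((Fd.node d G s).size : ℝ) = G.size + 1 + s.size := by exact_mod_cast hqs
    have hs1' : (s.size : ℝ) ≤ D := by exact_mod_cast hs1
    have hs0 : (0 : ℝ) ≤ (s.size : ℝ) := Nat.cast_nonneg _
    -- sums of the closures
    have hdb : ∀ H, TC b D H → rn d H = 0 → (dcl H : ℝ) + AEB.blk H + (AESF.rst (!d) H).size ≤ H.size + 2 * D := by
      intro H hH h1
      cases d with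
      | true =>
        have e1 := hH.1.dcl_small h1
        have e2 := hH.1.blk_rst
        have e3 : dcl H + AEB.blk H + (AESF.rst false H).size ≤ H.size + 2 * D := by omega
        exact_mod_cast e3
      | false =>
        have e1 := hH.1.blk_small h1
        have e2 := hH.1.dcl_rst
        have e3 : dcl H + AEB.blk H + (AESF.rst true H).size ≤ H.size + 2 * D := by omega
        exact_mod_cast e3
    have hqb : (dcl (.node d G s) : ℝ) + AEB.blk (.node d G s) ≤ 2 * D + 1 := by
      have e1 := AEJ.dcl_add_blk_le s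
      have e2 : dcl (.node d G s) + AEB.blk (.node d G s) ≤ 2 * D + 1 := by
        cases d with
        | true =>
          have e3 := hG.1.dcl_small hr0
          simp only [AELT.dcl, AEB.blk, if_true]
          omega
        | false =>
          have e3 := hG.1.blk_small hr0
          simp only [AELT.dcl, AEB.blk, Bool.false_eq_true, if_false]
          omega
      exact_mod_cast e2
    have hθq : θ * ((Fd.node d G s).size + 1) ≤ 1 / 16 * ((Fd.node d G s).size + 1) :=
      mul_le_mul_of_nonneg_right (by linarith only [hθθ, hθ8]) (by (clear * -; positivity))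
    -- the branch before the turn
    have hB : BlN θ ε μ M (Rgn b l K A' θ ε μ M n) (EndP θ ε M) (.node d G s) := by
      have hθG : θ * (G.size + 1) ≤ 1 / 16 * (G.size + 1) := mul_le_mul_of_nonneg_right (by linarith only [hθθ, hθ8]) (by positivity)
      by_cases hG2 : θ₁ * (G.size + 1) ≤ (AESF.rst (!d) G).size + 1
      · -- a large rest behind the run after the turn
        have hGne : 1 ≤ rn (!d) G := by
          by_contra h0
          cases G with
          | nil =>
            simp only [Fd.size] at hGD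
            push_cast at hGD
            linarith only [hθ, hθθ, hθ8, hGD]
          | node e c t =>
            simp only [rn] at h0 hr0
            cases d <;> cases e <;> simp_all
        refine BlN.step _ true (d, G) _ (AESK.PtT.step (true, Fd.node d G s) (d, G) 0 AESK.PtT.refl (by simp [Fd.trees])
          (Nat.zero_le _)) (by simp only; omega) (by simp only; linarith only [hθ, hθθ, hθ8, hGD, hqs', hs1', hθq]) ?_ ?_
        · simp only
          have e1 := hdb G hG hr0
          have e2 : 2 * θ * (G.size + 1) ≤ θ₁ * (G.size + 1) := mul_le_mul_of_nonneg_right hθθ (by positivity)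
          have e3 : 0 ≤ (4 * (A' + 1) * (κ₀ + 1) : ℝ) := by positivity
          linarith only [hθ, hθθ, hθ8, hGθ, hG2, e1, e2, e3]
        · exact ih G.size (by
            rcases hqF with h | ⟨h, -⟩
            · rw [← h] at hm
              omega
            · omega) G rfl hG n (by
            rcases hqF with h | ⟨h, -⟩
            · rw [← h] at hn
              omega
            · omega) (Or.inr ⟨!d, hGne, hG2⟩)
      · -- a line which starts with a turn
        push Not at hG2
        obtain ⟨n', rfl⟩ : ∃ n', n = n' + 1 := ⟨n - 1, by omega⟩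
        have hGn : G.size ≤ n' := by
          rcases hqF with h | ⟨h, -⟩
          · rw [← h] at hn
            omega
          · omega
        have hGm : G.size < m := by
          rcases hqF with h | ⟨h, -⟩
          · rw [← h] at hm
            omega
          · omega
        have hsG : ∀ x : ℕ, x ≤ D → θ * ((Fd.node d G s).size + 1) ≤ ((G.size - x : ℕ) : ℝ) + 1 := by
          intro x hx
          have e1 : G.size ≤ (G.size - x) + D := by omega
          have e2 : (G.size : ℝ) ≤ ((G.size - x : ℕ) : ℝ) + D := by exact_mod_cast e1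
          rw [hqs'] at hθq ⊢
          linarith only [hθ, hθθ, hθ8, hGD, hs1', hθq, e2]
        cases d with
        | false =>
          simp only [Bool.not_false] at hG2
          have e1 := hG.1.blk_small hr0
          refine BlN.rig _ (false, G) (G.size - AEB.blk G) (by simp [Fd.trees]) (Or.inl ⟨rfl, ?_, hG.tame hl, ?_⟩) (hsG _ e1)
          · refine hG.fx hl (by omega) hθA hGbig' hG2 ?_
            intro c hc h1 h2 h3 h4 h5
            have h1' : c.size < G.size := h1
            obtain ⟨g1, g2⟩ := hc.exit (by omega) hM hθ hθθ hθ8 h4 (by rw [h2]) h3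
            exact ⟨g1, ih c.size (by omega) c rfl hc n' (by omega) (g2.imp_right fun g2 => ⟨true, h3, g2⟩)⟩
          · have := blk_le_size G
            simp only
            omega
        | true =>
          simp only [Bool.not_true] at hG2
          have e1 := hG.1.dcl_small hr0
          have hsz : (mrr G).size = G.size := mrr_size G
          have hG2' : ((AESF.rst true (mrr G)).size : ℝ) + 1 < θ₁ * ((mrr G).size + 1) := by
            rw [rst_mrr, mrr_size, mrr_size]
            exact hG2
          refine BlN.rig _ (true, G) (G.size - dcl G) (by simp [Fd.trees]) (Or.inr ⟨rfl, ?_, hG.mrr.tame hl, ?_⟩) (hsG _ e1)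
          · have h0 := hG.mrr.fx (K := K) (κ₀ := κ₀) (W := fun c => Wc θ ε μ M (Rgn b l K A' θ ε μ M n') (mrr c)) hl (by omega) hθA
              (by rw [hsz]; exact hGbig') hG2' ?_
            · rw [hsz] at h0
              exact h0
            · intro c hc h1 h2 h3 h4 h5
              have h1' : c.size < G.size := by
                rw [← hsz]
                exact h1
              obtain ⟨g1, g2⟩ := hc.exit (by omega) hM hθ hθθ hθ8 h4 (by rw [h2]) h3
              refine ⟨?_, ih c.size (by omega) (mrr c) (mrr_size c) hc.mrr n' (by rw [mrr_size]; omega) ?_⟩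
              · rw [mrr_size, AEJ.dcl_mrr, AEJ.blk_mrr]
                refine g1.imp_right fun g1 => ?_
                linarith only [g1]
              · rw [mrr_size]
                refine g2.imp_right fun g2 => ⟨false, ?_, ?_⟩
                · rw [rn_mrr]
                  exact h3
                · rw [rst_mrr, mrr_size]
                  exact g2
          · have := dcl_le_size G
            simp only
            omega
    rcases hqF with h | ⟨h1, h2⟩
    · rw [← h]
      exact hB
    · obtain ⟨m', hm'⟩ := h2 true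
      refine BlN.step F true (d, Fd.node d G s) m' hm' h1 ?_ ?_ hB
      · simp only
        rw [hqs']
        have e2 : θ * (F.size + 1) ≤ θ₁ * (F.size + 1) := mul_le_mul_of_nonneg_right (by linarith only [hθ, hθθ]) (by positivity)
        linarith only [hθ, hθθ, hθ8, hG1, e2]
      · simp only
        rw [hqs'] at hθq ⊢
        linarith only [hθ, hθθ, hθ8, hGD, hqb, hθq]

/-! ### thin codes in any order -/

/-- a main chain, which starts at the root, with pendants of at most `D` vertices at every vertex; the order of the trees is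
arbitrary -/
inductive TH (D : ℕ) : Fd → Prop
  | nil : TH D .nil
  | step (F : Fd) (p : Bool × Fd) : p ∈ F.trees → F.size ≤ p.2.size + 1 + D → TH D p.2 → TH D F

theorem th_small {D : ℕ} (F : Fd) : F.size ≤ D → TH D F := by
  induction F with
  | nil => intro _; exact TH.nil
  | node d c s ihc _ =>
    intro h
    simp only [Fd.size] at h
    exact TH.step _ (d, c) (by simp [Fd.trees]) (by simp only [Fd.size]; omega) (ihc (by omega))

theorem TH.srt {D : ℕ} {F : Fd} (h : TH D F) : TH D (srt F) := by
  induction h with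
  | nil => exact TH.nil
  | step F p hp hs _ ih =>
    have h1 : (p.1, AESF.srt p.2) ∈ (AESF.srt F).trees :=
      (srt_perm F).mem_iff.2 (List.mem_map.2 ⟨p, hp, rfl⟩)
    refine TH.step _ _ h1 ?_ ih
    simp only
    rw [(srt_eqt F).size, (srt_eqt p.2).size]
    exact hs

theorem sz_two {F : Fd} {d : Bool} {c s : Fd} (hF : F = .node d c s) {p : Bool × Fd} (hp : p ∈ s.trees) :
    c.size + 1 + (p.2.size + 1) ≤ F.size := by
  have := AEB.size_lt_of_mem hp
  rw [hF]
  simp only [Fd.size]
  omega

theorem TH.thn {D : ℕ} {F : Fd} (h : TH D F) (hs : Sd true F) : Thn D F := by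
  induction h with
  | nil => trivial
  | step F p hp hsz _ ih =>
    cases F with
    | nil => trivial
    | node d c s =>
      simp only [Fd.trees, List.mem_cons] at hp
      simp only [Fd.size] at hsz
      rcases hp with rfl | hp
      · exact ⟨by simp only at hsz; omega, ih hs.1⟩
      · have h1 := hs.2.2 rfl p hp
        have h2 := AEB.size_lt_of_mem hp
        exact ⟨by omega, thn_small c (by omega)⟩

end AESF
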